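import Pool.Agent.Helper61.IE.Fin

/-!
# Property (T) for factors and groups, in short definitions
-/

namespace Helper61.IE

section Defs

variable {G : Type} [Group G] {H : Type} [NormedAddCommGroup H] [InnerProductSpace ℂ H]

/-- `α` is a unitary representation of `G` on `H`. -/
structure URep (α : G → H → H) : Prop where
  one : ∀ ξ, α 1 ξ = ξ
  mul : ∀ g h ξ, α (g * h) ξ = α g (α h ξ)
  add : ∀ g ξ η, α g (ξ + η) = α g ξ + α g η
  smul : ∀ g (c : ℂ) ξ, α g (c • ξ) = c • α g ξ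
  norm : ∀ g ξ, ‖α g ξ‖ = ‖ξ‖

/-- The vector `ξ` is bounded for the unitary representation `α` with respect to the character
`χ`: the coefficient of `ξ` is dominated by a multiple of `χ` as a positive definite function. -/
def ChiBd (χ : G → ℂ) (α : G → H → H) (ξ : H) : Prop :=
  ∃ C : ℝ, ∀ (m : ℕ) (a : Fin m → ℂ) (x : Fin m → G),
    ‖∑ i, a i • α (x i) ξ‖ ^ 2 ≤
      C * (∑ i, ∑ k, star (a i) * a k * χ ((x i)⁻¹ * x k)).re

/-- On the orthogonal complement of the fixed vectors of `γ`, `c ‖ξ‖²` is at most the sum over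
`s ∈ S` of `‖γ_s ξ - ξ‖²`. -/
def SpecGap (γ : G → H → H) (S : Finset G) (c : ℝ) : Prop :=
  ∀ ξ : H, (∀ η : H, (∀ g, γ g η = η) → inner ℂ η ξ = 0) →
    c * ‖ξ‖ ^ 2 ≤ ∑ s ∈ S, ‖γ s ξ - ξ‖ ^ 2

end Defs

/-- Property (T) of the factor `N = π_χ(G)''` in terms of the group `G` of unitaries generating
it.  A Hilbert `N`-`N`-bimodule is a pair of commuting unitary representations `α` (left
multiplication by `u_g`) and `β` (right multiplication by `u_g⁻¹`) of `G` that extend normally to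
`N` and its opposite algebra, that is, whose `χ`-bounded (`conj χ`-bounded) vectors are dense. -/
def BimodT {G : Type} [Group G] (χ : G → ℂ) : Prop :=
  ∃ (S : Finset G) (c : ℝ), 0 < c ∧
    ∀ (H : Type) [NormedAddCommGroup H] [InnerProductSpace ℂ H] [CompleteSpace H]
      (α β : G → H → H), URep α → URep β → (∀ g h ξ, α g (β h ξ) = β h (α g ξ)) →
      Dense {ξ | ChiBd χ α ξ} → Dense {ξ | ChiBd (fun g => star (χ g)) β ξ} →
      SpecGap (fun g ξ => α g (β g ξ)) S c

/-- Kazhdan's property (T) for a discrete group. -/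
def GroupT (G : Type) [Group G] : Prop :=
  ∃ (S : Finset G) (c : ℝ), 0 < c ∧
    ∀ (H : Type) [NormedAddCommGroup H] [InnerProductSpace ℂ H] [CompleteSpace H]
      (π : G → H → H), URep π → SpecGap π S c

theorem urep_hom {G : Type} [Group G] {H : Type} [NormedAddCommGroup H] [InnerProductSpace ℂ H]
    (α : G →* (H →L[ℂ] H)) (h : ∀ g ξ, ‖α g ξ‖ = ‖ξ‖) : URep (fun g ξ => α g ξ) where
  one ξ := by simp
  mul g h ξ := by simp
  add g ξ η := by simp
  smul g c ξ := by simp
  norm := h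

theorem BimodT.factorT {G : Type} [Group G] {χ : G → ℂ} (h : BimodT χ) : FactorT χ := by
  obtain ⟨S, c, hc, h⟩ := h
  refine ⟨S, c, hc, ?_⟩
  intro H _ _ _ α β hα hβ hab h1 h2 ξ hξ
  exact h H (fun g ξ => α g ξ) (fun g ξ => β g ξ) (urep_hom α hα) (urep_hom β hβ) hab h1 h2 ξ hξ

theorem GroupT.factorT {G : Type} [Group G] (h : GroupT G) (χ : G → ℂ) : FactorT χ := by
  obtain ⟨S, c, hc, h⟩ := h
  refine KazhdanT.factorT ⟨S, c, hc, ?_⟩ χ
  intro H _ _ _ π hπ ξ hξ
  exact h H (fun g ξ => π g ξ) (urep_hom π hπ) ξ hξ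

end Helper61.IE
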