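import Pool.Agent.Helper61.IE.St
import Pool.Agent.Helper51.MU.Stmt

/-!
# Definitions used in the final statement
-/

namespace Helper61.IE

open Helper51.MU Filter Topology
open scoped Matrix.Norms.L2Operator MatrixOrder ComplexOrder

/-- The conclusion for a character `χ` of a group `G`: the tracial von Neumann algebra
`N = π_χ(G)''` embeds with trivial relative commutant into `∏_U M_{k n}` for suitable `k n ≥ n`
(the same for all nonprincipal `U`), and into `∏_U M_n` for all nonprincipal `U` containing a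
suitable infinite set `D`. -/
def HasIrr {G : Type} [Group G] (χ : G → ℂ) : Prop :=
  (∃ k : ℕ → ℕ, (∀ n, n ≤ k n) ∧ ∀ U : Ultrafilter ℕ, Nonprincipal U →
    IrredHom (fun n => Fin (k n)) χ U) ∧
  ∃ D : Set ℕ, D.Infinite ∧ ∀ U : Ultrafilter ℕ, Nonprincipal U → D ∈ U →
    IrredHom (fun n => Fin n) χ U

/-- The vector `ξ` is bounded for the unitary representation `α` with respect to the character
`χ`: the coefficient of `ξ` is dominated by a multiple of `χ` as a positive definite function. -/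
def ChiBounded {G : Type} [Group G] {H : Type} [NormedAddCommGroup H] [InnerProductSpace ℂ H]
    (χ : G → ℂ) (α : G →* (H →L[ℂ] H)) (ξ : H) : Prop :=
  ∃ C : ℝ, ∀ (m : ℕ) (a : Fin m → ℂ) (x : Fin m → G),
    ‖∑ i, a i • α (x i) ξ‖ ^ 2 ≤
      C * (∑ i, ∑ k, star (a i) * a k * χ ((x i)⁻¹ * x k)).re

/-- Property (T) of the factor `N = π_χ(G)''` in terms of the group `G` of unitaries generating
it.  A Hilbert `N`-`N`-bimodule is a pair of commuting unitary representations `α` (left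
multiplication by `u_g`) and `β` (right multiplication by `u_g⁻¹`) of `G` that extend normally to
`N` and its opposite algebra, that is, whose `χ`-bounded (`conj χ`-bounded) vectors are dense. -/
def FactorT {G : Type} [Group G] (χ : G → ℂ) : Prop :=
  ∃ (S : Finset G) (c : ℝ), 0 < c ∧
    ∀ (H : Type) [NormedAddCommGroup H] [InnerProductSpace ℂ H] [CompleteSpace H]
      (α β : G →* (H →L[ℂ] H)), (∀ g ξ, ‖α g ξ‖ = ‖ξ‖) → (∀ g ξ, ‖β g ξ‖ = ‖ξ‖) →
      (∀ g h ξ, α g (β h ξ) = β h (α g ξ)) →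
      Dense {ξ | ChiBounded χ α ξ} → Dense {ξ | ChiBounded (fun g => star (χ g)) β ξ} →
      ∀ ξ : H, (∀ η : H, (∀ g, α g (β g η) = η) → inner ℂ η ξ = 0) →
        c * ‖ξ‖ ^ 2 ≤ ∑ s ∈ S, ‖α s (β s ξ) - ξ‖ ^ 2

/-- Kazhdan's property (T) for a discrete group. -/
def KazhdanT (G : Type) [Group G] : Prop :=
  ∃ (S : Finset G) (c : ℝ), 0 < c ∧
    ∀ (H : Type) [NormedAddCommGroup H] [InnerProductSpace ℂ H] [CompleteSpace H]
      (π : G →* (H →L[ℂ] H)), (∀ g ξ, ‖π g ξ‖ = ‖ξ‖) →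
      ∀ ξ : H, (∀ η : H, (∀ g, π g η = η) → inner ℂ η ξ = 0) →
        c * ‖ξ‖ ^ 2 ≤ ∑ s ∈ S, ‖π s ξ - ξ‖ ^ 2

/-- The squared 2-norm on the ultraproduct. -/
noncomputable def nrm {ι : ℕ → Type} [∀ n, Fintype (ι n)] [∀ n, DecidableEq (ι n)]
    {V : Ultrafilter ℕ} (a : MUlt ι V) : ℝ := (tr (star a * a)).re

/-- w-spectral gap of the relative commutant of `u(G)` in the matrix ultraproduct. -/
def WGap {ι : ℕ → Type} [∀ n, Fintype (ι n)] [∀ n, DecidableEq (ι n)]
    {V : Ultrafilter ℕ} {G : Type} [Group G] (u : G →* MUlt ι V) : Prop :=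
  ∀ δ : ℝ, 0 < δ → ∃ (S : Finset G) (K : ℝ), ∀ x : BSeq ι, (∀ n, ‖x.1 n‖ ≤ 1) →
    ∃ z : MUlt ι V, (∀ g, z * u g = u g * z) ∧
      nrm (mkM V x - z) ≤ K * ∑ s ∈ S, nrm (u s * mkM V x - mkM V x * u s) + δ

lemma np_le_atTop {U : Ultrafilter ℕ} (h : Nonprincipal U) : (U : Filter ℕ) ≤ atTop := by
  rw [← Nat.cofinite_eq_atTop]
  intro s hs
  rw [Filter.mem_cofinite] at hs
  have := h _ hs
  rwa [compl_compl] at this

lemma exists_nonprincipal : ∃ U : Ultrafilter ℕ, Nonprincipal U :=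
  ⟨hyperfilter ℕ, fun s hs => hs.compl_mem_hyperfilter⟩

end Helper61.IE
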