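import Pool.Agent.Helper61.IE.St2

/-!
# Module Lift (helper95)
-/

namespace Helper61.IE

open Helper51.MU Filter Topology
open scoped Matrix.Norms.L2Operator MatrixOrder ComplexOrder

section

variable {n : Type} [Fintype n] [DecidableEq n]

omit [DecidableEq n] in
private lemma eq_zero_of_hs {x : Matrix n n ℂ} (h : hs x = 0) : x = 0 := by
  unfold hs at h
  rw [Finset.sum_eq_zero_iff_of_nonneg
    (fun i _ => Finset.sum_nonneg fun j _ => by positivity)] at h
  ext i j
  have h1 := h i (Finset.mem_univ i)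
  rw [Finset.sum_eq_zero_iff_of_nonneg (fun j _ => by positivity)] at h1
  have h2 := h1 j (Finset.mem_univ j)
  rw [Matrix.zero_apply]
  exact norm_eq_zero.1 (pow_eq_zero_iff (two_ne_zero)|>.1 h2)

omit [DecidableEq n] in
private lemma continuous_hs : Continuous (fun x : Matrix n n ℂ => hs x) := by
  unfold hs
  refine continuous_finsetSum _ fun i _ => continuous_finsetSum _ fun j _ => ?_
  exact ((continuous_apply_apply i j).norm).pow 2

/-- polar decomposition of an invertible matrix -/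
private lemma polar_inv (x : Matrix n n ℂ) (hx : x.det ≠ 0) :
    ∃ w : Matrix n n ℂ, w.conjTranspose * w = 1 ∧ hs (x - w) ≤ hs (x.conjTranspose * x - 1) := by
  obtain ⟨B, hB, hBB⟩ := exists_sqrt (nonneg_star_mul x)
  have hBh := herm_of_nonneg hB
  have hdet : IsUnit B.det := by
    rw [isUnit_iff_ne_zero]
    intro h0
    have h1 := congrArg Matrix.det hBB
    rw [Matrix.det_mul, h0, zero_mul, Matrix.det_mul, Matrix.det_conjTranspose] at h1
    exact mul_ne_zero (star_ne_zero.2 hx) hx h1.symm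
  have hBi : B * B⁻¹ = 1 := Matrix.mul_nonsing_inv _ hdet
  have hiB : B⁻¹ * B = 1 := Matrix.nonsing_inv_mul _ hdet
  have hBih : (B⁻¹).conjTranspose = B⁻¹ := by
    rw [Matrix.conjTranspose_nonsing_inv, hBh]
  have hw : (x * B⁻¹).conjTranspose * (x * B⁻¹) = 1 := by
    rw [Matrix.conjTranspose_mul, hBih]
    calc B⁻¹ * x.conjTranspose * (x * B⁻¹) = B⁻¹ * (x.conjTranspose * x) * B⁻¹ := by noncomm_ring
      _ = (B⁻¹ * B) * (B * B⁻¹) := by rw [← hBB]; noncomm_ring
      _ = 1 := by rw [hiB, hBi, one_mul]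
  refine ⟨x * B⁻¹, hw, ?_⟩
  have h1 : x - x * B⁻¹ = (x * B⁻¹) * (B - 1) := by
    rw [mul_sub, mul_one, mul_assoc, hiB, mul_one]
  rw [h1, hs_unit_mul hw, ← hBB]
  have h2 : B * B - 1 = (1 + B) * (B - 1) := by noncomm_ring
  rw [h2, hs_eq_rt, hs_eq_rt, Matrix.conjTranspose_mul]
  have h3 : (1 : Matrix n n ℂ) ≤ (1 + B).conjTranspose * (1 + B) := by
    have h4 : (1 + B).conjTranspose * (1 + B) = 1 + (B + (B + B.conjTranspose * B)) := by
      rw [Matrix.conjTranspose_add, Matrix.conjTranspose_one, hBh]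
      noncomm_ring
    rw [h4]
    exact le_add_of_nonneg_right (add_nonneg hB (add_nonneg hB (nonneg_star_mul B)))
  have h5 := conj_mono' h3 (B - 1)
  rw [mul_one] at h5
  have h6 := rt_mono h5
  have h7 : (B - 1).conjTranspose * ((1 + B).conjTranspose * (1 + B)) * (B - 1) =
      (B - 1).conjTranspose * (1 + B).conjTranspose * ((1 + B) * (B - 1)) := by noncomm_ring
  rwa [h7] at h6

/-- almost unitary matrices are close to unitary matrices -/
private lemma polar_near (x : Matrix n n ℂ) :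
    ∃ w : Matrix n n ℂ, w.conjTranspose * w = 1 ∧
      hs (x - w) ≤ 3 * hs (x.conjTranspose * x - 1) := by
  rcases (hs_nonneg (x.conjTranspose * x - 1)).eq_or_lt with h0 | h0
  · refine ⟨x, sub_eq_zero.1 (eq_zero_of_hs h0.symm), ?_⟩
    rw [sub_self, hs_zero, ← h0, mul_zero]
  -- perturbation
  have hfin : {t : ℝ | (x + (t : ℂ) • (1 : Matrix n n ℂ)).det = 0}.Finite := by
    have h1 : {t : ℝ | (x + (t : ℂ) • (1 : Matrix n n ℂ)).det = 0} ⊆
        (fun t : ℝ => (t : ℂ)) ⁻¹' {z : ℂ | (-x).charpoly.IsRoot z} := by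
      intro t ht
      show (-x).charpoly.eval (t : ℂ) = 0
      rw [Matrix.eval_charpoly, sub_neg_eq_add, add_comm]
      have h2 : (Matrix.scalar n) (t : ℂ) = (t : ℂ) • (1 : Matrix n n ℂ) := by
        rw [Matrix.scalar_apply, Matrix.smul_one_eq_diagonal]
      rw [h2]
      exact ht
    refine Set.Finite.subset (Set.Finite.preimage (Complex.ofReal_injective.injOn) ?_) h1
    exact Polynomial.finite_setOf_isRoot (Matrix.charpoly_monic _).ne_zero
  set f : ℝ → ℝ := fun t => 2 * hs (x - (x + (t : ℂ) • (1 : Matrix n n ℂ))) +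
    2 * hs ((x + (t : ℂ) • (1 : Matrix n n ℂ)).conjTranspose *
      (x + (t : ℂ) • (1 : Matrix n n ℂ)) - 1) with hf
  have hcx : Continuous fun t : ℝ => x + (t : ℂ) • (1 : Matrix n n ℂ) :=
    continuous_const.add (Complex.continuous_ofReal.smul continuous_const)
  have hcont : Continuous f := by
    exact (continuous_const.mul (continuous_hs.comp (continuous_const.sub hcx))).add
      (continuous_const.mul
        (continuous_hs.comp ((hcx.matrix_conjTranspose.matrix_mul hcx).sub continuous_const)))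
  have hf0 : f 0 < 3 * hs (x.conjTranspose * x - 1) := by
    simp only [hf, Complex.ofReal_zero, zero_smul, add_zero, sub_self, hs_zero]
    linarith
  have hnear : ∀ᶠ t in 𝓝 (0 : ℝ), f t < 3 * hs (x.conjTranspose * x - 1) :=
    hcont.continuousAt.eventually_lt_const hf0
  obtain ⟨δ, hδ, hball⟩ := Metric.eventually_nhds_iff.1 hnear
  obtain ⟨t, ht, htn⟩ := (Set.Ioo_infinite hδ).exists_notMem_finite hfin
  obtain ⟨w, hw, hle⟩ := polar_inv (x + (t : ℂ) • (1 : Matrix n n ℂ)) htn
  refine ⟨w, hw, ?_⟩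
  have h1 := hball (y := t) (by rw [Real.dist_eq, sub_zero, abs_of_pos ht.1]; exact ht.2)
  have h2 : x - w = (x - (x + (t : ℂ) • (1 : Matrix n n ℂ))) +
      ((x + (t : ℂ) • (1 : Matrix n n ℂ)) - w) := by abel
  rw [h2]
  refine (hs_add_le _ _).trans (le_trans ?_ h1.le)
  simp only [hf]
  linarith

private lemma polar_nn (x : Matrix n n ℂ) :
    ∃ w : Matrix n n ℂ, w.conjTranspose * w = 1 ∧
      nn (x - w) ≤ 3 * nn (x.conjTranspose * x - 1) := by
  obtain ⟨w, hw, h⟩ := polar_near x
  refine ⟨w, hw, ?_⟩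
  unfold nn
  rw [← mul_div_assoc]
  exact div_le_div_of_nonneg_right h (by positivity)

end

theorem pLift : StLift := by
  intro G _ χ l V u hu htr
  choose y hy using fun g => mkM_surjective (U := V) (u g)
  choose π hπ hclose using fun (n : ℕ) (g : G) => polar_nn ((y g).1 n)
  have hn : ∀ n g, ‖π n g‖ ≤ 1 := fun n g => norm_unit_le (hπ n g)
  obtain ⟨x, hxv⟩ : ∃ x : G → BSeq (fun n => Fin (l n)), ∀ n g, (x g).1 n = π n g :=
    ⟨fun g => ⟨fun n => π n g, 1, fun n => hn n g⟩, fun n g => rfl⟩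
  have hx : ∀ g, mkM V (x g) = u g := by
    intro g
    rw [← hy g]
    symm
    rw [mk_eq_mk]
    have h1 : Tendsto (fun n => nn (((y g).1 n).conjTranspose * (y g).1 n - 1)) V (𝓝 0) := by
      have h2 := hu g
      rw [← hy g, star_mk, ← map_mul, ← map_one (mkM V), mk_eq_mk] at h2
      exact h2
    have h3 := h1.const_mul 3
    rw [mul_zero] at h3
    refine squeeze_zero (fun n => nn_nonneg _) (fun n => ?_) h3
    rw [hxv]
    exact hclose n g
  refine ⟨π, x, hπ, hxv, hx, ⟨hn, ?_, ?_, ?_⟩⟩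
  · intro g h
    have h1 : mkM V (x g * x h) = mkM V (x (g * h)) := by
      rw [map_mul, hx, hx, hx, map_mul]
    refine Tendsto.congr (fun n => ?_) (mk_eq_mk.1 h1)
    have h2 : (x g * x h).1 n = (x g).1 n * (x h).1 n := rfl
    rw [h2, hxv, hxv, hxv]
  · intro g
    have h1 : ∀ n, nn ((π n g).conjTranspose * π n g - 1) = 0 := by
      intro n
      rw [hπ n g, sub_self]
      simp [nn, hs]
    simp only [h1]
    exact tendsto_const_nhds
  · intro g
    have h1 := tendsto_ntr (U := V) (x g)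
    rw [← tr_mk, hx, htr] at h1
    refine Tendsto.congr (fun n => ?_) h1
    rw [hxv]

end Helper61.IE
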