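import Pool.Agent.Helper61.IE.St2

/-!
# Module Diag
-/

namespace Helper61.IE

open Helper51.MU Filter Topology

theorem pDiag : StDiag := by
  classical
  intro U hU A hA
  refine ⟨fun j => Nat.findGreatest (fun m => A m j) j, ?_, ?_⟩
  · rw [tendsto_atTop]
    intro M
    have h1 : ∀ᶠ j in (U : Filter ℕ), M ≤ j := np_le_atTop hU (eventually_ge_atTop M)
    filter_upwards [hA M, h1] with j h2 h3
    exact Nat.le_findGreatest h3 h2
  · filter_upwards [hA 0] with j h2
    exact Nat.findGreatest_spec (P := fun m => A m j) (Nat.zero_le j) h2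

end Helper61.IE
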