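import Pool.Agent.Helper61.IE.Defs

/-!
# Basic matrix inequalities
-/

set_option linter.unusedSectionVars false

namespace Helper61.IE

open Helper51.MU
open scoped Matrix.Norms.L2Operator MatrixOrder ComplexOrder

variable {n : Type} [Fintype n] [DecidableEq n] {ι : Type}

omit [Fintype n] [DecidableEq n] in
lemma psd {A : Matrix n n ℂ} (hA : 0 ≤ A) : A.PosSemidef := Matrix.nonneg_iff_posSemidef.1 hA

/-! ## the real trace -/

section rt
omit [DecidableEq n]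

lemma rt_add (A B : Matrix n n ℂ) : rt (A + B) = rt A + rt B := by simp [rt]

lemma rt_sub (A B : Matrix n n ℂ) : rt (A - B) = rt A - rt B := by simp [rt]

lemma rt_neg (A : Matrix n n ℂ) : rt (-A) = -rt A := by simp [rt]

lemma rt_zero : rt (0 : Matrix n n ℂ) = 0 := by simp [rt]

lemma rt_smul (c : ℝ) (A : Matrix n n ℂ) : rt (c • A) = c * rt A := by simp [rt]

lemma rt_sum {κ : Type} (s : Finset κ) (f : κ → Matrix n n ℂ) :
    rt (∑ i ∈ s, f i) = ∑ i ∈ s, rt (f i) := by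
  simp [rt, Matrix.trace_sum]

lemma rt_mul_comm (A B : Matrix n n ℂ) : rt (A * B) = rt (B * A) := by
  unfold rt; rw [Matrix.trace_mul_comm]

lemma rt_cycle (A B C : Matrix n n ℂ) : rt (A * B * C) = rt (C * A * B) := by
  unfold rt; rw [Matrix.trace_mul_cycle]

lemma rt_conjTranspose (A : Matrix n n ℂ) : rt A.conjTranspose = rt A := by
  simp [rt, Matrix.trace_conjTranspose]

lemma hs_eq_rt (A : Matrix n n ℂ) : hs A = rt (A.conjTranspose * A) := by
  unfold hs rt Matrix.trace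
  simp only [Matrix.diag_apply, Matrix.mul_apply, Matrix.conjTranspose_apply]
  rw [Complex.re_sum, Finset.sum_comm]
  refine Finset.sum_congr rfl fun i _ => ?_
  rw [Complex.re_sum]
  refine Finset.sum_congr rfl fun j _ => ?_
  rw [RCLike.star_def, Complex.conj_mul', ← Complex.ofReal_pow, Complex.ofReal_re]

lemma rt_nonneg {A : Matrix n n ℂ} (hA : 0 ≤ A) : 0 ≤ rt A := by
  have := (psd hA).trace_nonneg
  exact (RCLike.nonneg_iff.1 this).1

lemma rt_mono {A B : Matrix n n ℂ} (h : A ≤ B) : rt A ≤ rt B := by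
  have := rt_nonneg (sub_nonneg.2 h)
  rw [rt_sub] at this; linarith

/-- Cauchy-Schwarz for the trace. -/
lemma norm_trace_mul_le (A B : Matrix n n ℂ) :
    ‖Matrix.trace (A * B)‖ ≤ Real.sqrt (hs A) * Real.sqrt (hs B) := by
  have h1 : Matrix.trace (A * B) = ∑ p : n × n, A p.1 p.2 * B p.2 p.1 := by
    rw [Fintype.sum_prod_type]
    rfl
  have h2 : hs A = ∑ p : n × n, ‖A p.1 p.2‖ ^ 2 := by
    rw [Fintype.sum_prod_type]; rfl
  have h3 : hs B = ∑ p : n × n, ‖B p.2 p.1‖ ^ 2 := by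
    rw [Fintype.sum_prod_type, Finset.sum_comm]; rfl
  rw [h1, h2, h3]
  refine (norm_sum_le _ _).trans ?_
  simp only [norm_mul]
  exact Real.sum_mul_le_sqrt_mul_sqrt _ _ _

lemma abs_rt_mul_le (A B : Matrix n n ℂ) :
    |rt (A * B)| ≤ Real.sqrt (hs A) * Real.sqrt (hs B) :=
  (Complex.abs_re_le_norm _).trans (norm_trace_mul_le A B)

lemma rt_mul_le (A B : Matrix n n ℂ) :
    rt (A * B) ≤ Real.sqrt (hs A) * Real.sqrt (hs B) :=
  (le_abs_self _).trans (abs_rt_mul_le A B)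

/-- The triangle inequality for the 2-norm. -/
lemma sqrt_hs_add_le (A B : Matrix n n ℂ) :
    Real.sqrt (hs (A + B)) ≤ Real.sqrt (hs A) + Real.sqrt (hs B) := by
  rw [Real.sqrt_le_iff]
  refine ⟨by positivity, ?_⟩
  have h1 : hs (A + B) = hs A + hs B + 2 * rt (A.conjTranspose * B) := by
    rw [hs_eq_rt, Matrix.conjTranspose_add, add_mul, mul_add, mul_add, rt_add, rt_add, rt_add,
      ← hs_eq_rt, ← hs_eq_rt]
    have : rt (B.conjTranspose * A) = rt (A.conjTranspose * B) := by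
      rw [← rt_conjTranspose, Matrix.conjTranspose_mul, Matrix.conjTranspose_conjTranspose]
    rw [this]; ring
  have h2 := rt_mul_le A.conjTranspose B
  rw [hs_conjTranspose] at h2
  have h3 := Real.sq_sqrt (hs_nonneg A)
  have h4 := Real.sq_sqrt (hs_nonneg B)
  nlinarith

lemma sqrt_hs_sub_le (A B : Matrix n n ℂ) :
    Real.sqrt (hs (A - B)) ≤ Real.sqrt (hs A) + Real.sqrt (hs B) := by
  have := sqrt_hs_add_le A (-B)
  rwa [hs_neg, ← sub_eq_add_neg] at this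

end rt

/-! ## order -/

omit [DecidableEq n] in
lemma conj_nonneg {A : Matrix n n ℂ} (hA : 0 ≤ A) (X : Matrix n n ℂ) :
    0 ≤ X * A * X.conjTranspose := ((psd hA).mul_mul_conjTranspose_same X).nonneg

omit [DecidableEq n] in
lemma conj_nonneg' {A : Matrix n n ℂ} (hA : 0 ≤ A) (X : Matrix n n ℂ) :
    0 ≤ X.conjTranspose * A * X := ((psd hA).conjTranspose_mul_mul_same X).nonneg

lemma conj_mono {A B : Matrix n n ℂ} (h : A ≤ B) (X : Matrix n n ℂ) :
    X * A * X.conjTranspose ≤ X * B * X.conjTranspose := by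
  rw [← sub_nonneg, ← sub_mul, ← mul_sub]
  exact conj_nonneg (sub_nonneg.2 h) X

lemma conj_mono' {A B : Matrix n n ℂ} (h : A ≤ B) (X : Matrix n n ℂ) :
    X.conjTranspose * A * X ≤ X.conjTranspose * B * X := by
  rw [← sub_nonneg, ← sub_mul, ← mul_sub]
  exact conj_nonneg' (sub_nonneg.2 h) X

omit [Fintype n] [DecidableEq n] in
lemma herm_of_nonneg {A : Matrix n n ℂ} (hA : 0 ≤ A) : A.conjTranspose = A :=
  (psd hA).isHermitian

omit [DecidableEq n] in
lemma nonneg_star_mul (X : Matrix n n ℂ) : 0 ≤ X.conjTranspose * X :=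
  (Matrix.posSemidef_conjTranspose_mul_self X).nonneg

omit [DecidableEq n] in
lemma nonneg_mul_star (X : Matrix n n ℂ) : 0 ≤ X * X.conjTranspose :=
  (Matrix.posSemidef_self_mul_conjTranspose X).nonneg

/-- Square root of a positive matrix. -/
lemma exists_sqrt {A : Matrix n n ℂ} (hA : 0 ≤ A) :
    ∃ B : Matrix n n ℂ, 0 ≤ B ∧ B * B = A := by
  refine ⟨CFC.sqrt A, CFC.sqrt_nonneg A, ?_⟩
  exact CFC.sqrt_mul_sqrt_self A hA

lemma rt_mul_nonneg {A B : Matrix n n ℂ} (hA : 0 ≤ A) (hB : 0 ≤ B) : 0 ≤ rt (A * B) := by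
  obtain ⟨C, hC, rfl⟩ := exists_sqrt hB
  rw [← mul_assoc, rt_cycle]
  have := conj_nonneg hA C
  rw [herm_of_nonneg hC] at this
  exact rt_nonneg this

lemma rt_mul_mono {A B P : Matrix n n ℂ} (h : A ≤ B) (hP : 0 ≤ P) : rt (A * P) ≤ rt (B * P) := by
  have := rt_mul_nonneg (sub_nonneg.2 h) hP
  rw [sub_mul, rt_sub] at this; linarith

lemma rt_mul_mono' {A B P : Matrix n n ℂ} (h : A ≤ B) (hP : 0 ≤ P) : rt (P * A) ≤ rt (P * B) := by
  rw [rt_mul_comm P A, rt_mul_comm P B]; exact rt_mul_mono h hP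

omit [Fintype n] [DecidableEq n] in
lemma smul_nonneg_real {A : Matrix n n ℂ} {c : ℝ} (hc : 0 ≤ c) (hA : 0 ≤ A) : 0 ≤ c • A :=
  ((psd hA).smul hc).nonneg

omit [Fintype n] [DecidableEq n] in
lemma smul_mono_real {A B : Matrix n n ℂ} {c : ℝ} (hc : 0 ≤ c) (h : A ≤ B) : c • A ≤ c • B := by
  rw [← sub_nonneg, ← smul_sub]; exact smul_nonneg_real hc (sub_nonneg.2 h)

omit [Fintype n] [DecidableEq n] in
lemma smul_mono_left {A : Matrix n n ℂ} {c d : ℝ} (h : c ≤ d) (hA : 0 ≤ A) : c • A ≤ d • A := by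
  rw [← sub_nonneg, ← sub_smul]; exact smul_nonneg_real (sub_nonneg.2 h) hA

/-! ## norm and order -/

lemma norm_le_of_nonneg {A : Matrix n n ℂ} {c : ℝ} (hc : 0 ≤ c) (hA : 0 ≤ A) (h : A ≤ c • 1) :
    ‖A‖ ≤ c := by
  rw [CStarAlgebra.norm_le_iff_le_algebraMap A hc hA, Algebra.algebraMap_eq_smul_one]
  exact h

lemma le_smul_of_norm {A : Matrix n n ℂ} (hA : A.conjTranspose = A) : A ≤ ‖A‖ • 1 := by
  have : IsSelfAdjoint A := hA
  have h := this.le_algebraMap_norm_self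
  rwa [Algebra.algebraMap_eq_smul_one] at h

lemma neg_smul_le_of_norm {A : Matrix n n ℂ} (hA : A.conjTranspose = A) : -(‖A‖ • 1) ≤ A := by
  have : IsSelfAdjoint A := hA
  have h := this.neg_algebraMap_norm_le_self
  rwa [Algebra.algebraMap_eq_smul_one] at h

lemma norm_le_one_of_nonneg {A : Matrix n n ℂ} (hA : 0 ≤ A) (h : A ≤ 1) : ‖A‖ ≤ 1 :=
  norm_le_of_nonneg zero_le_one hA (by rwa [one_smul])

lemma star_mul_le (X : Matrix n n ℂ) : X.conjTranspose * X ≤ (‖X‖ ^ 2) • 1 := by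
  have h := CStarAlgebra.star_mul_le_algebraMap_norm_sq (a := X)
  rwa [Algebra.algebraMap_eq_smul_one] at h

lemma mul_star_le (X : Matrix n n ℂ) : X * X.conjTranspose ≤ (‖X‖ ^ 2) • 1 := by
  have h := CStarAlgebra.mul_star_le_algebraMap_norm_sq (a := X)
  rwa [Algebra.algebraMap_eq_smul_one] at h

/-- Order bound on both sides gives a norm bound. -/
lemma norm_le_of_le {A : Matrix n n ℂ} {c : ℝ} (hc : 0 ≤ c) (hA : A.conjTranspose = A)
    (h1 : A ≤ c • 1) (h2 : -(c • 1) ≤ A) : ‖A‖ ≤ c := by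
  rcases isEmpty_or_nonempty n with hn | hn
  · have : A = 0 := Subsingleton.elim _ _
    rw [this, norm_zero]; exact hc
  have : Nontrivial (Matrix n n ℂ) := inferInstance
  have hsa : IsSelfAdjoint A := hA
  rcases CStarAlgebra.norm_or_neg_norm_mem_spectrum (a := A) hsa with h | h
  · have h3 : ∀ x ∈ spectrum ℝ A, x ≤ c := by
      rw [← le_algebraMap_iff_spectrum_le, Algebra.algebraMap_eq_smul_one]
      exact h1
    exact h3 _ h
  · have h3 : ∀ x ∈ spectrum ℝ A, -c ≤ x := by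
      rw [← algebraMap_le_iff_le_spectrum, Algebra.algebraMap_eq_smul_one, neg_smul]
      exact h2
    linarith [h3 _ h]

lemma le_mul_self_of_le_one {A : Matrix n n ℂ} (hA : 0 ≤ A) (h : A ≤ 1) : A * A ≤ A := by
  obtain ⟨C, hC, rfl⟩ := exists_sqrt hA
  have h1 := conj_mono h C
  rw [herm_of_nonneg hC, mul_one] at h1
  calc C * C * (C * C) = C * (C * C) * C := by noncomm_ring
    _ ≤ C * C := h1

lemma hs_le_rt {A : Matrix n n ℂ} (hA : 0 ≤ A) (h : A ≤ 1) : hs A ≤ rt A := by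
  rw [hs_eq_rt, herm_of_nonneg hA]
  exact rt_mono (le_mul_self_of_le_one hA h)

/-- `hs (X * A)` for a contraction `X`. -/
lemma hs_mul_left_le {X A : Matrix n n ℂ} (hX : ‖X‖ ≤ 1) : hs (X * A) ≤ hs A := by
  refine (hs_mul_le_left X A).trans ?_
  have : ‖X‖ ^ 2 ≤ 1 := by nlinarith [norm_nonneg X]
  nlinarith [hs_nonneg A]

lemma hs_mul_right_le {X A : Matrix n n ℂ} (hX : ‖X‖ ≤ 1) : hs (A * X) ≤ hs A := by
  refine (hs_mul_le_right A X).trans ?_
  have : ‖X‖ ^ 2 ≤ 1 := by nlinarith [norm_nonneg X]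
  nlinarith [hs_nonneg A]

lemma norm_sq_le_hs (X : Matrix n n ℂ) : ‖X‖ ^ 2 ≤ hs X := by
  have h : ‖X‖ ≤ Real.sqrt (hs X) := by
    rw [Matrix.l2_opNorm_def]
    refine ContinuousLinearMap.opNorm_le_bound _ (Real.sqrt_nonneg _) fun v => ?_
    have h1 : (Matrix.toEuclideanLin ≪≫ₗ LinearMap.toContinuousLinearMap) X v =
        WithLp.toLp 2 (X.mulVec v.ofLp) := rfl
    rw [h1, EuclideanSpace.norm_eq, EuclideanSpace.norm_eq, ← Real.sqrt_mul (hs_nonneg X)]
    refine Real.sqrt_le_sqrt ?_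
    unfold hs
    rw [Finset.sum_mul]
    refine Finset.sum_le_sum fun i _ => ?_
    show ‖∑ j, X i j * v.ofLp j‖ ^ 2 ≤ _
    have h2 : ‖∑ j, X i j * v.ofLp j‖ ≤ ∑ j, ‖X i j‖ * ‖v.ofLp j‖ := by
      refine (norm_sum_le _ _).trans ?_
      simp only [norm_mul]; exact le_rfl
    calc _ ≤ (∑ j, ‖X i j‖ * ‖v.ofLp j‖) ^ 2 := by gcongr
      _ ≤ _ := Finset.sum_mul_sq_le_sq_mul_sq _ _ _
  calc ‖X‖ ^ 2 ≤ (Real.sqrt (hs X)) ^ 2 := by gcongr
    _ = hs X := Real.sq_sqrt (hs_nonneg X)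

/-! ## unitaries -/

lemma unit_comm {v : Matrix n n ℂ} (hv : v.conjTranspose * v = 1) : v * v.conjTranspose = 1 :=
  mul_eq_one_comm.1 hv

lemma hs_unit_mul {v : Matrix n n ℂ} (hv : v.conjTranspose * v = 1) (A : Matrix n n ℂ) :
    hs (v * A) = hs A := by
  rw [hs_eq_rt, Matrix.conjTranspose_mul, hs_eq_rt]
  congr 1
  calc A.conjTranspose * v.conjTranspose * (v * A) =
      A.conjTranspose * (v.conjTranspose * v) * A := by noncomm_ring
    _ = _ := by rw [hv, mul_one]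

lemma hs_mul_unit {v : Matrix n n ℂ} (hv : v.conjTranspose * v = 1) (A : Matrix n n ℂ) :
    hs (A * v) = hs A := by
  rw [← hs_conjTranspose, Matrix.conjTranspose_mul, ← hs_conjTranspose A]
  refine hs_unit_mul ?_ _
  rw [Matrix.conjTranspose_conjTranspose]
  exact unit_comm hv

lemma norm_unit_le {v : Matrix n n ℂ} (hv : v.conjTranspose * v = 1) : ‖v‖ ≤ 1 := by
  have h := CStarRing.norm_star_mul_self (x := v)
  rw [Matrix.star_eq_conjTranspose, hv] at h
  rcases isEmpty_or_nonempty n with hn | hn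
  · have : v = 0 := Subsingleton.elim _ _
    rw [this, norm_zero]; exact zero_le_one
  have h1 : ‖(1 : Matrix n n ℂ)‖ = 1 := CStarRing.norm_one
  rw [h1] at h
  nlinarith [norm_nonneg v]

lemma hs_comm_unit {v : Matrix n n ℂ} (hv : v.conjTranspose * v = 1) (A : Matrix n n ℂ) :
    hs (v * A - A * v) = hs (A - v * A * v.conjTranspose) := by
  rw [hs_sub_comm, ← hs_mul_unit (v := v.conjTranspose)
    (by rw [Matrix.conjTranspose_conjTranspose]; exact unit_comm hv), sub_mul, mul_assoc A,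
    unit_comm hv, mul_one]

/-! ## projections -/

lemma Pr.nonneg {p : Matrix n n ℂ} (hp : Pr p) : 0 ≤ p := by
  rw [← hp.2]; nth_rewrite 1 [← hp.1]; exact nonneg_star_mul p

lemma Pr.isStar {p : Matrix n n ℂ} (hp : Pr p) : IsStarProjection p := ⟨hp.2, hp.1⟩

lemma Pr.one_sub {p : Matrix n n ℂ} (hp : Pr p) : Pr (1 - p) := by
  refine ⟨by rw [Matrix.conjTranspose_sub, hp.1, Matrix.conjTranspose_one], ?_⟩
  rw [sub_mul, mul_sub, mul_sub, one_mul, hp.2]; simp

lemma Pr.le_one {p : Matrix n n ℂ} (hp : Pr p) : p ≤ 1 := sub_nonneg.1 hp.one_sub.nonneg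

lemma Pr.one : Pr (1 : Matrix n n ℂ) := ⟨Matrix.conjTranspose_one, mul_one 1⟩

lemma Pr.zero : Pr (0 : Matrix n n ℂ) := ⟨Matrix.conjTranspose_zero, mul_zero 0⟩

lemma Pr.hs {p : Matrix n n ℂ} (hp : Pr p) : Helper51.MU.hs p = rt p := by
  rw [hs_eq_rt, hp.1, hp.2]

lemma Pr.norm_le {p : Matrix n n ℂ} (hp : Pr p) : ‖p‖ ≤ 1 :=
  norm_le_one_of_nonneg hp.nonneg hp.le_one

lemma Pr.one_le_rt {p : Matrix n n ℂ} (hp : Pr p) (h0 : p ≠ 0) : 1 ≤ rt p := by
  have h1 : ‖p‖ = ‖p‖ * ‖p‖ := by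
    have := CStarRing.norm_star_mul_self (x := p)
    rwa [Matrix.star_eq_conjTranspose, hp.1, hp.2] at this
  have h2 : 0 < ‖p‖ := norm_pos_iff.2 h0
  have h3 : ‖p‖ = 1 := by
    have : ‖p‖ * (‖p‖ - 1) = 0 := by linarith
    rcases mul_eq_zero.1 this with h | h
    · linarith
    · linarith
  have h4 := norm_sq_le_hs p
  rw [h3, hp.hs] at h4
  linarith

lemma Pr.rt_nonneg {p : Matrix n n ℂ} (hp : Pr p) : 0 ≤ rt p := Helper61.IE.rt_nonneg hp.nonneg

/-- If `0 ≤ z ≤ q` and `q` is a projection then `z q = z = q z`. -/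
lemma Pr.absorb {q z : Matrix n n ℂ} (hq : Pr q) (hz : 0 ≤ z) (hzq : z ≤ q) :
    z * q = z ∧ q * z = z := hq.isStar.mul_right_and_mul_left_of_nonneg_of_le hz hzq

/-- Compression of a projection `e` below `p`. -/
lemma Pr.le_of_mul {p e : Matrix n n ℂ} (hp : Pr p) (he : Pr e) (h : p * e = e) : e ≤ p := by
  have h2 : e * p = e := by
    have := congrArg Matrix.conjTranspose h
    rwa [Matrix.conjTranspose_mul, he.1, hp.1] at this
  have h3 : Pr (p - e) := by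
    refine ⟨by rw [Matrix.conjTranspose_sub, hp.1, he.1], ?_⟩
    rw [sub_mul, mul_sub, mul_sub, hp.2, h, h2, he.2]; simp
  exact sub_nonneg.1 h3.nonneg

lemma Pr.sub {p e : Matrix n n ℂ} (hp : Pr p) (he : Pr e) (h : p * e = e) : Pr (p - e) := by
  have h2 : e * p = e := by
    have := congrArg Matrix.conjTranspose h
    rwa [Matrix.conjTranspose_mul, he.1, hp.1] at this
  refine ⟨by rw [Matrix.conjTranspose_sub, hp.1, he.1], ?_⟩
  rw [sub_mul, mul_sub, mul_sub, hp.2, h, h2, he.2]; simp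

/-! ## the matrices `GG S = (1 + S)⁻¹` -/

lemma posDef_one_add {S : Matrix n n ℂ} (hS : 0 ≤ S) : (1 + S).PosDef :=
  Matrix.PosDef.one.add_posSemidef (psd hS)

lemma isUnit_one_add {S : Matrix n n ℂ} (hS : 0 ≤ S) : IsUnit (1 + S) :=
  (posDef_one_add hS).isUnit

lemma GG_mul {S : Matrix n n ℂ} (hS : 0 ≤ S) : GG S * (1 + S) = 1 :=
  Matrix.nonsing_inv_mul _ ((Matrix.isUnit_iff_isUnit_det _).1 (isUnit_one_add hS))

lemma mul_GG {S : Matrix n n ℂ} (hS : 0 ≤ S) : (1 + S) * GG S = 1 :=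
  Matrix.mul_nonsing_inv _ ((Matrix.isUnit_iff_isUnit_det _).1 (isUnit_one_add hS))

lemma GG_nonneg {S : Matrix n n ℂ} (hS : 0 ≤ S) : 0 ≤ GG S :=
  (posDef_one_add hS).inv.posSemidef.nonneg

lemma GG_herm {S : Matrix n n ℂ} (hS : 0 ≤ S) : (GG S).conjTranspose = GG S :=
  herm_of_nonneg (GG_nonneg hS)

lemma GG_zero : GG (0 : Matrix n n ℂ) = 1 := by simp [GG]

/-- Resolvent identity. -/
lemma GG_sub {A B : Matrix n n ℂ} (hA : 0 ≤ A) (hB : 0 ≤ B) :
    GG A - GG B = GG A * (B - A) * GG B := by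
  calc GG A - GG B = GG A * ((1 + B) * GG B) - (GG A * (1 + A)) * GG B := by
        rw [mul_GG hB, GG_mul hA, mul_one, one_mul]
    _ = _ := by noncomm_ring

lemma GG_le_one {S : Matrix n n ℂ} (hS : 0 ≤ S) : GG S ≤ 1 := by
  have h1 : GG S * (1 + S) * GG S = GG S := by rw [GG_mul hS, one_mul]
  -- `1 - G = G S` and `G S = G^{1/2} ...`; use `G = G (1 + S) G ≥ G G`
  have h2 : GG S * GG S ≤ GG S := by
    have h3 : 0 ≤ GG S * S * (GG S).conjTranspose := conj_nonneg hS _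
    rw [GG_herm hS] at h3
    calc GG S * GG S ≤ GG S * GG S + GG S * S * GG S := le_add_of_nonneg_right h3
      _ = GG S * (1 + S) * GG S := by noncomm_ring
      _ = GG S := h1
  have h4 := conj_mono h2 (1 + S)
  have h5 : (1 + S).conjTranspose = 1 + S := (posDef_one_add hS).isHermitian
  rw [h5] at h4
  have h6 : (1 + S) * (GG S * GG S) * (1 + S) = 1 := by
    calc (1 + S) * (GG S * GG S) * (1 + S) = ((1 + S) * GG S) * (GG S * (1 + S)) := by noncomm_ring
      _ = 1 := by rw [mul_GG hS, GG_mul hS, one_mul]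
  have h7 : (1 + S) * GG S * (1 + S) = 1 + S := by rw [mul_GG hS, one_mul]
  -- now `1 ≤ 1 + S`, conjugate by `G^{1/2}`
  obtain ⟨C, hC, hCC⟩ := exists_sqrt (GG_nonneg hS)
  have h8 : (1 : Matrix n n ℂ) ≤ 1 + S := le_add_of_nonneg_right hS
  have h9 := conj_mono h8 C
  rw [herm_of_nonneg hC, mul_one, hCC] at h9
  refine h9.trans (le_of_eq ?_)
  have h10 : C * C * (1 + S) = 1 := by rw [hCC]; exact GG_mul hS
  have h11 : (1 + S) * (C * C) = 1 := by rw [hCC]; exact mul_GG hS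
  -- `C` commutes with `1 + S`
  have hCinv : (C * (1 + S)) * C = 1 := by
    have : C * (C * (1 + S)) = 1 := by rw [← mul_assoc]; exact h10
    exact mul_eq_one_comm.1 this
  exact hCinv

lemma one_sub_GG_nonneg {S : Matrix n n ℂ} (hS : 0 ≤ S) : 0 ≤ 1 - GG S :=
  sub_nonneg.2 (GG_le_one hS)

lemma one_sub_GG_le_one {S : Matrix n n ℂ} (hS : 0 ≤ S) : 1 - GG S ≤ 1 :=
  sub_le_self _ (GG_nonneg hS)

lemma norm_GG_le {S : Matrix n n ℂ} (hS : 0 ≤ S) : ‖GG S‖ ≤ 1 :=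
  norm_le_one_of_nonneg (GG_nonneg hS) (GG_le_one hS)

end Helper61.IE
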