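import Pool.Agent.Helper61.IE.Lib

/-!
# Spectral projections and layer-cake averages (common part of Round1, Round2, Round3)
-/

set_option linter.unusedSectionVars false

namespace Helper61.IE.Rnd0

open Helper51.MU MeasureTheory
open scoped Matrix.Norms.L2Operator MatrixOrder ComplexOrder

variable {n : Type} [Fintype n] [DecidableEq n] {ι : Type}

/-! ## functional calculus in a fixed eigenbasis -/

/-- `V diag(g) V*` -/
noncomputable def MM (V : Matrix n n ℂ) (g : n → ℝ) : Matrix n n ℂ :=
  V * Matrix.diagonal (fun i => (g i : ℂ)) * V.conjTranspose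

/-- real part of the diagonal of `V* X V` -/
noncomputable def dg (V X : Matrix n n ℂ) (i : n) : ℝ := ((V.conjTranspose * X * V) i i).re

variable {V : Matrix n n ℂ}

lemma MM_herm (g : n → ℝ) : (MM V g).conjTranspose = MM V g := by
  unfold MM
  rw [Matrix.conjTranspose_mul, Matrix.conjTranspose_mul, Matrix.conjTranspose_conjTranspose,
    Matrix.diagonal_conjTranspose, mul_assoc]
  congr 3
  ext i
  simp

lemma MM_mul (hV : V.conjTranspose * V = 1) (g h : n → ℝ) :
    MM V g * MM V h = MM V (fun i => g i * h i) := by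
  unfold MM
  calc V * Matrix.diagonal (fun i => (g i : ℂ)) * V.conjTranspose *
        (V * Matrix.diagonal (fun i => (h i : ℂ)) * V.conjTranspose) =
      V * Matrix.diagonal (fun i => (g i : ℂ)) * (V.conjTranspose * V) *
        Matrix.diagonal (fun i => (h i : ℂ)) * V.conjTranspose := by noncomm_ring
    _ = V * (Matrix.diagonal (fun i => (g i : ℂ)) * Matrix.diagonal (fun i => (h i : ℂ))) *
        V.conjTranspose := by rw [hV, mul_one]; noncomm_ring
    _ = _ := by
      rw [Matrix.diagonal_mul_diagonal]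
      congr 3
      ext i
      push_cast
      rfl

lemma MM_sub (g h : n → ℝ) : MM V g - MM V h = MM V (fun i => g i - h i) := by
  unfold MM
  rw [← sub_mul, ← mul_sub, Matrix.diagonal_sub]
  congr 3
  ext i
  push_cast
  rfl

lemma MM_smul (c : ℝ) (g : n → ℝ) : c • MM V g = MM V (fun i => c * g i) := by
  unfold MM
  have : Matrix.diagonal (fun i => ((c * g i : ℝ) : ℂ)) =
      c • Matrix.diagonal (fun i => (g i : ℂ)) := by
    ext i j
    by_cases hij : i = j
    · subst hij; simp
    · simp [Matrix.diagonal_apply_ne _ hij]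
  rw [this, mul_smul_comm, smul_mul_assoc]

lemma MM_one (hV : V.conjTranspose * V = 1) : MM V (fun _ => 1) = 1 := by
  unfold MM
  have : Matrix.diagonal (fun _ : n => ((1 : ℝ) : ℂ)) = 1 := by
    simp
  rw [this, mul_one]
  exact unit_comm hV

lemma MM_nonneg {g : n → ℝ} (hg : ∀ i, 0 ≤ g i) : 0 ≤ MM V g := by
  unfold MM
  apply conj_nonneg
  refine (Matrix.PosSemidef.diagonal (d := fun i => (g i : ℂ)) ?_).nonneg
  intro i
  show (0 : ℂ) ≤ (g i : ℂ)
  exact_mod_cast hg i

lemma MM_mono {g h : n → ℝ} (hgh : ∀ i, g i ≤ h i) : MM V g ≤ MM V h := by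
  rw [← sub_nonneg, MM_sub]
  exact MM_nonneg fun i => sub_nonneg.2 (hgh i)

lemma MM_pr (hV : V.conjTranspose * V = 1) {g : n → ℝ} (hg : ∀ i, g i = 0 ∨ g i = 1) :
    Pr (MM V g) := by
  refine ⟨MM_herm g, ?_⟩
  rw [MM_mul hV]
  congr 1
  ext i
  rcases hg i with h | h <;> rw [h] <;> ring

lemma conj_MM (hV : V.conjTranspose * V = 1) (g : n → ℝ) :
    V.conjTranspose * MM V g * V = Matrix.diagonal (fun i => (g i : ℂ)) := by
  unfold MM
  calc V.conjTranspose * (V * Matrix.diagonal (fun i => (g i : ℂ)) * V.conjTranspose) * V =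
      (V.conjTranspose * V) * Matrix.diagonal (fun i => (g i : ℂ)) * (V.conjTranspose * V) := by
        noncomm_ring
    _ = _ := by rw [hV, one_mul, mul_one]

lemma dg_MM (hV : V.conjTranspose * V = 1) (g : n → ℝ) (i : n) : dg V (MM V g) i = g i := by
  unfold dg
  rw [conj_MM hV, Matrix.diagonal_apply_eq, Complex.ofReal_re]

lemma rt_MM_mul (g : n → ℝ) (X : Matrix n n ℂ) : rt (MM V g * X) = ∑ i, g i * dg V X i := by
  have h1 : rt (MM V g * X) =
      rt (Matrix.diagonal (fun i => (g i : ℂ)) * (V.conjTranspose * X * V)) := by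
    unfold MM
    rw [show V * Matrix.diagonal (fun i => (g i : ℂ)) * V.conjTranspose * X =
      V * (Matrix.diagonal (fun i => (g i : ℂ)) * V.conjTranspose * X) by noncomm_ring,
      rt_mul_comm]
    congr 1
    noncomm_ring
  rw [h1]
  unfold rt Matrix.trace
  rw [Complex.re_sum]
  refine Finset.sum_congr rfl fun i _ => ?_
  rw [Matrix.diag_apply, Matrix.diagonal_mul, Complex.re_ofReal_mul]
  rfl

lemma dg_nonneg {X : Matrix n n ℂ} (hX : 0 ≤ X) (i : n) : 0 ≤ dg V X i := by
  unfold dg
  have h1 := psd (conj_nonneg' hX V)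
  have h2 : 0 ≤ (V.conjTranspose * X * V) i i := h1.diag_nonneg
  exact (RCLike.nonneg_iff.1 h2).1

lemma dg_sub (X Y : Matrix n n ℂ) (i : n) : dg V (X - Y) i = dg V X i - dg V Y i := by
  unfold dg
  rw [mul_sub, sub_mul, Matrix.sub_apply, Complex.sub_re]

lemma dg_one (hV : V.conjTranspose * V = 1) (i : n) : dg V 1 i = 1 := by
  unfold dg
  rw [mul_one, hV, Matrix.one_apply_eq, Complex.one_re]

lemma dg_le_one (hV : V.conjTranspose * V = 1) {X : Matrix n n ℂ} (hX : X ≤ 1) (i : n) :
    dg V X i ≤ 1 := by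
  have h1 := dg_nonneg (V := V) (sub_nonneg.2 hX) i
  rw [dg_sub, dg_one hV] at h1
  linarith

lemma sum_dg (hV : V.conjTranspose * V = 1) (X : Matrix n n ℂ) : ∑ i, dg V X i = rt X := by
  have h1 := rt_MM_mul (V := V) (fun _ => 1) X
  rw [MM_one hV, one_mul] at h1
  rw [h1]
  simp

lemma rt_MM (hV : V.conjTranspose * V = 1) (g : n → ℝ) : rt (MM V g) = ∑ i, g i := by
  have h1 := rt_MM_mul (V := V) g 1
  rw [mul_one] at h1
  rw [h1]
  simp [dg_one hV]

lemma hs_conj (hV : V.conjTranspose * V = 1) (X : Matrix n n ℂ) :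
    hs (V.conjTranspose * X * V) = hs X := by
  rw [hs_mul_unit hV, hs_unit_mul]
  rw [Matrix.conjTranspose_conjTranspose]
  exact unit_comm hV

/-- commutators with `V diag(g) V*` -/
lemma hs_comm_MM (hV : V.conjTranspose * V = 1) (u : Matrix n n ℂ) (g : n → ℝ) :
    hs (u * MM V g - MM V g * u) =
      ∑ i, ∑ j, ‖(V.conjTranspose * u * V) i j‖ ^ 2 * (g j - g i) ^ 2 := by
  rw [← hs_conj hV]
  set D : Matrix n n ℂ := Matrix.diagonal (fun i => (g i : ℂ)) with hD
  set w : Matrix n n ℂ := V.conjTranspose * u * V with hw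
  have hVV := unit_comm hV
  have h1 : V.conjTranspose * (u * MM V g - MM V g * u) * V = w * D - D * w := by
    have e1 : V.conjTranspose * (u * MM V g - MM V g * u) * V =
        V.conjTranspose * u * (V * V.conjTranspose) * MM V g * V -
        V.conjTranspose * MM V g * (V * V.conjTranspose) * u * V := by
      rw [hVV]; noncomm_ring
    rw [e1]
    have e2 : V.conjTranspose * u * (V * V.conjTranspose) * MM V g * V =
        w * (V.conjTranspose * MM V g * V) := by rw [hw]; noncomm_ring
    have e3 : V.conjTranspose * MM V g * (V * V.conjTranspose) * u * V =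
        (V.conjTranspose * MM V g * V) * w := by rw [hw]; noncomm_ring
    rw [e2, e3, conj_MM hV]
  rw [h1]
  unfold hs
  refine Finset.sum_congr rfl fun i _ => Finset.sum_congr rfl fun j _ => ?_
  rw [Matrix.sub_apply, hD, Matrix.mul_diagonal, Matrix.diagonal_mul]
  have : w i j * (g j : ℂ) - (g i : ℂ) * w i j = ((g j - g i : ℝ) : ℂ) * w i j := by
    push_cast; ring
  rw [this, norm_mul, mul_pow, Complex.norm_real, Real.norm_eq_abs, sq_abs]
  ring

/-- the spectral theorem -/
lemma exists_spec {a : Matrix n n ℂ} (ha : a.conjTranspose = a) :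
    ∃ (V : Matrix n n ℂ) (g : n → ℝ), V.conjTranspose * V = 1 ∧ a = MM V g := by
  have hH : a.IsHermitian := ha
  refine ⟨(hH.eigenvectorUnitary : Matrix n n ℂ), hH.eigenvalues, ?_, ?_⟩
  · exact Matrix.mem_unitaryGroup_iff'.1 hH.eigenvectorUnitary.2
  · have h1 := hH.spectral_theorem
    rw [Unitary.conjStarAlgAut_apply] at h1
    exact h1

/-- rows of a unitary -/
lemma sum_row {w : Matrix n n ℂ} (hw : w.conjTranspose * w = 1) (i : n) :
    ∑ j, ‖w i j‖ ^ 2 = 1 := by
  have h1 := unit_comm hw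
  have h2 := congrFun (congrFun h1 i) i
  rw [Matrix.mul_apply, Matrix.one_apply_eq] at h2
  have h3 : (∑ j, w i j * w.conjTranspose j i) = ((∑ j, ‖w i j‖ ^ 2 : ℝ) : ℂ) := by
    push_cast
    refine Finset.sum_congr rfl fun j _ => ?_
    rw [Matrix.conjTranspose_apply, RCLike.star_def, Complex.mul_conj']
  rw [h3] at h2
  exact_mod_cast h2

lemma sum_col {w : Matrix n n ℂ} (hw : w.conjTranspose * w = 1) (j : n) :
    ∑ i, ‖w i j‖ ^ 2 = 1 := by
  have h1 : w.conjTranspose.conjTranspose * w.conjTranspose = 1 := by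
    rw [Matrix.conjTranspose_conjTranspose]; exact unit_comm hw
  have h2 := sum_row h1 j
  simpa [Matrix.conjTranspose_apply] using h2

lemma conj_unit (hV : V.conjTranspose * V = 1) {u : Matrix n n ℂ}
    (hu : u.conjTranspose * u = 1) :
    (V.conjTranspose * u * V).conjTranspose * (V.conjTranspose * u * V) = 1 := by
  rw [Matrix.conjTranspose_mul, Matrix.conjTranspose_mul, Matrix.conjTranspose_conjTranspose]
  calc V.conjTranspose * (u.conjTranspose * V) * (V.conjTranspose * u * V) =
      V.conjTranspose * (u.conjTranspose * (V * V.conjTranspose) * u) * V := by noncomm_ring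
    _ = 1 := by rw [unit_comm hV, mul_one, hu, mul_one, hV]

/-! ## step functions -/

/-- the step function `x ↦ 1_{x < l}` -/
noncomputable def stp (l x : ℝ) : ℝ := if x < l then 1 else 0

lemma stp_or (l x : ℝ) : stp l x = 0 ∨ stp l x = 1 := by
  unfold stp
  split_ifs
  · right; rfl
  · left; rfl

lemma stp_int (l t s : ℝ) : IntervalIntegrable (stp l) volume t s := by
  apply Antitone.intervalIntegrable
  intro x y hxy
  unfold stp
  split_ifs with h1 h2 h2
  · exact le_rfl
  · exact absurd (lt_of_le_of_lt hxy h1) h2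
  · exact zero_le_one
  · exact le_rfl

lemma int_stp {l t s : ℝ} (hts : t ≤ s) : ∫ x in t..s, stp l x = max t (min s l) - t := by
  rw [intervalIntegral.integral_of_le hts]
  have h1 : (fun x => stp l x) = (Set.Iio l).indicator (fun _ => (1 : ℝ)) := by
    ext x
    unfold stp
    by_cases hx : x < l
    · rw [if_pos hx, Set.indicator_of_mem (show x ∈ Set.Iio l from hx)]
    · rw [if_neg hx, Set.indicator_of_notMem (show x ∉ Set.Iio l from hx)]
  rw [h1, integral_indicator measurableSet_Iio, setIntegral_const, smul_eq_mul, mul_one,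
    measureReal_restrict_apply measurableSet_Iio]
  by_cases hl : l ≤ t
  · have : Set.Iio l ∩ Set.Ioc t s = ∅ := by
      ext x
      simp only [Set.mem_inter_iff, Set.mem_Iio, Set.mem_Ioc, Set.mem_empty_iff_false, iff_false]
      intro h; linarith [h.1, h.2.1]
    rw [this, max_eq_left ((min_le_right _ _).trans hl)]
    simp
  push Not at hl
  by_cases hl' : s < l
  · have : Set.Iio l ∩ Set.Ioc t s = Set.Ioc t s := by
      ext x
      simp only [Set.mem_inter_iff, Set.mem_Iio, Set.mem_Ioc]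
      constructor
      · exact fun h => h.2
      · exact fun h => ⟨by linarith [h.2], h⟩
    rw [this, min_eq_left hl'.le, max_eq_right hts, Real.volume_real_Ioc_of_le hts]
  · push Not at hl'
    have : Set.Iio l ∩ Set.Ioc t s = Set.Ioo t l := by
      ext x
      simp only [Set.mem_inter_iff, Set.mem_Iio, Set.mem_Ioc, Set.mem_Ioo]
      constructor
      · exact fun h => ⟨h.2.1, h.1⟩
      · exact fun h => ⟨h.2, h.1, by linarith [h.2]⟩
    rw [this, min_eq_right hl', max_eq_right hl.le, Real.volume_real_Ioo_of_le hl.le]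

/-- truncation -/
noncomputable def cl (t s l : ℝ) : ℝ := max t (min s l)

lemma stp_sub_sq (l m x : ℝ) : (stp l x - stp m x) ^ 2 = stp (max l m) x - stp (min l m) x := by
  unfold stp
  rcases le_total l m with h | h
  · rw [max_eq_right h, min_eq_left h]
    split_ifs <;> norm_num <;> linarith
  · rw [max_eq_left h, min_eq_right h]
    split_ifs <;> norm_num <;> linarith

lemma cl_mono {t s l m : ℝ} (h : l ≤ m) : cl t s l ≤ cl t s m :=
  max_le_max le_rfl (min_le_min le_rfl h)

lemma int_stp_sub_sq {l m t s : ℝ} (hts : t ≤ s) :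
    ∫ x in t..s, (stp l x - stp m x) ^ 2 = |cl t s l - cl t s m| := by
  simp only [stp_sub_sq]
  rw [intervalIntegral.integral_sub (stp_int _ _ _) (stp_int _ _ _), int_stp hts, int_stp hts]
  rcases le_total l m with h | h
  · rw [max_eq_right h, min_eq_left h, abs_of_nonpos (sub_nonpos.2 (cl_mono h))]
    unfold cl; ring
  · rw [max_eq_left h, min_eq_right h, abs_of_nonneg (sub_nonneg.2 (cl_mono h))]
    unfold cl; ring

lemma stp_sub_sq_int (l m t s : ℝ) :
    IntervalIntegrable (fun x => (stp l x - stp m x) ^ 2) volume t s := by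
  simp only [stp_sub_sq]
  exact (stp_int _ _ _).sub (stp_int _ _ _)

lemma abs_cl_sub_le (t s l m : ℝ) : |cl t s l - cl t s m| ≤ |l - m| := by
  unfold cl
  refine (abs_max_sub_max_le_max _ _ _ _).trans ?_
  rw [sub_self, abs_zero]
  refine max_le (abs_nonneg _) ?_
  refine (abs_min_sub_min_le_max _ _ _ _).trans ?_
  rw [sub_self, abs_zero]
  exact max_le (abs_nonneg _) le_rfl

lemma ii_sum {κ : Type} (S : Finset κ) {f : κ → ℝ → ℝ} {t s : ℝ}
    (hf : ∀ i, IntervalIntegrable (f i) volume t s) :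
    IntervalIntegrable (fun x => ∑ i ∈ S, f i x) volume t s := by
  have h := IntervalIntegrable.sum S (f := f) fun i _ => hf i
  have e : (∑ i ∈ S, f i) = fun x => ∑ i ∈ S, f i x := by
    ext x
    rw [Finset.sum_apply]
  rwa [e] at h

/-- `x ↦ hs [u, p_x]` is integrable -/
lemma hs_stp_int (hV : V.conjTranspose * V = 1) (u : Matrix n n ℂ) (g : n → ℝ) (t s : ℝ) :
    IntervalIntegrable (fun x => hs (u * MM V (fun i => stp (g i) x) -
      MM V (fun i => stp (g i) x) * u)) volume t s := by
  simp only [hs_comm_MM hV]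
  refine ii_sum _ fun i => ii_sum _ fun j => ?_
  exact (stp_sub_sq_int _ _ _ _).const_mul _

lemma int_hs_stp (hV : V.conjTranspose * V = 1) (u : Matrix n n ℂ) (g : n → ℝ) {t s : ℝ}
    (hts : t ≤ s) :
    ∫ x in t..s, hs (u * MM V (fun i => stp (g i) x) - MM V (fun i => stp (g i) x) * u) =
      ∑ i, ∑ j, ‖(V.conjTranspose * u * V) i j‖ ^ 2 * |cl t s (g j) - cl t s (g i)| := by
  simp only [hs_comm_MM hV]
  rw [intervalIntegral.integral_finsetSum]
  · refine Finset.sum_congr rfl fun i _ => ?_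
    rw [intervalIntegral.integral_finsetSum]
    · refine Finset.sum_congr rfl fun j _ => ?_
      rw [intervalIntegral.integral_const_mul, int_stp_sub_sq hts]
    · intro j _
      exact (stp_sub_sq_int _ _ _ _).const_mul _
  · intro i _
    refine ii_sum _ fun j => ?_
    exact (stp_sub_sq_int _ _ _ _).const_mul _

lemma En_stp_int (hV : V.conjTranspose * V = 1) (F : Finset ι) (u : ι → Matrix n n ℂ)
    (g : n → ℝ) (t s : ℝ) :
    IntervalIntegrable (fun x => En F u (MM V (fun i => stp (g i) x))) volume t s := by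
  unfold En
  exact ii_sum _ fun r => hs_stp_int hV (u r) g t s

/-- the layer-cake bound for one unitary -/
lemma int_hs_stp_le (hV : V.conjTranspose * V = 1) {u : Matrix n n ℂ}
    (hu : u.conjTranspose * u = 1) {g : n → ℝ} (hg : ∀ i, 0 ≤ g i) {t s : ℝ} (ht : 0 < t)
    (hts : t ≤ s) :
    ∫ x in t..s, hs (u * MM V (fun i => stp (g i) x) - MM V (fun i => stp (g i) x) * u) ≤
      Real.sqrt (hs (u * MM V g - MM V g * u)) * Real.sqrt (2 * rt (MM V g) / t) := by
  rw [int_hs_stp hV u g hts]
  set w : Matrix n n ℂ := V.conjTranspose * u * V with hw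
  have hwu : w.conjTranspose * w = 1 := conj_unit hV hu
  have key : ∀ i j, ‖w i j‖ ^ 2 * |cl t s (g j) - cl t s (g i)| ≤
      (‖w i j‖ * |g j - g i|) * (‖w i j‖ * Real.sqrt ((g i + g j) / t)) := by
    intro i j
    have e1 : (‖w i j‖ * |g j - g i|) * (‖w i j‖ * Real.sqrt ((g i + g j) / t)) =
        ‖w i j‖ ^ 2 * (|g j - g i| * Real.sqrt ((g i + g j) / t)) := by ring
    rw [e1]
    refine mul_le_mul_of_nonneg_left ?_ (by positivity)
    by_cases hij : g i ≤ t ∧ g j ≤ t
    · have h1 : cl t s (g j) = t := max_eq_left ((min_le_right _ _).trans hij.2)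
      have h2 : cl t s (g i) = t := max_eq_left ((min_le_right _ _).trans hij.1)
      rw [h1, h2, sub_self, abs_zero]
      positivity
    · have h1 : t ≤ g i + g j := by
        by_contra h
        push Not at h
        exact hij ⟨by linarith [hg j], by linarith [hg i]⟩
      have h2 : 1 ≤ Real.sqrt ((g i + g j) / t) := by
        rw [Real.one_le_sqrt, one_le_div ht]
        exact h1
      calc |cl t s (g j) - cl t s (g i)| ≤ |g j - g i| * 1 := by
            rw [mul_one]; exact abs_cl_sub_le _ _ _ _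
        _ ≤ _ := mul_le_mul_of_nonneg_left h2 (abs_nonneg _)
  refine (Finset.sum_le_sum fun i _ => Finset.sum_le_sum fun j _ => key i j).trans ?_
  rw [hs_comm_MM hV, ← Fintype.sum_prod_type' (f := fun i j => (‖w i j‖ * |g j - g i|) *
    (‖w i j‖ * Real.sqrt ((g i + g j) / t)))]
  refine (Real.sum_mul_le_sqrt_mul_sqrt _ _ _).trans ?_
  refine mul_le_mul ?_ ?_ (Real.sqrt_nonneg _) (Real.sqrt_nonneg _)
  · refine Real.sqrt_le_sqrt (le_of_eq ?_)
    rw [Fintype.sum_prod_type]
    refine Finset.sum_congr rfl fun i _ => Finset.sum_congr rfl fun j _ => ?_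
    rw [mul_pow, sq_abs]
  · refine Real.sqrt_le_sqrt (le_of_eq ?_)
    rw [Fintype.sum_prod_type]
    have e2 : ∀ i j, (‖w i j‖ * Real.sqrt ((g i + g j) / t)) ^ 2 =
        ‖w i j‖ ^ 2 * (g i / t) + ‖w i j‖ ^ 2 * (g j / t) := by
      intro i j
      rw [mul_pow, Real.sq_sqrt (div_nonneg (add_nonneg (hg i) (hg j)) ht.le)]
      ring
    simp only [e2, Finset.sum_add_distrib]
    have e3 : ∑ i, ∑ j, ‖w i j‖ ^ 2 * (g i / t) = ∑ i, g i / t := by
      refine Finset.sum_congr rfl fun i _ => ?_
      rw [← Finset.sum_mul, sum_row hwu, one_mul]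
    have e4 : ∑ i, ∑ j, ‖w i j‖ ^ 2 * (g j / t) = ∑ j, g j / t := by
      rw [Finset.sum_comm]
      refine Finset.sum_congr rfl fun j _ => ?_
      rw [← Finset.sum_mul, sum_col hwu, one_mul]
    rw [e3, e4, rt_MM hV, ← Finset.sum_div]
    ring

/-- the layer-cake bound for the energy -/
lemma int_En_stp_le (hV : V.conjTranspose * V = 1) (F : Finset ι) {u : ι → Matrix n n ℂ}
    (hu : ∀ r, (u r).conjTranspose * u r = 1) {g : n → ℝ} (hg : ∀ i, 0 ≤ g i) {t s : ℝ}
    (ht : 0 < t) (hts : t ≤ s) :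
    ∫ x in t..s, En F u (MM V (fun i => stp (g i) x)) ≤
      Real.sqrt (2 * F.card * En F u (MM V g) * rt (MM V g) / t) := by
  have hrt : 0 ≤ rt (MM V g) := rt_nonneg (MM_nonneg hg)
  unfold En
  rw [intervalIntegral.integral_finsetSum fun r _ => hs_stp_int hV (u r) g t s]
  refine (Finset.sum_le_sum fun r _ => int_hs_stp_le hV (hu r) hg ht hts).trans ?_
  rw [← Finset.sum_mul]
  have h1 : ∑ r ∈ F, Real.sqrt (hs (u r * MM V g - MM V g * u r)) ≤
      Real.sqrt (F.card) * Real.sqrt (∑ r ∈ F, hs (u r * MM V g - MM V g * u r)) := by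
    have h2 := Real.sum_sqrt_mul_sqrt_le F (f := fun _ => (1 : ℝ))
      (g := fun r => hs (u r * MM V g - MM V g * u r)) (fun _ => zero_le_one)
      (fun r => hs_nonneg _)
    simpa using h2
  refine (mul_le_mul_of_nonneg_right h1 (Real.sqrt_nonneg _)).trans (le_of_eq ?_)
  rw [← Real.sqrt_mul (by positivity), ← Real.sqrt_mul]
  · congr 1
    ring
  · exact mul_nonneg (by positivity) (Finset.sum_nonneg fun r _ => hs_nonneg _)

/-- a value at most the average -/
lemma exists_le_avg {f : ℝ → ℝ} {t s : ℝ} (hts : t < s) (hf : IntervalIntegrable f volume t s) :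
    ∃ x, t < x ∧ x ≤ s ∧ f x * (s - t) ≤ ∫ x in t..s, f x := by
  have h0 : volume (Set.Ioc t s) ≠ 0 := by
    rw [Real.volume_Ioc]
    simp [hts]
  have h1 : volume (Set.Ioc t s) ≠ ⊤ := by
    rw [Real.volume_Ioc]; exact ENNReal.ofReal_ne_top
  have hf' : IntegrableOn f (Set.Ioc t s) volume :=
    (intervalIntegrable_iff_integrableOn_Ioc_of_le hts.le).1 hf
  obtain ⟨x, hx, hxf⟩ := exists_le_setAverage h0 h1 hf'
  refine ⟨x, hx.1, hx.2, ?_⟩
  rw [setAverage_eq, Real.volume_real_Ioc_of_le hts.le, smul_eq_mul] at hxf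
  rw [intervalIntegral.integral_of_le hts.le]
  have h2 : 0 < s - t := sub_pos.2 hts
  calc f x * (s - t) ≤ ((s - t)⁻¹ * ∫ x in Set.Ioc t s, f x) * (s - t) :=
        mul_le_mul_of_nonneg_right hxf h2.le
    _ = _ := by field_simp

end Helper61.IE.Rnd0
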