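import Pool.Agent.Helper61.IE.Defs2

/-!
# Statements of the modules, part II (from the core to the ultraproduct)
-/

namespace Helper61.IE

open Helper51.MU Filter Topology
open scoped Matrix.Norms.L2Operator MatrixOrder ComplexOrder

/-- A sequence of maps `σ j : G → M_{k j}` that is asymptotically multiplicative, asymptotically
unitary and whose traces tend to `χ` along the filter `L`. -/
structure AHom {G : Type} [Group G] (χ : G → ℂ) (k : ℕ → ℕ) (L : Filter ℕ)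
    (σ : ∀ j, G → Matrix (Fin (k j)) (Fin (k j)) ℂ) : Prop where
  norm : ∀ j g, ‖σ j g‖ ≤ 1
  mul : ∀ g h, Tendsto (fun j => nn (σ j g * σ j h - σ j (g * h))) L (𝓝 0)
  unit : ∀ g, Tendsto (fun j => nn ((σ j g).conjTranspose * σ j g - 1)) L (𝓝 0)
  tr : ∀ g, Tendsto (fun j => ntr (σ j g)) L (𝓝 (χ g))

/-- Asymptotically central sequences. -/
def AC {G : Type} (k : ℕ → ℕ) (L : Filter ℕ) (σ : ∀ j, G → Matrix (Fin (k j)) (Fin (k j)) ℂ)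
    (y : ∀ j, Matrix (Fin (k j)) (Fin (k j)) ℂ) : Prop :=
  ∀ g, Tendsto (fun j => nn (σ j g * y j - y j * σ j g)) L (𝓝 0)

/-- Normalized positive definite functions. -/
structure IsPD {G : Type} [Group G] (φ : G → ℂ) : Prop where
  one : φ 1 = 1
  pos : ∀ (m : ℕ) (a : Fin m → ℂ) (x : Fin m → G),
    (∑ i, ∑ k, star (a i) * a k * φ ((x i)⁻¹ * x k)).im = 0 ∧
      0 ≤ (∑ i, ∑ k, star (a i) * a k * φ ((x i)⁻¹ * x k)).re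

/-- Diagonal sequences along a nonprincipal ultrafilter. -/
def StDiag : Prop := ∀ U : Ultrafilter ℕ, Nonprincipal U → ∀ A : ℕ → ℕ → Prop,
  (∀ m, ∀ᶠ j in (U : Filter ℕ), A m j) →
  ∃ m : ℕ → ℕ, Tendsto m U atTop ∧ ∀ᶠ j in (U : Filter ℕ), A (m j) j

def StLimChar : Prop := ∀ (G : Type) [Group G] (χ : G → ℂ) (φ ψ : ℕ → G → ℂ) (t : ℕ → ℝ)
  (c : ℝ), IsExtremalChar χ → 0 < c → (∀ j, c ≤ t j ∧ t j ≤ 1 / 2) → (∀ j, IsPD (φ j)) →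
  (∀ j, IsPD (ψ j)) → (∀ j g, χ g = t j * φ j g + (1 - t j) * ψ j g) →
  (∀ g h, Tendsto (fun j => φ j (h * g * h⁻¹) - φ j g) atTop (𝓝 0)) →
  ∀ g, Tendsto (fun j => φ j g) atTop (𝓝 (χ g))

/-- Finite level: if all blocks of a family are bad, then a sum `Z` of a large subfamily has a
trace functional far from `χ`. -/
def StZ : Prop := ∀ (n : Type) [Fintype n] [DecidableEq n] (G : Type) [Group G]
  (π : G → Matrix n n ℂ) (χ : G → ℂ) (F F₀ : Finset G) (I : Finset ℕ) (p : ℕ → Matrix n n ℂ)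
  (ε ε₁ : ℝ), (∀ g, (π g).conjTranspose * π g = 1) → 0 < ε → 0 ≤ ε₁ → 0 < Fintype.card n →
  (∀ i ∈ I, Pr (p i) ∧ p i ≠ 0 ∧ En F π (p i) ≤ ε₁ * rt (p i)) →
  ∑ i ∈ I, p i ≤ (16 : ℝ) • 1 → 1 / 10 ^ 21 * (Fintype.card n : ℝ) ≤ ∑ i ∈ I, rt (p i) →
  (∀ i ∈ I, (∃ g ∈ F₀, ∃ h ∈ F₀, ε * rt (p i) < hs ((π g * π h - π (g * h)) * p i)) ∨
    ∃ g ∈ F₀, ε * rt (p i) < ‖Matrix.trace (p i * π g) - χ g * rt (p i)‖) →
  32 * ∑ g ∈ F₀, ∑ h ∈ F₀, hs (π g * π h - π (g * h)) ≤ ε / 10 ^ 21 * Fintype.card n →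
  ∃ Z : Matrix n n ℂ, 0 ≤ Z ∧ Z ≤ (16 : ℝ) • 1 ∧
    (Fintype.card n : ℝ) / (8 * 10 ^ 21 * F₀.card) ≤ rt Z ∧
    (∃ g ∈ F₀, ε / 2 * rt Z ≤ ‖Matrix.trace (Z * π g) - χ g * rt Z‖) ∧
    ∀ h ∈ F, ∀ Y : Matrix n n ℂ, ‖Y‖ ≤ 1 →
      |rt (((π h).conjTranspose * Z * π h - Z) * Y)| ≤ 2 * Real.sqrt ε₁ * rt Z

/-- The gap hypothesis used in the proof. -/
def GapH {G : Type} (l : ℕ → ℕ) (V : Ultrafilter ℕ)
    (π : ∀ n, G → Matrix (Fin (l n)) (Fin (l n)) ℂ) (S : Finset G) (K : ℝ) : Prop :=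
  1 ≤ K ∧ S.Nonempty ∧ ∀ F : Finset G, S ⊆ F → ∀ k : ℕ, ∀ᶠ n in (V : Filter ℕ),
    ∀ x : Matrix (Fin (l n)) (Fin (l n)) ℂ, x.conjTranspose = x → ‖x‖ ≤ 1 →
      hs (x - (TT F (π n) ^ k) x) ≤ K * En S (π n) x + 1 / 10 ^ 78 * l n

/-- A good irreducible block. -/
structure Block {n : Type} [Fintype n] [DecidableEq n] {G : Type} [Group G]
    (π : G → Matrix n n ℂ) (χ : G → ℂ) (S : Finset G) (K : ℝ) (F₀ : Finset G) (ε : ℝ)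
    (p : Matrix n n ℂ) : Prop where
  pr : Pr p
  ne : p ≠ 0
  en : En F₀ π p ≤ ε * rt p
  mul : ∀ g ∈ F₀, ∀ h ∈ F₀, hs ((π g * π h - π (g * h)) * p) ≤ ε * rt p
  tr : ∀ g ∈ F₀, ‖Matrix.trace (p * π g) - χ g * rt p‖ ≤ ε * rt p
  cut : ∀ e : Matrix n n ℂ, Pr e → p * e = e → 3 / 10 * rt p ≤ rt e → rt e ≤ 7 / 10 * rt p →
    1 / 10 ^ 54 / K * rt p < En S π e

def StTypBlock : Prop := ∀ (G : Type) [Group G] [Countable G] (χ : G → ℂ) (l : ℕ → ℕ)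
  (V : Ultrafilter ℕ) (π : ∀ n, G → Matrix (Fin (l n)) (Fin (l n)) ℂ) (S : Finset G) (K : ℝ),
  IsExtremalChar χ → (∀ n g, (π n g).conjTranspose * π n g = 1) → AHom χ l V π →
  GapH l V π S K → ∀ (F₀ : Finset G) (ε : ℝ), 0 < ε →
  ∀ᶠ n in (V : Filter ℕ), ∃ p, Block (π n) χ S K F₀ ε p

/-- Compression to almost invariant projections. -/
def StCompr : Prop := ∀ (G : Type) [Group G] (χ : G → ℂ) (l : ℕ → ℕ) (L : Filter ℕ)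
  (π : ∀ j, G → Matrix (Fin (l j)) (Fin (l j)) ℂ) (p : ∀ j, Matrix (Fin (l j)) (Fin (l j)) ℂ),
  (∀ j g, ‖π j g‖ ≤ 1) → (∀ j, Pr (p j)) → (∀ᶠ j in L, p j ≠ 0) →
  (∀ g, Tendsto (fun j => hs (π j g * p j - p j * π j g) / rt (p j)) L (𝓝 0)) →
  (∀ g h, Tendsto (fun j => hs ((π j g * π j h - π j (g * h)) * p j) / rt (p j)) L (𝓝 0)) →
  (∀ g, Tendsto (fun j => hs (((π j g).conjTranspose * π j g - 1) * p j) / rt (p j)) L (𝓝 0)) →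
  (∀ g, Tendsto (fun j => Matrix.trace (p j * π j g) / (rt (p j) : ℂ)) L (𝓝 (χ g))) →
  ∃ (k : ℕ → ℕ) (W : ∀ j, Matrix (Fin (l j)) (Fin (k j)) ℂ),
    (∀ j, (W j).conjTranspose * W j = 1 ∧ W j * (W j).conjTranspose = p j ∧
      (k j : ℝ) = rt (p j)) ∧
    AHom χ k L fun j g => (W j).conjTranspose * π j g * W j

/-- Cuts of the compression. -/
def StCutC : Prop := ∀ (n m : Type) [Fintype n] [DecidableEq n] [Fintype m] [DecidableEq m]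
  (ι : Type) (S : Finset ι) (π : ι → Matrix n n ℂ) (W : Matrix n m ℂ) (e : Matrix m m ℂ),
  W.conjTranspose * W = 1 → (∀ s, ‖π s‖ ≤ 1) → Pr e →
  Pr (W * e * W.conjTranspose) ∧
  (W * W.conjTranspose) * (W * e * W.conjTranspose) = W * e * W.conjTranspose ∧
  rt (W * e * W.conjTranspose) = rt e ∧
  En S π (W * e * W.conjTranspose) ≤
    3 * En S (fun s => W.conjTranspose * π s * W) e + 6 * En S π (W * W.conjTranspose)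

/-- No almost central projection has normalized trace in `[3/10, 7/10]`. -/
def NoCut {G : Type} (k : ℕ → ℕ) (L : Filter ℕ)
    (σ : ∀ j, G → Matrix (Fin (k j)) (Fin (k j)) ℂ) : Prop :=
  ∃ (S : Finset G) (c : ℝ), 0 < c ∧ ∀ᶠ j in L, ∀ e : Matrix (Fin (k j)) (Fin (k j)) ℂ, Pr e →
    3 / 10 * (k j : ℝ) ≤ rt e → rt e ≤ 7 / 10 * (k j : ℝ) → c * k j ≤ En S (σ j) e

/-- Extraction of a sequence of compressed blocks. -/
def StSeq : Prop := ∀ (G : Type) [Group G] [Countable G] (χ : G → ℂ) (l : ℕ → ℕ)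
  (V : Ultrafilter ℕ) (π : ∀ n, G → Matrix (Fin (l n)) (Fin (l n)) ℂ) (S : Finset G) (K : ℝ),
  (∀ n g, (π n g).conjTranspose * π n g = 1) → 1 ≤ K →
  (∀ (F₀ : Finset G) (ε : ℝ), 0 < ε →
    ∀ᶠ n in (V : Filter ℕ), ∃ p, Block (π n) χ S K F₀ ε p) →
  ∃ (k : ℕ → ℕ) (σ : ∀ j, G → Matrix (Fin (k j)) (Fin (k j)) ℂ),
    AHom χ k atTop σ ∧ NoCut k atTop σ ∧ ∀ j, 0 < k j

/-- Minimal asymptotically central projections. -/
def MinP {G : Type} (k : ℕ → ℕ) (L : Filter ℕ)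
    (σ : ∀ j, G → Matrix (Fin (k j)) (Fin (k j)) ℂ)
    (f : ∀ j, Matrix (Fin (k j)) (Fin (k j)) ℂ) : Prop :=
  (∀ j, Pr (f j)) ∧ AC k L σ f ∧ (∀ᶠ j in L, (k j : ℝ) / 2 ≤ rt (f j)) ∧
  ∀ e : ∀ j, Matrix (Fin (k j)) (Fin (k j)) ℂ, (∀ j, Pr (e j)) → (∀ j, f j * e j = e j) →
    AC k L σ e → Tendsto (fun j => rt (e j) / k j) L (𝓝 0) ∨
      Tendsto (fun j => rt (f j - e j) / k j) L (𝓝 0)

def StMin : Prop := ∀ (G : Type) [Group G] [Countable G] (k : ℕ → ℕ) (U : Ultrafilter ℕ)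
  (σ : ∀ j, G → Matrix (Fin (k j)) (Fin (k j)) ℂ), Nonprincipal U →
  (∀ᶠ j in (U : Filter ℕ), 0 < k j) → NoCut k U σ → ∃ f, MinP k U σ f

/-- All asymptotically central projections are trivial. -/
def TrivProj {G : Type} (k : ℕ → ℕ) (L : Filter ℕ)
    (σ : ∀ j, G → Matrix (Fin (k j)) (Fin (k j)) ℂ) : Prop :=
  ∀ e : ∀ j, Matrix (Fin (k j)) (Fin (k j)) ℂ, (∀ j, Pr (e j)) → AC k L σ e →
    Tendsto (fun j => rt (e j) / k j) L (𝓝 0) ∨ Tendsto (fun j => rt (1 - e j) / k j) L (𝓝 0)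

def StSec : Prop := ∀ (G : Type) [Group G] (χ : G → ℂ) (k : ℕ → ℕ) (U : Ultrafilter ℕ)
  (σ : ∀ j, G → Matrix (Fin (k j)) (Fin (k j)) ℂ)
  (f : ∀ j, Matrix (Fin (k j)) (Fin (k j)) ℂ), IsExtremalChar χ →
  (∀ᶠ j in (U : Filter ℕ), 0 < k j) → AHom χ k U σ → MinP k U σ f →
  ∃ (k' : ℕ → ℕ) (σ' : ∀ j, G → Matrix (Fin (k' j)) (Fin (k' j)) ℂ),
    (∀ᶠ j in (U : Filter ℕ), 0 < k' j) ∧ AHom χ k' U σ' ∧ TrivProj k' U σ'

/-- Rounding, third form. -/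
def StRound3 : Prop := ∀ (n : Type) [Fintype n] [DecidableEq n] [Nonempty n] (ι : Type)
  (F : Finset ι) (σ : ι → Matrix n n ℂ) (y : Matrix n n ℂ) (η : ℝ), (∀ s, ‖σ s‖ ≤ 1) →
  y.conjTranspose = y → ‖y‖ ≤ 1 → 0 < η → 0 < nn (y - ntr y • (1 : Matrix n n ℂ)) →
  ∃ e : Matrix n n ℂ, Pr e ∧
    nn (y - ntr y • (1 : Matrix n n ℂ)) / 8 ≤
      rt e / Fintype.card n * (1 - rt e / Fintype.card n) ∧
    ∑ s ∈ F, nn (σ s * e - e * σ s) ≤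
      (∑ s ∈ F, Real.sqrt (nn (σ s * y - y * σ s)) + η) / nn (y - ntr y • (1 : Matrix n n ℂ))

/-- Uniform irreducibility. -/
def Modulus {G : Type} (k : ℕ → ℕ) (L : Filter ℕ)
    (σ : ∀ j, G → Matrix (Fin (k j)) (Fin (k j)) ℂ) : Prop :=
  ∀ r : ℕ, ∃ (F : Finset G) (η : ℝ), 0 < η ∧ ∀ᶠ j in L,
    ∀ y : Matrix (Fin (k j)) (Fin (k j)) ℂ, y.conjTranspose = y → ‖y‖ ≤ 1 →
      ∑ g ∈ F, nn (σ j g * y - y * σ j g) ≤ η →
      nn (y - ntr y • (1 : Matrix (Fin (k j)) (Fin (k j)) ℂ)) ≤ 1 / (r + 1)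

def StProjIrr : Prop := ∀ (G : Type) [Group G] [Countable G] (k : ℕ → ℕ) (U : Ultrafilter ℕ)
  (σ : ∀ j, G → Matrix (Fin (k j)) (Fin (k j)) ℂ), Nonprincipal U →
  (∀ᶠ j in (U : Filter ℕ), 0 < k j) → (∀ j g, ‖σ j g‖ ≤ 1) → TrivProj k U σ → Modulus k U σ

def StDim : Prop := ∀ (G : Type) [Group G] (χ : G → ℂ) (k : ℕ → ℕ) (U : Ultrafilter ℕ)
  (σ : ∀ j, G → Matrix (Fin (k j)) (Fin (k j)) ℂ), InfiniteDim χ → AHom χ k U σ →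
  ∀ M : ℕ, ∀ᶠ j in (U : Filter ℕ), M ≤ k j

/-- Finite models. -/
structure Model {G : Type} [Group G] (χ : G → ℂ) (e : ℕ → G) (Fr : ℕ → Finset G) (ηr : ℕ → ℝ)
    (m n : ℕ) (w : G → Matrix (Fin n) (Fin n) ℂ) : Prop where
  norm : ∀ g, ‖w g‖ ≤ 1
  mul : ∀ i ≤ m, ∀ j ≤ m, nn (w (e i) * w (e j) - w (e i * e j)) ≤ 1 / (m + 1)
  unit : ∀ i ≤ m, nn ((w (e i)).conjTranspose * w (e i) - 1) ≤ 1 / (m + 1)
  tr : ∀ i ≤ m, ‖ntr (w (e i)) - χ (e i)‖ ≤ 1 / (m + 1)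
  irr : ∀ r ≤ m, ∀ y : Matrix (Fin n) (Fin n) ℂ, y.conjTranspose = y → ‖y‖ ≤ 1 →
    ∑ g ∈ Fr r, nn (w g * y - y * w g) ≤ ηr r →
    nn (y - ntr y • (1 : Matrix (Fin n) (Fin n) ℂ)) ≤ 1 / (r + 1)

def StModels : Prop := ∀ (G : Type) [Group G] (χ : G → ℂ) (k : ℕ → ℕ) (U : Ultrafilter ℕ)
  (σ : ∀ j, G → Matrix (Fin (k j)) (Fin (k j)) ℂ) (e : ℕ → G), InfiniteDim χ → AHom χ k U σ →
  Modulus k U σ → ∃ (Fr : ℕ → Finset G) (ηr : ℕ → ℝ), (∀ r, 0 < ηr r) ∧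
    ∀ m : ℕ, ∃ n, m ≤ n ∧ ∃ w, Model χ e Fr ηr m n w

/-- From an asymptotic homomorphism with modulus to a homomorphism into the ultraproduct. -/
def StIrr : Prop := ∀ (G : Type) [Group G] (χ : G → ℂ) (k : ℕ → ℕ) (U : Ultrafilter ℕ)
  (σ : ∀ j, G → Matrix (Fin (k j)) (Fin (k j)) ℂ), AHom χ k U σ → Modulus k U σ →
  IrredHom (fun j => Fin (k j)) χ U

def StHas : Prop := ∀ (G : Type) [Group G] (χ : G → ℂ) (e : ℕ → G) (Fr : ℕ → Finset G)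
  (ηr : ℕ → ℝ), Function.Surjective e → (∀ r, 0 < ηr r) →
  (∀ m : ℕ, ∃ n, m ≤ n ∧ ∃ w, Model χ e Fr ηr m n w) → HasIrr χ

/-- Unitary lifts of a homomorphism into the unitary group of the ultraproduct. -/
def StLift : Prop := ∀ (G : Type) [Group G] (χ : G → ℂ) (l : ℕ → ℕ) (V : Ultrafilter ℕ)
  (u : G →* MUlt (fun n => Fin (l n)) V), (∀ g, star (u g) * u g = 1) → (∀ g, tr (u g) = χ g) →
  ∃ (π : ∀ n, G → Matrix (Fin (l n)) (Fin (l n)) ℂ)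
    (x : G → BSeq (fun n => Fin (l n))), (∀ n g, (π n g).conjTranspose * π n g = 1) ∧
    (∀ n g, (x g).1 n = π n g) ∧ (∀ g, mkM V (x g) = u g) ∧ AHom χ l V π

def StGapW : Prop := ∀ (G : Type) [Group G] (χ : G → ℂ) (l : ℕ → ℕ) (V : Ultrafilter ℕ)
  (u : G →* MUlt (fun n => Fin (l n)) V) (π : ∀ n, G → Matrix (Fin (l n)) (Fin (l n)) ℂ)
  (x : G → BSeq (fun n => Fin (l n))), (∀ n g, (π n g).conjTranspose * π n g = 1) →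
  (∀ n g, (x g).1 n = π n g) → (∀ g, mkM V (x g) = u g) → AHom χ l V π → WGap u →
  ∃ (S : Finset G) (K : ℝ), GapH l V π S K

def StGapT : Prop := ∀ (G : Type) [Group G] (χ : G → ℂ) (l : ℕ → ℕ) (V : Ultrafilter ℕ)
  (u : G →* MUlt (fun n => Fin (l n)) V) (π : ∀ n, G → Matrix (Fin (l n)) (Fin (l n)) ℂ)
  (x : G → BSeq (fun n => Fin (l n))), (∀ n g, (π n g).conjTranspose * π n g = 1) →
  (∀ n g, (x g).1 n = π n g) → (∀ g, mkM V (x g) = u g) → AHom χ l V π → FactorT χ →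
  ∃ (S : Finset G) (K : ℝ), GapH l V π S K

/-- Irreducible embeddings have w-spectral gap. -/
def StConv : Prop := ∀ (G : Type) [Group G] [Countable G] (ι : ℕ → Type) [∀ n, Fintype (ι n)]
  [∀ n, DecidableEq (ι n)] (V : Ultrafilter ℕ) (u : G →* MUlt ι V), Nonprincipal V →
  (∀ g, star (u g) * u g = 1) →
  (∀ y : MUlt ι V, (∀ g, y * u g = u g * y) → ∃ c : ℂ, y = algebraMap ℂ (MUlt ι V) c) → WGap u

end Helper61.IE
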