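import Pool.Agent.Helper51.MU.Norms

/-!
# Finite dimensional objects: real trace, projections, commutator energy, averaging operator
-/

namespace Helper61.IE

open Helper51.MU
open scoped Matrix.Norms.L2Operator MatrixOrder ComplexOrder

variable {n : Type} [Fintype n] [DecidableEq n] {ι : Type}

/-- The real part of the (unnormalized) trace. -/
noncomputable def rt (A : Matrix n n ℂ) : ℝ := (Matrix.trace A).re

/-- Orthogonal projections. -/
def Pr (p : Matrix n n ℂ) : Prop := p.conjTranspose = p ∧ p * p = p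

/-- Commutator energy of `y` with the matrices `u s`, `s ∈ F`. -/
noncomputable def En (F : Finset ι) (u : ι → Matrix n n ℂ) (y : Matrix n n ℂ) : ℝ :=
  ∑ s ∈ F, hs (u s * y - y * u s)

/-- The lazy symmetric average of the conjugations by `u s`, `s ∈ F`. -/
noncomputable def TT (F : Finset ι) (u : ι → Matrix n n ℂ) :
    Matrix n n ℂ →ₗ[ℂ] Matrix n n ℂ where
  toFun y := (1 / 2 : ℝ) • y + (1 / (4 * F.card) : ℝ) •
    ∑ s ∈ F, (u s * y * (u s).conjTranspose + (u s).conjTranspose * y * u s)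
  map_add' x y := by
    simp only [mul_add, add_mul, smul_add, Finset.sum_add_distrib]
    abel
  map_smul' c x := by
    simp only [mul_smul_comm, smul_mul_assoc, RingHom.id_apply, ← smul_add, ← Finset.smul_sum]
    rw [smul_comm (1 / 2 : ℝ) c, smul_comm (1 / (4 * F.card) : ℝ) c, smul_add]

/-- The resolvent `(2 - T)⁻¹ q = ∑ 2^{-l-1} T^l q`. -/
noncomputable def RR (F : Finset ι) (u : ι → Matrix n n ℂ) (q : Matrix n n ℂ) : Matrix n n ℂ :=
  ∑' l : ℕ, ((1 / 2 : ℝ) ^ (l + 1)) • ((TT F u ^ l) q)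

/-- `GG S = (1 + S)⁻¹`. -/
noncomputable def GG (S : Matrix n n ℂ) : Matrix n n ℂ := (1 + S)⁻¹

/-- `Γ(q) = Tr q - Λ Tr (q H)`. -/
noncomputable def Gam (Λ : ℝ) (H q : Matrix n n ℂ) : ℝ := rt q - Λ * rt (q * H)

/-- The class of nonzero almost invariant projections. -/
def QQ (F : Finset ι) (u : ι → Matrix n n ℂ) (ε : ℝ) (q : Matrix n n ℂ) : Prop :=
  Pr q ∧ q ≠ 0 ∧ En F u q ≤ ε * rt q

/-- The potential `Tr (H (1 - 2H)^2)`. -/
noncomputable def PotE (H : Matrix n n ℂ) : ℝ :=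
  rt (H * (1 - (2 : ℝ) • H) * (1 - (2 : ℝ) • H))

/-- The Lyapunov function `Tr ((A - B)((1+B)⁻¹ - (1+A)⁻¹))`. -/
noncomputable def Ly (A B : Matrix n n ℂ) : ℝ := rt ((A - B) * (GG B - GG A))

/-- The sum of the regularized projections. -/
noncomputable def SS (F : Finset ι) (u : ι → Matrix n n ℂ) (q : ℕ → Matrix n n ℂ) (i : ℕ) :
    Matrix n n ℂ := ∑ j ∈ Finset.range i, RR F u (q j)

/-- `G_i = (1 + S_i)⁻¹`. -/
noncomputable def Gi (F : Finset ι) (u : ι → Matrix n n ℂ) (q : ℕ → Matrix n n ℂ) (i : ℕ) :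
    Matrix n n ℂ := GG (SS F u q i)

/-- `H_i = 1 - G_i`. -/
noncomputable def Hi (F : Finset ι) (u : ι → Matrix n n ℂ) (q : ℕ → Matrix n n ℂ) (i : ℕ) :
    Matrix n n ℂ := 1 - Gi F u q i

/-- A greedy sequence `q 0, ..., q (N-1)`: each `q i` maximizes `Γ(q)/Tr(q)^2` and the process
stops when `Γ ≤ 0`. -/
structure Greedy (F : Finset ι) (u : ι → Matrix n n ℂ) (ε Λ : ℝ) (q : ℕ → Matrix n n ℂ)
    (N : ℕ) : Prop where
  mem : ∀ i < N, QQ F u ε (q i)
  pos : ∀ i < N, 0 < Gam Λ (Hi F u q i) (q i)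
  max : ∀ i < N, ∀ p, QQ F u ε p →
    Gam Λ (Hi F u q i) p * rt (q i) ^ 2 ≤ Gam Λ (Hi F u q i) (q i) * rt p ^ 2
  stop : ∀ p, QQ F u ε p → Gam Λ (Hi F u q N) p ≤ 0

end Helper61.IE
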