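import Pool.Agent.Helper61.IE.St2

/-!
# Final assembly from the statements
-/

namespace Helper61.IE

open Helper51.MU Filter Topology
open scoped Matrix.Norms.L2Operator MatrixOrder ComplexOrder

lemma AHom.mono {G : Type} [Group G] {χ : G → ℂ} {k : ℕ → ℕ} {L L' : Filter ℕ}
    {σ : ∀ j, G → Matrix (Fin (k j)) (Fin (k j)) ℂ} (h : AHom χ k L σ) (hL : L' ≤ L) :
    AHom χ k L' σ :=
  ⟨h.norm, fun g g' => (h.mul g g').mono_left hL, fun g => (h.unit g).mono_left hL,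
    fun g => (h.tr g).mono_left hL⟩

lemma NoCut.mono {G : Type} {k : ℕ → ℕ} {L L' : Filter ℕ}
    {σ : ∀ j, G → Matrix (Fin (k j)) (Fin (k j)) ℂ} (h : NoCut k L σ) (hL : L' ≤ L) :
    NoCut k L' σ := by
  obtain ⟨S, c, hc, h⟩ := h
  exact ⟨S, c, hc, hL h⟩

/-- The main theorem from the module statements. -/
theorem main_of (hSeq : StSeq) (hMin : StMin) (hSec : StSec) (hPI : StProjIrr)
    (hMod : StModels) (hHas : StHas) (hTyp : StTypBlock)
    {G : Type} [Group G] [Countable G] (χ : G → ℂ) (hχ : IsExtremalChar χ)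
    (hinf : InfiniteDim χ) (l : ℕ → ℕ) (V : Ultrafilter ℕ)
    (π : ∀ n, G → Matrix (Fin (l n)) (Fin (l n)) ℂ)
    (hπ : ∀ n g, (π n g).conjTranspose * π n g = 1) (hA : AHom χ l V π)
    (S : Finset G) (K : ℝ) (hgap : GapH l V π S K) : HasIrr χ := by
  obtain ⟨k, σ, h1, h2, h3⟩ := hSeq G χ l V π S K hπ hgap.1 (hTyp G χ l V π S K hχ hπ hA hgap)
  obtain ⟨U, hU⟩ := exists_nonprincipal
  have hk : ∀ᶠ j in (U : Filter ℕ), 0 < k j := Eventually.of_forall h3
  obtain ⟨f, hf⟩ := hMin G k U σ hU hk (h2.mono (np_le_atTop hU))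
  obtain ⟨k', σ', h4, h5, h6⟩ := hSec G χ k U σ f hχ hk (h1.mono (np_le_atTop hU)) hf
  have h7 := hPI G k' U σ' hU h4 h5.norm h6
  obtain ⟨e, he⟩ := exists_surjective_nat G
  obtain ⟨Fr, ηr, h8, h9⟩ := hMod G χ k' U σ' e hinf h5 h7
  exact hHas G χ e Fr ηr he h8 h9

/-- A Kazhdan group generates factors with property (T). -/
theorem KazhdanT.factorT {G : Type} [Group G] (h : KazhdanT G) (χ : G → ℂ) : FactorT χ := by
  obtain ⟨S, c, hc, h⟩ := h
  refine ⟨S, c, hc, ?_⟩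
  intro H _ _ _ α β hα hβ hcomm _ _ ξ hξ
  let π : G →* (H →L[ℂ] H) :=
    { toFun := fun g => (α g) * (β g)
      map_one' := by rw [map_one, map_one, mul_one]
      map_mul' := by
        intro g g'
        ext ξ
        simp only [map_mul, mul_apply_eq_comp]
        rw [hcomm g' g] }
  exact h H π (fun g ξ => by
    show ‖α g (β g ξ)‖ = ‖ξ‖
    rw [hα, hβ]) ξ hξ

theorem main_of' (hSeq : StSeq) (hMin : StMin) (hSec : StSec) (hPI : StProjIrr)
    (hMod : StModels) (hHas : StHas) (hTyp : StTypBlock) (hLift : StLift) (hGW : StGapW)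
    (hGT : StGapT)
    {G : Type} [Group G] [Countable G] (χ : G → ℂ) (hχ : IsExtremalChar χ)
    (hinf : InfiniteDim χ) (l : ℕ → ℕ) (V : Ultrafilter ℕ)
    (u : G →* MUlt (fun n => Fin (l n)) V) (hu : ∀ g, star (u g) * u g = 1)
    (htr : ∀ g, tr (u g) = χ g) (h : KazhdanT G ∨ FactorT χ ∨ WGap u) : HasIrr χ := by
  obtain ⟨π, x, h1, h2, h3, h4⟩ := hLift G χ l V u hu htr
  have hg : ∃ (S : Finset G) (K : ℝ), GapH l V π S K := by
    rcases h with h | h | h
    · exact hGT G χ l V u π x h1 h2 h3 h4 (h.factorT χ)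
    · exact hGT G χ l V u π x h1 h2 h3 h4 h
    · exact hGW G χ l V u π x h1 h2 h3 h4 h
  obtain ⟨S, K, hSK⟩ := hg
  exact main_of hSeq hMin hSec hPI hMod hHas hTyp χ hχ hinf l V π h1 h4 S K hSK

end Helper61.IE
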