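import Pool.Agent.Helper61.IE.St

/-!
# More basic lemmas
-/

set_option linter.unusedSectionVars false

namespace Helper61.IE

open Helper51.MU
open scoped Matrix.Norms.L2Operator MatrixOrder ComplexOrder

variable {n : Type} [Fintype n] [DecidableEq n] {ι : Type}

/-- `hs (H z) ≤ Tr (q H H)` for `0 ≤ z ≤ q`. -/
lemma hs_mul_le_of_le {H q z : Matrix n n ℂ} (hH : 0 ≤ H) (hq : Pr q) (hz : 0 ≤ z)
    (hzq : z ≤ q) : hs (H * z) ≤ rt (q * H * H) := by
  have h1 : z * z ≤ q :=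
    (le_mul_self_of_le_one hz (hzq.trans hq.le_one)).trans hzq
  rw [hs_eq_rt, Matrix.conjTranspose_mul, herm_of_nonneg hH, herm_of_nonneg hz]
  calc rt (z * H * (H * z)) = rt ((z * z) * (H * H)) := by
        rw [show z * H * (H * z) = (z * (H * H)) * z by noncomm_ring, rt_mul_comm]
        congr 1; noncomm_ring
    _ ≤ rt (q * (H * H)) := by
        refine rt_mul_mono h1 ?_
        have := nonneg_star_mul H
        rwa [herm_of_nonneg hH] at this
    _ = rt (q * H * H) := by rw [mul_assoc]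

lemma hs_mul_le_of_le' {H q z : Matrix n n ℂ} (hH : 0 ≤ H) (hq : Pr q) (hz : 0 ≤ z)
    (hzq : z ≤ q) : hs (z * H) ≤ rt (q * H * H) := by
  rw [← hs_conjTranspose, Matrix.conjTranspose_mul, herm_of_nonneg hH, herm_of_nonneg hz]
  exact hs_mul_le_of_le hH hq hz hzq

/-- `‖z - (1-H) z (1-H)‖₂ ≤ 2 sqrt (Tr (q H H))`. -/
lemma sqrt_hs_sandwich {H q z : Matrix n n ℂ} (hH : 0 ≤ H) (hH1 : H ≤ 1) (hq : Pr q)
    (hz : 0 ≤ z) (hzq : z ≤ q) :
    Real.sqrt (hs (z - (1 - H) * z * (1 - H))) ≤ 2 * Real.sqrt (rt (q * H * H)) := by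
  have h1 : z - (1 - H) * z * (1 - H) = H * z * (1 - H) + z * H := by noncomm_ring
  rw [h1]
  refine (sqrt_hs_add_le _ _).trans ?_
  have h2 : hs (H * z * (1 - H)) ≤ hs (H * z) :=
    hs_mul_right_le (norm_le_one_of_nonneg (sub_nonneg.2 hH1) (sub_le_self _ hH))
  have h3 := Real.sqrt_le_sqrt (h2.trans (hs_mul_le_of_le hH hq hz hzq))
  have h4 := Real.sqrt_le_sqrt (hs_mul_le_of_le' hH hq hz hzq)
  linarith

lemma rt_sandwich_le {H z : Matrix n n ℂ} (hH : 0 ≤ H) (hH1 : H ≤ 1) (hz : 0 ≤ z) :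
    rt ((1 - H) * z * (1 - H)) ≤ rt z := by
  have h0 : 0 ≤ 1 - H := sub_nonneg.2 hH1
  have h1 : (1 - H) * (1 - H) ≤ 1 :=
    (le_mul_self_of_le_one h0 (sub_le_self _ hH)).trans (sub_le_self _ hH)
  calc rt ((1 - H) * z * (1 - H)) = rt (((1 - H) * (1 - H)) * z) := by
        rw [rt_cycle]
    _ ≤ rt (1 * z) := rt_mul_mono h1 hz
    _ = rt z := by rw [one_mul]

lemma sandwich_nonneg {H z : Matrix n n ℂ} (hH : 0 ≤ H) (hz : 0 ≤ z) :
    0 ≤ (1 - H) * z * (1 - H) := by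
  have := conj_nonneg hz (1 - H)
  rwa [Matrix.conjTranspose_sub, Matrix.conjTranspose_one, herm_of_nonneg hH] at this

lemma hs_sandwich_le {H z : Matrix n n ℂ} (hH : 0 ≤ H) (hH1 : H ≤ 1) (hz : 0 ≤ z)
    (hz1 : z ≤ 1) : hs ((1 - H) * z * (1 - H)) ≤ rt z := by
  have hn : ‖(1 : Matrix n n ℂ) - H‖ ≤ 1 :=
    norm_le_one_of_nonneg (sub_nonneg.2 hH1) (sub_le_self _ hH)
  exact ((hs_mul_right_le hn).trans (hs_mul_left_le hn)).trans (hs_le_rt hz hz1)

lemma sandwich_le_one {H z : Matrix n n ℂ} (hH : 0 ≤ H) (hH1 : H ≤ 1)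
    (hz1 : z ≤ 1) : (1 - H) * z * (1 - H) ≤ 1 := by
  have h := conj_mono hz1 (1 - H)
  rw [Matrix.conjTranspose_sub, Matrix.conjTranspose_one, herm_of_nonneg hH, mul_one] at h
  exact h.trans ((le_mul_self_of_le_one (sub_nonneg.2 hH1) (sub_le_self _ hH)).trans
    (sub_le_self _ hH))

lemma En_nonneg (F : Finset ι) (u : ι → Matrix n n ℂ) (y : Matrix n n ℂ) : 0 ≤ En F u y :=
  Finset.sum_nonneg fun _ _ => hs_nonneg _

lemma En_mono {S F : Finset ι} (h : S ⊆ F) (u : ι → Matrix n n ℂ) (y : Matrix n n ℂ) :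
    En S u y ≤ En F u y :=
  Finset.sum_le_sum_of_subset_of_nonneg h fun _ _ _ => hs_nonneg _

lemma En_sub_le (S : Finset ι) (u : ι → Matrix n n ℂ) (x y : Matrix n n ℂ) :
    En S u (x - y) ≤ 2 * En S u x + 2 * En S u y := by
  unfold En
  rw [Finset.mul_sum, Finset.mul_sum, ← Finset.sum_add_distrib]
  refine Finset.sum_le_sum fun s _ => ?_
  have h : u s * (x - y) - (x - y) * u s = (u s * x - x * u s) + -(u s * y - y * u s) := by
    noncomm_ring
  rw [h]
  refine (hs_add_le _ _).trans ?_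
  rw [hs_neg]

/-- Energy of `q e q`. -/
lemma En_compress_le (S : Finset ι) (u : ι → Matrix n n ℂ) {q e : Matrix n n ℂ} (hq : ‖q‖ ≤ 1)
    (he : ‖e‖ ≤ 1) : En S u (q * e * q) ≤ 8 * En S u q + 2 * En S u e := by
  unfold En
  rw [Finset.mul_sum, Finset.mul_sum, ← Finset.sum_add_distrib]
  refine Finset.sum_le_sum fun s _ => ?_
  have h : u s * (q * e * q) - q * e * q * u s =
      ((u s * q - q * u s) * (e * q) + (q * e) * (u s * q - q * u s)) +
        q * (u s * e - e * u s) * q := by noncomm_ring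
  rw [h]
  refine (hs_add_le _ _).trans ?_
  have h1 := hs_add_le ((u s * q - q * u s) * (e * q)) ((q * e) * (u s * q - q * u s))
  have hqe : ‖q * e‖ ≤ 1 := (norm_mul_le _ _).trans (by nlinarith [norm_nonneg q, norm_nonneg e])
  have heq : ‖e * q‖ ≤ 1 := (norm_mul_le _ _).trans (by nlinarith [norm_nonneg q, norm_nonneg e])
  have h2 : hs ((u s * q - q * u s) * (e * q)) ≤ hs (u s * q - q * u s) := hs_mul_right_le heq
  have h3 : hs ((q * e) * (u s * q - q * u s)) ≤ hs (u s * q - q * u s) := hs_mul_left_le hqe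
  have h4 : hs (q * (u s * e - e * u s) * q) ≤ hs (u s * e - e * u s) :=
    (hs_mul_right_le hq).trans (hs_mul_left_le hq)
  linarith

lemma Gam_add (Λ : ℝ) (H x y : Matrix n n ℂ) : Gam Λ H (x + y) = Gam Λ H x + Gam Λ H y := by
  unfold Gam; rw [rt_add, add_mul, rt_add]; ring

end Helper61.IE
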