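import Pool.Agent.Helper61.IE.Lib2

/-!
# The module Block: from a typical `q` to an irreducible block `p`
-/

set_option linter.unusedSectionVars false

namespace Helper61.IE

open Helper51.MU
open scoped Matrix.Norms.L2Operator MatrixOrder ComplexOrder

variable {n : Type} [Fintype n] [DecidableEq n] {ι : Type}

/-- Numerical consequences of `‖p - q‖₂ ≤ 10^{-9} sqrt(Tr q)`. -/
private lemma rt_close {p q : Matrix n n ℂ} (hp : Pr p) (hq : Pr q) (hτ : 1 ≤ rt q)
    (h : hs (p - q) ≤ (1 / 10 ^ 9) ^ 2 * rt q) :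
    rt q ≤ rt p + 2 / 10 ^ 9 * rt q ∧ rt p ≤ rt q + 3 / 10 ^ 9 * rt q := by
  have hτ0 : 0 < rt q := by linarith
  set s := Real.sqrt (rt q) with hs'
  have hs0 : 0 < s := Real.sqrt_pos.2 hτ0
  have hss : s * s = rt q := Real.mul_self_sqrt hτ0.le
  have h1 : Real.sqrt (hs (p - q)) ≤ 1 / 10 ^ 9 * s := by
    have := Real.sqrt_le_sqrt h
    rwa [Real.sqrt_mul (by positivity), Real.sqrt_sq (by positivity)] at this
  have h2 : Real.sqrt (rt p) ≤ s + 1 / 10 ^ 9 * s := by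
    have := sqrt_hs_add_le (p - q) q
    rw [sub_add_cancel, hp.hs, hq.hs] at this
    linarith
  have h3 : s ≤ Real.sqrt (rt p) + 1 / 10 ^ 9 * s := by
    have := sqrt_hs_add_le (q - p) p
    rw [sub_add_cancel, hp.hs, hq.hs, hs_sub_comm] at this
    linarith
  have h4 : Real.sqrt (rt p) * Real.sqrt (rt p) = rt p := Real.mul_self_sqrt hp.rt_nonneg
  have h5 : 0 ≤ Real.sqrt (rt p) := Real.sqrt_nonneg _
  constructor
  · rw [← hss, ← h4]
    nlinarith
  · rw [← hss, ← h4]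
    nlinarith

/-- The construction of the block `p`. -/
private lemma exists_p (hR2 : StRound2) {F : Finset ι} {u : ι → Matrix n n ℂ}
    (hu : ∀ s, (u s).conjTranspose * u s = 1) (TTf : TTFacts F u) (Enf : EnFacts F u)
    {H q : Matrix n n ℂ} (hH0 : 0 ≤ H) (hH1 : H ≤ 1) (hq : Pr q) (hτ1 : 1 ≤ rt q)
    (hb : rt (q * H * H) ≤ rt q / 10 ^ 20) {ε' : ℝ} {k : ℕ}
    (hk2 : 4 * F.card * Real.sqrt (32 / (2 * k + 1)) ≤ ε')
    (hLX : hs ((1 - H) * q * (1 - H) - (TT F u ^ k) ((1 - H) * q * (1 - H))) ≤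
      (1 / 10 ^ 26) ^ 2 * rt q) :
    ∃ p : Matrix n n ℂ, Pr p ∧ p ≤ (4 : ℝ) • (TT F u ^ k) ((1 - H) * q * (1 - H)) ∧
      En F u p ≤ ε' * rt p ∧ rt q / 2 ≤ rt p ∧ hs (p - q) ≤ (1 / 10 ^ 9) ^ 2 * rt q := by
  set y := (1 - H) * q * (1 - H) with hy
  set a := (TT F u ^ k) y with ha
  have hy0 : 0 ≤ y := sandwich_nonneg hH0 hq.nonneg
  have hy1 : y ≤ 1 := sandwich_le_one hH0 hH1 hq.le_one
  have ha0 : 0 ≤ a := TTf.nonneg k y hy0
  have ha1 : a ≤ 1 := by
    have h := TTf.nonneg k (1 - y) (sub_nonneg.2 hy1)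
    rw [map_sub, TTf.one] at h
    exact sub_nonneg.1 h
  have hτ0 : 0 < rt q := by linarith
  have hra : rt a ≤ rt q := by
    rw [ha, TTf.tr]; exact rt_sandwich_le hH0 hH1 hq.nonneg
  have hEa : En F u a ≤ 4 * F.card * rt q / (2 * k + 1) := by
    refine (Enf.pow k y).trans ?_
    have := hs_sandwich_le hH0 hH1 hq.nonneg hq.le_one
    gcongr
  obtain ⟨p, hp, hp4, hEp, hd⟩ := hR2 n ι F u a hu ha0 ha1
  -- distance to `q`
  have hdist : hs (p - q) ≤ (1 / 10 ^ 9) ^ 2 * rt q := by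
    set s := Real.sqrt (rt q) with hs'
    have hs0 : 0 < s := Real.sqrt_pos.2 hτ0
    have hss : s ^ 2 = rt q := Real.sq_sqrt hτ0.le
    have h1 : Real.sqrt (hs (a - y)) ≤ 1 / 10 ^ 26 * s := by
      have := Real.sqrt_le_sqrt hLX
      rwa [Real.sqrt_mul (by positivity), Real.sqrt_sq (by positivity), hs_sub_comm] at this
    have h2 : Real.sqrt (rt (q * H * H)) ≤ 1 / 10 ^ 10 * s := by
      have h3 : rt (q * H * H) ≤ (1 / 10 ^ 10) ^ 2 * rt q := by
        refine hb.trans (le_of_eq ?_); ring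
      have := Real.sqrt_le_sqrt h3
      rwa [Real.sqrt_mul (by positivity), Real.sqrt_sq (by positivity)] at this
    have h3 : Real.sqrt (hs (y - q)) ≤ 2 / 10 ^ 10 * s := by
      have := sqrt_hs_sandwich hH0 hH1 hq hq.nonneg le_rfl
      rw [hs_sub_comm] at this
      linarith
    have h4 : Real.sqrt (hs (a - q)) ≤ (1 / 10 ^ 26 + 2 / 10 ^ 10) * s := by
      have := sqrt_hs_add_le (a - y) (y - q)
      rw [sub_add_sub_cancel] at this
      linarith
    have h5 : hs (a - q) ≤ ((1 / 10 ^ 26 + 2 / 10 ^ 10) * s) ^ 2 := by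
      have h6 := Real.sq_sqrt (hs_nonneg (a - q))
      have h7 := Real.sqrt_nonneg (hs (a - q))
      nlinarith
    refine (hd q hq).trans ?_
    rw [mul_pow, hss] at h5
    have : 16 * ((1 / 10 ^ 26 + 2 / 10 ^ 10) ^ 2 * rt q) ≤ (1 / 10 ^ 9) ^ 2 * rt q := by
      have h8 : (16 : ℝ) * (1 / 10 ^ 26 + 2 / 10 ^ 10) ^ 2 ≤ (1 / 10 ^ 9) ^ 2 := by norm_num
      nlinarith
    linarith
  obtain ⟨hc1, -⟩ := rt_close hp hq hτ1 hdist
  have hp2 : rt q / 2 ≤ rt p := by linarith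
  refine ⟨p, hp, hp4, ?_, hp2, hdist⟩
  refine hEp.trans ?_
  have hk0 : (0 : ℝ) < 2 * k + 1 := by positivity
  have h1 : 8 * (F.card : ℝ) * En F u a * rt a ≤
      (F.card * rt q) ^ 2 * (32 / (2 * k + 1)) := by
    calc 8 * (F.card : ℝ) * En F u a * rt a ≤
        8 * (F.card : ℝ) * (4 * F.card * rt q / (2 * k + 1)) * rt q := by
          have := En_nonneg F u a
          have := rt_nonneg ha0
          gcongr
      _ = _ := by field_simp; ring
  have h2 := Real.sqrt_le_sqrt h1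
  have h2' : Real.sqrt ((F.card * rt q) ^ 2 * (32 / (2 * k + 1))) =
      F.card * rt q * Real.sqrt (32 / (2 * k + 1)) := by
    rw [Real.sqrt_mul (by positivity), Real.sqrt_sq (by positivity)]
  rw [h2'] at h2
  have h3 : 0 ≤ Real.sqrt (32 / (2 * (k : ℝ) + 1)) := Real.sqrt_nonneg _
  calc 2 * Real.sqrt (8 * F.card * En F u a * rt a) ≤
      2 * (F.card * rt q * Real.sqrt (32 / (2 * k + 1))) := by linarith
    _ = (4 * F.card * Real.sqrt (32 / (2 * k + 1))) * (rt q / 2) := by ring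
    _ ≤ ε' * (rt q / 2) := by gcongr
    _ ≤ ε' * rt p := by
      have : 0 ≤ ε' := le_trans (by positivity) hk2
      gcongr

theorem pBlock (hTT : StTT) (hEn : StEn) (hR2 : StRound2) (hSt : StStage) (hTy : StTyp) :
    StBlock := by
  intro n _ _ ι F S u H q ε ε' K k hF hSF hu hε hε' hK hεK hH0 hH1 hQ hGam hmax hk1 hk2 hL hX
  have TTf := hTT n ι F u hF hu
  have Enf := hEn n ι F u hF hu TTf
  have hq : Pr q := hQ.1
  have hτ1 : 1 ≤ rt q := hq.one_le_rt hQ.2.1
  have hτ0 : 0 < rt q := by linarith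
  have hK0 : 0 < K := by linarith
  have hGpos : 0 < Gam (10 ^ 20) H q := lt_of_lt_of_le (by positivity) hGam
  have ho : rt (q * H) ≤ rt q / 10 ^ 20 := by
    unfold Gam at hGpos
    rw [le_div_iff₀ (by positivity)]; linarith
  have hHH : H * H ≤ H := le_mul_self_of_le_one hH0 hH1
  have hb : rt (q * H * H) ≤ rt q / 10 ^ 20 := by
    refine le_trans ?_ ho
    rw [mul_assoc]; exact rt_mul_mono' hHH hq.nonneg
  have hEq : En S u q ≤ ε * rt q := (En_mono hSF u q).trans hQ.2.2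
  have hεK' : 0 ≤ ε * K := by positivity
  -- the typical estimate for a general `z`
  have key : ∀ z : Matrix n n ℂ, 0 ≤ z → z ≤ q → 3 * K * En S u z ≤ (1 / 10 ^ 26) ^ 2 / 2 * rt q →
      hs ((1 - H) * z * (1 - H) - (TT F u ^ k) ((1 - H) * z * (1 - H))) ≤
        (1 / 10 ^ 26) ^ 2 * rt q := fun z hz0 hzq hz =>
    hTy n ι F S u H q z K k hu hK hH0 hH1 hq hz0 hzq (hL z hz0 hzq) hX hz
  have hKq : K * En S u q ≤ 1 / 10 ^ 55 * rt q := by
    calc K * En S u q ≤ K * (ε * rt q) := by gcongr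
      _ = (ε * K) * rt q := by ring
      _ ≤ _ := by gcongr
  obtain ⟨p, hp, hp4, hEp, hp2, hd⟩ := exists_p hR2 hu TTf Enf hH0 hH1 hq hτ1 hb hk2
    (key q hq.nonneg le_rfl (by nlinarith))
  refine ⟨p, hp, hp4, hEp, hp2, ?_⟩
  obtain ⟨hc1, hc2⟩ := rt_close hp hq hτ1 hd
  intro e he hpe he1 he2
  by_contra hcon
  push Not at hcon
  -- `hcon : En S u e ≤ 1 / 10 ^ 54 / K * rt p`
  have hKe : K * En S u e ≤ 101 / 100 / 10 ^ 54 * rt q := by
    calc K * En S u e ≤ K * (1 / 10 ^ 54 / K * rt p) := by gcongr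
      _ = 1 / 10 ^ 54 * rt p := by field_simp
      _ ≤ 1 / 10 ^ 54 * (101 / 100 * rt q) := by
        have : rt p ≤ 101 / 100 * rt q := by linarith
        gcongr
      _ = _ := by ring
  have hep : e * p = e := by
    have := congrArg Matrix.conjTranspose hpe
    rwa [Matrix.conjTranspose_mul, he.1, hp.1] at this
  set s := Real.sqrt (rt q) with hs'
  have hs0 : 0 < s := Real.sqrt_pos.2 hτ0
  have hss : s ^ 2 = rt q := Real.sq_sqrt hτ0.le
  have hD : Real.sqrt (hs (p - q)) ≤ 1 / 10 ^ 9 * s := by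
    have := Real.sqrt_le_sqrt hd
    rwa [Real.sqrt_mul (by positivity), Real.sqrt_sq (by positivity)] at this
  -- `z₁ = q e q`
  have hz1nn : 0 ≤ q * e * q := by
    have := conj_nonneg he.nonneg q
    rwa [hq.1] at this
  have hz1q : q * e * q ≤ q := by
    have := conj_mono he.le_one q
    rwa [hq.1, mul_one, hq.2] at this
  have hz1e : Real.sqrt (hs (q * e * q - e)) ≤ 2 / 10 ^ 9 * s := by
    have h1 : q * e * q - e = (q - p) * (e * q) + (e * (q - p)) := by
      have h2 : p * (e * q) = e * q := by rw [← mul_assoc, hpe]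
      have : (q - p) * (e * q) + e * (q - p) = q * e * q - p * (e * q) + e * q - e * p := by
        noncomm_ring
      rw [this, h2, hep]; abel
    rw [h1]
    refine (sqrt_hs_add_le _ _).trans ?_
    have heq : ‖e * q‖ ≤ 1 := (norm_mul_le _ _).trans
      (by nlinarith [norm_nonneg q, norm_nonneg e, he.norm_le, hq.norm_le])
    have h3 := Real.sqrt_le_sqrt (hs_mul_right_le (A := q - p) heq)
    have h4 := Real.sqrt_le_sqrt (hs_mul_left_le (A := q - p) he.norm_le)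
    rw [hs_sub_comm] at hD
    linarith
  -- `z₂ = q - q e q`, `e' = p - e`
  have hz2nn : 0 ≤ q - q * e * q := sub_nonneg.2 hz1q
  have hz2q : q - q * e * q ≤ q := sub_le_self _ hz1nn
  have he' : Pr (p - e) := hp.sub he hpe
  have hz2e : Real.sqrt (hs (q - q * e * q - (p - e))) ≤ 3 / 10 ^ 9 * s := by
    have h1 : q - q * e * q - (p - e) = (q - p) - (q * e * q - e) := by abel
    rw [h1]
    refine (sqrt_hs_sub_le _ _).trans ?_
    rw [hs_sub_comm] at hD
    linarith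
  have hsq : ∀ (A : Matrix n n ℂ), Real.sqrt (hs A) ≤ 3 / 10 ^ 9 * s →
      hs A ≤ (3 / 10 ^ 9) ^ 2 * rt q := by
    intro A hA
    rw [← hss, ← mul_pow, ← Real.sq_sqrt (hs_nonneg A)]
    gcongr
  -- traces
  have ht1 : rt (q * e * q) ≤ rt e + 3 / 10 ^ 9 * rt q := by
    have h1 : rt (q * e * q) = rt (q * e) := by rw [rt_cycle, hq.2]
    have h2 : rt (q * e) ≤ rt (1 * e) := rt_mul_mono hq.le_one he.nonneg
    rw [one_mul] at h2
    rw [h1]
    have : 0 ≤ 3 / 10 ^ 9 * rt q := by positivity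
    linarith
  have hpq : rt ((1 - q) * p) ≤ (1 / 10 ^ 9) ^ 2 * rt q := by
    have h1 : rt ((1 - q) * p) = hs ((p - q) * p) := by
      have h2 : (p - q) * p = (1 - q) * p := by rw [sub_mul, sub_mul, hp.2, one_mul]
      rw [h2, hs_eq_rt, Matrix.conjTranspose_mul, hp.1, hq.one_sub.1]
      have h3 : p * (1 - q) * ((1 - q) * p) = p * ((1 - q) * (1 - q)) * p := by noncomm_ring
      rw [h3, hq.one_sub.2, rt_cycle, hp.2, rt_mul_comm]
    rw [h1]
    exact (hs_mul_right_le hp.norm_le).trans hd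
  have ht2 : rt (q - q * e * q) ≤ rt (p - e) + 3 / 10 ^ 9 * rt q := by
    have h1 : rt (q * e * q) = rt (q * e) := by rw [rt_cycle, hq.2]
    have h2 : rt ((1 - q) * e) ≤ rt ((1 - q) * p) :=
      rt_mul_mono' (hp.le_of_mul he hpe) hq.one_sub.nonneg
    have h3 : rt ((1 - q) * e) = rt e - rt (q * e) := by rw [sub_mul, rt_sub, one_mul]
    rw [rt_sub, rt_sub, h1]
    have h4 : ((1 : ℝ) / 10 ^ 9) ^ 2 * rt q ≤ 1 / 10 ^ 9 * rt q := by
      have : ((1 : ℝ) / 10 ^ 9) ^ 2 ≤ 1 / 10 ^ 9 := by norm_num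
      gcongr
    linarith
  have hrp : rt p ≤ 101 / 100 * rt q := by linarith
  have hre0 : 0 ≤ rt e := he.rt_nonneg
  have hre0' : 0 ≤ rt (p - e) := he'.rt_nonneg
  have hre : rt e + rt (p - e) = rt p := by rw [rt_sub]; ring
  -- energies
  have hE1 : En S u (q * e * q) ≤ 8 * En S u q + 2 * En S u e :=
    En_compress_le S u hq.norm_le he.norm_le
  have hE2 : En S u (q - q * e * q) ≤ 18 * En S u q + 4 * En S u e := by
    have := En_sub_le S u q (q * e * q)
    linarith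
  have hEe0 := En_nonneg S u e
  have hEq0 := En_nonneg S u q
  have hA1 : 3 * K * En S u (q * e * q) ≤ (1 / 10 ^ 26) ^ 2 / 2 * rt q := by
    have : K * En S u (q * e * q) ≤ 8 * (K * En S u q) + 2 * (K * En S u e) := by nlinarith
    nlinarith
  have hA2 : 3 * K * En S u (q - q * e * q) ≤ (1 / 10 ^ 26) ^ 2 / 2 * rt q := by
    have : K * En S u (q - q * e * q) ≤ 18 * (K * En S u q) + 4 * (K * En S u e) := by nlinarith
    nlinarith
  have hS1 := hSt n ι F u H q (q * e * q) e ε k hF hu hε hH0 hH1 hQ hGpos hmax hk1 hz1nn hz1q he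
    (hsq _ (hz1e.trans (by nlinarith))) ht1 (by linarith) (key _ hz1nn hz1q hA1)
  have hS2 := hSt n ι F u H q (q - q * e * q) (p - e) ε k hF hu hε hH0 hH1 hQ hGpos hmax hk1
    hz2nn hz2q he' (hsq _ hz2e) ht2 (by linarith) (key _ hz2nn hz2q hA2)
  have hsum : Gam (10 ^ 20) H (q * e * q) + Gam (10 ^ 20) H (q - q * e * q) =
      Gam (10 ^ 20) H q := by
    rw [← Gam_add]; congr 1; abel
  have hnn1 : 0 ≤ rt (q * e * q * H * H) := by
    rw [mul_assoc]
    refine rt_mul_nonneg hz1nn ?_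
    have := nonneg_star_mul H
    rwa [herm_of_nonneg hH0] at this
  have hnn2 : 0 ≤ rt ((q - q * e * q) * H * H) := by
    rw [mul_assoc]
    refine rt_mul_nonneg hz2nn ?_
    have := nonneg_star_mul H
    rwa [herm_of_nonneg hH0] at this
  -- final contradiction
  set g := Gam (10 ^ 20) H q with hg
  have hρ1 : 0 ≤ rt e / rt q := by positivity
  have hρ2 : 0 ≤ rt (p - e) / rt q := by positivity
  have hρs : rt e / rt q + rt (p - e) / rt q ≤ 101 / 100 := by
    rw [← add_div, hre, div_le_iff₀ hτ0]; exact hrp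
  have hρ1' : rt e / rt q ≤ 7 / 10 * (101 / 100) := by
    rw [div_le_iff₀ hτ0]; nlinarith
  have hρ2' : rt (p - e) / rt q ≤ 7 / 10 * (101 / 100) := by
    rw [div_le_iff₀ hτ0]; nlinarith
  have hquad : (rt e / rt q + 1 / 10 ^ 4) ^ 2 + (rt (p - e) / rt q + 1 / 10 ^ 4) ^ 2 ≤ 3 / 4 := by
    set x := rt e / rt q
    set w := rt (p - e) / rt q
    nlinarith
  have hfin : g ≤ g * (3 / 4) + 22 / 10 ^ 5 * rt q := by
    have h1 : g * ((rt e / rt q + 1 / 10 ^ 4) ^ 2 + (rt (p - e) / rt q + 1 / 10 ^ 4) ^ 2) ≤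
        g * (3 / 4) := by gcongr
    have h2 : (0 : ℝ) ≤ 10 ^ 20 * rt (q * e * q * H * H) := by positivity
    have h3 : (0 : ℝ) ≤ 10 ^ 20 * rt ((q - q * e * q) * H * H) := by positivity
    have h4 := add_le_add hS1 hS2
    rw [mul_add] at h1
    have h5 : Gam (10 ^ 20) H (q * e * q) + Gam (10 ^ 20) H (q - q * e * q) ≤
        g * (rt e / rt q + 1 / 10 ^ 4) ^ 2 + 11 / 10 ^ 5 * rt q +
          (g * (rt (p - e) / rt q + 1 / 10 ^ 4) ^ 2 + 11 / 10 ^ 5 * rt q) := by
      refine le_trans ?_ h4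
      refine add_le_add ?_ ?_
      · exact le_add_of_nonneg_right h2
      · exact le_add_of_nonneg_right h3
    rw [hsum] at h5
    linarith
  have h6 : rt q / 2 ≤ g := hGam
  linarith

end Helper61.IE
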