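import Pool.Agent.Helper61.IE.St2
import Pool.Agent.Helper61.IE.Lib

/-!
# Compression to almost invariant projections
-/

namespace Helper61.IE

open Helper51.MU Filter Topology
open scoped Matrix.Norms.L2Operator MatrixOrder ComplexOrder

/-- A projection is `W W*` for an isometry `W`. -/
private lemma compr_exists_iso {n : Type} [Fintype n] [DecidableEq n] {p : Matrix n n ℂ}
    (hp : Pr p) : ∃ (k : ℕ) (W : Matrix n (Fin k) ℂ), W.conjTranspose * W = 1 ∧
      W * W.conjTranspose = p ∧ (k : ℝ) = rt p := by
  have hH : p.IsHermitian := hp.1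
  set U : Matrix n n ℂ := (hH.eigenvectorUnitary : Matrix n n ℂ) with hU
  have hUU : U.conjTranspose * U = 1 := by
    have := Unitary.coe_star_mul_self hH.eigenvectorUnitary
    rw [Matrix.star_eq_conjTranspose] at this
    exact this
  have hUU' : U * U.conjTranspose = 1 := unit_comm hUU
  have hsp : p = U * Matrix.diagonal (fun i => ((hH.eigenvalues i : ℝ) : ℂ)) *
      U.conjTranspose := by
    have := hH.spectral_theorem
    rw [Unitary.conjStarAlgAut_apply] at this
    rw [Matrix.star_eq_conjTranspose] at this
    exact this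
  set lam : n → ℂ := fun i => ((hH.eigenvalues i : ℝ) : ℂ) with hlam
  have hD : Matrix.diagonal lam = U.conjTranspose * p * U := by
    rw [hsp]
    calc Matrix.diagonal lam = (U.conjTranspose * U) * Matrix.diagonal lam *
        (U.conjTranspose * U) := by rw [hUU, one_mul, mul_one]
      _ = _ := by simp only [Matrix.mul_assoc]
  have hDD : Matrix.diagonal lam * Matrix.diagonal lam = Matrix.diagonal lam := by
    rw [hD]
    calc U.conjTranspose * p * U * (U.conjTranspose * p * U)
        = U.conjTranspose * p * (U * U.conjTranspose) * p * U := by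
          simp only [Matrix.mul_assoc]
      _ = U.conjTranspose * (p * p) * U := by rw [hUU']; simp only [Matrix.mul_assoc, mul_one]
      _ = _ := by rw [hp.2]
  have hl : ∀ i, lam i * lam i = lam i := by
    intro i
    rw [Matrix.diagonal_mul_diagonal] at hDD
    have := congrFun (Matrix.diagonal_injective hDD) i
    exact this
  have hl' : ∀ i, lam i = if lam i = 1 then 1 else 0 := by
    intro i
    split_ifs with h
    · exact h
    · have h1 : lam i * (lam i - 1) = 0 := by rw [mul_sub, hl i]; ring
      rcases mul_eq_zero.1 h1 with h2 | h2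
      · exact h2
      · exact absurd (sub_eq_zero.1 h2) h
  classical
  let I := {i : n // lam i = 1}
  let e : Fin (Fintype.card I) ≃ I := (Fintype.equivFin I).symm
  let W : Matrix n (Fin (Fintype.card I)) ℂ := U.submatrix id (fun a => (e a : n))
  have hW1 : W.conjTranspose * W = 1 := by
    ext a b
    have h1 : (W.conjTranspose * W) a b = (U.conjTranspose * U) (e a : n) (e b : n) := by
      simp only [Matrix.mul_apply, Matrix.conjTranspose_apply, W, Matrix.submatrix_apply, id]
    rw [h1, hUU, Matrix.one_apply, Matrix.one_apply]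
    have h2 : ((e a : n) = (e b : n)) ↔ a = b :=
      ⟨fun h => e.injective (Subtype.ext h), fun h => by rw [h]⟩
    simp only [h2]
  have hW2 : W * W.conjTranspose = p := by
    ext i j
    have h1 : (W * W.conjTranspose) i j =
        ∑ a : Fin (Fintype.card I), U i (e a : n) * star (U j (e a : n)) := by
      simp only [Matrix.mul_apply, Matrix.conjTranspose_apply, W, Matrix.submatrix_apply, id]
    have h2 : ∑ a : Fin (Fintype.card I), U i (e a : n) * star (U j (e a : n)) =
        ∑ c : I, U i (c : n) * star (U j (c : n)) :=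
      Equiv.sum_comp e (fun c : I => U i (c : n) * star (U j (c : n)))
    have h3 : ∑ c : I, U i (c : n) * star (U j (c : n)) =
        ∑ c ∈ Finset.univ.filter (fun c => lam c = 1), U i c * star (U j c) := by
      rw [Finset.sum_subtype (s := Finset.univ.filter (fun c => lam c = 1))
        (p := fun c => lam c = 1) (by simp)]
    have h4 : p i j = ∑ c, U i c * lam c * star (U j c) := by
      conv_lhs => rw [hsp]
      rw [Matrix.mul_apply]
      refine Finset.sum_congr rfl fun c _ => ?_
      rw [Matrix.mul_diagonal, Matrix.conjTranspose_apply]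
    rw [h1, h2, h3, h4, Finset.sum_filter]
    refine Finset.sum_congr rfl fun c _ => ?_
    by_cases h : lam c = 1
    · rw [if_pos h, h, mul_one]
    · have h0 : lam c = 0 := by rw [hl' c, if_neg h]
      rw [if_neg h, h0, mul_zero, zero_mul]
  refine ⟨Fintype.card I, W, hW1, hW2, ?_⟩
  unfold rt
  rw [← hW2, Matrix.trace_mul_comm, hW1, Matrix.trace_one]
  simp

/-- Isometries are contractions. -/
private lemma compr_norm_iso {n m : Type} [Fintype n] [DecidableEq n] [Fintype m] [DecidableEq m]
    {W : Matrix n m ℂ} (hW : W.conjTranspose * W = 1) : ‖W‖ ≤ 1 := by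
  have h := Matrix.l2_opNorm_conjTranspose_mul_self W
  rw [hW] at h
  have h1 : ‖(1 : Matrix m m ℂ)‖ ≤ 1 := Pr.one.norm_le
  nlinarith [norm_nonneg W]

/-- The Hilbert-Schmidt norm of a compression. -/
private lemma compr_hs {n m : Type} [Fintype n] [DecidableEq n] [Fintype m] [DecidableEq m]
    {W : Matrix n m ℂ} {p : Matrix n n ℂ} (hp : Pr p) (hWW : W * W.conjTranspose = p)
    (X : Matrix n n ℂ) : hs (W.conjTranspose * X * W) ≤ hs (X * p) := by
  have h1 : hs (W.conjTranspose * X * W) = hs (p * X * p) := by
    rw [hs_eq_rt, hs_eq_rt]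
    unfold rt
    congr 1
    have e1 : (W.conjTranspose * X * W).conjTranspose * (W.conjTranspose * X * W) =
        W.conjTranspose * (X.conjTranspose * p * X * W) := by
      rw [Matrix.conjTranspose_mul, Matrix.conjTranspose_mul, Matrix.conjTranspose_conjTranspose,
        ← hWW]
      simp only [Matrix.mul_assoc]
    have e2 : (p * X * p).conjTranspose * (p * X * p) =
        p * (X.conjTranspose * p * X * p) := by
      rw [Matrix.conjTranspose_mul, Matrix.conjTranspose_mul, hp.1]
      calc p * (X.conjTranspose * p) * (p * X * p)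
          = p * (X.conjTranspose * (p * p) * X * p) := by noncomm_ring
        _ = _ := by rw [hp.2]
    rw [e1, e2, Matrix.trace_mul_comm, Matrix.trace_mul_comm p]
    congr 1
    calc X.conjTranspose * p * X * W * W.conjTranspose
        = X.conjTranspose * p * X * (W * W.conjTranspose) := by simp only [Matrix.mul_assoc]
      _ = X.conjTranspose * p * X * (p * p) := by rw [hWW, hp.2]
      _ = _ := by simp only [Matrix.mul_assoc]
  rw [h1, Matrix.mul_assoc]
  exact hs_mul_left_le hp.norm_le

/-- The main estimate for compressions. -/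
private lemma compr_est {n m : Type} [Fintype n] [DecidableEq n] [Fintype m] [DecidableEq m]
    {W : Matrix n m ℂ} {p : Matrix n n ℂ} (hp : Pr p) (hWW : W * W.conjTranspose = p)
    {x y z : Matrix n n ℂ} (hx : ‖x‖ ≤ 1) :
    hs (W.conjTranspose * (x * p * y - z) * W) ≤
      2 * hs (y * p - p * y) + 2 * hs ((x * y - z) * p) := by
  refine (compr_hs hp hWW _).trans ?_
  have h1 : (x * p * y - z) * p = x * ((p * y - y * p) * p) + (x * y - z) * p := by
    have : y * p * p = y * p := by rw [mul_assoc, hp.2]
    rw [sub_mul (p * y), this]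
    noncomm_ring
  rw [h1]
  refine (hs_add_le _ _).trans ?_
  have h2 : hs (x * ((p * y - y * p) * p)) ≤ hs (y * p - p * y) := by
    refine (hs_mul_left_le hx).trans ?_
    rw [hs_sub_comm (y * p)]
    exact hs_mul_right_le hp.norm_le
  linarith

theorem pCompr : StCompr := by
  intro G _ χ l L π p hπ hp hne hcomm hmul hunit htr
  choose k W hW1 hW2 hk using fun j => compr_exists_iso (hp j)
  refine ⟨k, W, fun j => ⟨hW1 j, hW2 j, hk j⟩, ?_, ?_, ?_, ?_⟩
  · intro j g
    have h1 : ‖(W j).conjTranspose‖ ≤ 1 := by
      rw [Matrix.l2_opNorm_conjTranspose]; exact compr_norm_iso (hW1 j)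
    have h2 : ‖(W j).conjTranspose * π j g‖ ≤ 1 := by
      refine (Matrix.l2_opNorm_mul _ _).trans ?_
      nlinarith [norm_nonneg (W j).conjTranspose, norm_nonneg (π j g), hπ j g]
    refine (Matrix.l2_opNorm_mul _ _).trans ?_
    nlinarith [norm_nonneg ((W j).conjTranspose * π j g), norm_nonneg (W j),
      compr_norm_iso (hW1 j)]
  · intro g h
    have hlim : Tendsto (fun j => 2 * (hs (π j h * p j - p j * π j h) / rt (p j)) +
        2 * (hs ((π j g * π j h - π j (g * h)) * p j) / rt (p j))) L (𝓝 0) := by
      have := ((hcomm h).const_mul 2).add ((hmul g h).const_mul 2)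
      simpa using this
    refine squeeze_zero (fun j => nn_nonneg _) (fun j => ?_) hlim
    have e1 : (W j).conjTranspose * π j g * W j * ((W j).conjTranspose * π j h * W j) -
        (W j).conjTranspose * π j (g * h) * W j =
        (W j).conjTranspose * (π j g * p j * π j h - π j (g * h)) * W j := by
      rw [Matrix.mul_sub, Matrix.sub_mul, ← hW2 j]
      simp only [Matrix.mul_assoc]
    show nn ((W j).conjTranspose * π j g * W j * ((W j).conjTranspose * π j h * W j) -
        (W j).conjTranspose * π j (g * h) * W j) ≤ _
    rw [e1]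
    unfold nn
    rw [Fintype.card_fin, hk j, ← mul_div_assoc, ← mul_div_assoc, ← add_div]
    exact div_le_div_of_nonneg_right (compr_est (hp j) (hW2 j) (hπ j g)) (hp j).rt_nonneg
  · intro g
    have hlim : Tendsto (fun j => 2 * (hs (π j g * p j - p j * π j g) / rt (p j)) +
        2 * (hs (((π j g).conjTranspose * π j g - 1) * p j) / rt (p j))) L (𝓝 0) := by
      have := ((hcomm g).const_mul 2).add ((hunit g).const_mul 2)
      simpa using this
    refine squeeze_zero (fun j => nn_nonneg _) (fun j => ?_) hlim
    have e1 : ((W j).conjTranspose * π j g * W j).conjTranspose *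
        ((W j).conjTranspose * π j g * W j) - 1 =
        (W j).conjTranspose * ((π j g).conjTranspose * p j * π j g - 1) * W j := by
      rw [Matrix.mul_sub, Matrix.sub_mul, Matrix.mul_one, hW1 j, ← hW2 j,
        Matrix.conjTranspose_mul, Matrix.conjTranspose_mul, Matrix.conjTranspose_conjTranspose]
      simp only [Matrix.mul_assoc]
    show nn (((W j).conjTranspose * π j g * W j).conjTranspose *
        ((W j).conjTranspose * π j g * W j) - 1) ≤ _
    rw [e1]
    unfold nn
    rw [Fintype.card_fin, hk j, ← mul_div_assoc, ← mul_div_assoc, ← add_div]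
    have hπ' : ‖(π j g).conjTranspose‖ ≤ 1 := by
      rw [Matrix.l2_opNorm_conjTranspose]; exact hπ j g
    exact div_le_div_of_nonneg_right (compr_est (hp j) (hW2 j) hπ') (hp j).rt_nonneg
  · intro g
    refine (htr g).congr fun j => ?_
    show _ = ntr ((W j).conjTranspose * π j g * W j)
    have e1 : ∑ i, ((W j).conjTranspose * π j g * W j) i i = Matrix.trace (p j * π j g) := by
      have : Matrix.trace ((W j).conjTranspose * π j g * W j) = Matrix.trace (p j * π j g) := by
        rw [Matrix.trace_mul_comm, ← hW2 j, Matrix.mul_assoc]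
      rw [← this]
      rfl
    unfold ntr
    rw [e1, Fintype.card_fin, ← hk j]
    simp

end Helper61.IE
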