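import Pool.Agent.Helper61.IE.St2

/-!
# Irreducible embeddings have w-spectral gap
-/

namespace Helper61.IE

open Helper51.MU Filter Topology
open scoped Matrix.Norms.L2Operator MatrixOrder ComplexOrder

private lemma cv_ntr_star_mul {κ : Type} [Fintype κ] (x : Matrix κ κ ℂ) :
    ntr (x.conjTranspose * x) = ((nn x : ℝ) : ℂ) := by
  unfold ntr nn hs
  rw [Complex.ofReal_div, Complex.ofReal_natCast]
  congr 1
  simp only [Matrix.mul_apply, Matrix.conjTranspose_apply]
  rw [Finset.sum_comm, Complex.ofReal_sum]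
  refine Finset.sum_congr rfl fun i _ => ?_
  rw [Complex.ofReal_sum]
  refine Finset.sum_congr rfl fun j _ => ?_
  rw [RCLike.star_def, Complex.conj_mul', Complex.ofReal_pow]

private lemma cv_tendsto_nn {ι : ℕ → Type} [∀ n, Fintype (ι n)] [∀ n, DecidableEq (ι n)]
    {V : Ultrafilter ℕ} (y : BSeq ι) :
    Tendsto (fun n => nn (y.1 n)) V (𝓝 (nrm (mkM V y))) := by
  have h := tendsto_ntr (U := V) (star y * y)
  have h2 := (Complex.continuous_re.tendsto _).comp h
  have h3 : nrm (mkM V y) = (limUnder (V : Filter ℕ) fun n => ntr ((star y * y).1 n)).re := by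
    unfold nrm
    rw [star_mk, ← map_mul, tr_mk]
  rw [h3]
  refine h2.congr fun n => ?_
  have h4 : (star y * y).1 n = (y.1 n).conjTranspose * y.1 n := rfl
  show (ntr ((star y * y).1 n)).re = nn (y.1 n)
  rw [h4, cv_ntr_star_mul, Complex.ofReal_re]

private lemma cv_nrm_nonneg {ι : ℕ → Type} [∀ n, Fintype (ι n)] [∀ n, DecidableEq (ι n)]
    {V : Ultrafilter ℕ} (y : MUlt ι V) : 0 ≤ nrm y := by
  obtain ⟨y, rfl⟩ := mkM_surjective y
  exact ge_of_tendsto' (cv_tendsto_nn y) fun n => nn_nonneg _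

private lemma cv_nn_one_le {κ : Type} [Fintype κ] [DecidableEq κ] :
    nn (1 : Matrix κ κ ℂ) ≤ 1 := by
  have h := nn_le_norm_sq (1 : Matrix κ κ ℂ)
  have h1 : ‖(1 : Matrix κ κ ℂ)‖ ≤ 1 := by
    rcases isEmpty_or_nonempty κ with h | h
    · have : (1 : Matrix κ κ ℂ) = 0 := Subsingleton.elim _ _
      rw [this, norm_zero]
      exact zero_le_one
    · exact le_of_eq CStarRing.norm_one
  nlinarith [norm_nonneg (1 : Matrix κ κ ℂ)]

/-- change of the scalar -/
private lemma cv_change {κ : Type} [Fintype κ] [DecidableEq κ] (x : Matrix κ κ ℂ) (a b : ℂ) :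
    nn (x - a • (1 : Matrix κ κ ℂ)) ≤ 2 * nn (x - b • (1 : Matrix κ κ ℂ)) + 2 * ‖b - a‖ ^ 2 := by
  have e : x - a • (1 : Matrix κ κ ℂ) = (x - b • (1 : Matrix κ κ ℂ)) +
      (b - a) • (1 : Matrix κ κ ℂ) := by
    rw [sub_smul]
    abel
  rw [e]
  refine (nn_add_le _ _).trans ?_
  rw [nn_smul]
  have h1 := cv_nn_one_le (κ := κ)
  have h2 : 0 ≤ ‖b - a‖ ^ 2 := by positivity
  nlinarith

private lemma cv_best {κ : Type} [Fintype κ] [DecidableEq κ] (x : Matrix κ κ ℂ) (c : ℂ) :
    nn (x - ntr x • (1 : Matrix κ κ ℂ)) ≤ 4 * nn (x - c • (1 : Matrix κ κ ℂ)) := by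
  rcases isEmpty_or_nonempty κ with h | h
  · have : x - ntr x • (1 : Matrix κ κ ℂ) = x - c • (1 : Matrix κ κ ℂ) := Subsingleton.elim _ _
    rw [this]
    have := nn_nonneg (x - c • (1 : Matrix κ κ ℂ))
    linarith
  · have h1 := cv_change x (ntr x) c
    have h2 : ‖c - ntr x‖ ^ 2 ≤ nn (x - c • (1 : Matrix κ κ ℂ)) := by
      have h3 := norm_ntr_sq_le (x - c • (1 : Matrix κ κ ℂ))
      rw [ntr_sub, ntr_smul, ntr_one, mul_one] at h3
      rw [norm_sub_rev]
      exact h3
    linarith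

private lemma cv_alg {ι : ℕ → Type} [∀ n, Fintype (ι n)] [∀ n, DecidableEq (ι n)] (c : ℂ)
    (n : ℕ) : ((algebraMap ℂ (BSeq ι) c).1 n : Matrix (ι n) (ι n) ℂ) = c • 1 := by
  show (algebraMap ℂ (∀ n, Matrix (ι n) (ι n) ℂ) c) n = _
  rw [Pi.algebraMap_apply, Algebra.algebraMap_eq_smul_one]

theorem pConv (hDiag : StDiag) : StConv := by
  classical
  intro G _ _ ι _ _ V u hV hu hirr δ hδ
  by_contra hcon
  push Not at hcon
  obtain ⟨e, he⟩ := exists_surjective_nat G
  have hcon' : ∀ m : ℕ, ∃ x : BSeq ι, (∀ n, ‖x.1 n‖ ≤ 1) ∧ ∀ z : MUlt ι V,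
      (∀ g, z * u g = u g * z) →
      ((m : ℝ) + 1) * ∑ s ∈ (Finset.range (m + 1)).image e,
        nrm (u s * mkM V x - mkM V x * u s) + δ < nrm (mkM V x - z) := fun m => hcon _ _
  choose x hx1 hx2 using hcon'
  choose W hW using fun g => mkM_surjective (u g)
  set A : ℕ → ℕ → Prop := fun m j =>
    (∀ i ∈ Finset.range (m + 1), nn ((W (e i)).1 j * (x m).1 j - (x m).1 j * (W (e i)).1 j) ≤
      2 / ((m : ℝ) + 1)) ∧
    δ / 8 < nn ((x m).1 j - ntr ((x m).1 j) • (1 : Matrix (ι j) (ι j) ℂ)) with hAdef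
  have hmpos : ∀ m : ℕ, (0 : ℝ) < (m : ℝ) + 1 := fun m => by positivity
  have hAev : ∀ m, ∀ᶠ j in (V : Filter ℕ), A m j := by
    intro m
    have hle1 : nrm (mkM V (x m)) ≤ 1 := by
      refine le_of_tendsto' (cv_tendsto_nn (x m)) fun n => ?_
      refine (nn_le_norm_sq _).trans ?_
      have := hx1 m n
      nlinarith [norm_nonneg ((x m).1 n)]
    refine (Filter.eventually_and.2 ⟨?_, ?_⟩)
    · rw [Filter.eventually_all_finset]
      intro i hi
      have h0 := hx2 m 0 (fun g => by rw [zero_mul, mul_zero])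
      rw [sub_zero] at h0
      have h1 : nrm (u (e i) * mkM V (x m) - mkM V (x m) * u (e i)) ≤
          ∑ s ∈ (Finset.range (m + 1)).image e,
            nrm (u s * mkM V (x m) - mkM V (x m) * u s) :=
        Finset.single_le_sum (f := fun s => nrm (u s * mkM V (x m) - mkM V (x m) * u s))
          (fun s _ => cv_nrm_nonneg _) (Finset.mem_image_of_mem e hi)
      have h2 : nrm (u (e i) * mkM V (x m) - mkM V (x m) * u (e i)) < 2 / ((m : ℝ) + 1) := by
        rw [lt_div_iff₀ (hmpos m)]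
        have h3 := mul_le_mul_of_nonneg_left h1 (hmpos m).le
        nlinarith
      have h4 := cv_tendsto_nn (V := V) (W (e i) * x m - x m * W (e i))
      rw [map_sub, map_mul, map_mul, hW] at h4
      filter_upwards [h4.eventually (gt_mem_nhds h2)] with j hj
      exact hj.le
    · have h0 := hx2 m (algebraMap ℂ (MUlt ι V) (tr (mkM V (x m))))
        (fun g => Algebra.commutes _ _)
      have hsum : 0 ≤ ∑ s ∈ (Finset.range (m + 1)).image e,
            nrm (u s * mkM V (x m) - mkM V (x m) * u s) :=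
        Finset.sum_nonneg fun s _ => cv_nrm_nonneg _
      have h1 : δ < nrm (mkM V (x m) - algebraMap ℂ (MUlt ι V) (tr (mkM V (x m)))) := by
        have := mul_nonneg (hmpos m).le hsum
        linarith
      have h2 : mkM V (x m) - algebraMap ℂ (MUlt ι V) (tr (mkM V (x m))) =
          mkM V (x m - algebraMap ℂ (BSeq ι) (tr (mkM V (x m)))) := by
        rw [map_sub]
        rfl
      rw [h2] at h1
      have h3 := cv_tendsto_nn (V := V) (x m - algebraMap ℂ (BSeq ι) (tr (mkM V (x m))))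
      have h4 : Tendsto (fun n => ‖ntr ((x m).1 n) - tr (mkM V (x m))‖ ^ 2) V (𝓝 0) := by
        have h5 : Tendsto (fun n => ntr ((x m).1 n)) V (𝓝 (tr (mkM V (x m)))) := tendsto_ntr _
        have := (tendsto_iff_norm_sub_tendsto_zero.1 h5).pow 2
        simpa using this
      have hδ4 : (0 : ℝ) < δ / 4 := by linarith
      filter_upwards [h3.eventually (lt_mem_nhds h1), h4.eventually (gt_mem_nhds hδ4)] with j j1 j2
      have j3 : nn ((x m).1 j - tr (mkM V (x m)) • (1 : Matrix (ι j) (ι j) ℂ)) =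
          nn ((x m - algebraMap ℂ (BSeq ι) (tr (mkM V (x m)))).1 j) := by
        rw [← cv_alg]
        rfl
      have j4 := cv_change ((x m).1 j) (tr (mkM V (x m))) (ntr ((x m).1 j))
      rw [j3] at j4
      linarith
  obtain ⟨m, hm, hA⟩ := hDiag V hV A hAev
  set y : BSeq ι := (⟨fun j => (x (m j)).1 j, ⟨1, fun j => hx1 (m j) j⟩⟩ : Bdd ι) with hy
  have hyv : ∀ j, y.1 j = (x (m j)).1 j := fun j => rfl
  have hcomm : ∀ g, mkM V y * u g = u g * mkM V y := by
    intro g
    rw [← hW g, ← map_mul, ← map_mul, mk_eq_mk]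
    obtain ⟨i, rfl⟩ := he g
    have hlim : Tendsto (fun j => 2 / ((m j : ℝ) + 1)) V (𝓝 0) := by
      have h1 : Tendsto (fun n : ℕ => 2 / ((n : ℝ) + 1)) atTop (𝓝 0) := by
        have := (tendsto_one_div_add_atTop_nhds_zero_nat (𝕜 := ℝ)).const_mul 2
        simpa [div_eq_mul_inv] using this
      exact h1.comp hm
    refine squeeze_zero' (Filter.Eventually.of_forall fun n => nn_nonneg _) ?_ hlim
    filter_upwards [hA, hm.eventually_ge_atTop i] with j j1 j2
    have j3 := j1.1 i (Finset.mem_range.2 (by omega))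
    have j4 : (y * W (e i)).1 j - (W (e i) * y).1 j =
        -((W (e i)).1 j * (x (m j)).1 j - (x (m j)).1 j * (W (e i)).1 j) := by
      rw [neg_sub]
      rfl
    rw [j4, nn_neg]
    exact j3
  obtain ⟨c, hc⟩ := hirr (mkM V y) hcomm
  have hc' : mkM V y = mkM V (algebraMap ℂ (BSeq ι) c) := hc
  rw [mk_eq_mk] at hc'
  have hlt : ∀ᶠ j in (V : Filter ℕ), nn (y.1 j - (algebraMap ℂ (BSeq ι) c).1 j) < δ / 32 :=
    hc'.eventually (gt_mem_nhds (by linarith))
  obtain ⟨j, j1, j2⟩ := (hA.and hlt).exists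
  rw [cv_alg] at j2
  have j3 := cv_best (y.1 j) c
  have j4 := j1.2
  rw [← hyv] at j4
  linarith

end Helper61.IE
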