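import Pool.Agent.Helper61.IE.Lib2

/-!
# The module Core: the finite dimensional core
-/

set_option linter.unusedSectionVars false

namespace Helper61.IE

open Helper51.MU
open scoped Matrix.Norms.L2Operator MatrixOrder ComplexOrder

variable {n : Type} [Fintype n] [DecidableEq n] {ι : Type}

private lemma exists_k (A : ℝ) (_hA : 0 < A) (η : ℝ) (hη : 0 < η) :
    ∃ k0 : ℕ, ∀ k ≥ k0, Real.sqrt (A / (2 * (k : ℝ) + 1)) ≤ η := by
  obtain ⟨k0, hk0⟩ := exists_nat_ge (A / η ^ 2)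
  refine ⟨k0, fun k hk => ?_⟩
  rw [Real.sqrt_le_iff]
  refine ⟨hη.le, ?_⟩
  have h1 : (k0 : ℝ) ≤ k := by exact_mod_cast hk
  have h2 : A / η ^ 2 ≤ 2 * (k : ℝ) + 1 := by
    have : (0 : ℝ) ≤ k := by positivity
    linarith
  rw [div_le_iff₀ (by positivity)] at h2 ⊢
  linarith

/-- Numerics of the masses of the bad sets. -/
private lemma mass_bound {N : ℕ} (τ o b : ℕ → ℝ) (BX BL : ℕ → Prop) [DecidablePred BX]
    [DecidablePred BL] (r : ℝ) (hτ : ∀ i < N, 0 ≤ τ i) (ho : ∀ i < N, 0 ≤ o i)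
    (hbo : ∀ i < N, b i ≤ o i) (hot : ∀ i < N, 10 ^ 20 * o i ≤ τ i)
    (hb : ∀ i < N, ¬ BX i → ¬ BL i → 10 ^ 20 * b i ≤ 32 / 10 ^ 5 * τ i)
    (hX : ∑ i ∈ Finset.range N, (if BX i then τ i else 0) ≤
      4 / 10 ^ 4 * ∑ i ∈ Finset.range N, τ i)
    (hL : ∑ i ∈ Finset.range N, (if BL i then τ i else 0) ≤
      1 / 10 ^ 4 * ∑ i ∈ Finset.range N, τ i)
    (hr : r ≤ 1 / 10 ^ 59)
    (hP : ∑ i ∈ Finset.range N, o i ≤ 100 * ∑ i ∈ Finset.range N, b i +
      21 * r * ∑ i ∈ Finset.range N, τ i) :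
    1 / 2 * ∑ i ∈ Finset.range N, τ i ≤ ∑ i ∈ Finset.range N,
      (if ¬ BX i ∧ ¬ BL i ∧ τ i / 2 ≤ τ i - 10 ^ 20 * o i then τ i else 0) := by
  set m := ∑ i ∈ Finset.range N, τ i with hm
  have hm0 : 0 ≤ m := Finset.sum_nonneg fun i hi => hτ i (Finset.mem_range.1 hi)
  have h1 : ∑ i ∈ Finset.range N, 10 ^ 20 * b i ≤
      ∑ i ∈ Finset.range N, (32 / 10 ^ 5 * τ i + (if BX i then τ i else 0) +
        (if BL i then τ i else 0)) := by
    refine Finset.sum_le_sum fun i hi => ?_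
    have hi' := Finset.mem_range.1 hi
    have h0 := hτ i hi'
    by_cases h2 : BX i
    · rw [if_pos h2]
      have h3 : 10 ^ 20 * b i ≤ τ i := by have := hbo i hi'; have := hot i hi'; linarith
      have h4 : (0 : ℝ) ≤ if BL i then τ i else 0 := by split_ifs <;> linarith
      linarith
    · by_cases h3 : BL i
      · rw [if_pos h3, if_neg h2]
        have h3 : 10 ^ 20 * b i ≤ τ i := by have := hbo i hi'; have := hot i hi'; linarith
        linarith
      · rw [if_neg h2, if_neg h3]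
        have := hb i hi' h2 h3
        linarith
  rw [Finset.sum_add_distrib, Finset.sum_add_distrib, ← Finset.mul_sum, ← Finset.mul_sum,
    ← hm] at h1
  have h2 : 10 ^ 20 * ∑ i ∈ Finset.range N, o i ≤ 10 / 100 * m := by
    have h3 : 10 ^ 20 * ∑ i ∈ Finset.range N, o i ≤
        100 * (10 ^ 20 * ∑ i ∈ Finset.range N, b i) + 10 ^ 20 * (21 * r * m) := by linarith
    have h4 : 10 ^ 20 * (21 * r * m) ≤ 1 / 100 * m := by
      have : 10 ^ 20 * (21 * r) ≤ 1 / 100 := by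
        have : 10 ^ 20 * (21 * r) ≤ 10 ^ 20 * (21 * (1 / 10 ^ 59)) := by gcongr
        refine this.trans ?_
        norm_num
      nlinarith
    linarith
  -- splitting
  have h3 : ∀ i ∈ Finset.range N, τ i ≤
      (if ¬ BX i ∧ ¬ BL i ∧ τ i / 2 ≤ τ i - 10 ^ 20 * o i then τ i else 0) +
      (if BX i then τ i else 0) + (if BL i then τ i else 0) + 2 * (10 ^ 20 * o i) := by
    intro i hi
    have hi' := Finset.mem_range.1 hi
    have h0 := hτ i hi'
    have h0' := ho i hi'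
    by_cases h2 : BX i
    · rw [if_pos h2, if_neg (fun h => h.1 h2)]
      have h4 : (0 : ℝ) ≤ if BL i then τ i else 0 := by split_ifs <;> linarith
      have : 0 ≤ 2 * (10 ^ 20 * o i) := by positivity
      linarith
    · by_cases h3 : BL i
      · rw [if_pos h3, if_neg (fun h => h.2.1 h3), if_neg h2]
        have : 0 ≤ 2 * (10 ^ 20 * o i) := by positivity
        linarith
      · by_cases h4 : τ i / 2 ≤ τ i - 10 ^ 20 * o i
        · rw [if_pos ⟨h2, h3, h4⟩, if_neg h2, if_neg h3]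
          have : 0 ≤ 2 * (10 ^ 20 * o i) := by positivity
          linarith
        · rw [if_neg (fun h => h4 h.2.2), if_neg h2, if_neg h3]
          push Not at h4
          linarith
  have h4 := Finset.sum_le_sum h3
  rw [Finset.sum_add_distrib, Finset.sum_add_distrib, Finset.sum_add_distrib, ← Finset.mul_sum,
    ← Finset.mul_sum, ← hm] at h4
  linarith

theorem pCore (hTT : StTT) (hEn : StEn) (hRR : StRR) (hGr : StGreedy) (hSA : StSumA)
    (hSL : StSumL) (hSP : StSumP) (hSign : StSign) (hStage : StStage) (hTyp : StTyp)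
    (hBl : StBlock) : StCore := by
  classical
  intro g K ε hg hK hε
  have hgR : (1 : ℝ) ≤ g := by exact_mod_cast hg
  have hK0 : 0 < K := by linarith
  set r : ℝ := 1 / (10 ^ 59 * K * g ^ 2) with hr
  have hr0 : 0 < r := by positivity
  have hr1 : r ≤ 1 / 10 ^ 59 := by
    rw [hr]
    refine one_div_le_one_div_of_le (by positivity) ?_
    have : (1 : ℝ) ≤ K * g ^ 2 := by nlinarith [mul_le_mul hK hgR (by norm_num) hK0.le]
    nlinarith
  set ε₀ : ℝ := r ^ 2 with hε₀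
  have hε₀0 : 0 < ε₀ := by positivity
  have hsq : Real.sqrt ε₀ = r := Real.sqrt_sq hr0.le
  obtain ⟨k1, hk1⟩ := exists_k 80000 (by norm_num) (ε₀ / 10 ^ 6 / g) (by positivity)
  obtain ⟨k2, hk2⟩ := exists_k 32 (by norm_num) (ε / (4 * g)) (by positivity)
  refine ⟨max k1 k2, ?_⟩
  set k := max k1 k2 with hk
  intro n _ _ _ ι F S u hFg hSF hu hgap
  have hF : F.Nonempty := by
    rw [← Finset.card_pos, hFg]; exact hg
  have hgc : (F.card : ℝ) = g := by rw [hFg]
  have TTf := hTT n ι F u hF hu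
  have Enf := hEn n ι F u hF hu TTf
  have RRf := hRR n ι F u hF hu TTf
  have hkA : F.card * Real.sqrt (80000 / (2 * k + 1)) ≤ ε₀ / 10 ^ 6 := by
    have h := hk1 k (le_max_left _ _)
    rw [hgc]
    calc (g : ℝ) * Real.sqrt (80000 / (2 * k + 1)) ≤ g * (ε₀ / 10 ^ 6 / g) := by gcongr
      _ = ε₀ / 10 ^ 6 := by field_simp
  have hkB : 4 * F.card * Real.sqrt (32 / (2 * k + 1)) ≤ ε := by
    have h := hk2 k (le_max_right _ _)
    rw [hgc]
    calc 4 * (g : ℝ) * Real.sqrt (32 / (2 * k + 1)) ≤ 4 * g * (ε / (4 * g)) := by gcongr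
      _ = ε := by field_simp
  obtain ⟨q, N, hq⟩ := hGr n ι F u ε₀ (10 ^ 20) hF hu RRf hε₀0 (by norm_num)
  obtain ⟨hS1, hS2⟩ := hSA n ι F u ε₀ (10 ^ 20) q N hF hu RRf hε₀0 (by norm_num) hq
  have hS3 := hSL n ι F u ε₀ q N hF hu RRf hε₀0 hq.mem
  have hS4 := hSP n ι F u ε₀ q N hF hu RRf hε₀0 hq.mem
  rw [hsq] at hS3 hS4
  -- basic facts about the stages
  have hSS : ∀ i ≤ N, 0 ≤ SS F u q i := by
    intro i hi
    refine Finset.sum_nonneg fun j hj => ?_
    have hj' : j < N := lt_of_lt_of_le (Finset.mem_range.1 hj) hi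
    have h1 := (hq.mem j hj').1.nonneg
    exact (smul_nonneg_real (by norm_num) h1).trans (RRf.half _ h1)
  have hH0 : ∀ i < N, 0 ≤ Hi F u q i := fun i hi => one_sub_GG_nonneg (hSS i hi.le)
  have hH1 : ∀ i < N, Hi F u q i ≤ 1 := fun i hi => one_sub_GG_le_one (hSS i hi.le)
  have hGH : ∀ i, 1 - Hi F u q i = Gi F u q i := fun i => sub_sub_cancel _ _
  have hpr : ∀ i < N, Pr (q i) := fun i hi => (hq.mem i hi).1
  have hτ1 : ∀ i < N, 1 ≤ rt (q i) := fun i hi => (hpr i hi).one_le_rt (hq.mem i hi).2.1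
  have ho : ∀ i < N, 0 ≤ rt (q i * Hi F u q i) := fun i hi =>
    rt_mul_nonneg (hpr i hi).nonneg (hH0 i hi)
  have hbo : ∀ i < N, rt (q i * Hi F u q i * Hi F u q i) ≤ rt (q i * Hi F u q i) := by
    intro i hi
    rw [mul_assoc]
    exact rt_mul_mono' (le_mul_self_of_le_one (hH0 i hi) (hH1 i hi)) (hpr i hi).nonneg
  have hot : ∀ i < N, 10 ^ 20 * rt (q i * Hi F u q i) ≤ rt (q i) := by
    intro i hi
    have := hq.pos i hi
    unfold Gam at this
    linarith
  have hGle : ∀ i < N, Gam (10 ^ 20) (Hi F u q i) (q i) ≤ rt (q i) := by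
    intro i hi
    unfold Gam
    have := ho i hi
    have : (0 : ℝ) ≤ 10 ^ 20 * rt (q i * Hi F u q i) := by positivity
    linarith
  -- the bad sets
  let BX : ℕ → Prop := fun i => ¬ (6 * K * ∑ s ∈ S, rt (q i *
    ((1 - Hi F u q i) - u s * (1 - Hi F u q i) * (u s).conjTranspose) *
      ((1 - Hi F u q i) - u s * (1 - Hi F u q i) * (u s).conjTranspose)) ≤
        (1 / 10 ^ 26) ^ 2 / 4 * rt (q i))
  let BL : ℕ → Prop := fun i => ¬ (∀ z : Matrix n n ℂ, 0 ≤ z → z ≤ q i →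
    hs ((1 - Hi F u q i) * z * (1 - Hi F u q i) -
      (TT F u ^ k) ((1 - Hi F u q i) * z * (1 - Hi F u q i))) -
      K * En S u ((1 - Hi F u q i) * z * (1 - Hi F u q i)) ≤ (1 / 10 ^ 26) ^ 2 / 4 * rt (q i))
  -- mass of BX
  have hXm : ∑ i ∈ Finset.range N, (if BX i then rt (q i) else 0) ≤
      4 / 10 ^ 4 * ∑ i ∈ Finset.range N, rt (q i) := by
    set m := ∑ i ∈ Finset.range N, rt (q i) with hm
    have hm0 : 0 ≤ m := Finset.sum_nonneg fun i hi => by
      have := hτ1 i (Finset.mem_range.1 hi); linarith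
    have h1 : ∑ i ∈ Finset.range N, (1 / 10 ^ 26) ^ 2 / 4 * (if BX i then rt (q i) else 0) ≤
        ∑ i ∈ Finset.range N, 6 * K * ∑ s ∈ S, rt (q i *
          (Gi F u q i - u s * Gi F u q i * (u s).conjTranspose) *
          (Gi F u q i - u s * Gi F u q i * (u s).conjTranspose)) := by
      refine Finset.sum_le_sum fun i hi => ?_
      have hi' := Finset.mem_range.1 hi
      have hnn : 0 ≤ 6 * K * ∑ s ∈ S, rt (q i *
          (Gi F u q i - u s * Gi F u q i * (u s).conjTranspose) *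
          (Gi F u q i - u s * Gi F u q i * (u s).conjTranspose)) := by
        refine mul_nonneg (by positivity) (Finset.sum_nonneg fun s _ => ?_)
        rw [mul_assoc]
        refine rt_mul_nonneg (hpr i hi').nonneg ?_
        have hG : (Gi F u q i).conjTranspose = Gi F u q i := GG_herm (hSS i hi'.le)
        have h2 := nonneg_star_mul (Gi F u q i - u s * Gi F u q i * (u s).conjTranspose)
        rw [Matrix.conjTranspose_sub, Matrix.conjTranspose_mul, Matrix.conjTranspose_mul,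
          Matrix.conjTranspose_conjTranspose, hG, ← mul_assoc] at h2
        exact h2
      by_cases h2 : BX i
      · rw [if_pos h2]
        have h3 : ¬ _ := h2
        rw [hGH] at h3
        push Not at h3
        exact h3.le
      · rw [if_neg h2, mul_zero]
        exact hnn
    rw [← Finset.mul_sum, ← Finset.mul_sum, Finset.sum_comm] at h1
    have h2 : ∑ s ∈ S, ∑ i ∈ Finset.range N, rt (q i *
          (Gi F u q i - u s * Gi F u q i * (u s).conjTranspose) *
          (Gi F u q i - u s * Gi F u q i * (u s).conjTranspose)) ≤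
        ∑ s ∈ S, 128 * g * r * m := by
      refine Finset.sum_le_sum fun s hs => ?_
      have := hS3 s (hSF hs)
      rwa [hgc] at this
    rw [Finset.sum_const, nsmul_eq_mul] at h2
    have h3 : (S.card : ℝ) ≤ g := by
      rw [← hgc]; exact_mod_cast Finset.card_le_card hSF
    have h4 : (S.card : ℝ) * (128 * g * r * m) ≤ g * (128 * g * r * m) := by gcongr
    have h5 : 6 * K * (g * (128 * g * r * m)) = 768 / 10 ^ 59 * m := by
      rw [hr]; field_simp; ring
    have h6 : (1 / 10 ^ 26) ^ 2 / 4 * ∑ i ∈ Finset.range N, (if BX i then rt (q i) else 0) ≤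
        768 / 10 ^ 59 * m := by
      refine h1.trans ?_
      rw [← h5]
      have : 0 ≤ 6 * K := by positivity
      exact mul_le_mul_of_nonneg_left (h2.trans h4) this
    have h7 : ∑ i ∈ Finset.range N, (if BX i then rt (q i) else 0) ≤
        4 * 10 ^ 52 * (768 / 10 ^ 59 * m) := by
      have h8 : ∑ i ∈ Finset.range N, (if BX i then rt (q i) else 0) =
          4 * 10 ^ 52 * ((1 / 10 ^ 26) ^ 2 / 4 *
            ∑ i ∈ Finset.range N, (if BX i then rt (q i) else 0)) := by ring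
      rw [h8]
      gcongr
    refine h7.trans ?_
    have h9 : (4 : ℝ) * 10 ^ 52 * (768 / 10 ^ 59) ≤ 4 / 10 ^ 4 := by norm_num
    nlinarith
  -- mass of BL
  have hLm : ∑ i ∈ Finset.range N, (if BL i then rt (q i) else 0) ≤
      1 / 10 ^ 4 * ∑ i ∈ Finset.range N, rt (q i) := by
    set m := ∑ i ∈ Finset.range N, rt (q i) with hm
    have hz : ∀ i, ∃ z : Matrix n n ℂ, BL i → (0 ≤ z ∧ z ≤ q i ∧ (1 / 10 ^ 26) ^ 2 / 4 * rt (q i) <
        hs ((1 - Hi F u q i) * z * (1 - Hi F u q i) -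
        (TT F u ^ k) ((1 - Hi F u q i) * z * (1 - Hi F u q i))) -
        K * En S u ((1 - Hi F u q i) * z * (1 - Hi F u q i))) := by
      intro i
      by_cases h : BL i
      · have h' : ¬ _ := h
        push Not at h'
        obtain ⟨z, h1, h2, h3⟩ := h'
        exact ⟨z, fun _ => ⟨h1, h2, h3⟩⟩
      · exact ⟨0, fun h' => absurd h' h⟩
    choose z hz using hz
    set J := (Finset.range N).filter BL with hJ
    have hJm : ∀ i ∈ J, i < N ∧ BL i := by
      intro i hi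
      rw [hJ, Finset.mem_filter, Finset.mem_range] at hi
      exact hi
    have hGs : ∀ i < N, (Gi F u q i).conjTranspose = Gi F u q i := fun i hi =>
      GG_herm (hSS i hi.le)
    have hy0 : ∀ i ∈ J, 0 ≤ (1 - Hi F u q i) * z i * (1 - Hi F u q i) := by
      intro i hi
      exact sandwich_nonneg (hH0 i (hJm i hi).1) (hz i (hJm i hi).2).1
    have hy4 : ∑ i ∈ J, (1 - Hi F u q i) * z i * (1 - Hi F u q i) ≤ (4 : ℝ) • 1 := by
      refine le_trans ?_ hS1
      refine le_trans (Finset.sum_le_sum (g := fun i => Gi F u q i * q i * Gi F u q i)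
        fun i hi => ?_) ?_
      · obtain ⟨h1, h2⟩ := hJm i hi
        have := conj_mono (hz i h2).2.1 (Gi F u q i)
        rw [hGs i h1] at this
        rw [hGH]; exact this
      · refine Finset.sum_le_sum_of_subset_of_nonneg (Finset.filter_subset _ _) fun i hi _ => ?_
        have h1 := Finset.mem_range.1 hi
        have := conj_nonneg (hpr i h1).nonneg (Gi F u q i)
        rwa [hGs i h1] at this
    have h1 := hSign n ι F S u K (1 / 10 ^ 78) k J _ hK0.le (by norm_num) TTf hgap hy0 hy4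
    have h2 : ∑ i ∈ J, (1 / 10 ^ 26) ^ 2 / 4 * rt (q i) ≤ 16 * (1 / 10 ^ 78) * (Fintype.card n : ℝ) := by
      refine le_trans (Finset.sum_le_sum fun i hi => ?_) h1
      exact ((hz i (hJm i hi).2).2.2).le
    rw [← Finset.mul_sum] at h2
    rw [← Finset.sum_filter, ← hJ]
    have h3 : ∑ i ∈ J, rt (q i) = 4 * 10 ^ 52 * ((1 / 10 ^ 26) ^ 2 / 4 * ∑ i ∈ J, rt (q i)) := by
      ring
    rw [h3]
    calc 4 * 10 ^ 52 * ((1 / 10 ^ 26) ^ 2 / 4 * ∑ i ∈ J, rt (q i)) ≤
        4 * 10 ^ 52 * (16 * (1 / 10 ^ 78) * (Fintype.card n : ℝ)) := by gcongr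
      _ ≤ 4 * 10 ^ 52 * (16 * (1 / 10 ^ 78) * (10 ^ 20 * m)) := by gcongr
      _ = 64 / 10 ^ 6 * m := by ring
      _ ≤ 1 / 10 ^ 4 * m := by
        have hm0 : 0 ≤ m := Finset.sum_nonneg fun i hi => by
          have := hτ1 i (Finset.mem_range.1 hi); linarith
        have : (64 : ℝ) / 10 ^ 6 ≤ 1 / 10 ^ 4 := by norm_num
        gcongr
  -- the typical estimate of `b`
  have hεK : ε₀ * K ≤ 1 / 10 ^ 55 := by
    have h1 : ε₀ * K = r * (r * K) := by rw [hε₀]; ring
    have h2 : r * K ≤ 1 / 10 ^ 59 := by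
      rw [hr]
      rw [div_mul_eq_mul_div, one_mul, div_le_div_iff₀ (by positivity) (by positivity)]
      have : (1 : ℝ) ≤ (g : ℝ) ^ 2 := by nlinarith
      nlinarith
    rw [h1]
    calc r * (r * K) ≤ 1 / 10 ^ 59 * (1 / 10 ^ 59) := by gcongr
      _ ≤ _ := by norm_num
  have hbt : ∀ i < N, ¬ BX i → ¬ BL i →
      10 ^ 20 * rt (q i * Hi F u q i * Hi F u q i) ≤ 32 / 10 ^ 5 * rt (q i) := by
    intro i hi hx hl
    have hx' := not_not.1 hx
    have hl' := not_not.1 hl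
    have hτ := hτ1 i hi
    have hEq : 3 * K * En S u (q i) ≤ (1 / 10 ^ 26) ^ 2 / 2 * rt (q i) := by
      have h1 : En S u (q i) ≤ ε₀ * rt (q i) := (En_mono hSF u _).trans (hq.mem i hi).2.2
      calc 3 * K * En S u (q i) ≤ 3 * K * (ε₀ * rt (q i)) := by gcongr
        _ = 3 * (ε₀ * K) * rt (q i) := by ring
        _ ≤ 3 * (1 / 10 ^ 55) * rt (q i) := by gcongr
        _ ≤ _ := by
          have : (3 : ℝ) * (1 / 10 ^ 55) ≤ (1 / 10 ^ 26) ^ 2 / 2 := by norm_num
          gcongr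
    have h1 := hTyp n ι F S u (Hi F u q i) (q i) (q i) K k hu hK (hH0 i hi) (hH1 i hi)
      (hpr i hi) (hpr i hi).nonneg le_rfl (hl' (q i) (hpr i hi).nonneg le_rfl) hx' hEq
    have h2 := hStage n ι F u (Hi F u q i) (q i) (q i) (q i) ε₀ k hF hu hε₀0 (hH0 i hi)
      (hH1 i hi) (hq.mem i hi) (hq.pos i hi) (hq.max i hi) hkA (hpr i hi).nonneg le_rfl
      (hpr i hi) (by rw [sub_self, hs_zero]; positivity)
      (by have : 0 ≤ 3 / 10 ^ 9 * rt (q i) := by positivity
          linarith) (by linarith) h1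
    rw [div_self (by linarith)] at h2
    have h3 := hGle i hi
    have h4 : Gam (10 ^ 20) (Hi F u q i) (q i) * (1 + 1 / 10 ^ 4) ^ 2 ≤
        Gam (10 ^ 20) (Hi F u q i) (q i) + 21 / 10 ^ 5 * rt (q i) := by
      have h5 : (1 + 1 / 10 ^ 4 : ℝ) ^ 2 ≤ 1 + 21 / 10 ^ 5 := by norm_num
      have h6 := (hq.pos i hi).le
      calc Gam (10 ^ 20) (Hi F u q i) (q i) * (1 + 1 / 10 ^ 4) ^ 2 ≤
          Gam (10 ^ 20) (Hi F u q i) (q i) * (1 + 21 / 10 ^ 5) := by gcongr
        _ = Gam (10 ^ 20) (Hi F u q i) (q i) +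
            21 / 10 ^ 5 * Gam (10 ^ 20) (Hi F u q i) (q i) := by ring
        _ ≤ _ := by gcongr
    have h5 : Gam (10 ^ 20) (Hi F u q i) (q i) + 10 ^ 20 * rt (q i * Hi F u q i * Hi F u q i) ≤
        Gam (10 ^ 20) (Hi F u q i) (q i) + 21 / 10 ^ 5 * rt (q i) + 11 / 10 ^ 5 * rt (q i) :=
      h2.trans (by gcongr)
    linarith
  have hmass := mass_bound (N := N) (fun i => rt (q i)) (fun i => rt (q i * Hi F u q i))
    (fun i => rt (q i * Hi F u q i * Hi F u q i)) BX BL r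
    (fun i hi => by have := hτ1 i hi; linarith) ho hbo hot hbt hXm hLm hr1 hS4
  -- the blocks
  have hp : ∀ i, ∃ p : Matrix n n ℂ, i < N → (¬ BX i ∧ ¬ BL i ∧
      rt (q i) / 2 ≤ rt (q i) - 10 ^ 20 * rt (q i * Hi F u q i)) →
      (Pr p ∧ p ≤ (4 : ℝ) • (TT F u ^ k) ((1 - Hi F u q i) * q i * (1 - Hi F u q i)) ∧
      En F u p ≤ ε * rt p ∧ rt (q i) / 2 ≤ rt p ∧
      ∀ e : Matrix n n ℂ, Pr e → p * e = e → 3 / 10 * rt p ≤ rt e → rt e ≤ 7 / 10 * rt p →
        1 / 10 ^ 54 / K * rt p < En S u e) := by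
    intro i
    by_cases hi : i < N ∧ (¬ BX i ∧ ¬ BL i ∧
      rt (q i) / 2 ≤ rt (q i) - 10 ^ 20 * rt (q i * Hi F u q i))
    · obtain ⟨hi, hx, hl, hg⟩ := hi
      obtain ⟨p, h⟩ := hBl n ι F S u (Hi F u q i) (q i) ε₀ ε K k hF hSF hu hε₀0 hε hK hεK
        (hH0 i hi) (hH1 i hi) (hq.mem i hi) hg (hq.max i hi) hkA hkB (not_not.1 hl)
        (not_not.1 hx)
      exact ⟨p, fun _ _ => h⟩
    · exact ⟨0, fun h1 h2 => absurd ⟨h1, h2⟩ hi⟩
  choose p hp using hp
  set I := (Finset.range N).filter (fun i => ¬ BX i ∧ ¬ BL i ∧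
      rt (q i) / 2 ≤ rt (q i) - 10 ^ 20 * rt (q i * Hi F u q i)) with hI
  have hIm : ∀ i ∈ I, i < N ∧ (¬ BX i ∧ ¬ BL i ∧
      rt (q i) / 2 ≤ rt (q i) - 10 ^ 20 * rt (q i * Hi F u q i)) := by
    intro i hi
    rw [hI, Finset.mem_filter, Finset.mem_range] at hi
    exact hi
  have hpI : ∀ i ∈ I, _ := fun i hi => hp i (hIm i hi).1 (hIm i hi).2
  refine ⟨I, p, ?_, ?_, ?_⟩
  · intro i hi
    obtain ⟨h1, h2, h3, h4, h5⟩ := hpI i hi
    refine ⟨h1, ?_, h3, h5⟩
    rintro h0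
    rw [h0, rt_zero] at h4
    have := hτ1 i (hIm i hi).1
    linarith
  · have h1 : ∑ i ∈ I, p i ≤ ∑ i ∈ I,
        (4 : ℝ) • (TT F u ^ k) ((1 - Hi F u q i) * q i * (1 - Hi F u q i)) :=
      Finset.sum_le_sum fun i hi => (hpI i hi).2.1
    refine h1.trans ?_
    rw [← Finset.smul_sum, ← map_sum]
    have h2 : ∑ i ∈ I, (1 - Hi F u q i) * q i * (1 - Hi F u q i) ≤ (4 : ℝ) • 1 := by
      refine le_trans ?_ hS1
      simp only [hGH]
      refine Finset.sum_le_sum_of_subset_of_nonneg (Finset.filter_subset _ _) fun i hi _ => ?_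
      have h1 := Finset.mem_range.1 hi
      have := conj_nonneg (hpr i h1).nonneg (Gi F u q i)
      rwa [show (Gi F u q i).conjTranspose = Gi F u q i from GG_herm (hSS i h1.le)] at this
    have h3 := TTf.nonneg k _ (sub_nonneg.2 h2)
    have h4 : (TT F u ^ k) ((4 : ℝ) • (1 : Matrix n n ℂ)) = (4 : ℝ) • 1 := by
      have : ((4 : ℝ) • (1 : Matrix n n ℂ)) = (4 : ℂ) • (1 : Matrix n n ℂ) := by
        ext i j; simp
      rw [this, map_smul, TTf.one]
    rw [map_sub, h4, sub_nonneg] at h3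
    have h5 := smul_mono_real (c := 4) (by norm_num) h3
    refine h5.trans (le_of_eq ?_)
    rw [smul_smul]; norm_num
  · have h1 : ∑ i ∈ I, rt (q i) / 2 ≤ ∑ i ∈ I, rt (p i) :=
      Finset.sum_le_sum fun i hi => (hpI i hi).2.2.2.1
    rw [← Finset.sum_div] at h1
    rw [← Finset.sum_filter, ← hI] at hmass
    have h2 : (0 : ℝ) ≤ Fintype.card n := by positivity
    have h3 : (Fintype.card n : ℝ) / 10 ^ 20 ≤ ∑ i ∈ Finset.range N, rt (q i) := by
      rw [div_le_iff₀ (by positivity)]; linarith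
    have h4 : 1 / 10 ^ 21 * (Fintype.card n : ℝ) ≤ (Fintype.card n : ℝ) / 10 ^ 20 / 4 := by
      rw [div_div]
      have : (1 : ℝ) / 10 ^ 21 ≤ 1 / (10 ^ 20 * 4) := by norm_num
      calc 1 / 10 ^ 21 * (Fintype.card n : ℝ) ≤ 1 / (10 ^ 20 * 4) * (Fintype.card n : ℝ) := by
            gcongr
        _ = _ := by ring
    linarith

end Helper61.IE
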