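import Pool.Agent.Helper61.IE.St2
import Pool.Agent.Helper61.IE.Lib

/-!
# Cuts of the compression
-/

namespace Helper61.IE

open Helper51.MU Filter Topology
open scoped Matrix.Norms.L2Operator MatrixOrder ComplexOrder

/-- Sum of three terms. -/
private lemma cutc_hs_three {n : Type} [Fintype n] (A B C : Matrix n n ℂ) :
    hs (A + B + C) ≤ 3 * hs A + 3 * hs B + 3 * hs C := by
  have h : ∀ a b c : ℂ, ‖a + b + c‖ ^ 2 ≤ 3 * ‖a‖ ^ 2 + 3 * ‖b‖ ^ 2 + 3 * ‖c‖ ^ 2 := by
    intro a b c
    have h1 : ‖a + b + c‖ ≤ ‖a‖ + ‖b‖ + ‖c‖ := norm_add₃_le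
    have h2 : ‖a + b + c‖ ^ 2 ≤ (‖a‖ + ‖b‖ + ‖c‖) ^ 2 := by gcongr
    nlinarith [sq_nonneg (‖a‖ - ‖b‖), sq_nonneg (‖a‖ - ‖c‖), sq_nonneg (‖b‖ - ‖c‖)]
  simp only [hs, Finset.mul_sum, ← Finset.sum_add_distrib]
  exact Finset.sum_le_sum fun i _ => Finset.sum_le_sum fun j _ => by simpa using h _ _ _

/-- The Hilbert-Schmidt norm of `W X W*` for an isometry `W`. -/
private lemma cutc_hs_conj {n m : Type} [Fintype n] [DecidableEq n] [Fintype m] [DecidableEq m]
    (W : Matrix n m ℂ) (hW : W.conjTranspose * W = 1) (X : Matrix m m ℂ) :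
    hs (W * X * W.conjTranspose) = hs X := by
  rw [hs_eq_rt, hs_eq_rt]
  unfold rt
  congr 1
  have h1 : (W * X * W.conjTranspose).conjTranspose * (W * X * W.conjTranspose)
      = W * (X.conjTranspose * X * W.conjTranspose) := by
    rw [Matrix.conjTranspose_mul, Matrix.conjTranspose_mul, Matrix.conjTranspose_conjTranspose]
    calc W * (X.conjTranspose * W.conjTranspose) * (W * X * W.conjTranspose)
        = W * (X.conjTranspose * (W.conjTranspose * W) * X * W.conjTranspose) := by
          simp only [Matrix.mul_assoc]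
      _ = _ := by rw [hW, Matrix.mul_one]
  rw [h1, Matrix.trace_mul_comm, Matrix.mul_assoc, hW, Matrix.mul_one]

theorem pCutC : StCutC := by
  intro n m _ _ _ _ ι S π W e hW hπ he
  set p : Matrix n n ℂ := W * W.conjTranspose with hp
  set q : Matrix n n ℂ := W * e * W.conjTranspose with hq
  have hpst : p.conjTranspose = p := by
    rw [hp, Matrix.conjTranspose_mul, Matrix.conjTranspose_conjTranspose]
  have hpp : p * p = p := by
    rw [hp]
    calc W * W.conjTranspose * (W * W.conjTranspose)
        = W * (W.conjTranspose * W) * W.conjTranspose := by simp only [Matrix.mul_assoc]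
      _ = _ := by rw [hW, Matrix.mul_one]
  have hPp : Pr p := ⟨hpst, hpp⟩
  have hqst : q.conjTranspose = q := by
    rw [hq, Matrix.conjTranspose_mul, Matrix.conjTranspose_mul,
      Matrix.conjTranspose_conjTranspose, he.1]
    simp only [Matrix.mul_assoc]
  have hqq : q * q = q := by
    rw [hq]
    calc W * e * W.conjTranspose * (W * e * W.conjTranspose)
        = W * (e * (W.conjTranspose * W) * e) * W.conjTranspose := by
          simp only [Matrix.mul_assoc]
      _ = _ := by rw [hW, Matrix.mul_one, he.2]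
  have hPq : Pr q := ⟨hqst, hqq⟩
  have hpq : p * q = q := by
    rw [hp, hq]
    calc W * W.conjTranspose * (W * e * W.conjTranspose)
        = W * (W.conjTranspose * W) * e * W.conjTranspose := by simp only [Matrix.mul_assoc]
      _ = _ := by rw [hW, Matrix.mul_one]
  have hqp : q * p = q := by
    have := congrArg Matrix.conjTranspose hpq
    rwa [Matrix.conjTranspose_mul, hqst, hpst] at this
  have hrt : rt q = rt e := by
    unfold rt
    rw [hq, Matrix.mul_assoc, Matrix.trace_mul_comm, Matrix.mul_assoc, hW, Matrix.mul_one]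
  refine ⟨hPq, hpq, hrt, ?_⟩
  have key : ∀ s, hs (π s * q - q * π s) ≤
      3 * hs (W.conjTranspose * π s * W * e - e * (W.conjTranspose * π s * W)) +
        6 * hs (π s * p - p * π s) := by
    intro s
    have hA : W * (W.conjTranspose * π s * W * e - e * (W.conjTranspose * π s * W)) *
        W.conjTranspose = p * π s * q - q * π s * p := by
      rw [Matrix.mul_sub, Matrix.sub_mul, hp, hq]
      simp only [Matrix.mul_assoc]
    have hB : (1 - p) * (π s * p - p * π s) * q = (1 - p) * π s * q := by
      have h1 : (1 - p) * p = 0 := by rw [sub_mul, one_mul, hpp, sub_self]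
      calc (1 - p) * (π s * p - p * π s) * q
          = (1 - p) * π s * (p * q) - ((1 - p) * p) * π s * q := by noncomm_ring
        _ = _ := by rw [h1, hpq]; simp
    have hC : q * (π s * p - p * π s) * (1 - p) = - (q * π s * (1 - p)) := by
      have h1 : p * (1 - p) = 0 := by rw [mul_sub, mul_one, hpp, sub_self]
      calc q * (π s * p - p * π s) * (1 - p)
          = q * π s * (p * (1 - p)) - (q * p) * π s * (1 - p) := by noncomm_ring
        _ = _ := by rw [h1, hqp]; simp
    have hdec : π s * q - q * π s =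
        W * (W.conjTranspose * π s * W * e - e * (W.conjTranspose * π s * W)) *
          W.conjTranspose + (1 - p) * (π s * p - p * π s) * q +
          q * (π s * p - p * π s) * (1 - p) := by
      rw [hA, hB, hC]
      noncomm_ring
    rw [hdec]
    refine (cutc_hs_three _ _ _).trans ?_
    rw [cutc_hs_conj W hW]
    have h1 : hs ((1 - p) * (π s * p - p * π s) * q) ≤ hs (π s * p - p * π s) :=
      (hs_mul_right_le hPq.norm_le).trans (hs_mul_left_le hPp.one_sub.norm_le)
    have h2 : hs (q * (π s * p - p * π s) * (1 - p)) ≤ hs (π s * p - p * π s) :=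
      (hs_mul_right_le hPp.one_sub.norm_le).trans (hs_mul_left_le hPq.norm_le)
    linarith
  unfold En
  rw [Finset.mul_sum, Finset.mul_sum, ← Finset.sum_add_distrib]
  exact Finset.sum_le_sum fun s _ => key s

end Helper61.IE
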