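import Pool.Agent.Helper61.IE.St2

/-!
# Module Dim: the dimensions tend to infinity
-/

namespace Helper61.IE

open Helper51.MU Filter Topology
open scoped Matrix.Norms.L2Operator MatrixOrder ComplexOrder

section dim

variable {k : ℕ → ℕ} {U : Ultrafilter ℕ}

private def Eqv (k : ℕ → ℕ) (U : Ultrafilter ℕ) (x y : ∀ j, Matrix (Fin (k j)) (Fin (k j)) ℂ) :
    Prop := Tendsto (fun j => nn (x j - y j)) U (𝓝 0)

private lemma Eqv.symm {x y : ∀ j, Matrix (Fin (k j)) (Fin (k j)) ℂ} (h : Eqv k U x y) :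
    Eqv k U y x := by
  unfold Eqv at h ⊢
  refine h.congr fun j => ?_
  rw [← nn_neg, neg_sub]

private lemma Eqv.trans {x y z : ∀ j, Matrix (Fin (k j)) (Fin (k j)) ℂ} (h : Eqv k U x y)
    (h' : Eqv k U y z) : Eqv k U x z := by
  unfold Eqv at h h' ⊢
  have h1 : Tendsto (fun j => 2 * nn (x j - y j) + 2 * nn (y j - z j)) U (𝓝 0) := by
    simpa using (h.const_mul 2).add (h'.const_mul 2)
  refine squeeze_zero (fun j => nn_nonneg _) (fun j => ?_) h1
  have := nn_add_le (x j - y j) (y j - z j)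
  rwa [sub_add_sub_cancel] at this

private lemma Eqv.mul_left {x y z : ∀ j, Matrix (Fin (k j)) (Fin (k j)) ℂ} (h : Eqv k U x y)
    (hz : ∀ j, ‖z j‖ ≤ 1) : Eqv k U (fun j => z j * x j) (fun j => z j * y j) := by
  unfold Eqv at h ⊢
  refine squeeze_zero (fun j => nn_nonneg _) (fun j => ?_) h
  rw [← mul_sub]
  refine (nn_mul_le_left _ _).trans ?_
  have h1 : ‖z j‖ ^ 2 ≤ 1 := pow_le_one₀ (norm_nonneg _) (hz j)
  nlinarith [nn_nonneg (x j - y j)]

private lemma Eqv.mul_right {x y z : ∀ j, Matrix (Fin (k j)) (Fin (k j)) ℂ} (h : Eqv k U x y)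
    (hz : ∀ j, ‖z j‖ ≤ 1) : Eqv k U (fun j => x j * z j) (fun j => y j * z j) := by
  unfold Eqv at h ⊢
  refine squeeze_zero (fun j => nn_nonneg _) (fun j => ?_) h
  rw [← sub_mul]
  refine (nn_mul_le_right _ _).trans ?_
  have h1 : ‖z j‖ ^ 2 ≤ 1 := pow_le_one₀ (norm_nonneg _) (hz j)
  nlinarith [nn_nonneg (x j - y j)]

private lemma Eqv.tr {x y : ∀ j, Matrix (Fin (k j)) (Fin (k j)) ℂ} (h : Eqv k U x y) {a : ℂ}
    (hy : Tendsto (fun j => ntr (y j)) U (𝓝 a)) : Tendsto (fun j => ntr (x j)) U (𝓝 a) := by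
  have h1 : Tendsto (fun j => ntr (x j - y j)) U (𝓝 0) :=
    tendsto_zero_of_nn (κ := fun j => Fin (k j)) h
  have h2 := h1.add hy
  rw [zero_add] at h2
  refine h2.congr fun j => ?_
  rw [ntr_sub]; ring

private lemma gram_tendsto {G : Type} [Group G] {χ : G → ℂ}
    {σ : ∀ j, G → Matrix (Fin (k j)) (Fin (k j)) ℂ} (H : AHom χ k U σ) (g h : G) :
    Tendsto (fun j => ntr ((σ j g).conjTranspose * σ j h)) U (𝓝 (χ (g⁻¹ * h))) := by
  have hn : ∀ g, ∀ j, ‖σ j g‖ ≤ 1 := fun g j => H.norm j g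
  have hn' : ∀ g, ∀ j, ‖(σ j g).conjTranspose‖ ≤ 1 := fun g j => by
    rw [Matrix.l2_opNorm_conjTranspose]; exact H.norm j g
  have hmul : ∀ g h, Eqv k U (fun j => σ j g * σ j h) (fun j => σ j (g * h)) := H.mul
  have hunit : ∀ g, Eqv k U (fun j => (σ j g).conjTranspose * σ j g) (fun _ => 1) := H.unit
  -- `σ 1 ≈ 1`
  have e1 : Eqv k U (fun j => (σ j 1).conjTranspose * (σ j 1 * σ j 1)) (fun j => σ j 1) := by
    have h1 := (hunit 1).mul_right (hn 1)
    have h2 : (fun j => (σ j 1).conjTranspose * σ j 1 * σ j 1) =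
        fun j => (σ j 1).conjTranspose * (σ j 1 * σ j 1) := by
      funext j; rw [mul_assoc]
    rw [h2] at h1
    simpa using h1
  have e2 : Eqv k U (fun j => (σ j 1).conjTranspose * (σ j 1 * σ j 1)) (fun _ => 1) := by
    have h1 := (hmul 1 1).mul_left (hn' 1)
    rw [mul_one] at h1
    exact h1.trans (hunit 1)
  have e3 : Eqv k U (fun j => σ j 1) (fun _ => 1) := e1.symm.trans e2
  -- `σ(g)^* ≈ σ(g⁻¹)`
  have e4 : Eqv k U (fun j => (σ j g).conjTranspose) (fun j => σ j g⁻¹) := by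
    have h1 : Eqv k U (fun j => (σ j g).conjTranspose * σ j 1) (fun j => (σ j g).conjTranspose * 1) :=
      e3.mul_left (hn' g)
    have h2 : Eqv k U (fun j => (σ j g).conjTranspose * (σ j g * σ j g⁻¹))
        (fun j => (σ j g).conjTranspose * σ j 1) := by
      have := (hmul g g⁻¹).mul_left (hn' g)
      rwa [mul_inv_cancel] at this
    have h3 : Eqv k U (fun j => (σ j g).conjTranspose * (σ j g * σ j g⁻¹)) (fun j => σ j g⁻¹) := by
      have h4 := (hunit g).mul_right (hn g⁻¹)
      have h5 : (fun j => (σ j g).conjTranspose * σ j g * σ j g⁻¹) =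
          fun j => (σ j g).conjTranspose * (σ j g * σ j g⁻¹) := by
        funext j; rw [mul_assoc]
      rw [h5] at h4
      simpa using h4
    have h6 := (h2.trans h1).symm.trans h3
    simpa using h6
  have e5 : Eqv k U (fun j => (σ j g).conjTranspose * σ j h) (fun j => σ j (g⁻¹ * h)) :=
    (e4.mul_right (hn h)).trans (hmul g⁻¹ h)
  exact e5.tr (H.tr _)

private lemma gram_det {K N : ℕ} (hKN : K * K < N) (v : Fin N → Matrix (Fin K) (Fin K) ℂ) :
    (Matrix.of fun a b => ntr ((v a).conjTranspose * v b)).det = 0 := by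
  have hdep : ¬ LinearIndependent ℂ v := by
    intro h
    have := h.fintype_card_le_finrank
    rw [Fintype.card_fin, Module.finrank_matrix] at this
    simp at this
    omega
  rw [Fintype.not_linearIndependent_iff] at hdep
  obtain ⟨c, hc, i, hi⟩ := hdep
  apply Matrix.exists_mulVec_eq_zero_iff.1
  refine ⟨c, fun h0 => hi (congrFun h0 i), ?_⟩
  funext a
  rw [Matrix.mulVec, dotProduct, Pi.zero_apply]
  have h1 : ∑ b, (Matrix.of fun a b => ntr ((v a).conjTranspose * v b)) a b * c b =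
      ntr ((v a).conjTranspose * ∑ b, c b • v b) := by
    rw [Finset.mul_sum]
    have hlin : ∀ (s : Finset (Fin N)) (f : Fin N → Matrix (Fin K) (Fin K) ℂ),
        ntr (∑ b ∈ s, f b) = ∑ b ∈ s, ntr (f b) := by
      intro s f
      induction s using Finset.induction_on with
      | empty => simp [ntr]
      | insert b s hb ih => rw [Finset.sum_insert hb, Finset.sum_insert hb, ntr_add, ih]
    rw [hlin]
    refine Finset.sum_congr rfl fun b _ => ?_
    rw [Matrix.of_apply, mul_smul_comm, ntr_smul, mul_comm]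
  rw [h1, hc, mul_zero]
  simp [ntr]

end dim

theorem pDim : StDim := by
  intro G _ χ k U σ hinf H M
  by_contra hM
  rw [← Ultrafilter.eventually_not] at hM
  obtain ⟨q, hq⟩ := hinf (M * M + 1)
  apply hq
  have h1 : Tendsto (fun j => (Matrix.of fun a b =>
      ntr ((σ j (q a)).conjTranspose * σ j (q b))).det) U
      (𝓝 (Matrix.of fun a b => χ ((q a)⁻¹ * q b)).det) := by
    have hc : Continuous fun A : Matrix (Fin (M * M + 1)) (Fin (M * M + 1)) ℂ => A.det :=
      Continuous.matrix_det continuous_id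
    refine (hc.tendsto _).comp ?_
    exact tendsto_pi_nhds.2 fun a => tendsto_pi_nhds.2 fun b => gram_tendsto H (q a) (q b)
  have h2 : Tendsto (fun j => (Matrix.of fun a b =>
      ntr ((σ j (q a)).conjTranspose * σ j (q b))).det) U (𝓝 0) := by
    refine tendsto_const_nhds.congr' ?_
    filter_upwards [hM] with j hj
    rw [gram_det]
    have : k j < M := not_le.1 hj
    nlinarith
  exact tendsto_nhds_unique h1 h2

end Helper61.IE
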