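import Pool.Agent.Helper61.IE.St

/-!
# Module En: energy and the averaging operator
-/

set_option autoImplicit false
set_option linter.unusedSectionVars false

namespace Helper61.IE

open Helper51.MU
open scoped Matrix.Norms.L2Operator MatrixOrder ComplexOrder

section

variable {n : Type} [Fintype n] [DecidableEq n] {ι : Type} {F : Finset ι} {u : ι → Matrix n n ℂ}

private lemma en_swap (v y : Matrix n n ℂ) :
    rt (y.conjTranspose * (v.conjTranspose * y * v)) =
      rt (y.conjTranspose * (v * y * v.conjTranspose)) := by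
  rw [← rt_conjTranspose]
  have e : (y.conjTranspose * (v.conjTranspose * y * v)).conjTranspose =
      v.conjTranspose * (y.conjTranspose * (v * y)) := by
    simp only [Matrix.conjTranspose_mul, Matrix.conjTranspose_conjTranspose, mul_assoc]
  rw [e, rt_mul_comm]
  simp only [mul_assoc]

private lemma en_term {v : Matrix n n ℂ} (hv : v.conjTranspose * v = 1) (y : Matrix n n ℂ) :
    hs (v * y - y * v) = 2 * hs y - 2 * rt (y.conjTranspose * (v * y * v.conjTranspose)) := by
  rw [hs_comm_unit hv, hs_eq_rt, Matrix.conjTranspose_sub, sub_mul, mul_sub, mul_sub, rt_sub,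
    rt_sub, rt_sub, ← hs_eq_rt, ← hs_eq_rt]
  have h1 : hs (v * y * v.conjTranspose) = hs y := by
    rw [hs_mul_unit (by rw [Matrix.conjTranspose_conjTranspose]; exact unit_comm hv),
      hs_unit_mul hv]
  have h2 : rt ((v * y * v.conjTranspose).conjTranspose * y) =
      rt (y.conjTranspose * (v * y * v.conjTranspose)) := by
    rw [← rt_conjTranspose, Matrix.conjTranspose_mul, Matrix.conjTranspose_conjTranspose]
  rw [h1, h2]
  ring

private lemma en_TT (y : Matrix n n ℂ) : rt (y.conjTranspose * TT F u y) =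
    1 / 2 * hs y + 1 / (4 * F.card) *
      ∑ s ∈ F, 2 * rt (y.conjTranspose * (u s * y * (u s).conjTranspose)) := by
  have e : TT F u y = (1 / 2 : ℝ) • y + (1 / (4 * F.card) : ℝ) •
    ∑ s ∈ F, (u s * y * (u s).conjTranspose + (u s).conjTranspose * y * u s) := rfl
  rw [e, mul_add, mul_smul_comm, mul_smul_comm, rt_add, rt_smul, rt_smul, ← hs_eq_rt,
    Finset.mul_sum, rt_sum]
  congr 2
  refine Finset.sum_congr rfl fun s _ => ?_
  rw [mul_add, rt_add, en_swap]
  ring

private lemma en_eq (hF : F.Nonempty) (hu : ∀ s, (u s).conjTranspose * u s = 1)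
    (y : Matrix n n ℂ) :
    En F u y = 4 * F.card * (hs y - rt (y.conjTranspose * TT F u y)) := by
  have hc : (0 : ℝ) < F.card := by exact_mod_cast hF.card_pos
  have h1 : En F u y = ∑ s ∈ F,
      (2 * hs y - 2 * rt (y.conjTranspose * (u s * y * (u s).conjTranspose))) :=
    Finset.sum_congr rfl fun s _ => en_term (hu s) y
  rw [h1, en_TT, Finset.sum_sub_distrib, Finset.sum_const, nsmul_eq_mul]
  field_simp
  ring

private lemma en_nonneg (y : Matrix n n ℂ) : 0 ≤ En F u y :=
  Finset.sum_nonneg fun _ _ => hs_nonneg _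

private lemma en_form_nonneg (hF : F.Nonempty) (hu : ∀ s, (u s).conjTranspose * u s = 1)
    (x : Matrix n n ℂ) : 0 ≤ rt (x.conjTranspose * TT F u x) := by
  have hc : (0 : ℝ) < F.card := by exact_mod_cast hF.card_pos
  rw [en_TT]
  have h1 : ∀ s ∈ F, -(2 * hs x) ≤
      2 * rt (x.conjTranspose * (u s * x * (u s).conjTranspose)) := by
    intro s _
    have h2 := abs_rt_mul_le x.conjTranspose (u s * x * (u s).conjTranspose)
    have h3 : hs (u s * x * (u s).conjTranspose) = hs x := by
      rw [hs_mul_unit (by rw [Matrix.conjTranspose_conjTranspose]; exact unit_comm (hu s)),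
        hs_unit_mul (hu s)]
    rw [h3, hs_conjTranspose, Real.mul_self_sqrt (hs_nonneg x)] at h2
    have h4 := (abs_le.1 h2).1
    linarith
  have h2 := Finset.sum_le_sum h1
  rw [Finset.sum_const, nsmul_eq_mul] at h2
  have h3 : 1 / (4 * F.card) * (F.card * -(2 * hs x)) ≤ 1 / (4 * F.card) *
      ∑ s ∈ F, 2 * rt (x.conjTranspose * (u s * x * (u s).conjTranspose)) :=
    mul_le_mul_of_nonneg_left h2 (by positivity)
  have h4 : 1 / (4 * F.card) * (F.card * -(2 * hs x)) = -(1 / 2 * hs x) := by
    field_simp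
    ring
  linarith

/-- moments -/
private lemma en_mom (hT : TTFacts F u) (y : Matrix n n ℂ) (a b : ℕ) :
    rt (((TT F u ^ a) y).conjTranspose * (TT F u ^ b) y) =
      rt (y.conjTranspose * (TT F u ^ (a + b)) y) := by
  rw [hT.star, ← hT.symm, pow_add]
  rfl

private lemma en_mom1 (hT : TTFacts F u) (y : Matrix n n ℂ) (a b : ℕ) :
    rt (((TT F u ^ a) y).conjTranspose * TT F u ((TT F u ^ b) y)) =
      rt (y.conjTranspose * (TT F u ^ (a + b + 1)) y) := by
  have h1 : TT F u ((TT F u ^ b) y) = (TT F u ^ (b + 1)) y := by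
    rw [pow_succ']
    rfl
  rw [h1, en_mom hT]
  rfl

private lemma en_conv (hF : F.Nonempty) (hu : ∀ s, (u s).conjTranspose * u s = 1)
    (hT : TTFacts F u) (y : Matrix n n ℂ) (j : ℕ) :
    0 ≤ rt (y.conjTranspose * (TT F u ^ j) y) - 2 * rt (y.conjTranspose * (TT F u ^ (j + 1)) y) +
      rt (y.conjTranspose * (TT F u ^ (j + 2)) y) := by
  obtain ⟨i, hi | hi⟩ := Nat.even_or_odd' j
  · have h1 := hs_nonneg ((TT F u ^ i) y - (TT F u ^ (i + 1)) y)
    rw [hs_eq_rt, Matrix.conjTranspose_sub, sub_mul, mul_sub, mul_sub, rt_sub, rt_sub, rt_sub,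
      en_mom hT, en_mom hT, en_mom hT, en_mom hT] at h1
    have e1 : i + i = j := by omega
    have e2 : i + (i + 1) = j + 1 := by omega
    have e3 : i + 1 + i = j + 1 := by omega
    have e4 : i + 1 + (i + 1) = j + 2 := by omega
    rw [e1, e2, e3, e4] at h1
    linarith
  · have h1 := en_form_nonneg hF hu ((TT F u ^ i) y - (TT F u ^ (i + 1)) y)
    rw [Matrix.conjTranspose_sub, map_sub, sub_mul, mul_sub, mul_sub, rt_sub, rt_sub, rt_sub,
      en_mom1 hT, en_mom1 hT, en_mom1 hT, en_mom1 hT] at h1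
    have e1 : i + i + 1 = j := by omega
    have e2 : i + (i + 1) + 1 = j + 1 := by omega
    have e3 : i + 1 + i + 1 = j + 1 := by omega
    have e4 : i + 1 + (i + 1) + 1 = j + 2 := by omega
    rw [e1, e2, e3, e4] at h1
    linarith

private lemma en_pow (hF : F.Nonempty) (hu : ∀ s, (u s).conjTranspose * u s = 1)
    (hT : TTFacts F u) (k : ℕ) (y : Matrix n n ℂ) :
    En F u ((TT F u ^ k) y) ≤ 4 * F.card * hs y / (2 * k + 1) := by
  have hc : (0 : ℝ) < F.card := by exact_mod_cast hF.card_pos
  set m : ℕ → ℝ := fun j => rt (y.conjTranspose * (TT F u ^ j) y) with hm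
  have hconv : ∀ j, m (j + 1) - m (j + 2) ≤ m j - m (j + 1) := by
    intro j
    have := en_conv hF hu hT y j
    simp only [hm]
    linarith
  have hmono : ∀ i j, i ≤ j → m j - m (j + 1) ≤ m i - m (i + 1) := by
    intro i j hij
    induction j, hij using Nat.le_induction with
    | base => exact le_rfl
    | succ j _ ih => exact (hconv j).trans ih
  have hsum : ∀ J : ℕ, ∑ j ∈ Finset.range J, (m j - m (j + 1)) = m 0 - m J :=
    fun J => Finset.sum_range_sub' m J
  have h0 : m 0 = hs y := by
    simp only [hm, pow_zero]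
    rw [hs_eq_rt]
    rfl
  have hlast : 0 ≤ m (2 * k + 1) := by
    have h1 := en_form_nonneg hF hu ((TT F u ^ k) y)
    rw [en_mom1 hT] at h1
    have e : k + k + 1 = 2 * k + 1 := by omega
    rw [e] at h1
    exact h1
  have h1 : ((2 * k + 1 : ℕ) : ℝ) * (m (2 * k) - m (2 * k + 1)) ≤ hs y := by
    have h2 : ∑ _j ∈ Finset.range (2 * k + 1), (m (2 * k) - m (2 * k + 1)) ≤
        ∑ j ∈ Finset.range (2 * k + 1), (m j - m (j + 1)) :=
      Finset.sum_le_sum fun j hj => hmono j (2 * k) (by have := Finset.mem_range.1 hj; omega)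
    rw [Finset.sum_const, Finset.card_range, nsmul_eq_mul, hsum, h0] at h2
    linarith
  have h2 : En F u ((TT F u ^ k) y) = 4 * F.card * (m (2 * k) - m (2 * k + 1)) := by
    rw [en_eq hF hu, hs_eq_rt, en_mom hT, en_mom1 hT]
    have e1 : k + k = 2 * k := by omega
    rw [e1]
  rw [h2, le_div_iff₀ (by positivity)]
  push_cast at h1
  nlinarith

end

theorem pEn : StEn := by
  intro n _ _ ι F u hF hu hT
  exact ⟨en_eq hF hu, en_pow hF hu hT⟩

end Helper61.IE
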