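import Pool.Agent.Helper61.IE.St

/-!
# IE module G2: second order estimates for the resolvent
-/

namespace Helper61.IE

open Helper51.MU
open scoped Matrix.Norms.L2Operator MatrixOrder ComplexOrder

section G2

variable {n : Type} [Fintype n] [DecidableEq n]

/-- `GG` is antitone. -/
private lemma GG_anti_G2 {A B : Matrix n n ℂ} (hA : 0 ≤ A) (h : A ≤ B) : GG B ≤ GG A := by
  have hB : 0 ≤ B := hA.trans h
  have h1 := GG_sub hA hB
  have h2 : GG A - GG B = GG B * (B - A) * GG A := by
    have := GG_sub hB hA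
    rw [← neg_sub (GG B), this, ← neg_sub B A]
    noncomm_ring
  have hD : 0 ≤ B - A := sub_nonneg.2 h
  have h3 : GG A - GG B = GG B * (B - A) * (GG B).conjTranspose +
      (GG B * (B - A)) * GG A * (GG B * (B - A)).conjTranspose := by
    rw [Matrix.conjTranspose_mul, herm_of_nonneg hD, GG_herm hB]
    calc GG A - GG B = GG B * (B - A) * GG A := h2
      _ = GG B * (B - A) * (GG B + (GG A - GG B)) := by noncomm_ring
      _ = GG B * (B - A) * (GG B + GG A * (B - A) * GG B) := by rw [h1]
      _ = _ := by noncomm_ring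
  rw [← sub_nonneg, h3]
  exact add_nonneg (conj_nonneg hD _) (conj_nonneg (GG_nonneg hA) _)

private lemma y_GG_y {y : Matrix n n ℂ} (hy : 0 ≤ y) (hy1 : y ≤ 1) :
    y * GG y * y ≤ (1 / 2 : ℝ) • y := by
  have hg1 := GG_mul hy
  have hg2 := mul_GG hy
  have hyh := herm_of_nonneg hy
  have e1 : y * GG y = 1 - GG y := by
    have : (1 + y) * GG y = GG y + y * GG y := by rw [add_mul, one_mul]
    rw [this] at hg2
    exact eq_sub_of_add_eq' hg2
  have e2 : GG y * y = 1 - GG y := by
    have : GG y * (1 + y) = GG y + GG y * y := by rw [mul_add, mul_one]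
    rw [this] at hg1
    exact eq_sub_of_add_eq' hg1
  have e3 : y * GG y * y = y - (1 - GG y) := by
    rw [e1, sub_mul, one_mul, e2]
  -- `1 - y/2 - g = g (y - y^3)/2 g`
  have e4 : (1 + y) * (1 - (1 / 2 : ℝ) • y - GG y) * (1 + y) = (1 / 2 : ℝ) • (y - y * y * y) := by
    have : (1 + y) * (1 - (1 / 2 : ℝ) • y - GG y) * (1 + y) =
        (1 + y) * (1 - (1 / 2 : ℝ) • y) * (1 + y) - ((1 + y) * GG y) * (1 + y) := by
      noncomm_ring
    rw [this, hg2, one_mul]
    simp only [mul_add, add_mul, mul_sub, sub_mul, mul_one, one_mul, smul_mul_assoc,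
      mul_smul_comm]
    module
  have e5 : 1 - (1 / 2 : ℝ) • y - GG y =
      GG y * ((1 / 2 : ℝ) • (y - y * y * y)) * (GG y).conjTranspose := by
    rw [GG_herm hy, ← e4]
    calc 1 - (1 / 2 : ℝ) • y - GG y = (GG y * (1 + y)) * (1 - (1 / 2 : ℝ) • y - GG y) *
          ((1 + y) * GG y) := by rw [hg1, hg2, one_mul, mul_one]
      _ = _ := by simp only [mul_assoc]
  have h6 : y * y * y ≤ y := by
    have h7 := conj_mono hy1 y
    rw [hyh, mul_one] at h7
    exact h7.trans (le_mul_self_of_le_one hy hy1)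
  have h8 : 0 ≤ 1 - (1 / 2 : ℝ) • y - GG y := by
    rw [e5]
    exact conj_nonneg (smul_nonneg_real (by norm_num) (sub_nonneg.2 h6)) _
  have e9 : (1 / 2 : ℝ) • y - y * GG y * y = 1 - (1 / 2 : ℝ) • y - GG y := by
    rw [e3]
    module
  rw [← sub_nonneg, e9]
  exact h8

theorem pG2 : StG2 := by
  intro n _ _ S y hS hy hy1
  have hSy : 0 ≤ S + y := add_nonneg hS hy
  have h1 : GG S - GG (S + y) = GG S * y * GG (S + y) := by
    have := GG_sub hS hSy
    rwa [add_sub_cancel_left] at this
  have h2 : GG S - GG (S + y) = GG (S + y) * y * GG S := by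
    have := GG_sub hSy hS
    rw [← neg_sub (GG (S + y)), this]
    have e : S - (S + y) = -y := by abel
    rw [e]; noncomm_ring
  have h3 : GG (S + y) = GG S - GG (S + y) * y * GG S := by
    rw [← h2]; abel
  have h4 : GG S - GG (S + y) = GG S * y * GG S - GG S * (y * GG (S + y) * y) * GG S := by
    calc GG S - GG (S + y) = GG S * y * GG (S + y) := h1
      _ = GG S * y * (GG S - GG (S + y) * y * GG S) := by rw [← h3]
      _ = _ := by noncomm_ring
  have hG := GG_herm hS
  have hyh := herm_of_nonneg hy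
  constructor
  · have h5 : y * GG (S + y) * y ≤ (1 / 2 : ℝ) • y := by
      have h6 := conj_mono (GG_anti_G2 hy (le_add_of_nonneg_left hS : y ≤ S + y)) y
      rw [hyh] at h6
      exact h6.trans (y_GG_y hy hy1)
    have h7 := conj_mono h5 (GG S)
    rw [hG] at h7
    rw [h4]
    have e : (1 / 2 : ℝ) • (GG S * y * GG S) = GG S * y * GG S - GG S * ((1 / 2 : ℝ) • y) * GG S := by
      rw [mul_smul_comm, smul_mul_assoc]
      module
    rw [e]
    exact sub_le_sub_left h7 _
  · rw [h4]
    refine sub_le_self _ ?_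
    have h5 : 0 ≤ y * GG (S + y) * y := by
      have := conj_nonneg (GG_nonneg hSy) y
      rwa [hyh] at this
    have := conj_nonneg h5 (GG S)
    rwa [hG] at this

end G2

end Helper61.IE
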