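import Pool.Agent.Helper61.IE.St
import Pool.Agent.Helper61.IE.Lib

namespace Helper61.IE

open Helper51.MU
open scoped Matrix.Norms.L2Operator MatrixOrder ComplexOrder

theorem pGam : StGam := by
  intro n _ _ H z Λ hH hH1 hz hΛ
  -- cyclic trace identities
  have c1 : rt ((1 - H) * z * (1 - H)) = rt z - 2 * rt (z * H) + rt (z * H * H) := by
    have e : (1 - H) * z * (1 - H) = z - z * H - H * z + H * z * H := by noncomm_ring
    rw [e, rt_add, rt_sub, rt_sub, rt_mul_comm H z, rt_cycle H z H, rt_cycle H H z]
    ring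
  have c2 : rt ((1 - H) * z * (1 - H) * H) = rt (z * H) - 2 * rt (z * H * H) + rt (z * H * H * H) := by
    have e : (1 - H) * z * (1 - H) * H = z * H - z * H * H - H * (z * H) + H * (z * H * H) := by
      noncomm_ring
    rw [e, rt_add, rt_sub, rt_sub, rt_mul_comm H (z * H), rt_mul_comm H (z * H * H)]
    ring
  have hHH : 0 ≤ H * H := by
    have := nonneg_star_mul H
    rwa [herm_of_nonneg hH] at this
  have h1 : 0 ≤ rt (z * H * H) := by
    rw [mul_assoc]; exact rt_mul_nonneg hz hHH
  have h2 : rt (z * H * H * H) ≤ rt (z * H * H) := by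
    have h3 : H * H * H ≤ H * H := by
      have h4 := conj_mono hH1 H
      rw [herm_of_nonneg hH, mul_one] at h4
      exact h4
    have h5 := rt_mul_mono' h3 hz
    have e1 : z * (H * H * H) = z * H * H * H := by noncomm_ring
    have e2 : z * (H * H) = z * H * H := by noncomm_ring
    rwa [e1, e2] at h5
  unfold Gam
  rw [c1, c2]
  nlinarith
end Helper61.IE
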