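import Pool.Agent.Helper61.IE.St2
import Pool.Agent.Helper51.MU.Assembly

/-!
# Module GapW (helper95)
-/

namespace Helper61.IE

open Helper51.MU Filter Topology
open scoped Matrix.Norms.L2Operator MatrixOrder ComplexOrder

section

variable {n : Type} [Fintype n] [DecidableEq n] {ι : Type}

omit [DecidableEq n] in
private lemma nn_sum_le {κ : Type} (s : Finset κ) (f : κ → Matrix n n ℂ) :
    nn (∑ i ∈ s, f i) ≤ s.card * ∑ i ∈ s, nn (f i) := by
  unfold nn
  rw [← Finset.sum_div, ← mul_div_assoc]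
  refine div_le_div_of_nonneg_right ?_ (by positivity)
  unfold hs
  have h1 : ∀ i j, ‖(∑ a ∈ s, f a) i j‖ ^ 2 ≤ s.card * ∑ a ∈ s, ‖f a i j‖ ^ 2 := by
    intro i j
    rw [Matrix.sum_apply]
    calc ‖∑ a ∈ s, f a i j‖ ^ 2 ≤ (∑ a ∈ s, ‖f a i j‖) ^ 2 := by
          gcongr
          exact norm_sum_le _ _
      _ ≤ _ := sq_sum_le_card_mul_sum_sq
  calc ∑ i, ∑ j, ‖(∑ a ∈ s, f a) i j‖ ^ 2 ≤ ∑ i, ∑ j, s.card * ∑ a ∈ s, ‖f a i j‖ ^ 2 :=
        Finset.sum_le_sum fun i _ => Finset.sum_le_sum fun j _ => h1 i j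
    _ = s.card * ∑ a ∈ s, ∑ i, ∑ j, ‖f a i j‖ ^ 2 := by
        simp only [← Finset.mul_sum]
        congr 1
        simp only [Finset.sum_comm (s := Finset.univ) (t := s)]

/-- one step of the averaging -/
private lemma TT_sub (F : Finset ι) (hF : F.Nonempty) (u : ι → Matrix n n ℂ) (y : Matrix n n ℂ) :
    TT F u y - y = ∑ s ∈ F, ((1 / (4 * F.card) : ℝ) : ℂ) • ((u s * y * (u s).conjTranspose - y) +
      ((u s).conjTranspose * y * u s - y)) := by
  have hc : (F.card : ℝ) ≠ 0 := by exact_mod_cast hF.card_ne_zero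
  have h1 : TT F u y = (1 / 2 : ℝ) • y + (1 / (4 * F.card) : ℝ) •
    ∑ s ∈ F, (u s * y * (u s).conjTranspose + (u s).conjTranspose * y * u s) := rfl
  have h2 : ∀ (c : ℝ) (A : Matrix n n ℂ), ((c : ℝ) : ℂ) • A = c • A := fun c A => by
    ext i j
    simp
  simp only [h2]
  rw [h1, ← Finset.smul_sum]
  have h3 : ∑ s ∈ F, ((u s * y * (u s).conjTranspose - y) +
      ((u s).conjTranspose * y * u s - y)) =
      ∑ s ∈ F, (u s * y * (u s).conjTranspose + (u s).conjTranspose * y * u s) -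
        (2 * F.card : ℝ) • y := by
    have h4 : ∀ s ∈ F, ((u s * y * (u s).conjTranspose - y) +
      ((u s).conjTranspose * y * u s - y)) =
      (u s * y * (u s).conjTranspose + (u s).conjTranspose * y * u s) - (2 : ℝ) • y := by
      intro s _
      rw [two_smul]
      abel
    rw [Finset.sum_congr rfl h4, Finset.sum_sub_distrib, Finset.sum_const, mul_comm, mul_smul,
      Nat.cast_smul_eq_nsmul]
  rw [h3]
  generalize ∑ s ∈ F, (u s * y * (u s).conjTranspose + (u s).conjTranspose * y * u s) = W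
  rw [smul_sub, smul_smul]
  have h5 : (1 / (4 * F.card) : ℝ) * (2 * F.card) = 1 / 2 := by
    field_simp
    norm_num
  rw [h5]
  have h6 : y = (1 / 2 : ℝ) • y + (1 / 2 : ℝ) • y := by
    rw [← add_smul]
    norm_num
  calc (1 / 2 : ℝ) • y + (1 / (4 * F.card) : ℝ) • W - y
      = (1 / 2 : ℝ) • y + (1 / (4 * F.card) : ℝ) • W - ((1 / 2 : ℝ) • y + (1 / 2 : ℝ) • y) := by
        rw [← h6]
    _ = _ := by abel

private lemma nn_TT_sub_le (F : Finset ι) (hF : F.Nonempty) (u : ι → Matrix n n ℂ)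
    (hu : ∀ s, (u s).conjTranspose * u s = 1) (y : Matrix n n ℂ) :
    nn (TT F u y - y) ≤ F.card * ∑ s ∈ F, 4 * nn (u s * y - y * u s) := by
  rw [TT_sub F hF]
  refine (nn_sum_le _ _).trans ?_
  refine mul_le_mul_of_nonneg_left (Finset.sum_le_sum fun s hs' => ?_) (by positivity)
  rw [nn_smul]
  have hcard : (1 : ℝ) ≤ F.card := by exact_mod_cast hF.card_pos
  have h1 : ‖((1 / (4 * F.card) : ℝ) : ℂ)‖ ^ 2 ≤ 1 := by
    rw [Complex.norm_real, Real.norm_of_nonneg (by positivity)]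
    have h2 : (1 / (4 * F.card) : ℝ) ≤ 1 := by
      rw [div_le_one (by positivity)]
      linarith
    have h3 : (0 : ℝ) ≤ 1 / (4 * F.card) := by positivity
    nlinarith
  have h4 : nn (u s * y * (u s).conjTranspose - y) = nn (u s * y - y * u s) := by
    unfold nn
    rw [hs_comm_unit (hu s), hs_sub_comm]
  have h5 : nn ((u s).conjTranspose * y * u s - y) = nn (u s * y - y * u s) := by
    have h6 : (u s).conjTranspose * y * u s - y = (u s).conjTranspose * (y * u s - u s * y) := by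
      rw [mul_sub, ← mul_assoc, ← mul_assoc, hu s, one_mul]
    unfold nn
    rw [h6, hs_unit_mul (v := (u s).conjTranspose)
      (by rw [Matrix.conjTranspose_conjTranspose]; exact unit_comm (hu s)), hs_sub_comm]
  have h7 := nn_add_le (u s * y * (u s).conjTranspose - y) ((u s).conjTranspose * y * u s - y)
  rw [h4, h5] at h7
  have h8 : 0 ≤ nn ((u s * y * (u s).conjTranspose - y) + ((u s).conjTranspose * y * u s - y)) :=
    nn_nonneg _
  calc _ ≤ 1 * nn ((u s * y * (u s).conjTranspose - y) +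
        ((u s).conjTranspose * y * u s - y)) := mul_le_mul_of_nonneg_right h1 h8
    _ ≤ _ := by linarith

end

private lemma tendsto_nrm {l : ℕ → ℕ} {V : Ultrafilter ℕ} (a : BSeq (fun n => Fin (l n))) :
    Tendsto (fun n => nn (a.1 n)) V (𝓝 (nrm (mkM V a))) := by
  have h1 := tendsto_ntr (U := V) (star a * a)
  rw [← tr_mk, map_mul, ← star_mk] at h1
  have h2 := (Complex.continuous_re.tendsto _).comp h1
  refine Tendsto.congr (fun n => ?_) h2
  have h3 : ntr ((star a * a).1 n) = (nn (a.1 n) : ℂ) := ntr_star_mul_self (a.1 n)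
  rw [Function.comp_apply, h3, Complex.ofReal_re]

theorem pGapW (hTT : StTT) : StGapW := by
  intro G _ χ l V u π x hπ hx hu _ hW
  classical
  obtain ⟨S₀, K₀, hgap⟩ := hW (1 / 10 ^ 78 / 16) (by positivity)
  refine ⟨insert 1 S₀, 8 * max K₀ 1, ?_, Finset.insert_nonempty _ _, ?_⟩
  · have := le_max_right K₀ 1
    linarith
  intro F hF k
  by_contra hcon
  rw [Filter.not_eventually, Ultrafilter.frequently_iff_eventually] at hcon
  have hFne : F.Nonempty := ⟨1, hF (Finset.mem_insert_self _ _)⟩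
  -- the bad sequence
  have hch : ∀ n, ∃ y : Matrix (Fin (l n)) (Fin (l n)) ℂ, ‖y‖ ≤ 1 ∧
      ((¬ ∀ x : Matrix (Fin (l n)) (Fin (l n)) ℂ, x.conjTranspose = x → ‖x‖ ≤ 1 →
        hs (x - (TT F (π n) ^ k) x) ≤ 8 * max K₀ 1 * En (insert 1 S₀) (π n) x +
          1 / 10 ^ 78 * l n) →
        8 * max K₀ 1 * En (insert 1 S₀) (π n) y + 1 / 10 ^ 78 * l n <
          hs (y - (TT F (π n) ^ k) y)) := by
    intro n
    by_cases h : ∀ x : Matrix (Fin (l n)) (Fin (l n)) ℂ, x.conjTranspose = x → ‖x‖ ≤ 1 →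
        hs (x - (TT F (π n) ^ k) x) ≤ 8 * max K₀ 1 * En (insert 1 S₀) (π n) x +
          1 / 10 ^ 78 * l n
    · exact ⟨0, by rw [norm_zero]; exact zero_le_one, fun h' => absurd h h'⟩
    · push Not at h
      obtain ⟨y, -, hy1, hy2⟩ := h
      exact ⟨y, hy1, fun _ => hy2⟩
  choose y hy1 hy2 using hch
  obtain ⟨X, hX⟩ : ∃ X : BSeq (fun n => Fin (l n)), ∀ n, X.1 n = y n :=
    ⟨⟨y, 1, hy1⟩, fun n => rfl⟩
  obtain ⟨z, hz, hle⟩ := hgap X (fun n => by rw [hX]; exact hy1 n)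
  obtain ⟨Z, rfl⟩ := mkM_surjective z
  have hfacts : ∀ n, TTFacts F (π n) := fun n => hTT _ _ F (π n) hFne (hπ n)
  have hnTT : ∀ n (k : ℕ) (A : Matrix (Fin (l n)) (Fin (l n)) ℂ),
      nn ((TT F (π n) ^ k) A) ≤ nn A := fun n k A =>
    div_le_div_of_nonneg_right ((hfacts n).hs k A) (by positivity)
  -- `Z` is asymptotically fixed
  have hZc : ∀ s, Tendsto (fun n => nn (π n s * Z.1 n - Z.1 n * π n s)) V (𝓝 0) := by
    intro s
    have h1 := hz s
    rw [← hu s] at h1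
    refine Tendsto.congr (fun n => ?_) (commute_tendsto h1)
    rw [hx]
  have hZ1 : Tendsto (fun n => nn (TT F (π n) (Z.1 n) - Z.1 n)) V (𝓝 0) := by
    have h1 : Tendsto (fun n => (F.card : ℝ) * ∑ s ∈ F, 4 * nn (π n s * Z.1 n - Z.1 n * π n s)) V
        (𝓝 0) := by
      have h2 := (tendsto_finsetSum F fun s _ => (hZc s).const_mul 4).const_mul (F.card : ℝ)
      simpa using h2
    exact squeeze_zero (fun n => nn_nonneg _)
      (fun n => nn_TT_sub_le F hFne (π n) (hπ n) (Z.1 n)) h1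
  have hZk : ∀ k : ℕ, Tendsto (fun n => nn ((TT F (π n) ^ k) (Z.1 n) - Z.1 n)) V (𝓝 0) := by
    intro k
    induction k with
    | zero =>
      have h0 : ∀ n, nn ((TT F (π n) ^ 0) (Z.1 n) - Z.1 n) = 0 := by
        intro n
        rw [pow_zero, Module.End.one_apply, sub_self]
        simp [nn, hs]
      simp only [h0]
      exact tendsto_const_nhds
    | succ k ih =>
      have h1 : Tendsto (fun n => 2 * nn (TT F (π n) (Z.1 n) - Z.1 n) +
          2 * nn ((TT F (π n) ^ k) (Z.1 n) - Z.1 n)) V (𝓝 0) := by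
        simpa using (hZ1.const_mul 2).add (ih.const_mul 2)
      refine squeeze_zero (fun n => nn_nonneg _) (fun n => ?_) h1
      have h2 : (TT F (π n) ^ (k + 1)) (Z.1 n) - Z.1 n =
          (TT F (π n) ^ k) (TT F (π n) (Z.1 n) - Z.1 n) + ((TT F (π n) ^ k) (Z.1 n) - Z.1 n) := by
        rw [pow_succ, Module.End.mul_apply, map_sub]
        abel
      rw [h2]
      refine (nn_add_le _ _).trans ?_
      have := hnTT n k (TT F (π n) (Z.1 n) - Z.1 n)
      linarith
  -- limits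
  have hXZ : Tendsto (fun n => nn (X.1 n - Z.1 n)) V (𝓝 (nrm (mkM V X - mkM V Z))) := by
    rw [← map_sub]
    exact tendsto_nrm (X - Z)
  have hcomm : ∀ s, Tendsto (fun n => nn (π n s * X.1 n - X.1 n * π n s)) V
      (𝓝 (nrm (u s * mkM V X - mkM V X * u s))) := by
    intro s
    rw [← hu s, ← map_mul, ← map_mul, ← map_sub]
    refine Tendsto.congr (fun n => ?_) (tendsto_nrm (x s * X - X * x s))
    have h2 : (x s * X - X * x s).1 n = (x s).1 n * X.1 n - X.1 n * (x s).1 n := rfl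
    rw [h2, hx]
  have hE : Tendsto (fun n => ∑ s ∈ S₀, nn (π n s * X.1 n - X.1 n * π n s)) V
      (𝓝 (∑ s ∈ S₀, nrm (u s * mkM V X - mkM V X * u s))) :=
    tendsto_finsetSum _ fun s _ => hcomm s
  -- upper bound
  have hup : ∀ n, nn (X.1 n - (TT F (π n) ^ k) (X.1 n)) ≤
      8 * nn (X.1 n - Z.1 n) + 2 * nn ((TT F (π n) ^ k) (Z.1 n) - Z.1 n) := by
    intro n
    have h1 : X.1 n - (TT F (π n) ^ k) (X.1 n) =
        ((X.1 n - Z.1 n) + -((TT F (π n) ^ k) (X.1 n - Z.1 n))) +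
          -((TT F (π n) ^ k) (Z.1 n) - Z.1 n) := by
      rw [map_sub]
      abel
    rw [h1]
    have h2 := nn_add_le ((X.1 n - Z.1 n) + -((TT F (π n) ^ k) (X.1 n - Z.1 n)))
      (-((TT F (π n) ^ k) (Z.1 n) - Z.1 n))
    have h3 := nn_add_le (X.1 n - Z.1 n) (-((TT F (π n) ^ k) (X.1 n - Z.1 n)))
    rw [nn_neg] at h2 h3
    have h4 := hnTT n k (X.1 n - Z.1 n)
    linarith
  -- lower bound
  have hlow : ∀ᶠ n in (V : Filter ℕ), 8 * max K₀ 1 *
      ∑ s ∈ S₀, nn (π n s * X.1 n - X.1 n * π n s) + 1 / 10 ^ 78 ≤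
      8 * nn (X.1 n - Z.1 n) + 2 * nn ((TT F (π n) ^ k) (Z.1 n) - Z.1 n) := by
    filter_upwards [hcon] with n hn
    have h1 := hy2 n hn
    have h2 := hup n
    rw [← hX] at h1
    have hl : (0 : ℝ) < l n := by
      rcases Nat.eq_zero_or_pos (l n) with h0 | h0
      · exfalso
        have : IsEmpty (Fin (l n)) := by rw [h0]; infer_instance
        have h3 : ∀ A : Matrix (Fin (l n)) (Fin (l n)) ℂ, hs A = 0 := fun A => by simp [hs]
        have h4 : En (insert 1 S₀) (π n) (X.1 n) = 0 := by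
          unfold En
          exact Finset.sum_eq_zero fun s _ => h3 _
        rw [h3, h4, h0] at h1
        simp at h1
      · exact_mod_cast h0
    have h3 : ∑ s ∈ S₀, nn (π n s * X.1 n - X.1 n * π n s) ≤
        En (insert 1 S₀) (π n) (X.1 n) / l n := by
      unfold En nn
      rw [Fintype.card_fin, ← Finset.sum_div]
      refine div_le_div_of_nonneg_right ?_ hl.le
      exact Finset.sum_le_sum_of_subset_of_nonneg (Finset.subset_insert _ _)
        fun _ _ _ => hs_nonneg _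
    have h4 : (8 * max K₀ 1 * En (insert 1 S₀) (π n) (X.1 n) + 1 / 10 ^ 78 * l n) / l n ≤
        nn (X.1 n - (TT F (π n) ^ k) (X.1 n)) := by
      unfold nn
      rw [Fintype.card_fin]
      exact div_le_div_of_nonneg_right h1.le hl.le
    rw [add_div, mul_div_assoc, mul_div_assoc, div_self hl.ne', mul_one] at h4
    have h5 : (0 : ℝ) ≤ 8 * max K₀ 1 := by
      have := le_max_right K₀ 1
      linarith
    have h6 := mul_le_mul_of_nonneg_left h3 h5
    linarith
  have hl1 : Tendsto (fun n => 8 * max K₀ 1 *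
      ∑ s ∈ S₀, nn (π n s * X.1 n - X.1 n * π n s) + 1 / 10 ^ 78) V
      (𝓝 (8 * max K₀ 1 * ∑ s ∈ S₀, nrm (u s * mkM V X - mkM V X * u s) + 1 / 10 ^ 78)) :=
    (hE.const_mul _).add_const _
  have hl2 : Tendsto (fun n => 8 * nn (X.1 n - Z.1 n) +
      2 * nn ((TT F (π n) ^ k) (Z.1 n) - Z.1 n)) V
      (𝓝 (8 * nrm (mkM V X - mkM V Z) + 2 * 0)) :=
    (hXZ.const_mul 8).add ((hZk k).const_mul 2)
  have hfinal := le_of_tendsto_of_tendsto hl1 hl2 hlow
  have hEn : 0 ≤ ∑ s ∈ S₀, nrm (u s * mkM V X - mkM V X * u s) :=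
    ge_of_tendsto hE (Eventually.of_forall fun n => Finset.sum_nonneg fun s _ => nn_nonneg _)
  have h1 : K₀ * ∑ s ∈ S₀, nrm (u s * mkM V X - mkM V X * u s) ≤
      max K₀ 1 * ∑ s ∈ S₀, nrm (u s * mkM V X - mkM V X * u s) :=
    mul_le_mul_of_nonneg_right (le_max_left _ _) hEn
  have h2 : (0 : ℝ) < 1 / 10 ^ 78 := by positivity
  nlinarith

end Helper61.IE
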