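import Pool.Agent.Helper61.IE.St

/-!
# Module Greedy: the greedy process stops
-/

set_option autoImplicit false
set_option linter.unusedSectionVars false

namespace Helper61.IE

open Helper51.MU
open scoped Matrix.Norms.L2Operator MatrixOrder ComplexOrder

section

variable {n : Type} [Fintype n] [DecidableEq n] {ι : Type} {F : Finset ι} {u : ι → Matrix n n ℂ}

private lemma gr_rt_cont : Continuous fun p : Matrix n n ℂ => rt p :=
  Complex.continuous_re.comp (Continuous.matrix_trace continuous_id)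

private lemma gr_hs_cont : Continuous fun p : Matrix n n ℂ => hs p := by
  unfold hs
  refine continuous_finsetSum _ fun i _ => continuous_finsetSum _ fun j _ => ?_
  exact ((Continuous.matrix_elem continuous_id i j).norm).pow 2

private lemma gr_En_cont (F : Finset ι) (u : ι → Matrix n n ℂ) :
    Continuous fun p : Matrix n n ℂ => En F u p := by
  unfold En
  refine continuous_finsetSum _ fun s _ => ?_
  exact gr_hs_cont.comp ((continuous_const.mul continuous_id).sub
    (continuous_id.mul continuous_const))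

private lemma gr_QQ_iff (F : Finset ι) (u : ι → Matrix n n ℂ) (ε : ℝ) (p : Matrix n n ℂ) :
    QQ F u ε p ↔ p.conjTranspose = p ∧ p * p = p ∧ 1 ≤ rt p ∧ En F u p ≤ ε * rt p := by
  constructor
  · rintro ⟨h1, h2, h3⟩
    exact ⟨h1.1, h1.2, h1.one_le_rt h2, h3⟩
  · rintro ⟨h1, h2, h3, h4⟩
    refine ⟨⟨h1, h2⟩, ?_, h4⟩
    rintro rfl
    rw [rt_zero] at h3
    linarith

private lemma gr_compact (F : Finset ι) (u : ι → Matrix n n ℂ) (ε : ℝ) :
    IsCompact {p : Matrix n n ℂ | QQ F u ε p} := by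
  have : ProperSpace (Matrix n n ℂ) := FiniteDimensional.proper ℂ _
  refine Metric.isCompact_of_isClosed_isBounded ?_ ?_
  · have e : {p : Matrix n n ℂ | QQ F u ε p} =
        {p | p.conjTranspose = p} ∩ ({p | p * p = p} ∩ ({p | 1 ≤ rt p} ∩
          {p | En F u p ≤ ε * rt p})) := by
      ext p
      exact gr_QQ_iff F u ε p
    rw [e]
    refine IsClosed.inter ?_ (IsClosed.inter ?_ (IsClosed.inter ?_ ?_))
    · exact isClosed_eq (Continuous.matrix_conjTranspose continuous_id) continuous_id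
    · exact isClosed_eq (continuous_id.mul continuous_id) continuous_id
    · exact isClosed_le continuous_const gr_rt_cont
    · exact isClosed_le (gr_En_cont F u) (continuous_const.mul gr_rt_cont)
  · refine (Metric.isBounded_closedBall (x := (0 : Matrix n n ℂ)) (r := 1)).subset ?_
    intro p hp
    rw [mem_closedBall_zero_iff]
    exact hp.1.norm_le

private lemma gr_max (F : Finset ι) (u : ι → Matrix n n ℂ) (ε Λ : ℝ) (H p₀ : Matrix n n ℂ)
    (h₀ : QQ F u ε p₀) (hpos : 0 < Gam Λ H p₀) :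
    ∃ q, QQ F u ε q ∧ 0 < Gam Λ H q ∧
      ∀ p, QQ F u ε p → Gam Λ H p * rt q ^ 2 ≤ Gam Λ H q * rt p ^ 2 := by
  have hrt : ∀ p, QQ F u ε p → 1 ≤ rt p := fun p hp => hp.1.one_le_rt hp.2.1
  have hG : Continuous fun p : Matrix n n ℂ => Gam Λ H p := by
    unfold Gam
    exact gr_rt_cont.sub (continuous_const.mul
      (gr_rt_cont.comp (continuous_id.mul continuous_const)))
  have hcont : ContinuousOn (fun p : Matrix n n ℂ => Gam Λ H p / rt p ^ 2)
      {p | QQ F u ε p} := by
    refine ContinuousOn.div hG.continuousOn (gr_rt_cont.pow 2).continuousOn ?_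
    intro p hp
    have := hrt p hp
    positivity
  obtain ⟨q, hq, hmax⟩ := (gr_compact F u ε).exists_isMaxOn ⟨p₀, h₀⟩ hcont
  have hq1 := hrt q hq
  have key : ∀ p, QQ F u ε p → Gam Λ H p * rt q ^ 2 ≤ Gam Λ H q * rt p ^ 2 := by
    intro p hp
    have hp1 := hrt p hp
    have h1 : Gam Λ H p / rt p ^ 2 ≤ Gam Λ H q / rt q ^ 2 := hmax hp
    rwa [div_le_div_iff₀ (by positivity) (by positivity)] at h1
  refine ⟨q, hq, ?_, key⟩
  have h1 := key p₀ h₀
  have h2 : 0 < Gam Λ H p₀ * rt q ^ 2 := by positivity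
  have h3 := hrt p₀ h₀
  by_contra hneg
  push Not at hneg
  have h4 : Gam Λ H q * rt p₀ ^ 2 ≤ 0 := mul_nonpos_of_nonpos_of_nonneg hneg (by positivity)
  linarith

/-- the conditions at the first `N` steps -/
private def Good (F : Finset ι) (u : ι → Matrix n n ℂ) (ε Λ : ℝ) (q : ℕ → Matrix n n ℂ)
    (N : ℕ) : Prop :=
  ∀ i < N, QQ F u ε (q i) ∧ 0 < Gam Λ (Hi F u q i) (q i) ∧
    ∀ p, QQ F u ε p → Gam Λ (Hi F u q i) p * rt (q i) ^ 2 ≤ Gam Λ (Hi F u q i) (q i) * rt p ^ 2

private lemma gr_SS_congr {q q' : ℕ → Matrix n n ℂ} {i : ℕ} (h : ∀ j < i, q j = q' j) :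
    SS F u q i = SS F u q' i :=
  Finset.sum_congr rfl fun j hj => by rw [h j (Finset.mem_range.1 hj)]

private lemma gr_Hi_congr {q q' : ℕ → Matrix n n ℂ} {i : ℕ} (h : ∀ j < i, q j = q' j) :
    Hi F u q i = Hi F u q' i := by
  unfold Hi Gi
  rw [gr_SS_congr h]

private lemma gr_SS_nonneg (hR : RRFacts F u) {q : ℕ → Matrix n n ℂ} {i : ℕ}
    (h : ∀ j < i, Pr (q j)) : 0 ≤ SS F u q i := by
  refine Finset.sum_nonneg fun j hj => ?_
  have h1 := (h j (Finset.mem_range.1 hj)).nonneg
  exact (smul_nonneg_real (by norm_num) h1).trans (hR.half _ h1)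

private lemma gr_step (hG2 : StG2) (hR : RRFacts F u) {ε Λ : ℝ} (hΛ : 4 ≤ Λ)
    {q : ℕ → Matrix n n ℂ} {N : ℕ} (hg : Good F u ε Λ q N) {i : ℕ} (hi : i < N) :
    1 / 8 ≤ rt (Gi F u q i) - rt (Gi F u q (i + 1)) := by
  obtain ⟨hQ, hpos, -⟩ := hg i hi
  have hS : 0 ≤ SS F u q i := gr_SS_nonneg hR fun j hj => (hg j (hj.trans hi)).1.1
  have hq := hQ.1
  have hy1 := hR.half _ hq.nonneg
  have hy0 : 0 ≤ RR F u (q i) := (smul_nonneg_real (by norm_num) hq.nonneg).trans hy1
  have hy2 := hR.le_one _ hq.nonneg hq.le_one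
  have hSS : SS F u q (i + 1) = SS F u q i + RR F u (q i) := Finset.sum_range_succ _ _
  have h1 := (hG2 n (SS F u q i) (RR F u (q i)) hS hy0 hy2).1
  rw [← hSS] at h1
  have h2 := rt_mono h1
  rw [rt_smul, rt_sub] at h2
  set G := GG (SS F u q i) with hG
  have hGh : G.conjTranspose = G := GG_herm hS
  have h3 := conj_mono hy1 G
  rw [hGh] at h3
  have h4 := rt_mono h3
  rw [mul_smul_comm, smul_mul_assoc, rt_smul] at h4
  -- `rt (G q G) ≥ rt q - 2 rt (q H)`
  set H := Hi F u q i with hH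
  have hGH : G = 1 - H := by
    rw [hH, Hi, Gi, ← hG]
    abel
  have hHh : H.conjTranspose = H := by
    rw [hH, Hi, Gi, ← hG, Matrix.conjTranspose_sub, Matrix.conjTranspose_one, hGh]
  have h5 : rt (G * q i * G) = rt (q i) - 2 * rt (q i * H) + rt (H * q i * H) := by
    have e : rt (G * q i * G) = rt (q i * (G * G)) := by
      rw [rt_cycle, rt_mul_comm]
    have e2 : rt (H * q i * H) = rt (q i * (H * H)) := by
      rw [rt_cycle, rt_mul_comm]
    have e3 : q i * (G * G) = q i - (2 : ℝ) • (q i * H) + q i * (H * H) := by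
      rw [hGH]
      simp only [mul_sub, sub_mul, mul_one, one_mul]
      module
    rw [e, e2, e3, rt_add, rt_sub, rt_smul]
  have h6 : 0 ≤ rt (H * q i * H) := by
    have := conj_nonneg hq.nonneg H
    rw [hHh] at this
    exact rt_nonneg this
  have h7 := hq.one_le_rt hQ.2.1
  have h8 : 4 * rt (q i * H) ≤ rt (q i) := by
    unfold Gam at hpos
    by_cases h9 : 0 ≤ rt (q i * H)
    · nlinarith
    · push Not at h9
      linarith
  have e9 : rt (Gi F u q i) = rt G := rfl
  have e10 : rt (Gi F u q (i + 1)) = rt (GG (SS F u q (i + 1))) := rfl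
  rw [e9, e10]
  linarith

private lemma gr_bound (hG2 : StG2) (hR : RRFacts F u) {ε Λ : ℝ} (hΛ : 4 ≤ Λ)
    {q : ℕ → Matrix n n ℂ} {N : ℕ} (hg : Good F u ε Λ q N) : N ≤ 8 * Fintype.card n := by
  have h1 : ∀ M ≤ N, (M : ℝ) / 8 ≤ rt (Gi F u q 0) - rt (Gi F u q M) := by
    intro M
    induction M with
    | zero => intro _; simp
    | succ M ih =>
      intro hM
      have h2 := ih (by omega)
      have h3 := gr_step hG2 hR hΛ hg (i := M) (by omega)
      push_cast
      linarith
  have h2 := h1 N le_rfl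
  have h3 : rt (Gi F u q 0) = Fintype.card n := by
    have e : Gi F u q 0 = 1 := by
      unfold Gi SS
      rw [Finset.range_zero, Finset.sum_empty, GG_zero]
    rw [e, rt, Matrix.trace_one]
    simp
  have h4 : 0 ≤ rt (Gi F u q N) :=
    rt_nonneg (GG_nonneg (gr_SS_nonneg hR fun j hj => (hg j hj).1.1))
  have h5 : (N : ℝ) ≤ 8 * Fintype.card n := by linarith
  exact_mod_cast h5

private lemma gr_main (hG2 : StG2) (hR : RRFacts F u) {ε Λ : ℝ} (hΛ : 4 ≤ Λ) :
    ∃ (q : ℕ → Matrix n n ℂ) (N : ℕ), Greedy F u ε Λ q N := by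
  classical
  let P : ℕ → Prop := fun N => ∃ q : ℕ → Matrix n n ℂ, Good F u ε Λ q N
  have hP0 : P 0 := ⟨fun _ => 0, fun i hi => absurd hi (by omega)⟩
  set N := Nat.findGreatest P (8 * Fintype.card n) with hN
  obtain ⟨q, hq⟩ : P N := Nat.findGreatest_spec (Nat.zero_le _) hP0
  refine ⟨q, N, fun i hi => (hq i hi).1, fun i hi => (hq i hi).2.1, fun i hi => (hq i hi).2.2, ?_⟩
  intro p hp
  by_contra hpos
  push Not at hpos
  obtain ⟨r, hr1, hr2, hr3⟩ := gr_max F u ε Λ (Hi F u q N) p hp hpos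
  have hne : ∀ j, j ≠ N → Function.update q N r j = q j := fun j hj =>
    Function.update_of_ne hj _ _
  have hself : Function.update q N r N = r := Function.update_self _ _ _
  have hHi : ∀ i ≤ N, Hi F u (Function.update q N r) i = Hi F u q i := fun i hi =>
    gr_Hi_congr fun j hj => hne j (by omega)
  have hgood : Good F u ε Λ (Function.update q N r) (N + 1) := by
    intro i hi
    rw [hHi i (by omega)]
    by_cases h : i = N
    · rw [h, hself]
      exact ⟨hr1, hr2, hr3⟩
    · rw [hne i h]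
      exact hq i (by omega)
  have hb := gr_bound hG2 hR hΛ hgood
  exact Nat.findGreatest_is_greatest (P := P) (n := 8 * Fintype.card n) (k := N + 1)
    (by omega) hb ⟨_, hgood⟩

end

theorem pGreedy (hG2 : StG2) : StGreedy := by
  intro n _ _ ι F u ε Λ _ _ hR _ hΛ
  exact gr_main hG2 hR hΛ

end Helper61.IE
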