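import Pool.Agent.Helper61.IE.St2
import Pool.Agent.Helper51.MU.Assembly

/-!
# Module Irr (helper95)
-/

namespace Helper61.IE

open Helper51.MU Filter Topology
open scoped Matrix.Norms.L2Operator MatrixOrder ComplexOrder

section

variable {G : Type} [Group G] {χ : G → ℂ} {k : ℕ → ℕ} {U : Ultrafilter ℕ}
  {σ : ∀ j, G → Matrix (Fin (k j)) (Fin (k j)) ℂ}

private noncomputable def sqI (hn : ∀ j g, ‖σ j g‖ ≤ 1) (g : G) : BSeq (fun j => Fin (k j)) :=
  ⟨fun j => σ j g, 1, fun j => hn j g⟩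

private lemma sqI_val (hn : ∀ j g, ‖σ j g‖ ≤ 1) (g : G) (j : ℕ) : (sqI hn g).1 j = σ j g := rfl

private lemma sqI_mul (hA : AHom χ k U σ) (g h : G) :
    mkM U (sqI hA.norm (g * h)) = mkM U (sqI hA.norm g) * mkM U (sqI hA.norm h) := by
  rw [← map_mul, mk_eq_mk]
  refine (hA.mul g h).congr fun j => ?_
  rw [← nn_neg, neg_sub]
  rfl

private lemma sqI_unit (hA : AHom χ k U σ) (g : G) :
    star (mkM U (sqI hA.norm g)) * mkM U (sqI hA.norm g) = 1 := by
  rw [star_mk, ← map_mul, ← map_one (mkM U), mk_eq_mk]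
  exact hA.unit g

private lemma sqI_one (hA : AHom χ k U σ) : mkM U (sqI hA.norm 1) = 1 := by
  have h1 := sqI_mul hA 1 1
  rw [mul_one] at h1
  have h2 := sqI_unit hA 1
  calc mkM U (sqI hA.norm 1) = (star (mkM U (sqI hA.norm 1)) * mkM U (sqI hA.norm 1)) *
        mkM U (sqI hA.norm 1) := by rw [h2, one_mul]
    _ = star (mkM U (sqI hA.norm 1)) * (mkM U (sqI hA.norm 1) * mkM U (sqI hA.norm 1)) := by
        rw [mul_assoc]
    _ = 1 := by rw [← h1, h2]

private noncomputable def uhI (hA : AHom χ k U σ) : G →* MUlt (fun j => Fin (k j)) U where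
  toFun g := mkM U (sqI hA.norm g)
  map_one' := sqI_one hA
  map_mul' := sqI_mul hA

private lemma uhI_apply (hA : AHom χ k U σ) (g : G) : uhI hA g = mkM U (sqI hA.norm g) := rfl

private lemma uhI_star (hA : AHom χ k U σ) (g : G) : star (uhI hA g) = uhI hA g⁻¹ := by
  have h1 : star (uhI hA g) * uhI hA g = 1 := sqI_unit hA g
  have h2 : uhI hA g * uhI hA g⁻¹ = 1 := by rw [← map_mul, mul_inv_cancel, map_one]
  calc star (uhI hA g) = star (uhI hA g) * (uhI hA g * uhI hA g⁻¹) := by rw [h2, mul_one]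
    _ = (star (uhI hA g) * uhI hA g) * uhI hA g⁻¹ := by rw [mul_assoc]
    _ = uhI hA g⁻¹ := by rw [h1, one_mul]

/-- self-adjoint elements of the relative commutant are scalars -/
private lemma sa_scalar (hA : AHom χ k U σ) (hM : Modulus k U σ)
    (x : BSeq (fun j => Fin (k j))) (hx : ∀ j, (x.1 j).conjTranspose = x.1 j)
    (hc : ∀ g, mkM U x * uhI hA g = uhI hA g * mkM U x) :
    ∃ c : ℂ, mkM U x = algebraMap ℂ (MUlt (fun j => Fin (k j)) U) c := by
  refine scalar_of_tendsto x ?_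
  obtain ⟨C, hC⟩ := x.2
  obtain ⟨D, hD1, hD⟩ : ∃ D : ℝ, 1 ≤ D ∧ ∀ j, ‖x.1 j‖ ≤ D :=
    ⟨max C 1, le_max_right _ _, fun j => (hC j).trans (le_max_left _ _)⟩
  have hD0 : (0 : ℝ) < D := by linarith
  set c : ℂ := ((D⁻¹ : ℝ) : ℂ) with hcdef
  have hcn : ‖c‖ = D⁻¹ := by
    rw [hcdef, Complex.norm_real, Real.norm_of_nonneg (by positivity)]
  have hct : ∀ g, Tendsto (fun j => nn (σ j g * (c • x.1 j) - (c • x.1 j) * σ j g)) U (𝓝 0) := by
    intro g
    have h1 := commute_tendsto (hc g)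
    have h2 := h1.const_mul (‖c‖ ^ 2)
    rw [mul_zero] at h2
    refine h2.congr fun j => ?_
    rw [← nn_smul]
    congr 1
    rw [smul_sub, mul_smul_comm, smul_mul_assoc]
    rfl
  have hfin : ∀ r : ℕ, ∀ᶠ j in (U : Filter ℕ),
      nn (x.1 j - ntr (x.1 j) • (1 : Matrix (Fin (k j)) (Fin (k j)) ℂ)) ≤ D ^ 2 * (1 / (r + 1)) := by
    intro r
    obtain ⟨F, η, hη, hev⟩ := hM r
    have h1 : Tendsto (fun j => ∑ g ∈ F, nn (σ j g * (c • x.1 j) - (c • x.1 j) * σ j g)) U
        (𝓝 0) := by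
      have := tendsto_finsetSum F fun g _ => hct g
      simpa using this
    filter_upwards [hev, h1.eventually_le_const hη] with j h2 h3
    have h4 := h2 (c • x.1 j) (by
      rw [Matrix.conjTranspose_smul, hx j, hcdef]
      congr 1
      exact Complex.conj_ofReal _) (by
      rw [norm_smul, hcn, inv_mul_le_iff₀ hD0, mul_one]
      exact hD j) h3
    have h5 : nn (c • x.1 j - ntr (c • x.1 j) • (1 : Matrix (Fin (k j)) (Fin (k j)) ℂ)) =
        ‖c‖ ^ 2 * nn (x.1 j - ntr (x.1 j) • (1 : Matrix (Fin (k j)) (Fin (k j)) ℂ)) := by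
      rw [← nn_smul]
      congr 1
      rw [ntr_smul, smul_sub, mul_smul]
    rw [h5, hcn] at h4
    have h6 : D ^ 2 * (D⁻¹ ^ 2 * nn (x.1 j - ntr (x.1 j) •
        (1 : Matrix (Fin (k j)) (Fin (k j)) ℂ))) =
        nn (x.1 j - ntr (x.1 j) • (1 : Matrix (Fin (k j)) (Fin (k j)) ℂ)) := by
      field_simp
    rw [← h6]
    exact mul_le_mul_of_nonneg_left h4 (by positivity)
  rw [Metric.tendsto_nhds]
  intro ε hε
  obtain ⟨r, hr⟩ := exists_nat_gt (D ^ 2 / ε)
  filter_upwards [hfin r] with j hj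
  rw [Real.dist_eq, sub_zero, abs_of_nonneg (nn_nonneg _)]
  refine hj.trans_lt ?_
  rw [mul_one_div, div_lt_iff₀ (by positivity)]
  rw [div_lt_iff₀ hε] at hr
  nlinarith

end

theorem pIrr : StIrr := by
  intro G _ χ k U σ hA hM
  refine ⟨uhI hA, sqI_unit hA, fun g => tr_mk_eq (hA.tr g), fun y hy => ?_⟩
  obtain ⟨x, rfl⟩ := mkM_surjective y
  have hsy : ∀ g, star (mkM U x) * uhI hA g = uhI hA g * star (mkM U x) := by
    intro g
    have h1 := congrArg star (hy g⁻¹)
    rw [star_mul, star_mul, uhI_star, inv_inv] at h1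
    exact h1.symm
  -- real part
  obtain ⟨a, ha⟩ := sa_scalar hA hM (x + star x) (fun j => by
    show (x.1 j + (x.1 j).conjTranspose).conjTranspose = x.1 j + (x.1 j).conjTranspose
    rw [Matrix.conjTranspose_add, Matrix.conjTranspose_conjTranspose, add_comm]) (fun g => by
    rw [map_add, ← star_mk, add_mul, mul_add, hy g, hsy g])
  -- imaginary part
  obtain ⟨b, hb⟩ := sa_scalar hA hM
    (algebraMap ℂ (BSeq (fun j => Fin (k j))) Complex.I * (x - star x)) (fun j => by
    have e : (algebraMap ℂ (BSeq (fun j => Fin (k j))) Complex.I * (x - star x)).1 j =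
        Complex.I • (x.1 j - (x.1 j).conjTranspose) := by
      show (algebraMap ℂ (∀ j, Matrix (Fin (k j)) (Fin (k j)) ℂ) Complex.I) j *
        (x.1 j - (x.1 j).conjTranspose) = _
      rw [Pi.algebraMap_apply, Algebra.algebraMap_eq_smul_one, smul_mul_assoc, one_mul]
    rw [e, Matrix.conjTranspose_smul, Matrix.conjTranspose_sub,
      Matrix.conjTranspose_conjTranspose]
    have hI : star Complex.I = -Complex.I := Complex.conj_I
    rw [hI, neg_smul, ← smul_neg, neg_sub]) (fun g => by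
    have e : mkM U (algebraMap ℂ (BSeq (fun j => Fin (k j))) Complex.I) =
        algebraMap ℂ (MUlt (fun j => Fin (k j)) U) Complex.I := rfl
    rw [map_mul, map_sub, ← star_mk, e, mul_assoc, sub_mul, hy g, hsy g, ← mul_sub,
      ← mul_assoc, Algebra.commutes, mul_assoc])
  have e : mkM U (algebraMap ℂ (BSeq (fun j => Fin (k j))) Complex.I) =
      algebraMap ℂ (MUlt (fun j => Fin (k j)) U) Complex.I := rfl
  rw [map_mul, map_sub, ← star_mk, e] at hb
  rw [map_add, ← star_mk] at ha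
  refine ⟨(1 / 2) * (a - Complex.I * b), ?_⟩
  have h1 : algebraMap ℂ (MUlt (fun j => Fin (k j)) U) (1 / 2) * (2 * mkM U x) = mkM U x := by
    have h2 : (2 : MUlt (fun j => Fin (k j)) U) =
        algebraMap ℂ (MUlt (fun j => Fin (k j)) U) 2 := by rw [map_ofNat]
    rw [h2, ← mul_assoc, ← map_mul]
    norm_num
  have h3 : 2 * mkM U x = (mkM U x + star (mkM U x)) +
      algebraMap ℂ (MUlt (fun j => Fin (k j)) U) (-Complex.I) *
        (algebraMap ℂ (MUlt (fun j => Fin (k j)) U) Complex.I * (mkM U x - star (mkM U x))) := by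
    rw [← mul_assoc, ← map_mul, neg_mul, Complex.I_mul_I, neg_neg, map_one, one_mul, two_mul]
    abel
  rw [← h1, h3, ha, hb, ← map_mul, ← map_add, ← map_mul]
  congr 1
  ring

end Helper61.IE
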