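import Pool.Agent.Helper61.IE.St2

/-!
# Limits of almost invariant positive definite functions under an extremal character
-/

namespace Helper61.IE

open Helper51.MU Filter Topology
open scoped ComplexOrder

private lemma two_sum {G : Type} [Group G] (φ : G → ℂ) (h1 : φ 1 = 1) (g : G) (a b : ℂ) :
    (∑ i, ∑ k, star ((![a, b] : Fin 2 → ℂ) i) * (![a, b] : Fin 2 → ℂ) k *
      φ (((![1, g] : Fin 2 → G) i)⁻¹ * (![1, g] : Fin 2 → G) k)) =
    star a * a + star a * b * φ g + (star b * a * φ g⁻¹ + star b * b) := by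
  simp [Fin.sum_univ_two, h1]

private lemma pd_inv {G : Type} [Group G] {φ : G → ℂ} (h : IsPD φ) (g : G) :
    φ g⁻¹ = star (φ g) := by
  have h1 := (h.pos 2 ![1, 1] ![1, g]).1
  have h2 := (h.pos 2 ![1, Complex.I] ![1, g]).1
  rw [two_sum φ h.one] at h1 h2
  apply Complex.ext
  · simp at h2 ⊢
    linarith
  · simp at h1 ⊢
    linarith

private lemma pd_norm {G : Type} [Group G] {φ : G → ℂ} (h : IsPD φ) (g : G) : ‖φ g‖ ≤ 1 := by
  have h1 := (h.pos 2 ![-φ g, 1] ![1, g]).2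
  rw [two_sum φ h.one, pd_inv h g] at h1
  have h2 : (star (-φ g) * -φ g + star (-φ g) * 1 * φ g +
      (star (1 : ℂ) * -φ g * star (φ g) + star (1 : ℂ) * 1)).re = 1 - ‖φ g‖ ^ 2 := by
    rw [Complex.sq_norm, Complex.normSq_apply]
    simp
    ring
  rw [h2] at h1
  have := norm_nonneg (φ g)
  nlinarith

private lemma exists_lim {V : Ultrafilter ℕ} {f : ℕ → ℂ} (hf : ∀ j, ‖f j‖ ≤ 1) :
    ∃ a, Tendsto f V (𝓝 a) := by
  obtain ⟨a, -, ha⟩ := (isCompact_closedBall (0 : ℂ) 1).ultrafilter_le_nhds (V.map f) (by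
    rw [le_principal_iff]
    exact Filter.mem_map.mpr (Filter.univ_mem' fun j => by simpa using hf j))
  exact ⟨a, ha⟩

private lemma pd_lim {G : Type} [Group G] {V : Ultrafilter ℕ} {φ : ℕ → G → ℂ}
    (h : ∀ j, IsPD (φ j)) {φ' : G → ℂ} (hl : ∀ g, Tendsto (fun j => φ j g) V (𝓝 (φ' g))) :
    IsPD φ' := by
  refine ⟨?_, fun m a x => ?_⟩
  · refine tendsto_nhds_unique (hl 1) ?_
    simp only [fun j => (h j).one]
    exact tendsto_const_nhds
  · have h1 : Tendsto (fun j => ∑ i, ∑ k, star (a i) * a k * φ j ((x i)⁻¹ * x k)) V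
        (𝓝 (∑ i, ∑ k, star (a i) * a k * φ' ((x i)⁻¹ * x k))) := by
      refine tendsto_finsetSum _ fun i _ => tendsto_finsetSum _ fun k _ => ?_
      exact (hl _).const_mul _
    constructor
    · refine tendsto_nhds_unique ((Complex.continuous_im.tendsto _).comp h1) ?_
      refine Tendsto.congr (f₁ := fun _ => (0 : ℝ)) (fun j => ?_) tendsto_const_nhds
      exact ((h j).pos m a x).1.symm
    · refine ge_of_tendsto ((Complex.continuous_re.tendsto _).comp h1) ?_
      exact Filter.Eventually.of_forall fun j => ((h j).pos m a x).2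

theorem pLimChar : StLimChar := by
  intro G _ χ φ ψ t c hχ hc ht hφ hψ hsum hcl g₀
  rw [tendsto_iff_ultrafilter]
  intro V hV
  choose φ' hφ' using fun g => exists_lim (V := V) (f := fun j => φ j g) fun j => pd_norm (hφ j) g
  choose ψ' hψ' using fun g => exists_lim (V := V) (f := fun j => ψ j g) fun j => pd_norm (hψ j) g
  obtain ⟨t', ht', htl⟩ := (isCompact_Icc (a := c) (b := 1 / 2)).ultrafilter_le_nhds (V.map t) (by
    rw [le_principal_iff]
    exact Filter.mem_map.mpr (Filter.univ_mem' fun j => ht j))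
  have htl : Tendsto t V (𝓝 t') := htl
  have hφP := pd_lim hφ hφ'
  have hψP := pd_lim hψ hψ'
  have ht0 : 0 < t' := lt_of_lt_of_le hc ht'.1
  have ht1 : t' < 1 := lt_of_le_of_lt ht'.2 (by norm_num)
  have hs : ∀ g, χ g = t' * φ' g + (1 - t') * ψ' g := by
    intro g
    have h1 : Tendsto (fun j => (t j : ℂ) * φ j g + (1 - t j) * ψ j g) V
        (𝓝 (t' * φ' g + (1 - t') * ψ' g)) := by
      have h2 : Tendsto (fun j => (t j : ℂ)) V (𝓝 (t' : ℂ)) :=
        (Complex.continuous_ofReal.tendsto _).comp htl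
      exact (h2.mul (hφ' g)).add ((tendsto_const_nhds.sub h2).mul (hψ' g))
    refine tendsto_nhds_unique ?_ h1
    exact Tendsto.congr (f₁ := fun _ => χ g) (fun j => hsum j g) tendsto_const_nhds
  have hcφ : ∀ g h, φ' (h * g * h⁻¹) = φ' g := by
    intro g h
    have h1 := ((hφ' (h * g * h⁻¹)).sub (hφ' g))
    have h2 := tendsto_nhds_unique h1 ((hcl g h).mono_left hV)
    exact sub_eq_zero.mp h2
  have hcψ : ∀ g h, ψ' (h * g * h⁻¹) = ψ' g := by
    intro g h
    have h1 := hs (h * g * h⁻¹)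
    rw [hχ.1.conj, hcφ, hs g] at h1
    have h2 : (1 - (t' : ℂ)) ≠ 0 := by
      rw [sub_ne_zero]
      intro h3
      have : (1 : ℝ) = t' := by exact_mod_cast h3
      linarith
    have h3 : (1 - (t' : ℂ)) * ψ' g = (1 - (t' : ℂ)) * ψ' (h * g * h⁻¹) := by
      linear_combination h1
    exact (mul_left_cancel₀ h2 h3).symm
  have h1 : φ' = χ := hχ.2 φ' ψ' t' ⟨hφP.one, hcφ, hφP.pos⟩ ⟨hψP.one, hcψ, hψP.pos⟩ ht0 ht1 hs
  have h2 := hφ' g₀
  rw [h1] at h2
  exact h2

end Helper61.IE
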