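import Pool.Agent.Helper61.IE.St2

/-!
# Module Min: minimal asymptotically central projections
-/

namespace Helper61.IE

open Helper51.MU Filter Topology
open scoped Matrix.Norms.L2Operator MatrixOrder ComplexOrder

section min

variable {k : ℕ → ℕ} {U : Ultrafilter ℕ}

private lemma ratio_mem {j : ℕ} (hk : 0 < k j) {e : Matrix (Fin (k j)) (Fin (k j)) ℂ} (he : Pr e) :
    0 ≤ rt e / k j ∧ rt e / k j ≤ 1 := by
  have hk' : (0 : ℝ) < k j := by exact_mod_cast hk
  refine ⟨div_nonneg he.rt_nonneg hk'.le, ?_⟩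
  rw [div_le_one hk']
  have h1 := rt_mono he.le_one
  have h2 : rt (1 : Matrix (Fin (k j)) (Fin (k j)) ℂ) = k j := by simp [rt]
  rwa [h2] at h1

private lemma exists_lim_ratio (hk : ∀ᶠ j in (U : Filter ℕ), 0 < k j)
    {e : ∀ j, Matrix (Fin (k j)) (Fin (k j)) ℂ} (he : ∀ j, Pr (e j)) :
    ∃ t : ℝ, Tendsto (fun j => rt (e j) / k j) U (𝓝 t) ∧ 0 ≤ t ∧ t ≤ 1 := by
  have hK : IsCompact (Set.Icc (0 : ℝ) 1) := isCompact_Icc
  have h1 : Tendsto (fun j => rt (e j) / k j) U (𝓟 (Set.Icc (0 : ℝ) 1)) := by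
    rw [tendsto_principal]
    filter_upwards [hk] with j hj
    exact ratio_mem hj (he j)
  obtain ⟨t, ht, ht'⟩ := hK.ultrafilter_le_nhds (U.map fun j => rt (e j) / k j) (by
    rw [Ultrafilter.coe_map]; exact h1)
  exact ⟨t, ht', ht.1, ht.2⟩

private lemma ac_sub {G : Type} {σ : ∀ j, G → Matrix (Fin (k j)) (Fin (k j)) ℂ}
    {f e : ∀ j, Matrix (Fin (k j)) (Fin (k j)) ℂ} (hf : AC k U σ f) (he : AC k U σ e) :
    AC k U σ (fun j => f j - e j) := by
  intro g
  have h1 : Tendsto (fun j => 2 * nn (σ j g * f j - f j * σ j g) +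
      2 * nn (σ j g * e j - e j * σ j g)) U (𝓝 0) := by
    simpa using ((hf g).const_mul 2).add ((he g).const_mul 2)
  refine squeeze_zero (fun j => nn_nonneg _) (fun j => ?_) h1
  have h2 : σ j g * (f j - e j) - (f j - e j) * σ j g =
      (σ j g * f j - f j * σ j g) + -(σ j g * e j - e j * σ j g) := by
    rw [mul_sub, sub_mul]; abel
  rw [h2]
  refine (nn_add_le _ _).trans ?_
  rw [nn_neg]

private lemma no_cut {G : Type} {σ : ∀ j, G → Matrix (Fin (k j)) (Fin (k j)) ℂ}
    (hk : ∀ᶠ j in (U : Filter ℕ), 0 < k j) (hc : NoCut k U σ)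
    {e : ∀ j, Matrix (Fin (k j)) (Fin (k j)) ℂ} (he : ∀ j, Pr (e j)) (hac : AC k U σ e) {t : ℝ}
    (ht : Tendsto (fun j => rt (e j) / k j) U (𝓝 t)) (h1 : 3 / 10 < t) : 7 / 10 ≤ t := by
  by_contra h2
  push Not at h2
  obtain ⟨S, c, hc0, hev⟩ := hc
  have h3 := ht.eventually_const_lt h1
  have h4 := ht.eventually_lt_const h2
  have h5 : Tendsto (fun j => ∑ s ∈ S, nn (σ j s * e j - e j * σ j s)) U (𝓝 0) := by
    have := tendsto_finsetSum S (fun s _ => hac s)
    simpa using this
  have h6 := h5.eventually_lt_const hc0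
  obtain ⟨j, hj1, hj2, hj3, hj4, hj5⟩ := (hk.and (hev.and (h3.and (h4.and h6)))).exists
  have hkj : (0 : ℝ) < k j := by exact_mod_cast hj1
  rw [lt_div_iff₀ hkj] at hj3
  rw [div_lt_iff₀ hkj] at hj4
  have h7 := hj2 (e j) (he j) hj3.le hj4.le
  have h8 : En S (σ j) (e j) = k j * ∑ s ∈ S, nn (σ j s * e j - e j * σ j s) := by
    unfold En nn
    rw [Finset.mul_sum]
    refine Finset.sum_congr rfl fun s _ => ?_
    rw [Fintype.card_fin]
    field_simp
  rw [h8] at h7
  nlinarith

end min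

theorem pMin (hDiag : StDiag) : StMin := by
  intro G _ _ k U σ hU hk hc
  classical
  obtain ⟨g, hg⟩ := exists_surjective_nat G
  -- the set of possible traces
  let Θ : Set ℝ := {t | 1 / 2 ≤ t ∧ ∃ e : ∀ j, Matrix (Fin (k j)) (Fin (k j)) ℂ,
    (∀ j, Pr (e j)) ∧ AC k U σ e ∧ Tendsto (fun j => rt (e j) / k j) U (𝓝 t)}
  have hbdd : BddBelow Θ := ⟨1 / 2, fun t ht => ht.1⟩
  have hne : Θ.Nonempty := by
    refine ⟨1, by norm_num, fun j => 1, fun j => Pr.one, ?_, ?_⟩
    · intro g
      have : (fun j => nn (σ j g * 1 - 1 * σ j g)) = fun _ => (0 : ℝ) := by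
        funext j
        rw [mul_one, one_mul, sub_self]
        simp [nn, hs_zero]
      rw [this]
      exact tendsto_const_nhds
    · refine tendsto_const_nhds.congr' ?_
      filter_upwards [hk] with j hj
      have h2 : rt (1 : Matrix (Fin (k j)) (Fin (k j)) ℂ) = k j := by simp [rt]
      have hkj : (0 : ℝ) < k j := by exact_mod_cast hj
      rw [h2, div_self hkj.ne']
  set T := sInf Θ with hT
  have hT2 : 1 / 2 ≤ T := le_csInf hne fun t ht => ht.1
  have hex : ∀ m : ℕ, ∃ t ∈ Θ, t < T + 1 / (m + 1) := by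
    intro m
    exact exists_lt_of_csInf_lt hne (by
      have : (0 : ℝ) < 1 / (m + 1) := by positivity
      linarith)
  choose t htΘ htT using hex
  choose ht2 E hE1 hE2 hE3 using htΘ
  -- the diagonal sequence
  let A : ℕ → ℕ → Prop := fun m j =>
    (∀ i ∈ Finset.range (m + 1), nn (σ j (g i) * E m j - E m j * σ j (g i)) < 1 / (m + 1)) ∧
    1 / 2 < rt (E m j) / k j + 1 / (m + 1) ∧ rt (E m j) / k j < T + 2 / (m + 1)
  have hA : ∀ m, ∀ᶠ j in (U : Filter ℕ), A m j := by
    intro m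
    have hm : (0 : ℝ) < 1 / (m + 1) := by positivity
    refine Filter.Eventually.and ?_ (Filter.Eventually.and ?_ ?_)
    · rw [Filter.eventually_all_finset]
      intro i _
      exact (hE2 m (g i)).eventually_lt_const hm
    · have : 1 / 2 - 1 / ((m : ℝ) + 1) < t m := by
        have := ht2 m
        linarith
      filter_upwards [(hE3 m).eventually_const_lt this] with j hj
      linarith
    · have : t m < T + 2 / (m + 1) := by
        refine (htT m).trans ?_
        have : (2 : ℝ) / (m + 1) = 1 / (m + 1) + 1 / (m + 1) := by ring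
        rw [this]
        linarith
      exact (hE3 m).eventually_lt_const this
  obtain ⟨m, hm, hmA⟩ := hDiag U hU A hA
  have hm0 : Tendsto (fun j => (1 : ℝ) / ((m j : ℝ) + 1)) U (𝓝 0) :=
    (tendsto_one_div_add_atTop_nhds_zero_nat (𝕜 := ℝ)).comp hm
  have hfP : ∀ j, Pr (E (m j) j) := fun j => hE1 _ _
  have hfAC : AC k U σ (fun j => E (m j) j) := by
    intro g'
    obtain ⟨i, rfl⟩ := hg g'
    refine squeeze_zero' (Filter.Eventually.of_forall fun j => nn_nonneg _) ?_ hm0
    filter_upwards [hmA, hm.eventually_ge_atTop i] with j hj hij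
    exact (hj.1 i (Finset.mem_range.2 (by omega))).le
  obtain ⟨θ, hθ, -, -⟩ := exists_lim_ratio hk hfP
  have hθ1 : 1 / 2 ≤ θ := by
    have h1 : Tendsto (fun j => rt (E (m j) j) / k j + 1 / ((m j : ℝ) + 1)) U (𝓝 (θ + 0)) :=
      hθ.add hm0
    rw [add_zero] at h1
    refine ge_of_tendsto h1 ?_
    filter_upwards [hmA] with j hj
    exact hj.2.1.le
  have hθ2 : θ ≤ T := by
    have h1 : Tendsto (fun j => T + 2 * (1 / ((m j : ℝ) + 1))) U (𝓝 (T + 2 * 0)) :=
      (hm0.const_mul 2).const_add T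
    rw [mul_zero, add_zero] at h1
    refine le_of_tendsto_of_tendsto hθ h1 ?_
    filter_upwards [hmA] with j hj
    refine hj.2.2.le.trans (le_of_eq ?_)
    ring
  have hθΘ : θ ∈ Θ := ⟨hθ1, _, hfP, hfAC, hθ⟩
  have hθT : θ = T := le_antisymm hθ2 (csInf_le hbdd hθΘ)
  have hT7 : 7 / 10 ≤ θ := no_cut hk hc hfP hfAC hθ (by linarith)
  refine ⟨fun j => E (m j) j, hfP, hfAC, ?_, ?_⟩
  · have h1 : (1 : ℝ) / 2 < θ := by linarith
    filter_upwards [hk, hθ.eventually_const_lt h1] with j hj1 hj2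
    have hkj : (0 : ℝ) < k j := by exact_mod_cast hj1
    rw [lt_div_iff₀ hkj] at hj2
    linarith
  · intro e he hfe heAC
    have hfeP : ∀ j, Pr (E (m j) j - e j) := fun j => (hfP j).sub (he j) (hfe j)
    have hfeAC := ac_sub hfAC heAC
    obtain ⟨a, ha, ha0, -⟩ := exists_lim_ratio hk he
    obtain ⟨b, hb, hb0, -⟩ := exists_lim_ratio hk hfeP
    have hab : a + b = θ := by
      have h1 := ha.add hb
      refine tendsto_nhds_unique (h1.congr fun j => ?_) hθ
      rw [rt_sub]
      ring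
    by_cases h1 : 3 / 10 < a
    · have h2 := no_cut hk hc he heAC ha h1
      have h3 : a ∈ Θ := ⟨by linarith, e, he, heAC, ha⟩
      have h4 := csInf_le hbdd h3
      right
      have : b = 0 := by
        apply le_antisymm _ hb0
        linarith
      rw [← this]
      exact hb
    · have h1' : 3 / 10 < b := by
        push Not at h1
        linarith
      have h2 := no_cut hk hc hfeP hfeAC hb h1'
      have h3 : b ∈ Θ := ⟨by linarith, _, hfeP, hfeAC, hb⟩
      have h4 := csInf_le hbdd h3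
      left
      have : a = 0 := by
        apply le_antisymm _ ha0
        linarith
      rw [← this]
      exact ha

end Helper61.IE
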