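import Pool.Agent.Helper61.IE.St2

/-!
# Module Models (helper95)
-/

namespace Helper61.IE

open Helper51.MU Filter Topology
open scoped Matrix.Norms.L2Operator MatrixOrder ComplexOrder

theorem pModels (hDim : StDim) : StModels := by
  intro G _ χ k U σ e hinf hA hM
  choose Fr ηr hη hev using hM
  refine ⟨Fr, ηr, hη, fun m => ?_⟩
  have hpos : (0 : ℝ) < 1 / (m + 1) := by positivity
  have h1 : ∀ᶠ j in (U : Filter ℕ), ∀ i ∈ Set.Iic m, ∀ i' ∈ Set.Iic m,
      nn (σ j (e i) * σ j (e i') - σ j (e i * e i')) ≤ 1 / (m + 1) := by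
    rw [eventually_all_finite (Set.finite_Iic m)]
    intro i _
    rw [eventually_all_finite (Set.finite_Iic m)]
    intro i' _
    exact (hA.mul (e i) (e i')).eventually_le_const hpos
  have h2 : ∀ᶠ j in (U : Filter ℕ), ∀ i ∈ Set.Iic m,
      nn ((σ j (e i)).conjTranspose * σ j (e i) - 1) ≤ 1 / (m + 1) := by
    rw [eventually_all_finite (Set.finite_Iic m)]
    intro i _
    exact (hA.unit (e i)).eventually_le_const hpos
  have h3 : ∀ᶠ j in (U : Filter ℕ), ∀ i ∈ Set.Iic m,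
      ‖ntr (σ j (e i)) - χ (e i)‖ ≤ 1 / (m + 1) := by
    rw [eventually_all_finite (Set.finite_Iic m)]
    intro i _
    exact (tendsto_iff_norm_sub_tendsto_zero.1 (hA.tr (e i))).eventually_le_const hpos
  have h4 : ∀ᶠ j in (U : Filter ℕ), ∀ r ∈ Set.Iic m,
      ∀ y : Matrix (Fin (k j)) (Fin (k j)) ℂ, y.conjTranspose = y → ‖y‖ ≤ 1 →
      ∑ g ∈ Fr r, nn (σ j g * y - y * σ j g) ≤ ηr r →
      nn (y - ntr y • (1 : Matrix (Fin (k j)) (Fin (k j)) ℂ)) ≤ 1 / (r + 1) := by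
    rw [eventually_all_finite (Set.finite_Iic m)]
    intro r _
    exact hev r
  have h5 := hDim G χ k U σ hinf hA m
  obtain ⟨j, a1, a2, a3, a4, a5⟩ := (h1.and (h2.and (h3.and (h4.and h5)))).exists
  exact ⟨k j, a5, σ j, ⟨hA.norm j, a1, a2, a3, a4⟩⟩

end Helper61.IE
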