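import Pool.Agent.Helper61.IE.PRange

/-!
# Perturbation
-/

namespace Helper61.IE

open Helper51.MU
open scoped Matrix.Norms.L2Operator MatrixOrder ComplexOrder

theorem pPert : StPert := by
  intro n _ _ H q z a ζ hH hH1 hq hz hzq ha hta hζ hhs
  obtain ⟨r, hr, hrX, hrq⟩ := pRange n ((1 - H) * z) q hq
  obtain ⟨hzq', -⟩ := hq.absorb hz hzq
  rw [mul_assoc (1 - H) z q, hzq'] at hrX
  have hHh : H.conjTranspose = H := herm_of_nonneg hH
  have hzh : z.conjTranspose = z := herm_of_nonneg hz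
  have hH1h : (1 - H).conjTranspose = 1 - H := by
    rw [Matrix.conjTranspose_sub, Matrix.conjTranspose_one, hHh]
  obtain ⟨y, hy⟩ : ∃ y, y = (1 - H) * z * (1 - H) := ⟨_, rfl⟩
  rw [← hy] at hta hhs ⊢
  have hyh : y.conjTranspose = y := by
    rw [hy, Matrix.conjTranspose_mul, Matrix.conjTranspose_mul, hH1h, hzh, mul_assoc]
  have hry : r * y = y := by rw [hy, ← mul_assoc, hrX]
  have hyr : y * r = y := by
    have := congrArg Matrix.conjTranspose hry
    rwa [Matrix.conjTranspose_mul, hyh, hr.1] at this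
  have hrt0 : 0 ≤ rt r := hr.rt_nonneg
  have hq0 : 0 ≤ rt q := hq.rt_nonneg
  have hnr : ‖r‖ ≤ 1 := hr.norm_le
  have hnr' : ‖1 - r‖ ≤ 1 := hr.one_sub.norm_le
  have hnH : ‖H‖ ≤ 1 := norm_le_one_of_nonneg hH hH1
  have hs1 : Real.sqrt (hs (a - y)) ≤ ζ * Real.sqrt (rt q) := by
    refine (Real.sqrt_le_sqrt hhs).trans ?_
    rw [Real.sqrt_mul (by positivity), Real.sqrt_sq hζ]
  have hs2 : Real.sqrt (rt r) ≤ Real.sqrt (rt q) := Real.sqrt_le_sqrt hrq
  have key : ∀ B : Matrix n n ℂ, hs B ≤ rt r → |rt (B * (a - y))| ≤ ζ * rt q := by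
    intro B hB
    refine (abs_rt_mul_le B (a - y)).trans ?_
    have h1 : Real.sqrt (hs B) ≤ Real.sqrt (rt q) := (Real.sqrt_le_sqrt hB).trans hs2
    calc Real.sqrt (hs B) * Real.sqrt (hs (a - y)) ≤ Real.sqrt (rt q) * (ζ * Real.sqrt (rt q)) :=
          mul_le_mul h1 hs1 (Real.sqrt_nonneg _) (Real.sqrt_nonneg _)
      _ = ζ * (Real.sqrt (rt q) * Real.sqrt (rt q)) := by ring
      _ = ζ * rt q := by rw [Real.mul_self_sqrt hq0]
  have e1 : rt (a * (1 - r)) ≤ ζ * rt q := by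
    have h1 := key r hr.hs.le
    have h2 : rt (a * (1 - r)) = -rt (r * (a - y)) := by
      rw [mul_sub, mul_one, rt_sub, mul_sub, rt_sub, hry, rt_mul_comm r a, hta]; ring
    rw [h2]
    exact (neg_le_abs _).trans h1
  refine ⟨r, hr, hrq, e1, ?_⟩
  have hHr : hs (H * r) ≤ rt r := (hs_mul_left_le hnH).trans hr.hs.le
  have hrHr : hs (r * H * (1 - r)) ≤ rt r := by
    refine (hs_mul_right_le hnr').trans ?_
    exact (hs_mul_right_le hnH).trans hr.hs.le
  have h1 := key _ hHr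
  have h2 := key _ hrHr
  have h3 : rt ((1 - r) * a * (1 - r) * H) ≤ ζ * rt q := by
    have h4 : 0 ≤ (1 - r) * a * (1 - r) := by
      have := conj_nonneg ha (1 - r)
      rwa [hr.one_sub.1] at this
    have h5 := rt_mul_mono' hH1 h4
    rw [mul_one] at h5
    refine h5.trans (le_trans (le_of_eq ?_) e1)
    rw [rt_cycle, hr.one_sub.2, rt_mul_comm]
  have h4 : rt (a * H) - rt (y * H) = rt (H * r * (a - y)) + rt (r * H * (1 - r) * (a - y)) +
      rt ((1 - r) * a * (1 - r) * H) := by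
    have e2 : rt (H * r * (a - y)) = rt (r * (a - y) * H) := by
      rw [rt_mul_comm (r * (a - y)) H, mul_assoc]
    have e3 : rt (r * H * (1 - r) * (a - y)) = rt ((1 - r) * (a - y) * (r * H)) := by
      rw [rt_mul_comm ((1 - r) * (a - y)) (r * H)]
      congr 1; noncomm_ring
    have e4 : (1 - r) * y = 0 := by rw [sub_mul, one_mul, hry, sub_self]
    have e5 : (1 - r) * a * (1 - r) = (1 - r) * (a - y) * (1 - r) := by
      rw [mul_sub (1 - r) a y, e4, sub_zero]
    rw [e2, e3, e5, ← rt_sub, ← rt_add, ← rt_add]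
    congr 1
    noncomm_ring
  have h5 := (abs_le.1 h1).2
  have h6 := (abs_le.1 h2).2
  have h7 : 0 ≤ ζ * rt q := by positivity
  linarith

end Helper61.IE
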