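import Pool.Agent.Helper61.IE.St

/-!
# Module PotA: the potential step
-/

set_option linter.unusedSectionVars false

namespace Helper61.IE

open Helper51.MU
open scoped Matrix.Norms.L2Operator MatrixOrder ComplexOrder


section ring

variable {T : Type*} [Ring T]

private lemma g1 (H : T) : H * (1 - (H + H)) * (1 - (H + H)) =
    H - H * H - H * H - H * H - H * H + H * H * H + H * H * H + H * H * H + H * H * H := by
  noncomm_ring

private lemma g2 (H D : T) : (H + D) * (H + D) = H * H + H * D + D * H + D * D := by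
  noncomm_ring

private lemma g3 (H D : T) : (H * H + H * D + D * H + D * D) * (H + D) =
    H * H * H + H * H * D + H * D * H + H * D * D +
    D * H * H + D * H * D + D * D * H + D * D * D := by noncomm_ring

private lemma g4 (q G J : T) : q * ((1 + q * G * q) * J) * q =
    q * J * q + q * q * G * q * J * q := by noncomm_ring

private lemma g5 (q G J : T) : q * (J * (1 + q * G * q)) * q =
    q * J * q + q * J * q * G * (q * q) := by noncomm_ring

private lemma g6 (S q G R : T) : (1 + (S + q)) * (G - G * R * G) =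
    (1 + S) * G - ((1 + S) * G) * R * G + q * G - q * G * R * G := by noncomm_ring

private lemma g7 (q G R : T) : 1 - 1 * R * G + q * G - q * G * R * G =
    1 - (R + q * G * R) * G + q * G := by noncomm_ring

private lemma g8 (q G : T) : 1 - q * G + q * G = 1 := by noncomm_ring

private lemma g9 (R H q : T) : R + R - R * H * q = R + (R * q - R * H * q) + (R - R * q) := by
  noncomm_ring

private lemma g10 (R H q : T) : R * (1 - H) * q = R * q - R * H * q := by noncomm_ring

private lemma g11 (q H : T) : q * ((1 - H) * (1 - H)) * q =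
    q * q - q * H * q - q * H * q + q * (H * H) * q := by noncomm_ring

private lemma g12 (q R A B : T) :
    q - (R * (q - A - A + B) + R * (q - A - A + B)) =
      q - (R * q) - (R * q) + R * A + R * A + R * A + R * A - R * B - R * B := by noncomm_ring

private lemma g13 (R A B : T) :
    (R + R - R * A) - R - R + R * A + R * A + R * A + R * A - R * B - R * B =
      R * (A + A + A - B - B) := by noncomm_ring

private lemma g14 (x : T) : (x - (x * x + x * x)) * (1 - (x + x)) = x - x * x - x * x -
    x * x - x * x + x * x * x + x * x * x + x * x * x + x * x * x := by noncomm_ring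

private lemma g15 (R M D : T) : R * ((1 - (M * R + M * R)) * M * D) =
    (R * M - (R * M * (R * M) + R * M * (R * M))) * D := by noncomm_ring

private lemma g16 (q R M : T) : q * (1 - (R * M + R * M)) = q - ((q * R) * M + (q * R) * M) := by
  noncomm_ring

private lemma g17 (R M q x : T) : R * M * (q - (x + x)) = R * (M * q) - R * M * x -
    R * M * x := by noncomm_ring

private lemma g18 (q H : T) : q * ((1 - H) * (1 - H) * H) = q * H - q * H * H - q * H * H +
    q * (H * H * H) := by noncomm_ring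

private lemma g19 (R A q M : T) (h : R + R - R * A = q) :
    R * M + R * M = q * M + R * A * M := by
  rw [← h]; noncomm_ring

end ring

variable {n : Type} [Fintype n] [DecidableEq n]

private lemma potA_eq (H : Matrix n n ℂ) :
    PotE H = rt H - 4 * rt (H * H) + 4 * rt (H * H * H) := by
  unfold PotE
  rw [two_smul ℝ H]
  rw [g1]; simp only [rt_add, rt_sub]; ring

private lemma potA_add (H D : Matrix n n ℂ) :
    PotE (H + D) = PotE H + (rt D - 8 * rt (H * D) - 4 * rt (D * D) + 12 * rt (H * H * D) +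
      12 * rt (H * D * D) + 4 * rt (D * D * D)) := by
  rw [potA_eq, potA_eq]
  have c1 : rt (D * H) = rt (H * D) := rt_mul_comm _ _
  have c2 : rt (H * D * H) = rt (H * H * D) := rt_cycle H D H
  have c3 : rt (D * H * H) = rt (H * H * D) := (rt_cycle D H H).trans c2
  have c4 : rt (D * H * D) = rt (H * D * D) := (rt_cycle D H D).trans (rt_cycle D D H)
  have c5 : rt (D * D * H) = rt (H * D * D) := rt_cycle D D H
  rw [g2, g3]
  simp only [rt_add, c1, c2, c3, c4, c5]
  ring

private lemma potA_compress {q R : Matrix n n ℂ} (hqR : q * R = R) (hRq : R * q = R)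
    (Z : Matrix n n ℂ) : rt (R * (q * Z * q)) = rt (R * Z) := by
  calc rt (R * (q * Z * q)) = rt ((R * q) * Z * q) := by simp only [mul_assoc]
    _ = rt ((R * Z) * q) := by rw [hRq]
    _ = rt (q * (R * Z)) := rt_mul_comm _ _
    _ = rt ((q * R) * Z) := by rw [mul_assoc]
    _ = rt (R * Z) := by rw [hqR]

theorem pPotA : StPotA := by
  intro n _ _ S q hS hq
  set G := GG S with hGdef
  have hG0 : 0 ≤ G := GG_nonneg hS
  have hG1 : G ≤ 1 := GG_le_one hS
  have hGh : G.conjTranspose = G := GG_herm hS
  have hGn : ‖G‖ ≤ 1 := norm_GG_le hS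
  have hGG : G * (1 + S) = 1 := GG_mul hS
  have hGG' : (1 + S) * G = 1 := mul_GG hS
  clear_value G
  have hqq : q * q = q := hq.2
  have hqh : q.conjTranspose = q := hq.1
  have hq0 : 0 ≤ q := hq.nonneg
  have hq1 : q ≤ 1 := hq.le_one
  have hqn : ‖q‖ ≤ 1 := hq.norm_le
  -- the compressed resolvent
  have hK0 : 0 ≤ q * G * q := by
    have := conj_nonneg hG0 q
    rwa [hqh] at this
  obtain ⟨R, hR0, hR1, hRh, hqR, hRq, r1, r2⟩ : ∃ R : Matrix n n ℂ, 0 ≤ R ∧ R ≤ 1 ∧
      R.conjTranspose = R ∧ q * R = R ∧ R * q = R ∧ R + q * G * R = q ∧ R + R * G * q = q := by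
    set J := GG (q * G * q) with hJ
    have hJ0 : 0 ≤ J := GG_nonneg hK0
    have hJ1 : J ≤ 1 := GG_le_one hK0
    have j1 : J * (1 + q * G * q) = 1 := GG_mul hK0
    have j2 : (1 + q * G * q) * J = 1 := mul_GG hK0
    clear_value J
    have hR0 : 0 ≤ q * J * q := by
      have := conj_nonneg hJ0 q
      rwa [hqh] at this
    refine ⟨q * J * q, hR0, ?_, herm_of_nonneg hR0, ?_, ?_, ?_, ?_⟩
    · have := conj_mono hJ1 q
      rw [hqh, mul_one, hqq] at this
      exact this.trans hq1
    · rw [← mul_assoc, ← mul_assoc, hqq]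
    · rw [mul_assoc, hqq]
    · have e := g4 q G J
      rw [j2, mul_one, hqq] at e
      calc q * J * q + q * G * (q * J * q) = q * J * q + q * G * q * J * q := by
            simp only [mul_assoc]
        _ = q := e.symm
    · have e := g5 q G J
      rw [j1, mul_one, hqq] at e
      exact e.symm
  have hRn : ‖R‖ ≤ 1 := norm_le_one_of_nonneg hR0 hR1
  -- Woodbury
  have hwood : GG (S + q) = G - G * R * G := by
    have h1 : (1 + (S + q)) * (G - G * R * G) = 1 := by
      rw [g6, hGG', g7, r1, g8]
    have h2 := GG_mul (add_nonneg hS hq0)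
    calc GG (S + q) = GG (S + q) * ((1 + (S + q)) * (G - G * R * G)) := by rw [h1, mul_one]
      _ = (GG (S + q) * (1 + (S + q))) * (G - G * R * G) := (mul_assoc _ _ _).symm
      _ = _ := by rw [h2, one_mul]
  obtain ⟨H, hHdef⟩ : ∃ H, H = 1 - G := ⟨_, rfl⟩
  have hGH : G = 1 - H := by rw [hHdef]; abel
  have hcomm : G * H = H * G := by rw [hHdef, mul_sub, sub_mul, mul_one, one_mul]
  have hH0 : 0 ≤ H := by rw [hHdef]; exact sub_nonneg.2 hG1
  have hH1 : H ≤ 1 := by rw [hHdef]; exact sub_le_self _ hG0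
  have hHh : H.conjTranspose = H := herm_of_nonneg hH0
  have hHn : ‖H‖ ≤ 1 := norm_le_one_of_nonneg hH0 hH1
  have hH' : 1 - GG (S + q) = H + G * R * G := by rw [hwood, hHdef]; abel
  rw [hH', ← hHdef, potA_add]
  -- names
  obtain ⟨M0, hM0⟩ : ∃ M, M = q * (G * G) * q := ⟨_, rfl⟩
  obtain ⟨M1, hM1⟩ : ∃ M, M = q * (G * G * H) * q := ⟨_, rfl⟩
  obtain ⟨M2, hM2⟩ : ∃ M, M = q * (G * G * H * H) * q := ⟨_, rfl⟩
  obtain ⟨A, hA⟩ : ∃ M, M = q * H * q := ⟨_, rfl⟩
  obtain ⟨B, hB⟩ : ∃ M, M = q * (H * H) * q := ⟨_, rfl⟩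
  have hGHG : G * H * G = G * G * H := by rw [mul_assoc, ← hcomm, ← mul_assoc]
  have hGHHG : G * H * H * G = G * G * H * H := by
    calc G * H * H * G = G * H * (H * G) := by simp only [mul_assoc]
      _ = (G * H * G) * H := by rw [← hcomm]; simp only [mul_assoc]
      _ = _ := by rw [hGHG]
  -- trace identities
  have t1 : rt (G * R * G) = rt (R * M0) := by
    rw [hM0, potA_compress hqR hRq, rt_cycle G R G, rt_cycle G G R, mul_assoc]
  have t2 : rt (G * R * G * (G * R * G)) = rt (R * M0 * (R * M0)) := by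
    have e1 : R * M0 * (R * M0) = (R * (G * G) * R) * (q * (G * G) * q) := by
      rw [hM0]
      calc R * (q * (G * G) * q) * (R * (q * (G * G) * q)) =
          (R * q) * (G * G) * (q * R) * (q * (G * G) * q) := by simp only [mul_assoc]
        _ = _ := by rw [hRq, hqR]
    rw [e1, potA_compress (R := R * (G * G) * R) (by rw [← mul_assoc, ← mul_assoc, hqR])
      (by rw [mul_assoc, hRq])]
    calc rt (G * R * G * (G * R * G)) = rt (G * (R * G * G * R * G)) := by
          simp only [mul_assoc]
      _ = rt ((R * G * G * R * G) * G) := rt_mul_comm _ _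
      _ = _ := by simp only [mul_assoc]
  have t3 : rt (G * R * G * (G * R * G) * (G * R * G)) = rt (R * M0 * (R * M0) * (R * M0)) := by
    have e1 : R * M0 * (R * M0) * (R * M0) =
        (R * (G * G) * R * (G * G) * R) * (q * (G * G) * q) := by
      rw [hM0]
      calc R * (q * (G * G) * q) * (R * (q * (G * G) * q)) * (R * (q * (G * G) * q)) =
          (R * q) * (G * G) * (q * R) * (q * ((G * G) * (q * R))) * (q * (G * G) * q) := by
            simp only [mul_assoc]
        _ = R * (G * G) * R * (q * ((G * G) * R)) * (q * (G * G) * q) := by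
            rw [hRq, hqR]
        _ = R * (G * G) * (R * q) * (G * G) * R * (q * (G * G) * q) := by
            simp only [mul_assoc]
        _ = _ := by rw [hRq]
    rw [e1, potA_compress (R := R * (G * G) * R * (G * G) * R)
      (by simp only [← mul_assoc]; rw [hqR])
      (by rw [mul_assoc, hRq])]
    calc rt (G * R * G * (G * R * G) * (G * R * G)) =
        rt (G * (R * G * G * R * G * G * R * G)) := by simp only [mul_assoc]
      _ = rt ((R * G * G * R * G * G * R * G) * G) := rt_mul_comm _ _
      _ = _ := by simp only [mul_assoc]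
  have t4 : rt (H * (G * R * G)) = rt (R * M1) := by
    rw [hM1, potA_compress hqR hRq]
    calc rt (H * (G * R * G)) = rt ((H * G) * (R * G)) := by simp only [mul_assoc]
      _ = rt ((R * G) * (H * G)) := rt_mul_comm _ _
      _ = rt (R * (G * H * G)) := by simp only [mul_assoc]
      _ = _ := by rw [hGHG]
  have t5 : rt (H * H * (G * R * G)) = rt (R * M2) := by
    rw [hM2, potA_compress hqR hRq]
    calc rt (H * H * (G * R * G)) = rt ((H * H * G) * (R * G)) := by simp only [mul_assoc]
      _ = rt ((R * G) * (H * H * G)) := rt_mul_comm _ _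
      _ = rt (R * (G * H * H * G)) := by simp only [mul_assoc]
      _ = _ := by rw [hGHHG]
  have t6 : rt (H * (G * R * G) * (G * R * G)) = rt (R * M1 * (R * M0)) := by
    have e1 : R * M1 * (R * M0) = (R * (G * G * H) * R) * (q * (G * G) * q) := by
      rw [hM0, hM1]
      calc R * (q * (G * G * H) * q) * (R * (q * (G * G) * q)) =
          (R * q) * (G * G * H) * (q * R) * (q * (G * G) * q) := by simp only [mul_assoc]
        _ = _ := by rw [hRq, hqR]
    rw [e1, potA_compress (R := R * (G * G * H) * R) (by rw [← mul_assoc, ← mul_assoc, hqR])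
      (by rw [mul_assoc, hRq])]
    calc rt (H * (G * R * G) * (G * R * G)) = rt ((H * G * R * G * G) * (R * G)) := by
          simp only [mul_assoc]
      _ = rt ((R * G) * (H * G * R * G * G)) := rt_mul_comm _ _
      _ = rt (R * (G * H * G) * R * (G * G)) := by simp only [mul_assoc]
      _ = _ := by rw [hGHG]
  rw [t1, t2, t3, t4, t5, t6]
  -- relations
  have hRA : R * A = R * H * q := by
    rw [hA]
    calc R * (q * H * q) = (R * q) * H * q := by simp only [mul_assoc]
      _ = _ := by rw [hRq]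
  have r3 : R + R - R * A = q := by
    rw [hRA, g9, ← g10, ← hGH, hRq, sub_self, add_zero, r2]
  have hM0' : M0 = q - A - A + B := by
    rw [hM0, hGH, hA, hB, g11, hqq]
  obtain ⟨C, hC⟩ : ∃ M, M = A + A + A - B - B := ⟨_, rfl⟩
  have hqx : q - (R * M0 + R * M0) = R * C := by
    rw [hM0', hC, g12, ← g13, hRq, r3]
  -- the bound `b`
  obtain ⟨b, hb⟩ : ∃ b : ℝ, b = rt (q * H * H) := ⟨_, rfl⟩
  have hHq : hs (H * q) = b := by
    rw [hs_eq_rt, Matrix.conjTranspose_mul, hHh, hqh, hb]
    calc rt (q * H * (H * q)) = rt ((q * H * H) * q) := by simp only [mul_assoc]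
      _ = rt (q * (q * H * H)) := rt_mul_comm _ _
      _ = rt ((q * q) * H * H) := by simp only [mul_assoc]
      _ = _ := by rw [hqq]
  have hb0 : 0 ≤ b := hHq ▸ hs_nonneg _
  obtain ⟨β, hβ⟩ : ∃ β : ℝ, β = Real.sqrt b := ⟨_, rfl⟩
  have hβ0 : 0 ≤ β := hβ ▸ Real.sqrt_nonneg _
  have hββ : β * β = b := by rw [hβ]; exact Real.mul_self_sqrt hb0
  have hsq : ∀ {X : Matrix n n ℂ}, hs X ≤ b → Real.sqrt (hs X) ≤ β := fun h => by
    rw [hβ]; exact Real.sqrt_le_sqrt h
  have hcA : hs A ≤ b := by
    rw [hA, mul_assoc, ← hHq]; exact hs_mul_left_le hqn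
  have hqHn : ‖q * H‖ ≤ 1 := (norm_mul_le _ _).trans
    (mul_le_one₀ hqn (norm_nonneg _) hHn)
  have hcB : hs B ≤ b := by
    have e : B = (q * H) * (H * q) := by rw [hB]; simp only [mul_assoc]
    rw [e, ← hHq]; exact hs_mul_left_le hqHn
  have hGGn : ‖G * G‖ ≤ 1 := (norm_mul_le _ _).trans (mul_le_one₀ hGn (norm_nonneg _) hGn)
  have hqGGn : ‖q * (G * G)‖ ≤ 1 := (norm_mul_le _ _).trans
    (mul_le_one₀ hqn (norm_nonneg _) hGGn)
  have hcM1 : hs M1 ≤ b := by
    have e : M1 = (q * (G * G)) * (H * q) := by rw [hM1]; simp only [mul_assoc]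
    rw [e, ← hHq]; exact hs_mul_left_le hqGGn
  have sA := hsq hcA
  have sB := hsq hcB
  have sM1 := hsq hcM1
  have sC : Real.sqrt (hs C) ≤ 5 * β := by
    have h1 := sqrt_hs_sub_le (A + A + A - B) B
    have h2 := sqrt_hs_sub_le (A + A + A) B
    have h3 := sqrt_hs_add_le (A + A) A
    have h4 := sqrt_hs_add_le A A
    rw [hC]
    linarith
  have sRC : Real.sqrt (hs (R * C)) ≤ 5 * β :=
    (Real.sqrt_le_sqrt (hs_mul_left_le hRn)).trans sC
  have hRC : hs (R * C) ≤ 25 * b := by
    have h1 := Real.sq_sqrt (hs_nonneg (R * C))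
    have h2 := Real.sqrt_nonneg (hs (R * C))
    rw [← h1, ← hββ]
    nlinarith
  -- first three terms
  have hM00 : 0 ≤ M0 := by
    have h1 : 0 ≤ G * G := by
      have := nonneg_star_mul G
      rwa [hGh] at this
    have := conj_nonneg h1 q
    rwa [hqh, ← hM0] at this
  have hM0q : M0 ≤ q := by
    have h1 : G * G ≤ 1 := (le_mul_self_of_le_one hG0 hG1).trans hG1
    have := conj_mono h1 q
    rwa [hqh, ← hM0, mul_one, hqq] at this
  have hM0h : M0.conjTranspose = M0 := herm_of_nonneg hM00
  have hfirst : rt (R * M0) - 4 * rt (R * M0 * (R * M0)) + 4 * rt (R * M0 * (R * M0) * (R * M0)) ≤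
      25 * b := by
    obtain ⟨D, hD⟩ : ∃ D, D = 1 - (R * M0 + R * M0) := ⟨_, rfl⟩
    have hDh : D.conjTranspose = 1 - (M0 * R + M0 * R) := by
      rw [hD, Matrix.conjTranspose_sub, Matrix.conjTranspose_add, Matrix.conjTranspose_mul,
        Matrix.conjTranspose_one, hM0h, hRh]
    have e1 : R * (D.conjTranspose * M0 * D) = R * M0 - R * M0 * (R * M0) - R * M0 * (R * M0) -
        R * M0 * (R * M0) - R * M0 * (R * M0) + R * M0 * (R * M0) * (R * M0) +
        R * M0 * (R * M0) * (R * M0) + R * M0 * (R * M0) * (R * M0) +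
        R * M0 * (R * M0) * (R * M0) := by
      rw [hDh, hD, g15, g14]
    have e2 : rt (R * (D.conjTranspose * M0 * D)) = rt (R * M0) - 4 * rt (R * M0 * (R * M0)) +
        4 * rt (R * M0 * (R * M0) * (R * M0)) := by
      rw [e1]; simp only [rt_add, rt_sub]; ring
    rw [← e2]
    have h1 := rt_mul_mono hR1 (conj_nonneg' hM00 D)
    have h2 := rt_mono (conj_mono' hM0q D)
    rw [one_mul] at h1
    have h3 : rt (D.conjTranspose * q * D) = hs (q * D) := by
      rw [hs_eq_rt, Matrix.conjTranspose_mul, hqh]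
      congr 1
      calc D.conjTranspose * q * D = D.conjTranspose * (q * q) * D := by rw [hqq]
        _ = _ := by simp only [mul_assoc]
    have h4 : q * D = R * C := by
      rw [← hqx, hD, g16, hqR]
    rw [h3, h4] at h2
    linarith
  -- the term with `M2`
  have hsecond : rt (R * M2) ≤ b := by
    have e : M2 = (G * (H * q)).conjTranspose * (G * (H * q)) := by
      rw [hM2, Matrix.conjTranspose_mul, Matrix.conjTranspose_mul, hHh, hqh, hGh]
      have : q * H * G * (G * (H * q)) = q * (H * G) * (G * H) * q := by simp only [mul_assoc]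
      rw [this, ← hcomm]
      calc q * (G * G * H * H) * q = q * (G * (G * H) * H) * q := by simp only [mul_assoc]
        _ = q * (G * (H * G) * H) * q := by rw [hcomm]
        _ = _ := by simp only [mul_assoc]
    have h0 : 0 ≤ M2 := e ▸ nonneg_star_mul _
    have h1 := rt_mul_mono hR1 h0
    rw [one_mul] at h1
    have h2 : rt M2 ≤ b := by
      rw [e, ← hs_eq_rt, ← hHq]
      exact hs_mul_left_le hGn
    linarith
  -- the terms with `M1`
  have hM1q : M1 * q = M1 := by rw [hM1, mul_assoc, hqq]
  have hqM1 : q * M1 = M1 := by rw [hM1, ← mul_assoc, ← mul_assoc, hqq]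
  have e5 : 2 * rt (R * M1 * (R * M0)) = rt (R * M1) - rt (R * M1 * (R * C)) := by
    rw [← hqx, g17, hM1q]
    simp only [rt_sub]; ring
  have e6 : |rt (R * M1 * (R * C))| ≤ 5 * b := by
    refine (abs_rt_mul_le _ _).trans ?_
    have h1 : Real.sqrt (hs (R * M1)) ≤ β :=
      (Real.sqrt_le_sqrt (hs_mul_left_le hRn)).trans sM1
    rw [← hββ]
    calc Real.sqrt (hs (R * M1)) * Real.sqrt (hs (R * C)) ≤ β * (5 * β) := by
          gcongr
      _ = _ := by ring
  have e7 : 2 * rt (R * M1) = rt M1 + rt (R * A * M1) := by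
    have h2 := congrArg rt (g19 R A q M1 r3)
    rw [rt_add, rt_add, hqM1] at h2
    linarith
  have e8 : |rt (R * A * M1)| ≤ b := by
    refine (abs_rt_mul_le _ _).trans ?_
    have h1 : Real.sqrt (hs (R * A)) ≤ β :=
      (Real.sqrt_le_sqrt (hs_mul_left_le hRn)).trans sA
    rw [← hββ]
    gcongr
  have e9 : rt (q * H) - 2 * b ≤ rt M1 := by
    have h1 : rt M1 = rt (q * H) - 2 * b + rt (q * (H * H * H)) := by
      have h2 : M1 = q * ((1 - H) * (1 - H) * H) * q := by rw [hM1, hGH]
      have h3 : rt (q * ((1 - H) * (1 - H) * H) * q) = rt (q * ((1 - H) * (1 - H) * H)) := by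
        rw [rt_mul_comm, ← mul_assoc, hqq]
      rw [h2, h3, g18]
      simp only [rt_add, rt_sub, ← hb]; ring
    have h5 : 0 ≤ H * H * H := by
      have := conj_nonneg hH0 H
      rwa [hHh] at this
    have h6 := rt_mul_nonneg hq0 h5
    linarith
  have f6 := abs_le.1 e6
  have f8 := abs_le.1 e8
  rw [← hb]
  linarith [f6.1, f6.2, f8.1, f8.2]

end Helper61.IE
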