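import Pool.Agent.Helper61.IE.St

/-!
# Module PotB: the potential is Lipschitz for the trace norm
-/

set_option autoImplicit false
set_option linter.unusedSectionVars false

namespace Helper61.IE

open Helper51.MU
open scoped Matrix.Norms.L2Operator MatrixOrder ComplexOrder

section

variable {n : Type} [Fintype n] [DecidableEq n]

private lemma potB_exp (H : Matrix n n ℂ) :
    PotE H = rt H - 4 * rt (H * H) + 4 * rt (H * H * H) := by
  have e : H * (1 - (2 : ℝ) • H) * (1 - (2 : ℝ) • H) =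
      H - (4 : ℝ) • (H * H) + (4 : ℝ) • (H * H * H) := by
    simp only [mul_sub, sub_mul, mul_one, mul_smul_comm, smul_mul_assoc, smul_sub, smul_smul]
    module
  rw [PotE, e, rt_add, rt_sub, rt_smul, rt_smul]

private lemma potB_norm2 {A B : Matrix n n ℂ} (hA : ‖A‖ ≤ 1) (hB : ‖B‖ ≤ 1) : ‖A * B‖ ≤ 1 :=
  (norm_mul_le A B).trans (mul_le_one₀ hA (norm_nonneg B) hB)

private lemma potB_lip (S q y : Matrix n n ℂ) (N : ℝ) (hS : 0 ≤ S) (hq : 0 ≤ q) (hy : 0 ≤ y)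
    (hN : ∀ X : Matrix n n ℂ, ‖X‖ ≤ 1 → |rt (X * (y - q))| ≤ N) :
    PotE (1 - GG (S + y)) ≤ PotE (1 - GG (S + q)) + 21 * N := by
  have hA : 0 ≤ S + q := add_nonneg hS hq
  have hB : 0 ≤ S + y := add_nonneg hS hy
  set G₁ := GG (S + y) with hG₁
  set G₂ := GG (S + q) with hG₂
  set D := y - q with hD
  set H₁ : Matrix n n ℂ := 1 - G₁ with hH₁
  set H₂ : Matrix n n ℂ := 1 - G₂ with hH₂
  have nG₁ : ‖G₁‖ ≤ 1 := norm_GG_le hB
  have nG₂ : ‖G₂‖ ≤ 1 := norm_GG_le hA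
  have nH₁ : ‖H₁‖ ≤ 1 := norm_le_one_of_nonneg (one_sub_GG_nonneg hB) (one_sub_GG_le_one hB)
  have nH₂ : ‖H₂‖ ≤ 1 := norm_le_one_of_nonneg (one_sub_GG_nonneg hA) (one_sub_GG_le_one hA)
  have hdiff : H₁ - H₂ = G₂ * D * G₁ := by
    have h1 : G₂ - G₁ = G₂ * ((S + y) - (S + q)) * G₁ := GG_sub hA hB
    have h2 : (S + y) - (S + q) = D := by rw [hD]; abel
    rw [h2] at h1
    rw [← h1, hH₁, hH₂]
    abel
  clear_value H₁ H₂
  -- every term is of the form `rt (L (H₁ - H₂) R)`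
  have key : ∀ L R : Matrix n n ℂ, ‖L‖ ≤ 1 → ‖R‖ ≤ 1 → |rt (L * (H₁ - H₂) * R)| ≤ N := by
    intro L R hL hR
    have e : rt (L * (H₁ - H₂) * R) = rt (G₁ * R * (L * G₂) * D) := by
      rw [hdiff]
      have e1 : L * (G₂ * D * G₁) * R = (L * G₂ * D) * (G₁ * R) := by noncomm_ring
      rw [e1, rt_mul_comm]
      congr 1
      noncomm_ring
    rw [e]
    exact hN _ (potB_norm2 (potB_norm2 nG₁ hR) (potB_norm2 hL nG₂))
  have n1 : ‖(1 : Matrix n n ℂ)‖ ≤ 1 := norm_le_one_of_nonneg zero_le_one le_rfl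
  have k1 : |rt H₁ - rt H₂| ≤ N := by
    have := key 1 1 n1 n1
    rwa [one_mul, mul_one, rt_sub] at this
  have k2 : |rt (H₁ * H₁) - rt (H₂ * H₂)| ≤ 2 * N := by
    have a := key 1 H₁ n1 nH₁
    have b := key H₂ 1 nH₂ n1
    have e : rt (H₁ * H₁) - rt (H₂ * H₂) =
        rt (1 * (H₁ - H₂) * H₁) + rt (H₂ * (H₁ - H₂) * 1) := by
      rw [one_mul, mul_one, sub_mul, mul_sub, rt_sub, rt_sub]
      ring
    rw [e]
    exact (abs_add_le _ _).trans (by linarith)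
  have k3 : |rt (H₁ * H₁ * H₁) - rt (H₂ * H₂ * H₂)| ≤ 3 * N := by
    have a := key 1 (H₁ * H₁) n1 (potB_norm2 nH₁ nH₁)
    have b := key H₂ H₁ nH₂ nH₁
    have c := key (H₂ * H₂) 1 (potB_norm2 nH₂ nH₂) n1
    have e : rt (H₁ * H₁ * H₁) - rt (H₂ * H₂ * H₂) =
        rt (1 * (H₁ - H₂) * (H₁ * H₁)) + rt (H₂ * (H₁ - H₂) * H₁) +
          rt (H₂ * H₂ * (H₁ - H₂) * 1) := by
      rw [← rt_add, ← rt_add, ← rt_sub]
      congr 1
      noncomm_ring
    rw [e]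
    have t1 := abs_add_le (rt (1 * (H₁ - H₂) * (H₁ * H₁)) + rt (H₂ * (H₁ - H₂) * H₁))
      (rt (H₂ * H₂ * (H₁ - H₂) * 1))
    have t2 := abs_add_le (rt (1 * (H₁ - H₂) * (H₁ * H₁))) (rt (H₂ * (H₁ - H₂) * H₁))
    linarith
  rw [potB_exp, potB_exp]
  have l1 := (abs_le.1 k1).2
  have l2 := (abs_le.1 k2).1
  have l3 := (abs_le.1 k3).2
  linarith

private lemma potB_nonneg (H : Matrix n n ℂ) (hH : 0 ≤ H) : 0 ≤ PotE H := by
  have h1 : (1 - (2 : ℝ) • H).conjTranspose = 1 - (2 : ℝ) • H := by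
    rw [Matrix.conjTranspose_sub, Matrix.conjTranspose_one, Matrix.conjTranspose_smul,
      herm_of_nonneg hH]
    simp
  have h2 := conj_nonneg hH (1 - (2 : ℝ) • H)
  rw [h1] at h2
  rw [PotE, rt_cycle]
  exact rt_nonneg h2

end

theorem pPotB : StPotB := by
  intro n _ _
  refine ⟨potB_lip, potB_nonneg, ?_⟩
  simp [PotE, rt]

end Helper61.IE
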