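import Pool.Agent.Helper61.IE.St2

/-!
# Module ProjIrr: trivial asymptotically central projections give uniform irreducibility
-/

set_option autoImplicit false
set_option linter.unusedSectionVars false

namespace Helper61.IE

open Helper51.MU Filter Topology
open scoped Matrix.Norms.L2Operator MatrixOrder ComplexOrder

section

variable {G : Type} {k : ℕ → ℕ} (σ : ∀ j, G → Matrix (Fin (k j)) (Fin (k j)) ℂ)

/-- a bad matrix -/
private def Bad (r : ℕ) (F : Finset G) (η : ℝ) (j : ℕ) (y : Matrix (Fin (k j)) (Fin (k j)) ℂ) :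
    Prop :=
  y.conjTranspose = y ∧ ‖y‖ ≤ 1 ∧ ∑ g ∈ F, nn (σ j g * y - y * σ j g) ≤ η ∧
    1 / (r + 1) < nn (y - ntr y • (1 : Matrix (Fin (k j)) (Fin (k j)) ℂ))

private lemma pi_round (hR : StRound3) (hσ : ∀ j g, ‖σ j g‖ ≤ 1) (r : ℕ) (F : Finset G) (M j : ℕ)
    (hk : 0 < k j) (y : Matrix (Fin (k j)) (Fin (k j)) ℂ)
    (hy : Bad σ r F ((1 / ((M + 1) * (F.card + 1))) ^ 2) j y) :
    ∃ e : Matrix (Fin (k j)) (Fin (k j)) ℂ, Pr e ∧
      1 / (8 * (r + 1)) ≤ rt e / k j * (1 - rt e / k j) ∧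
      ∑ g ∈ F, nn (σ j g * e - e * σ j g) ≤ 2 * (r + 1) / (M + 1) := by
  obtain ⟨h1, h2, h3, h4⟩ := hy
  have hne : Nonempty (Fin (k j)) := ⟨⟨0, hk⟩⟩
  have hr : (0 : ℝ) < 1 / (r + 1) := by positivity
  have hv := hr.trans h4
  obtain ⟨e, he1, he2, he3⟩ := hR (Fin (k j)) G F (σ j) y (1 / (M + 1)) (hσ j) h1 h2
    (by positivity) hv
  rw [Fintype.card_fin] at he2
  set v := nn (y - ntr y • (1 : Matrix (Fin (k j)) (Fin (k j)) ℂ)) with hvd
  have hη : (0 : ℝ) ≤ 1 / ((M + 1) * (F.card + 1)) := by positivity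
  have h5 : ∑ g ∈ F, Real.sqrt (nn (σ j g * y - y * σ j g)) ≤ 1 / (M + 1) := by
    have h6 : ∀ g ∈ F, Real.sqrt (nn (σ j g * y - y * σ j g)) ≤ 1 / ((M + 1) * (F.card + 1)) := by
      intro g hg
      rw [← Real.sqrt_sq hη]
      refine Real.sqrt_le_sqrt (le_trans ?_ h3)
      exact Finset.single_le_sum (f := fun g => nn (σ j g * y - y * σ j g))
        (fun g _ => nn_nonneg _) hg
    refine (Finset.sum_le_sum h6).trans ?_
    rw [Finset.sum_const, nsmul_eq_mul, mul_one_div, div_le_div_iff₀ (by positivity)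
      (by positivity)]
    nlinarith [Nat.cast_nonneg (α := ℝ) F.card, Nat.cast_nonneg (α := ℝ) M]
  refine ⟨e, he1, ?_, he3.trans ?_⟩
  · refine le_trans ?_ he2
    have e1 : 1 / (8 * ((r : ℝ) + 1)) = 1 / (r + 1) / 8 := by field_simp
    rw [e1]
    linarith
  · rw [div_le_iff₀ hv]
    have h7 : (2 * ((r : ℝ) + 1) / (M + 1)) * (1 / (r + 1)) = 2 * (1 / (M + 1)) := by
      field_simp
    have h8 : (2 * ((r : ℝ) + 1) / (M + 1)) * (1 / (r + 1)) ≤ 2 * ((r : ℝ) + 1) / (M + 1) * v :=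
      mul_le_mul_of_nonneg_left h4.le (by positivity)
    linarith

end

theorem pProjIrr (hD : StDiag) (hR : StRound3) : StProjIrr := by
  intro G _ _ k U σ hU hk hσ hT
  classical
  by_contra hcon
  unfold Modulus at hcon
  push Not at hcon
  obtain ⟨r, hr⟩ := hcon
  obtain ⟨en, hen⟩ := exists_surjective_nat G
  set F : ℕ → Finset G := fun m => (Finset.range m).image en with hF
  have hbad : ∀ m : ℕ, ∀ᶠ j in (U : Filter ℕ), 0 < k j ∧
      ∃ y, Bad σ r (F m) ((1 / ((m + 1) * ((F m).card + 1))) ^ 2) j y := by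
    intro m
    have h1 := hr (F m) ((1 / ((m + 1) * ((F m).card + 1))) ^ 2) (by positivity)
    filter_upwards [h1, hk] with j hj hkj
    exact ⟨hkj, hj⟩
  obtain ⟨m, hm, hA⟩ := hD U hU (fun m j => 0 < k j ∧
      ∃ y, Bad σ r (F m) ((1 / ((m + 1) * ((F m).card + 1))) ^ 2) j y) hbad
  have hex : ∀ j, ∃ e : Matrix (Fin (k j)) (Fin (k j)) ℂ, Pr e ∧ ((0 < k j ∧
      ∃ y, Bad σ r (F (m j)) ((1 / ((m j + 1) * ((F (m j)).card + 1))) ^ 2) j y) →
      1 / (8 * (r + 1)) ≤ rt e / k j * (1 - rt e / k j) ∧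
      ∑ g ∈ F (m j), nn (σ j g * e - e * σ j g) ≤ 2 * (r + 1) / (m j + 1)) := by
    intro j
    by_cases h : 0 < k j ∧
      ∃ y, Bad σ r (F (m j)) ((1 / ((m j + 1) * ((F (m j)).card + 1))) ^ 2) j y
    · obtain ⟨hkj, y, hy⟩ := h
      obtain ⟨e, he1, he2⟩ := pi_round σ hR hσ r (F (m j)) (m j) j hkj y hy
      exact ⟨e, he1, fun _ => he2⟩
    · exact ⟨0, Pr.zero, fun h' => absurd h' h⟩
  choose e he1 he2 using hex
  have hprop : ∀ᶠ j in (U : Filter ℕ), 0 < k j ∧
      1 / (8 * ((r : ℝ) + 1)) ≤ rt (e j) / k j * (1 - rt (e j) / k j) ∧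
      ∑ g ∈ F (m j), nn (σ j g * e j - e j * σ j g) ≤ 2 * (r + 1) / (m j + 1) := by
    filter_upwards [hA] with j hj
    exact ⟨hj.1, he2 j hj⟩
  -- the projections are asymptotically central
  have hAC : AC k U σ e := by
    intro g
    obtain ⟨i, rfl⟩ := hen g
    have hlim : Tendsto (fun j => 2 * ((r : ℝ) + 1) / (m j + 1)) U (𝓝 0) := by
      have h1 : Tendsto (fun a : ℕ => 2 * ((r : ℝ) + 1) / ((a : ℝ) + 1)) atTop (𝓝 0) := by
        refine Tendsto.div_atTop tendsto_const_nhds ?_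
        exact tendsto_atTop_add_const_right _ _ tendsto_natCast_atTop_atTop
      exact h1.comp hm
    refine squeeze_zero' (Eventually.of_forall fun j => nn_nonneg _) ?_ hlim
    filter_upwards [hprop, hm.eventually (eventually_gt_atTop i)] with j hj hij
    refine le_trans ?_ hj.2.2
    refine Finset.single_le_sum (f := fun g => nn (σ j g * e j - e j * σ j g))
      (fun g _ => nn_nonneg _) ?_
    exact Finset.mem_image_of_mem _ (Finset.mem_range.2 hij)
  have hpos : (0 : ℝ) < 1 / (8 * (r + 1)) := by positivity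
  have hfin : ∀ f : ℕ → ℝ, Tendsto f U (𝓝 0) →
      (∀ᶠ j in (U : Filter ℕ), 1 / (8 * ((r : ℝ) + 1)) ≤ f j * (1 - f j)) → False := by
    intro f hf hle
    have h1 : Tendsto (fun j => f j * (1 - f j)) U (𝓝 (0 * (1 - 0))) :=
      hf.mul (tendsto_const_nhds.sub hf)
    rw [zero_mul] at h1
    have h2 := h1.eventually (gt_mem_nhds hpos)
    obtain ⟨j, hj1, hj2⟩ := (hle.and h2).exists
    linarith
  rcases hT e he1 hAC with h | h
  · exact hfin _ h (hprop.mono fun j hj => hj.2.1)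
  · refine hfin _ h (hprop.mono fun j hj => ?_)
    obtain ⟨hkj, hj1, -⟩ := hj
    have hk0 : (k j : ℝ) ≠ 0 := by positivity
    have e1 : rt (1 - e j) / k j = 1 - rt (e j) / k j := by
      have h1 : rt (1 : Matrix (Fin (k j)) (Fin (k j)) ℂ) = k j := by
        rw [rt, Matrix.trace_one]
        simp
      rw [rt_sub, h1, sub_div, div_self hk0]
    rw [e1]
    linarith

end Helper61.IE
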