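import Pool.Agent.Helper61.IE.St
import Pool.Agent.Helper61.IE.Lib

/-!
# The range projection of `X q`
-/

namespace Helper61.IE

open Helper51.MU
open scoped Matrix.Norms.L2Operator MatrixOrder ComplexOrder

variable {n : Type} [Fintype n] [DecidableEq n]

private lemma range_spec {A : Matrix n n ℂ} (hA : A.IsHermitian) :
    ∃ V : Matrix n n ℂ, V.conjTranspose * V = 1 ∧ V * V.conjTranspose = 1 ∧
      A = V * Matrix.diagonal (fun i => (hA.eigenvalues i : ℂ)) * V.conjTranspose := by
  refine ⟨(hA.eigenvectorUnitary : Matrix n n ℂ), ?_, ?_, ?_⟩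
  · exact (Matrix.mem_unitaryGroup_iff').1 hA.eigenvectorUnitary.2
  · exact (Matrix.mem_unitaryGroup_iff).1 hA.eigenvectorUnitary.2
  · conv_lhs => rw [hA.spectral_theorem, Unitary.conjStarAlgAut_apply]
    rfl

/-- the support projection of a hermitian matrix -/
private lemma exists_support {A : Matrix n n ℂ} (hA : A.IsHermitian) :
    ∃ r : Matrix n n ℂ, Pr r ∧ r * A = A ∧ rt r = A.rank := by
  classical
  obtain ⟨V, h1, h2, h3⟩ := range_spec hA
  set e : n → ℂ := fun i => if hA.eigenvalues i ≠ 0 then 1 else 0 with he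
  have key : ∀ D D' : Matrix n n ℂ, (V * D * V.conjTranspose) * (V * D' * V.conjTranspose) =
      V * (D * D') * V.conjTranspose := by
    intro D D'
    calc (V * D * V.conjTranspose) * (V * D' * V.conjTranspose) =
        V * D * (V.conjTranspose * V) * D' * V.conjTranspose := by
          simp only [Matrix.mul_assoc]
      _ = _ := by rw [h1, Matrix.mul_one]; simp only [Matrix.mul_assoc]
  refine ⟨V * Matrix.diagonal e * V.conjTranspose, ⟨?_, ?_⟩, ?_, ?_⟩
  · rw [Matrix.conjTranspose_mul, Matrix.conjTranspose_mul, Matrix.conjTranspose_conjTranspose,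
      Matrix.diagonal_conjTranspose, ← Matrix.mul_assoc]
    congr 3
    ext i
    simp only [he, Pi.star_apply]
    split_ifs <;> simp
  · rw [key, Matrix.diagonal_mul_diagonal]
    congr 3
    ext i
    simp only [he]
    split_ifs <;> simp
  · conv_lhs => rw [h3]
    conv_rhs => rw [h3]
    rw [key, Matrix.diagonal_mul_diagonal]
    congr 3
    ext i
    simp only [he]
    split_ifs with h
    · simp
    · push Not at h
      simp [h]
  · unfold rt
    rw [Matrix.trace_mul_comm, ← Matrix.mul_assoc, h1, Matrix.one_mul, Matrix.trace_diagonal,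
      hA.rank_eq_card_non_zero_eigs, Fintype.card_subtype, he, Complex.re_sum]
    rw [Finset.card_filter]
    push_cast
    refine Finset.sum_congr rfl fun i _ => ?_
    split_ifs <;> simp

private lemma rt_eq_rank {q : Matrix n n ℂ} (hq : Pr q) : rt q = q.rank := by
  classical
  have hA : q.IsHermitian := hq.1
  obtain ⟨V, h1, h2, h3⟩ := range_spec hA
  set D := Matrix.diagonal (fun i => (hA.eigenvalues i : ℂ)) with hD
  have hD1 : D = V.conjTranspose * q * V := by
    rw [h3]
    calc D = (V.conjTranspose * V) * D * (V.conjTranspose * V) := by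
          rw [h1, Matrix.one_mul, Matrix.mul_one]
      _ = _ := by simp only [Matrix.mul_assoc]
  have hD2 : D * D = D := by
    calc D * D = V.conjTranspose * q * (V * V.conjTranspose) * q * V := by
          rw [hD1]; simp only [Matrix.mul_assoc]
      _ = V.conjTranspose * (q * q) * V := by rw [h2, Matrix.mul_one]; simp only [Matrix.mul_assoc]
      _ = D := by rw [hq.2, hD1]
  have h4 : ∀ i, hA.eigenvalues i = if hA.eigenvalues i ≠ 0 then 1 else 0 := by
    intro i
    have h5 := congrFun (congrFun hD2 i) i
    rw [hD, Matrix.diagonal_mul_diagonal, Matrix.diagonal_apply_eq, Matrix.diagonal_apply_eq] at h5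
    have h6 : hA.eigenvalues i * hA.eigenvalues i = hA.eigenvalues i := by exact_mod_cast h5
    split_ifs with h
    · exact mul_left_cancel₀ h (by rw [h6, mul_one])
    · push Not at h
      exact h
  unfold rt
  rw [hA.trace_eq_sum_eigenvalues, hA.rank_eq_card_non_zero_eigs, Fintype.card_subtype,
    Finset.card_filter, Complex.re_sum]
  push_cast
  refine Finset.sum_congr rfl fun i _ => ?_
  exact h4 i

theorem pRange : StRange := by
  intro n _ _ X q hq
  obtain ⟨r, h1, h2, h3⟩ := exists_support (Matrix.isHermitian_mul_conjTranspose_self (X * q))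
  refine ⟨r, h1, ?_, ?_⟩
  · have h4 : (1 - r) * ((X * q) * (X * q).conjTranspose) = 0 := by
      rw [sub_mul, one_mul, h2, sub_self]
    rw [Matrix.mul_self_mul_conjTranspose_eq_zero, sub_mul, one_mul, sub_eq_zero] at h4
    exact h4.symm
  · rw [h3, rt_eq_rank hq, Matrix.rank_self_mul_conjTranspose]
    exact_mod_cast Matrix.rank_mul_le_right X q

end Helper61.IE
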