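import Pool.Agent.Helper61.IE.St
import Pool.Agent.Helper61.IE.Rnd0

/-!
# Rounding, first form
-/

namespace Helper61.IE

open Helper51.MU MeasureTheory Rnd0
open scoped Matrix.Norms.L2Operator MatrixOrder ComplexOrder

theorem pRound1 : StRound1 := by
  intro n _ _ ι F u a X r t B c hu ha0 ha1 hX hX1 hr0 hr1 ht ht1 hB hc hp
  obtain ⟨V, g, hV, rfl⟩ := exists_spec (herm_of_nonneg ha0)
  have hg0 : ∀ i, 0 ≤ g i := fun i => by
    have := dg_nonneg (V := V) ha0 i
    rwa [dg_MM hV] at this
  have hg1 : ∀ i, g i ≤ 1 := fun i => by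
    have := dg_le_one hV ha1 i
    rwa [dg_MM hV] at this
  -- the spectral projections
  have hpr : ∀ x ∈ Set.Icc t 1, rt (MM V (fun i => stp (g i) x) * X) ≤
      B + c * En F u (MM V (fun i => stp (g i) x)) := by
    intro x hx
    refine hp _ (MM_pr hV fun i => stp_or _ _) ?_
    rw [MM_smul]
    refine MM_mono fun i => ?_
    unfold stp
    split_ifs with h
    · rw [mul_one]; linarith [hx.1]
    · rw [mul_zero]; exact hg0 i
  have hEi := En_stp_int hV F u g t 1
  have hLi : IntervalIntegrable (fun x => rt (MM V (fun i => stp (g i) x) * X)) volume t 1 := by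
    simp only [rt_MM_mul]
    exact ii_sum _ fun i => (stp_int _ _ _).mul_const _
  have hRi : IntervalIntegrable (fun x => B + c * En F u (MM V (fun i => stp (g i) x)))
      volume t 1 := intervalIntegrable_const.add (hEi.const_mul c)
  have hint := intervalIntegral.integral_mono_on ht1.le hLi hRi hpr
  -- left side
  have hL : ∫ x in t..1, rt (MM V (fun i => stp (g i) x) * X) =
      ∑ i, (max t (g i) - t) * dg V X i := by
    simp only [rt_MM_mul]
    rw [intervalIntegral.integral_finsetSum fun i _ => (stp_int _ _ _).mul_const _]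
    refine Finset.sum_congr rfl fun i _ => ?_
    rw [intervalIntegral.integral_mul_const, int_stp ht1.le, min_eq_right (hg1 i)]
  -- right side
  have hR : ∫ x in t..1, (B + c * En F u (MM V (fun i => stp (g i) x))) ≤
      B + c * Real.sqrt (2 * F.card * En F u (MM V g) * rt (MM V g) / t) := by
    rw [intervalIntegral.integral_add intervalIntegrable_const (hEi.const_mul c),
      intervalIntegral.integral_const, intervalIntegral.integral_const_mul, smul_eq_mul]
    have h1 := mul_le_mul_of_nonneg_left (int_En_stp_le hV F hu hg0 ht ht1.le) hc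
    have h2 : (1 - t) * B ≤ B := by nlinarith
    linarith
  rw [hL] at hint
  -- the remaining part
  have h3 : rt (MM V g * X) = ∑ i, min t (g i) * dg V X i +
      ∑ i, (max t (g i) - t) * dg V X i := by
    rw [rt_MM_mul, ← Finset.sum_add_distrib]
    refine Finset.sum_congr rfl fun i _ => ?_
    have := min_add_max t (g i)
    have h : g i = min t (g i) + (max t (g i) - t) := by linarith
    conv_lhs => rw [h]
    ring
  have h4 : ∑ i, min t (g i) * dg V X i ≤ t * rt r + rt (MM V g * (1 - r)) := by
    rw [rt_MM_mul, ← sum_dg hV r, Finset.mul_sum, ← Finset.sum_add_distrib]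
    refine Finset.sum_le_sum fun i _ => ?_
    rw [dg_sub, dg_one hV]
    have hm0 : 0 ≤ min t (g i) := le_min ht.le (hg0 i)
    have hm1 : min t (g i) ≤ t := min_le_left _ _
    have hm2 : min t (g i) ≤ g i := min_le_right _ _
    have hx := dg_le_one hV hX1 i
    have hr0' := dg_nonneg (V := V) hr0 i
    have hr1' := dg_le_one hV hr1 i
    calc min t (g i) * dg V X i ≤ min t (g i) * 1 := mul_le_mul_of_nonneg_left hx hm0
      _ = min t (g i) * dg V r i + min t (g i) * (1 - dg V r i) := by ring
      _ ≤ t * dg V r i + g i * (1 - dg V r i) := by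
        have e1 := mul_le_mul_of_nonneg_right hm1 hr0'
        have e2 := mul_le_mul_of_nonneg_right hm2 (sub_nonneg.2 hr1')
        linarith
  rw [h3]
  linarith

end Helper61.IE
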