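import Pool.Agent.Helper61.IE.St2
import Pool.Agent.Helper61.IE.Rnd0

/-!
# Rounding, third form
-/

namespace Helper61.IE

open Helper51.MU MeasureTheory Rnd0
open scoped Matrix.Norms.L2Operator MatrixOrder ComplexOrder

private lemma sum_sq_sub {n : Type} [Fintype n] (s : n → ℝ) :
    ∑ i, ∑ j, (s j - s i) ^ 2 =
      2 * ((Fintype.card n : ℝ) * ∑ i, s i ^ 2 - (∑ i, s i) ^ 2) := by
  have e1 : ∀ i j, (s j - s i) ^ 2 = s j ^ 2 + s i ^ 2 - 2 * (s i * s j) := by
    intro i j; ring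
  simp only [e1, Finset.sum_sub_distrib, Finset.sum_add_distrib, Finset.sum_const,
    Finset.card_univ, nsmul_eq_mul, ← Finset.mul_sum, ← Finset.sum_mul]
  ring

private lemma cl_id {l : ℝ} (h1 : -1 ≤ l) (h2 : l ≤ 1) : cl (-1) 1 l = l := by
  unfold cl
  rw [min_eq_right h2, max_eq_right h1]

/-- the layer-cake bound for a contraction -/
private lemma int_hs_le {n : Type} [Fintype n] [DecidableEq n] {V : Matrix n n ℂ}
    (hV : V.conjTranspose * V = 1) {u : Matrix n n ℂ} (hu : ‖u‖ ≤ 1) {g : n → ℝ}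
    (hg : ∀ i, -1 ≤ g i) (hg1 : ∀ i, g i ≤ 1) :
    ∫ x in (-1 : ℝ)..1, hs (u * MM V (fun i => stp (g i) x) -
      MM V (fun i => stp (g i) x) * u) ≤
      Real.sqrt (hs (u * MM V g - MM V g * u)) * Real.sqrt (Fintype.card n) := by
  rw [int_hs_stp hV u g (by norm_num)]
  set w : Matrix n n ℂ := V.conjTranspose * u * V with hw
  have key : ∀ i j, ‖w i j‖ ^ 2 * |cl (-1) 1 (g j) - cl (-1) 1 (g i)| =
      (‖w i j‖ * |g j - g i|) * ‖w i j‖ := by
    intro i j
    rw [cl_id (hg j) (hg1 j), cl_id (hg i) (hg1 i)]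
    ring
  simp only [key]
  rw [hs_comm_MM hV, ← Fintype.sum_prod_type' (f := fun i j => (‖w i j‖ * |g j - g i|) *
    ‖w i j‖)]
  refine (Real.sum_mul_le_sqrt_mul_sqrt _ _ _).trans ?_
  refine mul_le_mul ?_ ?_ (Real.sqrt_nonneg _) (Real.sqrt_nonneg _)
  · refine Real.sqrt_le_sqrt (le_of_eq ?_)
    rw [Fintype.sum_prod_type]
    refine Finset.sum_congr rfl fun i _ => Finset.sum_congr rfl fun j _ => ?_
    rw [mul_pow, sq_abs]
  · refine Real.sqrt_le_sqrt ?_
    rw [Fintype.sum_prod_type]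
    have h1 : ∑ i, ∑ j, ‖w i j‖ ^ 2 = hs u := by
      have := hs_conj hV u
      rw [← this]; rfl
    rw [h1]
    have h2 := hs_mul_le_left u (1 : Matrix n n ℂ)
    rw [mul_one] at h2
    have h3 : hs (1 : Matrix n n ℂ) = Fintype.card n := by
      rw [Pr.one.hs]
      unfold rt
      rw [Matrix.trace_one]
      simp
    rw [h3] at h2
    have h4 : ‖u‖ ^ 2 ≤ 1 := by nlinarith [norm_nonneg u]
    nlinarith [(Nat.cast_nonneg (Fintype.card n) : (0 : ℝ) ≤ _)]

theorem pRound3 : StRound3 := by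
  intro n _ _ _ ι F σ y η hσ hy hy1 hη hv
  obtain ⟨V, g, hV, rfl⟩ := exists_spec hy
  set d : ℝ := (Fintype.card n : ℝ) with hd
  have hd0 : 0 < d := by
    rw [hd]; exact_mod_cast Fintype.card_pos
  have hle1 : MM V g ≤ 1 := by
    have h1 := le_smul_of_norm hy
    have h2 := smul_mono_left hy1 (Pr.one (n := n)).nonneg
    rw [one_smul] at h2
    exact h1.trans h2
  have hge1 : -MM V g ≤ 1 := by
    have h1 := neg_smul_le_of_norm hy
    have h2 := smul_mono_left hy1 (Pr.one (n := n)).nonneg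
    rw [one_smul] at h2
    exact (neg_le.1 h1).trans h2
  have hg1 : ∀ i, g i ≤ 1 := fun i => by
    have := dg_le_one hV hle1 i
    rwa [dg_MM hV] at this
  have hg0 : ∀ i, -1 ≤ g i := fun i => by
    have h1 := dg_le_one hV hge1 i
    have h2 : dg V (-MM V g) i = - g i := by
      have h3 := dg_sub (V := V) 0 (MM V g) i
      rw [zero_sub, dg_MM hV] at h3
      rw [h3]
      unfold dg
      simp
    rw [h2] at h1
    linarith
  -- the variance
  have hntr : ntr (MM V g) = (((∑ i, g i) / d : ℝ) : ℂ) := by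
    have h1 : Matrix.trace (MM V g) = ((∑ i, g i : ℝ) : ℂ) := by
      unfold MM
      rw [Matrix.trace_mul_comm, ← mul_assoc, hV, one_mul, Matrix.trace_diagonal]
      push_cast
      rfl
    have h2 : ntr (MM V g) = Matrix.trace (MM V g) / (Fintype.card n : ℂ) := rfl
    rw [h2, h1, hd]
    push_cast
    rfl
  set m : ℝ := (∑ i, g i) / d with hm
  have hvar : nn (MM V g - ntr (MM V g) • (1 : Matrix n n ℂ)) =
      (∑ i, ∑ j, (g j - g i) ^ 2) / (2 * d ^ 2) := by
    have h1 : MM V g - ntr (MM V g) • (1 : Matrix n n ℂ) = MM V (fun i => g i - m) := by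
      have h2 : ntr (MM V g) • (1 : Matrix n n ℂ) = MM V (fun _ => m) := by
        have h3 := MM_smul (V := V) m (fun _ => 1)
        rw [MM_one hV] at h3
        simp only [mul_one] at h3
        rw [← h3, hntr]
        ext i j
        simp
      rw [h2, MM_sub]
    rw [h1]
    have h4 : hs (MM V (fun i => g i - m)) = ∑ i, (g i - m) ^ 2 := by
      rw [hs_eq_rt, MM_herm, MM_mul hV, rt_MM hV]
      refine Finset.sum_congr rfl fun i _ => ?_
      ring
    unfold nn
    rw [h4, sum_sq_sub, ← hd]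
    have e1 : ∑ i, (g i - m) ^ 2 = ∑ i, g i ^ 2 - (∑ i, g i) ^ 2 / d := by
      have e2 : ∀ i, (g i - m) ^ 2 = g i ^ 2 + m ^ 2 - 2 * m * g i := by intro i; ring
      simp only [e2, Finset.sum_sub_distrib, Finset.sum_add_distrib, Finset.sum_const,
        Finset.card_univ, nsmul_eq_mul, ← Finset.mul_sum]
      rw [← hd, hm]
      field_simp
      ring
    rw [e1]
    field_simp
  set v : ℝ := nn (MM V g - ntr (MM V g) • (1 : Matrix n n ℂ)) with hvdef
  -- the functions
  set A : ℝ → ℝ := fun x => rt (MM V (fun i => stp (g i) x)) / d *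
    (1 - rt (MM V (fun i => stp (g i) x)) / d) with hA
  set B : ℝ → ℝ := fun x => ∑ s ∈ F, nn (σ s * MM V (fun i => stp (g i) x) -
    MM V (fun i => stp (g i) x) * σ s) with hB
  have hAeq : ∀ x, A x = (∑ i, ∑ j, (stp (g j) x - stp (g i) x) ^ 2) / (2 * d ^ 2) := by
    intro x
    rw [sum_sq_sub]
    have h1 : ∑ i, stp (g i) x ^ 2 = ∑ i, stp (g i) x := by
      refine Finset.sum_congr rfl fun i _ => ?_
      rcases stp_or (g i) x with h | h <;> rw [h] <;> norm_num
    rw [h1, hA]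
    simp only
    rw [rt_MM hV, ← hd]
    field_simp
  have hAi : IntervalIntegrable A volume (-1) 1 := by
    have : A = fun x => (∑ i, ∑ j, (stp (g j) x - stp (g i) x) ^ 2) / (2 * d ^ 2) :=
      funext hAeq
    rw [this]
    exact (ii_sum _ fun i => ii_sum _ fun j => stp_sub_sq_int _ _ _ _).div_const _
  have hBi : IntervalIntegrable B volume (-1) 1 := by
    refine ii_sum _ fun s => ?_
    unfold nn
    exact (hs_stp_int hV (σ s) g (-1) 1).div_const _
  have hAint : v / 2 ≤ ∫ x in (-1 : ℝ)..1, A x := by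
    have h1 : ∫ x in (-1 : ℝ)..1, A x = (∑ i, ∑ j, |g j - g i|) / (2 * d ^ 2) := by
      simp only [hAeq]
      rw [intervalIntegral.integral_div, intervalIntegral.integral_finsetSum
        fun i _ => ii_sum _ fun j => stp_sub_sq_int _ _ _ _]
      congr 1
      refine Finset.sum_congr rfl fun i _ => ?_
      rw [intervalIntegral.integral_finsetSum fun j _ => stp_sub_sq_int _ _ _ _]
      refine Finset.sum_congr rfl fun j _ => ?_
      rw [int_stp_sub_sq (by norm_num), cl_id (hg0 j) (hg1 j), cl_id (hg0 i) (hg1 i)]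
    rw [h1, hvar, div_div, mul_comm (2 * d ^ 2) 2, ← div_div]
    refine div_le_div_of_nonneg_right ?_ (by positivity)
    rw [div_le_iff₀ (by norm_num), Finset.sum_mul]
    refine Finset.sum_le_sum fun i _ => ?_
    rw [Finset.sum_mul]
    refine Finset.sum_le_sum fun j _ => ?_
    have h2 : |g j - g i| ≤ 2 := by
      rw [abs_le]
      constructor <;> linarith [hg0 i, hg1 i, hg0 j, hg1 j]
    rw [← sq_abs]
    nlinarith [abs_nonneg (g j - g i)]
  set β₀ : ℝ := ∑ s ∈ F, Real.sqrt (nn (σ s * MM V g - MM V g * σ s)) with hβ₀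
  have hβ0 : 0 ≤ β₀ := Finset.sum_nonneg fun s _ => Real.sqrt_nonneg _
  have hBint : ∫ x in (-1 : ℝ)..1, B x ≤ β₀ := by
    rw [hB, hβ₀]
    simp only
    rw [intervalIntegral.integral_finsetSum fun s _ => by
      unfold nn
      exact (hs_stp_int hV (σ s) g (-1) 1).div_const _]
    refine Finset.sum_le_sum fun s _ => ?_
    unfold nn
    rw [intervalIntegral.integral_div]
    have h1 := int_hs_le hV (hσ s) hg0 hg1
    rw [div_le_iff₀ hd0]
    refine h1.trans (le_of_eq ?_)
    rw [Real.sqrt_div (hs_nonneg _), ← hd]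
    have h2 : Real.sqrt d * Real.sqrt d = d := Real.mul_self_sqrt hd0.le
    have h3 : Real.sqrt d ≠ 0 := (Real.sqrt_pos.2 hd0).ne'
    field_simp
    rw [Real.sq_sqrt hd0.le]
  set β : ℝ := β₀ + η with hβ
  have hβpos : 0 < β := by linarith
  set l₀ : ℝ := v / (4 * β) with hl₀
  have hl0 : 0 < l₀ := div_pos hv (by linarith)
  have hβ4 : 0 < 4 * β := by linarith
  clear_value β₀
  obtain ⟨x, -, -, hx⟩ := exists_le_avg (t := -1) (s := 1) (by norm_num)
    ((hBi.const_mul l₀).sub hAi)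
  have h5 : ∫ x in (-1 : ℝ)..1, (l₀ * B x - A x) ≤ - (v / 4) := by
    rw [intervalIntegral.integral_sub (hBi.const_mul l₀) hAi, intervalIntegral.integral_const_mul]
    have h6 : l₀ * β = v / 4 := by
      rw [hl₀, div_mul_eq_mul_div, div_eq_div_iff hβ4.ne' (by norm_num)]; ring
    have h7 : l₀ * ∫ x in (-1 : ℝ)..1, B x ≤ l₀ * β :=
      mul_le_mul_of_nonneg_left (hBint.trans (by linarith)) hl0.le
    linarith
  have hx' : (l₀ * B x - A x) * (1 - -1) ≤ -(v / 4) := hx.trans h5
  have hBx : 0 ≤ B x := Finset.sum_nonneg fun s _ => nn_nonneg _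
  have hA4 : A x ≤ 1 / 4 := by
    rw [hA]
    simp only
    nlinarith [sq_nonneg (rt (MM V (fun i => stp (g i) x)) / d - 1 / 2)]
  refine ⟨MM V (fun i => stp (g i) x), MM_pr hV fun i => stp_or _ _, ?_, ?_⟩
  · change v / 8 ≤ A x
    have := mul_nonneg hl0.le hBx
    linarith
  · change B x ≤ β / v
    rw [le_div_iff₀ hv]
    have h8 : l₀ * B x ≤ 1 / 4 := by linarith
    rw [hl₀, div_mul_eq_mul_div, div_le_iff₀ hβ4] at h8
    linarith

end Helper61.IE
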