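import Pool.Agent.Helper61.IE.St

/-!
# Module Sand
-/

namespace Helper61.IE

open Helper51.MU
open scoped Matrix.Norms.L2Operator MatrixOrder ComplexOrder

theorem pSand : StSand := by
  intro n _ _ v G q z hv hG0 hG1 hq hz hzq
  have hv' := unit_comm hv
  set Gv := v * G * v.conjTranspose with hGv
  set zv := v * z * v.conjTranspose with hzv
  have hGn : ‖G‖ ≤ 1 := norm_le_one_of_nonneg hG0 hG1
  have hGvn : ‖Gv‖ ≤ 1 := by
    apply norm_le_one_of_nonneg (conj_nonneg hG0 v)
    have := conj_mono hG1 v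
    rwa [mul_one, hv'] at this
  have hGh : G.conjTranspose = G := herm_of_nonneg hG0
  have hGvh : Gv.conjTranspose = Gv := herm_of_nonneg (conj_nonneg hG0 v)
  have hzh : z.conjTranspose = z := herm_of_nonneg hz
  have hD : (G - Gv).conjTranspose = G - Gv := by
    rw [Matrix.conjTranspose_sub, hGh, hGvh]
  rw [hs_comm_unit hv, hs_comm_unit hv, ← hzv]
  have e1 : v * (G * z * G) * v.conjTranspose = Gv * zv * Gv := by
    rw [hGv, hzv]
    calc v * (G * z * G) * v.conjTranspose = v * G * 1 * z * 1 * G * v.conjTranspose := by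
          noncomm_ring
      _ = v * G * (v.conjTranspose * v) * z * (v.conjTranspose * v) * G * v.conjTranspose := by
          rw [hv]
      _ = _ := by noncomm_ring
  rw [e1]
  have e2 : G * z * G - Gv * zv * Gv =
      (G - Gv) * z * G + Gv * (z * (G - Gv)) + Gv * (z - zv) * Gv := by noncomm_ring
  rw [e2]
  set α := Real.sqrt (hs ((G - Gv) * z)) with hα
  set γ := Real.sqrt (hs (z - zv)) with hγ
  have t1 : Real.sqrt (hs ((G - Gv) * z * G)) ≤ α := Real.sqrt_le_sqrt (hs_mul_right_le hGn)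
  have t2 : Real.sqrt (hs (Gv * (z * (G - Gv)))) ≤ α := by
    refine Real.sqrt_le_sqrt ((hs_mul_left_le hGvn).trans ?_)
    rw [← hs_conjTranspose, Matrix.conjTranspose_mul, hD, hzh]
  have t3 : Real.sqrt (hs (Gv * (z - zv) * Gv)) ≤ γ :=
    Real.sqrt_le_sqrt ((hs_mul_right_le hGvn).trans (hs_mul_left_le hGvn))
  have t4 : Real.sqrt (hs ((G - Gv) * z * G + Gv * (z * (G - Gv)) + Gv * (z - zv) * Gv)) ≤
      2 * α + γ := by
    refine (sqrt_hs_add_le _ _).trans ?_
    have := sqrt_hs_add_le ((G - Gv) * z * G) (Gv * (z * (G - Gv)))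
    linarith
  have t5 : hs ((G - Gv) * z * G + Gv * (z * (G - Gv)) + Gv * (z - zv) * Gv) ≤
      (2 * α + γ) ^ 2 := (Real.sqrt_le_left (by positivity)).1 t4
  have hα2 : α ^ 2 = hs ((G - Gv) * z) := Real.sq_sqrt (hs_nonneg _)
  have hγ2 : γ ^ 2 = hs (z - zv) := Real.sq_sqrt (hs_nonneg _)
  have hz1 : z ≤ 1 := hzq.trans (by
    have := hq.one_sub.nonneg
    exact sub_nonneg.1 this)
  have hzz : z * z ≤ q := (le_mul_self_of_le_one hz hz1).trans hzq
  have t6 : hs ((G - Gv) * z) ≤ rt (q * (G - Gv) * (G - Gv)) := by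
    rw [hs_eq_rt, Matrix.conjTranspose_mul, hD, hzh]
    have h1 : rt (z * (G - Gv) * ((G - Gv) * z)) = rt (z * z * ((G - Gv) * (G - Gv))) := by
      rw [← mul_assoc, rt_cycle]
      congr 1
      noncomm_ring
    rw [h1, mul_assoc q]
    refine rt_mul_mono hzz ?_
    have := nonneg_star_mul (G - Gv)
    rwa [hD] at this
  have hα0 : 0 ≤ α := Real.sqrt_nonneg _
  have hγ0 : 0 ≤ γ := Real.sqrt_nonneg _
  nlinarith [sq_nonneg (α - γ)]

end Helper61.IE
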