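import Pool.Agent.Helper61.IE.Lib
import Pool.Agent.Helper61.IE.St2

/-!
# Module Sec: cutting by a minimal asymptotically central projection
-/

set_option linter.unusedSectionVars false

namespace Helper61.IE

open Helper51.MU Filter Topology
open scoped Matrix.Norms.L2Operator MatrixOrder ComplexOrder

section Fin
variable {n : Type} [Fintype n] [DecidableEq n]

private lemma sec_hs_one : hs (1 : Matrix n n ℂ) = Fintype.card n := by
  rw [hs_eq_rt]
  simp [rt]

private lemma sec_hs_le_card {Y : Matrix n n ℂ} (hY : ‖Y‖ ≤ 1) : hs Y ≤ Fintype.card n := by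
  have := hs_mul_left_le (A := (1 : Matrix n n ℂ)) hY
  rwa [mul_one, sec_hs_one] at this

private lemma sec_rt_one : rt (1 : Matrix n n ℂ) = Fintype.card n := by
  simp [rt]

/-- `|Tr (b s)| ≤ Tr b` for `b ≥ 0` and a contraction `s`. -/
private lemma sec_trace_le {b s : Matrix n n ℂ} (hb : 0 ≤ b) (hs1 : ‖s‖ ≤ 1) :
    ‖Matrix.trace (b * s)‖ ≤ rt b := by
  obtain ⟨c, hc, rfl⟩ := exists_sqrt hb
  have h1 := norm_trace_mul_le c (c * s)
  rw [← mul_assoc] at h1
  have h2 : hs (c * s) ≤ hs c := hs_mul_right_le hs1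
  have h3 : hs c = rt (c * c) := by rw [hs_eq_rt, herm_of_nonneg hc]
  have h4 : Real.sqrt (hs c) * Real.sqrt (hs (c * s)) ≤ Real.sqrt (hs c) * Real.sqrt (hs c) := by
    gcongr
  rw [Real.mul_self_sqrt (hs_nonneg c)] at h4
  exact (h1.trans h4).trans h3.le

private lemma sec_trace_eq {b : Matrix n n ℂ} (hb : 0 ≤ b) : Matrix.trace b = (rt b : ℂ) := by
  have h := (psd hb).trace_nonneg
  have := (RCLike.nonneg_iff.1 h).2
  apply Complex.ext
  · simp [rt]
  · simpa using this

private lemma sec_trace_mul_nonneg {b T : Matrix n n ℂ} (hb : 0 ≤ b) :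
    (Matrix.trace (b * (T.conjTranspose * T))).im = 0 ∧
      0 ≤ (Matrix.trace (b * (T.conjTranspose * T))).re := by
  have h0 : 0 ≤ T * b * T.conjTranspose := conj_nonneg hb T
  have h1 : Matrix.trace (b * (T.conjTranspose * T)) = Matrix.trace (T * b * T.conjTranspose) := by
    rw [← mul_assoc, Matrix.trace_mul_cycle]
  rw [h1]
  have h := (psd h0).trace_nonneg
  have := RCLike.nonneg_iff.1 h
  exact ⟨this.2, this.1⟩

end Fin

section Seq
variable {k : ℕ → ℕ} {U : Ultrafilter ℕ}

private lemma sec_nn (j : ℕ) (X : Matrix (Fin (k j)) (Fin (k j)) ℂ) :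
    nn X = hs X / k j := by
  unfold nn
  rw [Fintype.card_fin]

/-- Small perturbations do not change weighted traces. -/
private lemma sec_pert {X Y : ∀ j, Matrix (Fin (k j)) (Fin (k j)) ℂ} {r : ℕ → ℝ}
    (hX : Tendsto (fun j => nn (X j)) U (𝓝 0)) (hY : ∀ j, ‖Y j‖ ≤ 1)
    (h0 : ∀ᶠ j in (U : Filter ℕ), 0 < k j)
    (hr : ∀ᶠ j in (U : Filter ℕ), (k j : ℝ) / 4 ≤ r j) :
    Tendsto (fun j => Matrix.trace (Y j * X j) / (r j : ℂ)) U (𝓝 0) := by
  have h1 : Tendsto (fun j => 4 * Real.sqrt (nn (X j))) U (𝓝 0) := by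
    have := ((Real.continuous_sqrt.tendsto 0).comp hX).const_mul 4
    rwa [Real.sqrt_zero, mul_zero] at this
  refine squeeze_zero_norm' ?_ h1
  filter_upwards [h0, hr] with j hk hrj
  have hk' : (0 : ℝ) < k j := by exact_mod_cast hk
  have hrpos : 0 < r j := by linarith
  rw [norm_div, Complex.norm_real, Real.norm_eq_abs, abs_of_pos hrpos, div_le_iff₀ hrpos]
  have h2 := norm_trace_mul_le (Y j) (X j)
  have h3 : hs (Y j) ≤ k j := by
    have := sec_hs_le_card (hY j)
    rwa [Fintype.card_fin] at this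
  have h4 : hs (X j) = k j * nn (X j) := by
    rw [sec_nn]; field_simp
  have h5 : Real.sqrt (hs (Y j)) * Real.sqrt (hs (X j)) ≤ k j * Real.sqrt (nn (X j)) := by
    rw [h4, Real.sqrt_mul hk'.le]
    calc Real.sqrt (hs (Y j)) * (Real.sqrt (k j) * Real.sqrt (nn (X j)))
        ≤ Real.sqrt (k j) * (Real.sqrt (k j) * Real.sqrt (nn (X j))) := by gcongr
      _ = k j * Real.sqrt (nn (X j)) := by
        rw [← mul_assoc, Real.mul_self_sqrt hk'.le]
  have h6 := Real.sqrt_nonneg (nn (X j))
  nlinarith [h2.trans h5]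

private lemma sec_hs_div {X Y : ∀ j, Matrix (Fin (k j)) (Fin (k j)) ℂ} {r : ℕ → ℝ}
    (hX : Tendsto (fun j => nn (X j)) U (𝓝 0)) (hY : ∀ j, hs (Y j) ≤ hs (X j))
    (h0 : ∀ᶠ j in (U : Filter ℕ), 0 < k j)
    (hr : ∀ᶠ j in (U : Filter ℕ), (k j : ℝ) / 4 ≤ r j) :
    Tendsto (fun j => hs (Y j) / r j) U (𝓝 0) := by
  have h1 : Tendsto (fun j => 4 * nn (X j)) U (𝓝 0) := by
    have := hX.const_mul 4
    rwa [mul_zero] at this
  refine squeeze_zero_norm' ?_ h1
  filter_upwards [h0, hr] with j hk hrj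
  have hk' : (0 : ℝ) < k j := by exact_mod_cast hk
  have hrpos : 0 < r j := by linarith
  rw [Real.norm_eq_abs, abs_of_nonneg (div_nonneg (hs_nonneg _) hrpos.le), div_le_iff₀ hrpos]
  have h4 : hs (X j) = k j * nn (X j) := by
    rw [sec_nn]; field_simp
  have h5 := hY j
  have h6 := nn_nonneg (X j)
  nlinarith

variable {G : Type} [Group G] {χ : G → ℂ}
  {σ : ∀ j, G → Matrix (Fin (k j)) (Fin (k j)) ℂ}

private lemma sec_star_mul (hσ : AHom χ k U σ) (g h : G) :
    Tendsto (fun j => nn ((σ j g).conjTranspose * σ j h - σ j (g⁻¹ * h))) U (𝓝 0) := by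
  have h1 : Tendsto (fun j => 2 * nn (σ j g * σ j (g⁻¹ * h) - σ j (g * (g⁻¹ * h))) +
      2 * nn ((σ j g).conjTranspose * σ j g - 1)) U (𝓝 0) := by
    have := ((hσ.mul g (g⁻¹ * h)).const_mul 2).add ((hσ.unit g).const_mul 2)
    simpa using this
  refine squeeze_zero (fun j => nn_nonneg _) (fun j => ?_) h1
  have e1 : (σ j g).conjTranspose * σ j h - σ j (g⁻¹ * h) =
      (σ j g).conjTranspose * (-(σ j g * σ j (g⁻¹ * h) - σ j (g * (g⁻¹ * h)))) +
      ((σ j g).conjTranspose * σ j g - 1) * σ j (g⁻¹ * h) := by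
    rw [mul_inv_cancel_left]
    noncomm_ring
  rw [e1]
  refine (nn_add_le _ _).trans ?_
  have n1 : ‖(σ j g).conjTranspose‖ ≤ 1 := by
    rw [Matrix.l2_opNorm_conjTranspose]; exact hσ.norm j g
  have a1 := nn_mul_le_left (σ j g).conjTranspose
    (-(σ j g * σ j (g⁻¹ * h) - σ j (g * (g⁻¹ * h))))
  rw [nn_neg] at a1
  have a2 := nn_mul_le_right ((σ j g).conjTranspose * σ j g - 1) (σ j (g⁻¹ * h))
  have s1 : ‖(σ j g).conjTranspose‖ ^ 2 ≤ 1 := by
    have := norm_nonneg (σ j g).conjTranspose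
    nlinarith
  have s2 : ‖σ j (g⁻¹ * h)‖ ^ 2 ≤ 1 := by
    have := norm_nonneg (σ j (g⁻¹ * h))
    have := hσ.norm j (g⁻¹ * h)
    nlinarith
  have p1 := nn_nonneg (σ j g * σ j (g⁻¹ * h) - σ j (g * (g⁻¹ * h)))
  have p2 := nn_nonneg ((σ j g).conjTranspose * σ j g - 1)
  nlinarith

private lemma sec_one (hσ : AHom χ k U σ) :
    Tendsto (fun j => nn (σ j 1 - 1)) U (𝓝 0) := by
  have h1 : Tendsto (fun j => 2 * nn ((σ j 1).conjTranspose * σ j 1 - σ j (1⁻¹ * 1)) +
      2 * nn ((σ j 1).conjTranspose * σ j 1 - 1)) U (𝓝 0) := by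
    have := ((sec_star_mul hσ 1 1).const_mul 2).add ((hσ.unit 1).const_mul 2)
    simpa using this
  refine squeeze_zero (fun j => nn_nonneg _) (fun j => ?_) h1
  have e1 : σ j 1 - 1 = -((σ j 1).conjTranspose * σ j 1 - σ j (1⁻¹ * 1)) +
      ((σ j 1).conjTranspose * σ j 1 - 1) := by
    rw [inv_one, mul_one]
    abel
  rw [e1]
  refine (nn_add_le _ _).trans ?_
  rw [nn_neg]

/-- Weighted traces are positive definite in the limit. -/
private lemma sec_pd (hσ : AHom χ k U σ) {b : ∀ j, Matrix (Fin (k j)) (Fin (k j)) ℂ}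
    (hb : ∀ j, 0 ≤ b j) (hb1 : ∀ j, b j ≤ 1) (h0 : ∀ᶠ j in (U : Filter ℕ), 0 < k j)
    (hr : ∀ᶠ j in (U : Filter ℕ), (k j : ℝ) / 4 ≤ rt (b j)) {φ : G → ℂ}
    (hφ : ∀ g, Tendsto (fun j => Matrix.trace (b j * σ j g) / (rt (b j) : ℂ)) U (𝓝 (φ g))) :
    IsPD φ := by
  have hbn : ∀ j, ‖b j‖ ≤ 1 := fun j => norm_le_one_of_nonneg (hb j) (hb1 j)
  constructor
  · have h1 := (hφ 1).sub (sec_pert (sec_one hσ) hbn h0 hr)
    rw [sub_zero] at h1
    have h2 : Tendsto (fun _ : ℕ => (1 : ℂ)) U (𝓝 (φ 1)) := by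
      refine h1.congr' ?_
      filter_upwards [h0, hr] with j hk hrj
      have hk' : (0 : ℝ) < k j := by exact_mod_cast hk
      have hrpos : (rt (b j) : ℂ) ≠ 0 := by
        have : 0 < rt (b j) := by linarith
        exact_mod_cast this.ne'
      rw [mul_sub, mul_one, Matrix.trace_sub, ← sub_div, sub_sub_cancel, sec_trace_eq (hb j),
        div_self hrpos]
    exact tendsto_nhds_unique h2 tendsto_const_nhds
  · intro m a x
    have key : Tendsto (fun j => Matrix.trace (b j * ((∑ i, a i • σ j (x i)).conjTranspose *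
        ∑ i, a i • σ j (x i))) / (rt (b j) : ℂ)) U
        (𝓝 (∑ i, ∑ l, star (a i) * a l * φ ((x i)⁻¹ * x l))) := by
      have h1 : ∀ i l, Tendsto (fun j => star (a i) * a l *
          (Matrix.trace (b j * ((σ j (x i)).conjTranspose * σ j (x l))) / (rt (b j) : ℂ))) U
          (𝓝 (star (a i) * a l * φ ((x i)⁻¹ * x l))) := by
        intro i l
        refine Tendsto.const_mul _ ?_
        have h2 := (hφ ((x i)⁻¹ * x l)).add
          (sec_pert (sec_star_mul hσ (x i) (x l)) hbn h0 hr)
        rw [add_zero] at h2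
        refine h2.congr fun j => ?_
        rw [mul_sub, Matrix.trace_sub, ← add_div, add_sub_cancel]
      have h3 := tendsto_finsetSum Finset.univ fun i (_ : i ∈ Finset.univ) =>
        tendsto_finsetSum Finset.univ fun l (_ : l ∈ Finset.univ) => h1 i l
      refine h3.congr fun j => ?_
      rw [Matrix.conjTranspose_sum, Finset.sum_mul, Finset.mul_sum, Matrix.trace_sum,
        Finset.sum_div]
      refine Finset.sum_congr rfl fun i _ => ?_
      rw [Finset.mul_sum, Finset.mul_sum, Matrix.trace_sum, Finset.sum_div]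
      refine Finset.sum_congr rfl fun l _ => ?_
      rw [Matrix.conjTranspose_smul, smul_mul_assoc, mul_smul_comm, mul_smul_comm, mul_smul_comm,
        Matrix.trace_smul, Matrix.trace_smul, smul_eq_mul, smul_eq_mul]
      ring
    have hq : ∀ j, ((Matrix.trace (b j * ((∑ i, a i • σ j (x i)).conjTranspose *
        ∑ i, a i • σ j (x i))) / (rt (b j) : ℂ))).im = 0 ∧
        0 ≤ ((Matrix.trace (b j * ((∑ i, a i • σ j (x i)).conjTranspose *
        ∑ i, a i • σ j (x i))) / (rt (b j) : ℂ))).re := by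
      intro j
      obtain ⟨u1, u2⟩ := sec_trace_mul_nonneg (T := ∑ i, a i • σ j (x i)) (hb j)
      constructor
      · rw [Complex.div_ofReal_im, u1, zero_div]
      · rw [Complex.div_ofReal_re]
        exact div_nonneg u2 (rt_nonneg (hb j))
    constructor
    · have h4 := (Complex.continuous_im.tendsto _).comp key
      have h5 : Tendsto (fun _ : ℕ => (0 : ℝ)) U
          (𝓝 (∑ i, ∑ l, star (a i) * a l * φ ((x i)⁻¹ * x l)).im) :=
        h4.congr fun j => (hq j).1
      exact tendsto_nhds_unique h5 tendsto_const_nhds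
    · have h4 := (Complex.continuous_re.tendsto _).comp key
      exact ge_of_tendsto' h4 fun j => (hq j).2

/-- The weighted trace of an asymptotically central sequence is a trace in the limit. -/
private lemma sec_class (hσ : AHom χ k U σ) {f : ∀ j, Matrix (Fin (k j)) (Fin (k j)) ℂ}
    (hf : ∀ j, Pr (f j)) (hc : AC k U σ f) (h0 : ∀ᶠ j in (U : Filter ℕ), 0 < k j)
    (hr : ∀ᶠ j in (U : Filter ℕ), (k j : ℝ) / 4 ≤ rt (f j)) {φ : G → ℂ}
    (hφ : ∀ g, Tendsto (fun j => Matrix.trace (f j * σ j g) / (rt (f j) : ℂ)) U (𝓝 (φ g)))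
    (g h : G) : φ (g * h) = φ (h * g) := by
  have hfn : ∀ j, ‖f j‖ ≤ 1 := fun j => (hf j).norm_le
  have h1 := sec_pert (hσ.mul g h) hfn h0 hr
  have h2 := sec_pert (hσ.mul h g) hfn h0 hr
  have h3 := sec_pert (hc h) (fun j => hσ.norm j g) h0 hr
  have h4 := ((((hφ (g * h)).add h1).sub h3).sub h2)
  have h5 : Tendsto (fun j => Matrix.trace (f j * σ j (h * g)) / (rt (f j) : ℂ)) U
      (𝓝 (φ (g * h) + 0 - 0 - 0)) := by
    refine h4.congr fun j => ?_
    rw [← add_div, ← sub_div, ← sub_div]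
    congr 1
    rw [mul_sub, mul_sub, mul_sub, Matrix.trace_sub, Matrix.trace_sub, Matrix.trace_sub]
    have e1 : Matrix.trace (σ j g * (σ j h * f j)) = Matrix.trace (f j * (σ j g * σ j h)) := by
      rw [← mul_assoc, Matrix.trace_mul_comm]
    have e2 : Matrix.trace (σ j g * (f j * σ j h)) = Matrix.trace (f j * (σ j h * σ j g)) := by
      rw [Matrix.trace_mul_comm, mul_assoc]
    rw [e1, e2]
    ring
  have h6 := tendsto_nhds_unique h5 (hφ (h * g))
  simpa using h6

end Seq

theorem pSec (hC : StCompr) (hK : StCutC) (hL : StLimChar) : StSec := by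
  intro G _ χ k U σ f hχ h0 hσ hf
  obtain ⟨hP, hAC, hhalf, hmin⟩ := hf
  -- dimensions
  have hrtle : ∀ j, rt (f j) ≤ k j := by
    intro j
    have := rt_mono (hP j).le_one
    rwa [sec_rt_one, Fintype.card_fin] at this
  have hq : ∀ᶠ j in (U : Filter ℕ), (k j : ℝ) / 4 ≤ rt (f j) := by
    filter_upwards [hhalf] with j hj
    have : (0 : ℝ) ≤ k j := Nat.cast_nonneg _
    linarith
  -- the complementary weight
  set b : ∀ j, Matrix (Fin (k j)) (Fin (k j)) ℂ := fun j => 1 - (1 / 2 : ℝ) • f j with hbdef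
  have hb0 : ∀ j, 0 ≤ b j := by
    intro j
    have h1 : (1 / 2 : ℝ) • f j ≤ (1 : ℝ) • f j :=
      smul_mono_left (by norm_num) (hP j).nonneg
    rw [one_smul] at h1
    exact sub_nonneg.2 (h1.trans (hP j).le_one)
  have hb1 : ∀ j, b j ≤ 1 := by
    intro j
    exact sub_le_self _ (smul_nonneg_real (by norm_num) (hP j).nonneg)
  have hrb : ∀ j, rt (b j) = k j - rt (f j) / 2 := by
    intro j
    simp only [hbdef]
    rw [rt_sub, rt_smul, sec_rt_one, Fintype.card_fin]
    ring
  have hqb : ∀ᶠ j in (U : Filter ℕ), (k j : ℝ) / 4 ≤ rt (b j) := by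
    refine Eventually.of_forall fun j => ?_
    rw [hrb]
    have := hrtle j
    have : (0 : ℝ) ≤ k j := Nat.cast_nonneg _
    linarith
  -- limits
  have hbd : ∀ (c : ∀ j, Matrix (Fin (k j)) (Fin (k j)) ℂ), (∀ j, 0 ≤ c j) → ∀ g : G,
      ∃ a, Tendsto (fun j => Matrix.trace (c j * σ j g) / (rt (c j) : ℂ)) U (𝓝 a) := by
    intro c hc g
    refine exists_lim ⟨1, fun j => ?_⟩
    rw [norm_div, Complex.norm_real, Real.norm_eq_abs, abs_of_nonneg (rt_nonneg (hc j))]
    exact div_le_one_of_le₀ (sec_trace_le (hc j) (hσ.norm j g)) (rt_nonneg (hc j))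
  choose φ hφ using hbd f (fun j => (hP j).nonneg)
  choose ψ hψ using hbd b hb0
  have hPDφ : IsPD φ := sec_pd hσ (fun j => (hP j).nonneg) (fun j => (hP j).le_one) h0 hq hφ
  have hPDψ : IsPD ψ := sec_pd hσ hb0 hb1 h0 hqb hψ
  -- the limit of the normalized trace
  obtain ⟨t, ht⟩ : ∃ t : ℝ, Tendsto (fun j => rt (f j) / k j) U (𝓝 t) := by
    obtain ⟨a, ha⟩ := exists_lim (U := U) (f := fun j => ((rt (f j) / k j : ℝ) : ℂ)) ⟨1, fun j => by
      rw [Complex.norm_real, Real.norm_eq_abs,
        abs_of_nonneg (div_nonneg (hP j).rt_nonneg (Nat.cast_nonneg _))]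
      exact div_le_one_of_le₀ (hrtle j) (Nat.cast_nonneg _)⟩
    refine ⟨a.re, ?_⟩
    have := (Complex.continuous_re.tendsto _).comp ha
    exact this
  have ht1 : t ≤ 1 := le_of_tendsto' ht fun j =>
    div_le_one_of_le₀ (hrtle j) (Nat.cast_nonneg _)
  have ht2 : 1 / 2 ≤ t := by
    refine ge_of_tendsto ht ?_
    filter_upwards [h0, hhalf] with j hk hj
    have hk' : (0 : ℝ) < k j := by exact_mod_cast hk
    rw [le_div_iff₀ hk']
    linarith
  have hdec : ∀ g, χ g = ((t / 2 : ℝ) : ℂ) * φ g + (1 - ((t / 2 : ℝ) : ℂ)) * ψ g := by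
    intro g
    have htc : Tendsto (fun j => (((rt (f j) / k j) / 2 : ℝ) : ℂ)) U (𝓝 ((t / 2 : ℝ) : ℂ)) :=
      (Complex.continuous_ofReal.tendsto _).comp (ht.div_const 2)
    have h1 := (htc.mul (hφ g)).add ((tendsto_const_nhds (x := (1 : ℂ)).sub htc).mul (hψ g))
    refine tendsto_nhds_unique (hσ.tr g) (h1.congr' ?_)
    filter_upwards [h0, hhalf] with j hk hj
    have hk' : (0 : ℝ) < k j := by exact_mod_cast hk
    have hf0 : 0 < rt (f j) := by linarith
    have hbp : 0 < rt (b j) := by rw [hrb]; have := hrtle j; linarith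
    have hkc : (k j : ℂ) ≠ 0 := by exact_mod_cast hk.ne'
    have hfc : (rt (f j) : ℂ) ≠ 0 := by exact_mod_cast hf0.ne'
    have hbc : (rt (b j) : ℂ) ≠ 0 := by exact_mod_cast hbp.ne'
    have e1 : Matrix.trace (b j * σ j g) =
        Matrix.trace (σ j g) - Matrix.trace (f j * σ j g) / 2 := by
      simp only [hbdef]
      rw [sub_mul, one_mul, Matrix.trace_sub, smul_mul_assoc, Matrix.trace_smul]
      rw [Complex.real_smul]
      push_cast
      ring
    have e2 : ntr (σ j g) = Matrix.trace (σ j g) / k j := by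
      unfold ntr Matrix.trace
      rw [Fintype.card_fin]
      rfl
    have e3 : (1 : ℂ) - (((rt (f j) / k j) / 2 : ℝ) : ℂ) = (rt (b j) : ℂ) / k j := by
      rw [hrb]
      push_cast
      field_simp
    rw [e2, e3]
    have e4 : (rt (b j) : ℂ) / k j * (Matrix.trace (b j * σ j g) / (rt (b j) : ℂ)) =
        Matrix.trace (b j * σ j g) / k j := by
      field_simp
    rw [e4, e1]
    push_cast
    field_simp
    ring
  have hclass : ∀ g h, φ (h * g * h⁻¹) = φ g := by
    intro g h
    rw [sec_class hσ hP hAC h0 hq hφ (h * g) h⁻¹, inv_mul_cancel_left]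
  have hφχ : ∀ g, φ g = χ g := by
    intro g
    have h1 := hL G χ (fun _ => φ) (fun _ => ψ) (fun _ => t / 2) (1 / 4) hχ (by norm_num)
      (fun _ => ⟨by linarith, by linarith⟩) (fun _ => hPDφ) (fun _ => hPDψ)
      (fun _ g => hdec g) (fun g h => by
        simp only [hclass, sub_self]
        exact tendsto_const_nhds) g
    exact tendsto_nhds_unique tendsto_const_nhds h1
  -- the compression
  obtain ⟨k', W, hW, hAH⟩ := hC G χ k U σ f hσ.norm hP (by
      filter_upwards [h0, hhalf] with j hk hj h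
      have hk' : (0 : ℝ) < k j := by exact_mod_cast hk
      rw [h, rt_zero] at hj
      linarith)
    (fun g => sec_hs_div (hAC g) (fun j => le_rfl) h0 hq)
    (fun g h => sec_hs_div (hσ.mul g h) (fun j => hs_mul_right_le (hP j).norm_le) h0 hq)
    (fun g => sec_hs_div (hσ.unit g) (fun j => hs_mul_right_le (hP j).norm_le) h0 hq)
    (fun g => by rw [← hφχ g]; exact hφ g)
  refine ⟨k', fun j g => (W j).conjTranspose * σ j g * W j, ?_, hAH, ?_⟩
  · filter_upwards [h0, hhalf] with j hk hj
    have hk' : (0 : ℝ) < k j := by exact_mod_cast hk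
    have := (hW j).2.2
    have h2 : (0 : ℝ) < k' j := by rw [this]; linarith
    exact_mod_cast h2
  · intro e' he' hACe
    have hcut := fun (j : ℕ) (g : G) => hK (Fin (k j)) (Fin (k' j)) G {g} (σ j) (W j) (e' j)
      (hW j).1 (hσ.norm j) (he' j)
    set e : ∀ j, Matrix (Fin (k j)) (Fin (k j)) ℂ :=
      fun j => W j * e' j * (W j).conjTranspose with hedef
    have he : ∀ j, Pr (e j) := fun j => (hcut j 1).1
    have hfe : ∀ j, f j * e j = e j := by
      intro j
      have := (hcut j 1).2.1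
      rwa [(hW j).2.1] at this
    have hrte : ∀ j, rt (e j) = rt (e' j) := fun j => (hcut j 1).2.2.1
    have hACk : AC k U σ e := by
      intro g
      have h1 : Tendsto (fun j => 3 * nn ((W j).conjTranspose * σ j g * W j * e' j -
          e' j * ((W j).conjTranspose * σ j g * W j)) +
          6 * nn (σ j g * f j - f j * σ j g)) U (𝓝 0) := by
        have := ((hACe g).const_mul 3).add ((hAC g).const_mul 6)
        simpa using this
      refine squeeze_zero' (Eventually.of_forall fun j => nn_nonneg _) ?_ h1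
      filter_upwards [h0, hhalf] with j hk hj
      have hk' : (0 : ℝ) < k j := by exact_mod_cast hk
      have hkk : (k' j : ℝ) = rt (f j) := (hW j).2.2
      have hk1 : (0 : ℝ) < k' j := by rw [hkk]; linarith
      have h2 := (hcut j g).2.2.2
      unfold En at h2
      rw [Finset.sum_singleton, Finset.sum_singleton, Finset.sum_singleton, (hW j).2.1] at h2
      have h3 : nn (σ j g * e j - e j * σ j g) = hs (σ j g * e j - e j * σ j g) / k j :=
        sec_nn j _
      have h4 : nn (σ j g * f j - f j * σ j g) = hs (σ j g * f j - f j * σ j g) / k j :=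
        sec_nn j _
      have h5 : nn ((W j).conjTranspose * σ j g * W j * e' j -
          e' j * ((W j).conjTranspose * σ j g * W j)) =
          hs ((W j).conjTranspose * σ j g * W j * e' j -
          e' j * ((W j).conjTranspose * σ j g * W j)) / k' j := sec_nn j _
      rw [h3, h4, h5]
      have h6 : hs ((W j).conjTranspose * σ j g * W j * e' j -
          e' j * ((W j).conjTranspose * σ j g * W j)) / k j ≤
          hs ((W j).conjTranspose * σ j g * W j * e' j -
          e' j * ((W j).conjTranspose * σ j g * W j)) / k' j := by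
        apply div_le_div_of_nonneg_left (hs_nonneg _) hk1
        rw [hkk]
        exact hrtle j
      have h7 : hs (σ j g * e j - e j * σ j g) / k j ≤
          (3 * hs ((W j).conjTranspose * σ j g * W j * e' j -
          e' j * ((W j).conjTranspose * σ j g * W j)) +
          6 * hs (σ j g * f j - f j * σ j g)) / k j := by
        apply div_le_div_of_nonneg_right _ hk'.le
        exact h2
      rw [add_div, mul_div_assoc, mul_div_assoc] at h7
      linarith
    have hscale : ∀ (x : ℕ → ℝ), (∀ j, 0 ≤ x j) → Tendsto (fun j => x j / k j) U (𝓝 0) →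
        Tendsto (fun j => x j / k' j) U (𝓝 0) := by
      intro x hx hx0
      have h1 : Tendsto (fun j => 2 * (x j / k j)) U (𝓝 0) := by
        have := hx0.const_mul 2
        rwa [mul_zero] at this
      refine squeeze_zero' (Eventually.of_forall fun j =>
        div_nonneg (hx j) (Nat.cast_nonneg _)) ?_ h1
      filter_upwards [h0, hhalf] with j hk hj
      have hk' : (0 : ℝ) < k j := by exact_mod_cast hk
      have hkk : (k' j : ℝ) = rt (f j) := (hW j).2.2
      have hk1 : (0 : ℝ) < k' j := by rw [hkk]; linarith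
      rw [div_le_iff₀ hk1]
      have h2 : 2 * (x j / k j) * k' j = x j * (2 * k' j / k j) := by
        field_simp
      rw [h2]
      have h3 : 1 ≤ 2 * (k' j : ℝ) / k j := by
        rw [le_div_iff₀ hk', hkk]
        linarith
      nlinarith [hx j]
    rcases hmin e he hfe hACk with h | h
    · left
      have h1 := hscale (fun j => rt (e j)) (fun j => (he j).rt_nonneg) h
      simp only [hrte] at h1
      exact h1
    · right
      have h1 := hscale (fun j => rt (f j - e j)) (fun j => ((hP j).sub (he j) (hfe j)).rt_nonneg) h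
      refine h1.congr fun j => ?_
      have hkk : (k' j : ℝ) = rt (f j) := (hW j).2.2
      rw [rt_sub, rt_sub, hrte, sec_rt_one, Fintype.card_fin, hkk]

end Helper61.IE
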