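import Pool.Agent.Helper61.IE.St2
import Pool.Agent.Helper61.IE.Lib

/-!
# Extraction of a sequence of compressed blocks
-/

namespace Helper61.IE

open Helper51.MU Filter Topology
open scoped Matrix.Norms.L2Operator MatrixOrder ComplexOrder

private lemma seq_en_single {n : Type} [Fintype n] {ι : Type} {F : Finset ι}
    {u : ι → Matrix n n ℂ} {y : Matrix n n ℂ} {s : ι} (hs' : s ∈ F) :
    hs (u s * y - y * u s) ≤ En F u y :=
  Finset.single_le_sum (f := fun s => hs (u s * y - y * u s)) (fun _ _ => hs_nonneg _) hs'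

private lemma seq_en_mono {n : Type} [Fintype n] {ι : Type} {S F : Finset ι} (h : S ⊆ F)
    (u : ι → Matrix n n ℂ) (y : Matrix n n ℂ) : En S u y ≤ En F u y :=
  Finset.sum_le_sum_of_subset_of_nonneg h fun _ _ _ => hs_nonneg _

theorem pSeq (hCompr : StCompr) (hCutC : StCutC) : StSeq := by
  intro G _ _ χ l V π S K hπ hK hB
  classical
  obtain ⟨e, he⟩ := exists_surjective_nat G
  -- the finite sets
  let F : ℕ → Finset G := fun j => (Finset.range (j + 1)).image e ∪ S
  have hF : ∀ g, ∃ N, ∀ j, N ≤ j → g ∈ F j := by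
    intro g
    obtain ⟨N, rfl⟩ := he g
    exact ⟨N, fun j hj => Finset.mem_union_left _
      (Finset.mem_image_of_mem e (Finset.mem_range.2 (by omega)))⟩
  have hSF : ∀ j, S ⊆ F j := fun j => Finset.subset_union_right
  have hex : ∀ j : ℕ, ∃ n, ∃ p, Block (π n) χ S K (F j) (1 / ((j : ℝ) + 1)) p := fun j =>
    (hB (F j) (1 / ((j : ℝ) + 1)) (by positivity)).exists
  choose n p hblock using hex
  have hεlim : Tendsto (fun j : ℕ => 1 / ((j : ℝ) + 1)) atTop (𝓝 0) :=
    tendsto_one_div_add_atTop_nhds_zero_nat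
  have hrt : ∀ j, 0 < rt (p j) := fun j =>
    lt_of_lt_of_le one_pos ((hblock j).pr.one_le_rt (hblock j).ne)
  have hdiv : ∀ (f : ℕ → ℝ), (∀ j, 0 ≤ f j) →
      (∃ N, ∀ j, N ≤ j → f j ≤ 1 / ((j : ℝ) + 1) * rt (p j)) →
      Tendsto (fun j => f j / rt (p j)) atTop (𝓝 0) := by
    rintro f hf ⟨N, hN⟩
    refine tendsto_of_tendsto_of_tendsto_of_le_of_le' tendsto_const_nhds hεlim
      (Eventually.of_forall fun j => div_nonneg (hf j) (hrt j).le) ?_
    filter_upwards [eventually_ge_atTop N] with j hj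
    rw [div_le_iff₀ (hrt j)]
    exact hN j hj
  obtain ⟨k, W, hW, hA⟩ := hCompr G χ (fun j => l (n j)) atTop (fun j => π (n j)) p
    (fun j g => norm_unit_le (hπ _ g)) (fun j => (hblock j).pr)
    (Eventually.of_forall fun j => (hblock j).ne)
    (by
      intro g
      refine hdiv _ (fun j => hs_nonneg _) ?_
      obtain ⟨N, hN⟩ := hF g
      exact ⟨N, fun j hj => (seq_en_single (u := π (n j)) (hN j hj)).trans (hblock j).en⟩)
    (by
      intro g h
      refine hdiv _ (fun j => hs_nonneg _) ?_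
      obtain ⟨N, hN⟩ := hF g
      obtain ⟨N', hN'⟩ := hF h
      exact ⟨max N N', fun j hj => (hblock j).mul g (hN j (le_of_max_le_left hj)) h
        (hN' j (le_of_max_le_right hj))⟩)
    (by
      intro g
      refine hdiv _ (fun j => hs_nonneg _) ⟨0, fun j _ => ?_⟩
      rw [hπ, sub_self, zero_mul, hs_zero]
      have := (hrt j).le
      positivity)
    (by
      intro g
      rw [tendsto_iff_norm_sub_tendsto_zero]
      have h1 := hdiv (fun j => ‖Matrix.trace (p j * π (n j) g) - χ g * rt (p j)‖)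
        (fun j => norm_nonneg _) (by
          obtain ⟨N, hN⟩ := hF g
          exact ⟨N, fun j hj => (hblock j).tr g (hN j hj)⟩)
      refine h1.congr fun j => ?_
      have h2 : (rt (p j) : ℂ) ≠ 0 := by exact_mod_cast (hrt j).ne'
      have h3 : Matrix.trace (p j * π (n j) g) / (rt (p j) : ℂ) - χ g =
          (Matrix.trace (p j * π (n j) g) - χ g * rt (p j)) / (rt (p j) : ℂ) := by
        field_simp
      rw [h3, norm_div, Complex.norm_real, Real.norm_of_nonneg (hrt j).le])
  refine ⟨k, fun j g => (W j).conjTranspose * π (n j) g * W j, hA, ?_, ?_⟩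
  · have hc : (0 : ℝ) < 1 / 10 ^ 54 / K := by positivity
    refine ⟨S, 1 / 10 ^ 54 / K / 6, by positivity, ?_⟩
    have hev : ∀ᶠ j : ℕ in atTop, 1 / ((j : ℝ) + 1) < 1 / 10 ^ 54 / K / 12 :=
      (tendsto_order.1 hεlim).2 _ (by positivity)
    filter_upwards [hev] with j hj e' he' h1 h2
    obtain ⟨hWW, hWp, hk⟩ := hW j
    obtain ⟨c1, c2, c3, c4⟩ := hCutC (Fin (l (n j))) (Fin (k j)) G S (π (n j)) (W j) e' hWW
      (fun s => norm_unit_le (hπ _ s)) he'
    rw [hWp] at c2 c4
    have c5 := (hblock j).cut _ c1 c2 (by rw [c3, ← hk]; exact h1) (by rw [c3, ← hk]; exact h2)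
    have c6 : En S (π (n j)) (p j) ≤ 1 / ((j : ℝ) + 1) * rt (p j) :=
      (seq_en_mono (hSF j) _ _).trans (hblock j).en
    have c7 : 1 / ((j : ℝ) + 1) * rt (p j) ≤ 1 / 10 ^ 54 / K / 12 * rt (p j) :=
      mul_le_mul_of_nonneg_right hj.le (hrt j).le
    rw [hk]
    nlinarith
  · intro j
    have := (hW j).2.2
    have h1 := hrt j
    rw [← this] at h1
    exact_mod_cast h1

end Helper61.IE
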