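import Pool.Agent.Helper61.IE.St
import Pool.Agent.Helper61.IE.Lib

/-!
# Random signs
-/

namespace Helper61.IE

open Helper51.MU
open scoped Matrix.Norms.L2Operator MatrixOrder ComplexOrder

private lemma sign_hs_par {n : Type} [Fintype n] (A B : Matrix n n ℂ) :
    hs (A + B) + hs (A - B) = 2 * hs A + 2 * hs B := by
  rw [hs_eq_rt, hs_eq_rt, hs_eq_rt, hs_eq_rt, Matrix.conjTranspose_add, Matrix.conjTranspose_sub,
    ← rt_add]
  have h : (A.conjTranspose + B.conjTranspose) * (A + B) +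
      (A.conjTranspose - B.conjTranspose) * (A - B) =
      (2 : ℝ) • (A.conjTranspose * A) + (2 : ℝ) • (B.conjTranspose * B) := by
    rw [two_smul, two_smul]; noncomm_ring
  rw [h, rt_add, rt_smul, rt_smul]

private lemma sign_hs_smul {n : Type} [Fintype n] (c : ℝ) (A : Matrix n n ℂ) :
    hs (c • A) = c ^ 2 * hs A := by
  have h : c • A = (c : ℂ) • A := by
    ext i j; simp
  rw [h, hs_smul]
  simp

private lemma sign_Q {n : Type} [Fintype n] [DecidableEq n] {ι : Type} (S : Finset ι)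
    (u : ι → Matrix n n ℂ) (K : ℝ) (L : Matrix n n ℂ →ₗ[ℂ] Matrix n n ℂ)
    (x y : Matrix n n ℂ) :
    (hs (x + y - L (x + y)) - K * En S u (x + y)) + (hs (x - y - L (x - y)) - K * En S u (x - y)) =
      2 * (hs (x - L x) - K * En S u x) + 2 * (hs (y - L y) - K * En S u y) := by
  have h1 : hs (x + y - L (x + y)) + hs (x - y - L (x - y)) =
      2 * hs (x - L x) + 2 * hs (y - L y) := by
    rw [← sign_hs_par, map_add, map_sub]
    congr 2 <;> abel
  have h2 : En S u (x + y) + En S u (x - y) = 2 * En S u x + 2 * En S u y := by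
    unfold En
    rw [← Finset.sum_add_distrib, Finset.mul_sum, Finset.mul_sum, ← Finset.sum_add_distrib]
    refine Finset.sum_congr rfl fun s _ => ?_
    rw [← sign_hs_par]
    congr 2 <;> noncomm_ring
  linear_combination h1 - K * h2

theorem pSign : StSign := by
  intro n _ _ ι F S u K δ k I y hK hδ hT hyp hy hsum
  obtain ⟨Q, hQ⟩ : ∃ Q : Matrix n n ℂ → ℝ,
      ∀ x, Q x = hs (x - (TT F u ^ k) x) - K * En S u x := ⟨_, fun _ => rfl⟩
  have hpar : ∀ x y, Q (x + y) + Q (x - y) = 2 * Q x + 2 * Q y := by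
    intro x y
    rw [hQ, hQ, hQ, hQ]
    exact sign_Q S u K (TT F u ^ k) x y
  have hQ0 : Q 0 = 0 := by
    have := hpar 0 0
    simp only [add_zero, sub_zero] at this
    linarith
  have claim : ∀ J : Finset ℕ, J ⊆ I → ∃ Y : Matrix n n ℂ, Y.conjTranspose = Y ∧
      Y ≤ ∑ i ∈ J, y i ∧ -(∑ i ∈ J, y i) ≤ Y ∧ ∑ i ∈ J, Q (y i) ≤ Q Y := by
    intro J
    induction J using Finset.induction_on with
    | empty =>
      intro _
      exact ⟨0, by simp, by simp, by simp, by simp [hQ0]⟩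
    | insert j J hj ih =>
      intro hJ
      obtain ⟨Y, h1, h2, h3, h4⟩ := ih (fun i hi => hJ (Finset.mem_insert_of_mem hi))
      have hyj : 0 ≤ y j := hy j (hJ (Finset.mem_insert_self _ _))
      have hyh : (y j).conjTranspose = y j := herm_of_nonneg hyj
      have hneg : -(y j) ≤ y j := (neg_nonpos.2 hyj).trans hyj
      rw [Finset.sum_insert hj, Finset.sum_insert hj]
      rcases le_total (Q Y + Q (y j)) (Q (Y + y j)) with h5 | h5
      · refine ⟨Y + y j, ?_, ?_, ?_, ?_⟩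
        · rw [Matrix.conjTranspose_add, h1, hyh]
        · rw [add_comm]; exact add_le_add le_rfl h2
        · rw [neg_add, add_comm]; exact add_le_add h3 hneg
        · linarith
      · refine ⟨Y - y j, ?_, ?_, ?_, ?_⟩
        · rw [Matrix.conjTranspose_sub, h1, hyh]
        · rw [sub_eq_add_neg, add_comm]; exact add_le_add hneg h2
        · rw [neg_add, add_comm, sub_eq_add_neg]; exact add_le_add h3 le_rfl
        · linarith [hpar Y (y j)]
  obtain ⟨Y, h1, h2, h3, h4⟩ := claim I subset_rfl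
  have hsum' : ∑ i ∈ I, (hs (y i - (TT F u ^ k) (y i)) - K * En S u (y i)) = ∑ i ∈ I, Q (y i) :=
    Finset.sum_congr rfl fun i _ => (hQ _).symm
  rw [hsum']
  refine h4.trans ?_
  have hYn : ‖Y‖ ≤ 4 := by
    refine norm_le_of_le (by norm_num) h1 (h2.trans hsum) (le_trans ?_ h3)
    exact neg_le_neg hsum
  have h5 : (((1 / 4 : ℝ)) • Y).conjTranspose = (1 / 4 : ℝ) • Y := by
    rw [Matrix.conjTranspose_smul, h1]; simp
  have h6 : ‖((1 / 4 : ℝ)) • Y‖ ≤ 1 := by
    rw [norm_smul]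
    rw [Real.norm_of_nonneg (by norm_num)]
    linarith
  have h7 := hyp _ h5 h6
  have h8 : Q ((1 / 4 : ℝ) • Y) ≤ δ * Fintype.card n := by rw [hQ]; linarith
  have h9 : Q ((1 / 4 : ℝ) • Y) = (1 / 4 : ℝ) ^ 2 * Q Y := by
    have e1 : (TT F u ^ k) ((1 / 4 : ℝ) • Y) = (1 / 4 : ℝ) • (TT F u ^ k) Y := by
      have h : ∀ A : Matrix n n ℂ, (1 / 4 : ℝ) • A = (((1 / 4 : ℝ) : ℝ) : ℂ) • A := by
        intro A; ext i j; simp
      rw [h, h, map_smul]
    have e2 : En S u ((1 / 4 : ℝ) • Y) = (1 / 4 : ℝ) ^ 2 * En S u Y := by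
      unfold En
      rw [Finset.mul_sum]
      refine Finset.sum_congr rfl fun s _ => ?_
      rw [mul_smul_comm, smul_mul_assoc, ← smul_sub, sign_hs_smul]
    rw [hQ, hQ, e1, e2, ← smul_sub, sign_hs_smul]
    ring
  rw [h9] at h8
  nlinarith

end Helper61.IE
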