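import Pool.Agent.Helper61.IE.St

/-!
# Module Stage: the stage inequality
-/

set_option linter.unusedSectionVars false

namespace Helper61.IE

open Helper51.MU
open scoped Matrix.Norms.L2Operator MatrixOrder ComplexOrder

variable {n : Type} [Fintype n] [DecidableEq n]

private lemma stage_X (H p : Matrix n n ℂ) (Λ : ℝ) : rt (p * (1 - Λ • H)) = Gam Λ H p := by
  unfold Gam
  rw [mul_sub, mul_one, mul_smul_comm, rt_sub, rt_smul]

private lemma stage_ring {T : Type*} [Ring T] (H z e y a : T) (h : y = (1 - H) * z * (1 - H)) :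
    e - a = (e - z) + ((H * z + (1 - H) * z * H) + (y - a)) := by
  rw [h]; noncomm_ring

private lemma stage_sqrt {x c σ : ℝ} (hc : 0 ≤ c) (hσ : 0 ≤ σ) (h : x ≤ c ^ 2 * σ ^ 2) :
    Real.sqrt x ≤ c * σ :=
  Real.sqrt_le_iff.2 ⟨mul_nonneg hc hσ, by rw [mul_pow]; exact h⟩

private lemma stage_En {ι : Type} (F : Finset ι) (u : ι → Matrix n n ℂ) (p : Matrix n n ℂ) :
    0 ≤ En F u p := Finset.sum_nonneg fun _ _ => hs_nonneg _

/-- the trace bound -/
private lemma stage_tr (H q z e a p : Matrix n n ℂ) (hH0 : 0 ≤ H) (hH1 : H ≤ 1) (hq : Pr q)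
    (ho : rt (q * H) ≤ rt q / 10 ^ 20) (hz0 : 0 ≤ z) (hzq : z ≤ q) (he : Pr e)
    (hze : hs (z - e) ≤ (3 / 10 ^ 9) ^ 2 * rt q) (hzt : rt z ≤ rt e + 3 / 10 ^ 9 * rt q)
    (het : rt e ≤ 101 / 100 * rt q) (hat : rt a ≤ rt z)
    (hy : hs ((1 - H) * z * (1 - H) - a) ≤ (1 / 10 ^ 26) ^ 2 * rt q)
    (hp : Pr p) (hpa : (1 / 10 ^ 4 : ℝ) • p ≤ a) : rt p ≤ rt e + 1 / 10 ^ 4 * rt q := by
  have hHh := herm_of_nonneg hH0
  have hzh := herm_of_nonneg hz0
  have hz1 : z ≤ 1 := hzq.trans hq.le_one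
  have hG0 : 0 ≤ 1 - H := sub_nonneg.2 hH1
  have hG1 : 1 - H ≤ 1 := sub_le_self _ hH0
  have hGn : ‖1 - H‖ ≤ 1 := norm_le_one_of_nonneg hG0 hG1
  have hτ0 : 0 ≤ rt q := hq.rt_nonneg
  obtain ⟨σ, hσ⟩ : ∃ σ : ℝ, σ = Real.sqrt (rt q) := ⟨_, rfl⟩
  have hσ0 : 0 ≤ σ := hσ ▸ Real.sqrt_nonneg _
  have hσσ : σ ^ 2 = rt q := by rw [hσ]; exact Real.sq_sqrt hτ0
  have hHH : 0 ≤ H * H := by
    have := nonneg_star_mul H
    rwa [hHh] at this
  -- the 2-norm of `H z`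
  have hb : hs (H * z) ≤ rt q / 10 ^ 20 := by
    have e1 : hs (H * z) = rt (z * z * (H * H)) := by
      rw [hs_eq_rt, Matrix.conjTranspose_mul, hHh, hzh]
      calc rt (z * H * (H * z)) = rt ((z * H * H) * z) := by simp only [mul_assoc]
        _ = rt (z * (z * H * H)) := rt_mul_comm _ _
        _ = _ := by simp only [mul_assoc]
    have e2 : z * z ≤ q := (le_mul_self_of_le_one hz0 hz1).trans hzq
    have e3 := rt_mul_mono e2 hHH
    have e4 := rt_mul_mono' (le_mul_self_of_le_one hH0 hH1) hq.nonneg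
    rw [e1]; linarith
  have s1 : Real.sqrt (hs (e - z)) ≤ 3 / 10 ^ 9 * σ := by
    refine stage_sqrt (by norm_num) hσ0 ?_
    rw [hs_sub_comm, hσσ]; exact hze
  have s2 : Real.sqrt (hs (H * z)) ≤ 1 / 10 ^ 10 * σ := by
    refine stage_sqrt (by norm_num) hσ0 ?_
    rw [hσσ]; refine hb.trans (le_of_eq ?_); ring
  have s3 : Real.sqrt (hs ((1 - H) * z * H)) ≤ 1 / 10 ^ 10 * σ := by
    refine (Real.sqrt_le_sqrt ?_).trans s2
    rw [mul_assoc]
    refine (hs_mul_left_le hGn).trans (le_of_eq ?_)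
    rw [← hs_conjTranspose, Matrix.conjTranspose_mul, hHh, hzh]
  have s4 : Real.sqrt (hs ((1 - H) * z * (1 - H) - a)) ≤ 1 / 10 ^ 26 * σ := by
    refine stage_sqrt (by norm_num) hσ0 ?_
    rw [hσσ]; exact hy
  have s5 : Real.sqrt (hs (e - a)) ≤ (3 / 10 ^ 9 + 2 / 10 ^ 10 + 1 / 10 ^ 26) * σ := by
    rw [stage_ring H z e _ a rfl]
    have h1 := sqrt_hs_add_le (e - z) ((H * z + (1 - H) * z * H) + ((1 - H) * z * (1 - H) - a))
    have h2 := sqrt_hs_add_le (H * z + (1 - H) * z * H) ((1 - H) * z * (1 - H) - a)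
    have h3 := sqrt_hs_add_le (H * z) ((1 - H) * z * H)
    linarith
  have s6 : Real.sqrt (hs e) ≤ 1005 / 1000 * σ := by
    refine stage_sqrt (by norm_num) hσ0 ?_
    rw [he.hs, hσσ]
    linarith
  have s7 : rt ((e - a) * e) ≤ 33 / 10 ^ 10 * rt q := by
    refine (rt_mul_le _ _).trans ?_
    calc Real.sqrt (hs (e - a)) * Real.sqrt (hs e) ≤
        ((3 / 10 ^ 9 + 2 / 10 ^ 10 + 1 / 10 ^ 26) * σ) * (1005 / 1000 * σ) := by
          refine mul_le_mul s5 s6 (Real.sqrt_nonneg _) (by positivity)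
      _ = ((3 / 10 ^ 9 + 2 / 10 ^ 10 + 1 / 10 ^ 26) * (1005 / 1000)) * rt q := by
          rw [← hσσ]; ring
      _ ≤ _ := by
          refine mul_le_mul_of_nonneg_right ?_ hτ0
          norm_num
  have s8 : rt (a * (1 - e)) ≤ 63 / 10 ^ 10 * rt q := by
    have h1 : rt (a * (1 - e)) = rt a - rt e + rt ((e - a) * e) := by
      rw [mul_sub, mul_one, rt_sub, sub_mul, he.2, rt_sub]; ring
    rw [h1]; linarith
  have h1 : rt p = rt (p * e) + rt (p * (1 - e)) := by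
    rw [mul_sub, mul_one, rt_sub]; ring
  have h2 : rt (p * e) ≤ rt e := by
    have := rt_mul_mono hp.le_one he.nonneg
    rwa [one_mul] at this
  have h3 : 1 / 10 ^ 4 * rt (p * (1 - e)) ≤ rt (a * (1 - e)) := by
    have := rt_mul_mono hpa he.one_sub.nonneg
    rwa [smul_mul_assoc, rt_smul] at this
  linarith

theorem pStage (hTT : StTT) (hEn : StEn) (hRound1 : StRound1) (hPert : StPert) (hGam : StGam) :
    StStage := by
  intro n _ _ ι F u H q z e ε k hF hu hε hH0 hH1 hqQ hGq hmax hk hz0 hzq he hze hzt het hy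
  obtain ⟨hq, hqne, hqE⟩ := hqQ
  have hT := hTT n ι F u hF hu
  have hE := hEn n ι F u hF hu hT
  have hHh := herm_of_nonneg hH0
  have hz1 : z ≤ 1 := hzq.trans hq.le_one
  have hG0 : 0 ≤ 1 - H := sub_nonneg.2 hH1
  have hG1 : 1 - H ≤ 1 := sub_le_self _ hH0
  have hGh := herm_of_nonneg hG0
  have hGn : ‖1 - H‖ ≤ 1 := norm_le_one_of_nonneg hG0 hG1
  have hτ1 : 1 ≤ rt q := hq.one_le_rt hqne
  have hτ0 : 0 < rt q := lt_of_lt_of_le one_pos hτ1
  have ho : rt (q * H) ≤ rt q / 10 ^ 20 := by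
    unfold Gam at hGq
    rw [le_div_iff₀ (by positivity)]
    linarith
  obtain ⟨y, hydef⟩ : ∃ y, y = (1 - H) * z * (1 - H) := ⟨_, rfl⟩
  have hy0 : 0 ≤ y := by
    have := conj_nonneg hz0 (1 - H)
    rwa [hGh, ← hydef] at this
  have hGG1 : (1 - H) * (1 - H) ≤ 1 := (le_mul_self_of_le_one hG0 hG1).trans hG1
  have hy1 : y ≤ 1 := by
    have := conj_mono hz1 (1 - H)
    rw [hGh, ← hydef, mul_one] at this
    exact this.trans hGG1
  have hyz : rt y ≤ rt z := by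
    have h1 := rt_mul_mono hGG1 hz0
    rw [one_mul] at h1
    rw [hydef, rt_cycle]; exact h1
  have hzτ : rt z ≤ rt q := rt_mono hzq
  have hhsy : hs y ≤ rt q := by
    rw [hydef]
    exact (hs_mul_right_le hGn).trans ((hs_mul_left_le hGn).trans
      ((hs_le_rt hz0 hz1).trans hzτ))
  rw [← hydef] at hy
  obtain ⟨a, hadef⟩ : ∃ a, a = (TT F u ^ k) y := ⟨_, rfl⟩
  have ha0 : 0 ≤ a := hadef ▸ hT.nonneg k y hy0
  have ha1 : a ≤ 1 := by
    have := hT.nonneg k (1 - y) (sub_nonneg.2 hy1)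
    rw [map_sub, hT.one k, ← hadef] at this
    exact sub_nonneg.1 this
  have hat : rt a = rt y := by rw [hadef]; exact hT.tr k y
  rw [← hadef] at hy
  -- (i)
  obtain ⟨r, hr, hrq, hra, hraH⟩ := hPert n H q z a (1 / 10 ^ 26) hH0 hH1 hq hz0 hzq ha0
    (by rw [hat, hydef]) (by positivity) (by rw [← hydef, hs_sub_comm]; exact hy)
  rw [← hydef] at hraH
  -- (ii)
  have htrace : ∀ p : Matrix n n ℂ, Pr p → (1 / 10 ^ 4 : ℝ) • p ≤ a →
      rt p ≤ rt e + 1 / 10 ^ 4 * rt q := fun p hp hpa =>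
    stage_tr H q z e a p hH0 hH1 hq ho hz0 hzq he hze hzt het (by rw [hat]; exact hyz)
      (by rw [← hydef]; exact hy) hp hpa
  -- (iii)
  obtain ⟨w, hw⟩ : ∃ w : ℝ, w = rt e / rt q + 1 / 10 ^ 4 := ⟨_, rfl⟩
  have hw0 : 0 ≤ w := by
    rw [hw]; have := he.rt_nonneg; positivity
  have hMw : rt e + 1 / 10 ^ 4 * rt q = rt q * w := by
    rw [hw]; field_simp
  rw [← hw]
  have hB0 : 0 ≤ Gam (10 ^ 20) H q * w ^ 2 := by positivity
  have hkey : ∀ p : Matrix n n ℂ, Pr p → (1 / 10 ^ 4 : ℝ) • p ≤ a →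
      rt (p * (1 - (10 ^ 20 : ℝ) • H)) ≤ Gam (10 ^ 20) H q * w ^ 2 + (1 / ε) * En F u p := by
    intro p hp hpa
    rw [stage_X]
    have hEp := stage_En F u p
    have hcE : 0 ≤ (1 / ε) * En F u p := by positivity
    by_cases hp0 : p = 0
    · have : Gam (10 ^ 20) H p = 0 := by
        rw [hp0]; unfold Gam; rw [zero_mul, rt_zero]; ring
      rw [this]; exact add_nonneg hB0 hcE
    · by_cases hpE : En F u p ≤ ε * rt p
      · have h1 := hmax p ⟨hp, hp0, hpE⟩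
        have h2 := htrace p hp hpa
        rw [hMw] at h2
        have h3 : Gam (10 ^ 20) H p * rt q ^ 2 ≤ (Gam (10 ^ 20) H q * w ^ 2) * rt q ^ 2 := by
          refine h1.trans ?_
          calc Gam (10 ^ 20) H q * rt p ^ 2 ≤ Gam (10 ^ 20) H q * (rt q * w) ^ 2 := by
                have := hp.rt_nonneg
                gcongr
            _ = _ := by ring
        have h4 := le_of_mul_le_mul_right h3 (by positivity)
        exact h4.trans (le_add_of_nonneg_right hcE)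
      · push Not at hpE
        have h1 : Gam (10 ^ 20) H p ≤ rt p := by
          unfold Gam
          have := rt_mul_nonneg hp.nonneg hH0
          have h10 : (0 : ℝ) ≤ 10 ^ 20 := by positivity
          nlinarith
        have h2 : rt p ≤ (1 / ε) * En F u p := by
          rw [one_div, ← div_eq_inv_mul, le_div_iff₀ hε]
          linarith
        exact (h1.trans h2).trans (le_add_of_nonneg_left hB0)
  -- (iv)
  have hXh : (1 - (10 ^ 20 : ℝ) • H).conjTranspose = 1 - (10 ^ 20 : ℝ) • H := by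
    rw [Matrix.conjTranspose_sub, Matrix.conjTranspose_one, Matrix.conjTranspose_smul, hHh,
      star_trivial]
  have hX1 : 1 - (10 ^ 20 : ℝ) • H ≤ 1 :=
    sub_le_self _ (smul_nonneg_real (by positivity) hH0)
  have hR := hRound1 n ι F u a (1 - (10 ^ 20 : ℝ) • H) r (1 / 10 ^ 4)
    (Gam (10 ^ 20) H q * w ^ 2) (1 / ε) hu ha0 ha1 hXh hX1 hr.nonneg hr.le_one (by norm_num)
    (by norm_num) hB0 (by positivity) hkey
  rw [stage_X] at hR
  have hEa : En F u a ≤ 4 * F.card * rt q / (2 * k + 1) := by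
    rw [hadef]
    refine (hE.pow k y).trans ?_
    gcongr
  have hsqrt : Real.sqrt (2 * F.card * En F u a * rt a / (1 / 10 ^ 4)) ≤
      rt q * (F.card * Real.sqrt (80000 / (2 * k + 1))) := by
    refine Real.sqrt_le_iff.2 ⟨by positivity, ?_⟩
    have h1 : rt a ≤ rt q := by rw [hat]; exact hyz.trans hzτ
    have h2 : 0 ≤ rt a := rt_nonneg ha0
    rw [mul_pow, mul_pow, Real.sq_sqrt (by positivity)]
    calc 2 * F.card * En F u a * rt a / (1 / 10 ^ 4) ≤
        2 * F.card * (4 * F.card * rt q / (2 * k + 1)) * rt q / (1 / 10 ^ 4) := by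
          have := stage_En F u a
          gcongr
      _ = _ := by ring
  have hlast : 1 / ε * Real.sqrt (2 * F.card * En F u a * rt a / (1 / 10 ^ 4)) ≤
      rt q / 10 ^ 6 := by
    calc 1 / ε * Real.sqrt (2 * F.card * En F u a * rt a / (1 / 10 ^ 4)) ≤
        1 / ε * (rt q * (ε / 10 ^ 6)) := by
          refine mul_le_mul_of_nonneg_left (hsqrt.trans ?_) (by positivity)
          exact mul_le_mul_of_nonneg_left hk hτ0.le
      _ = _ := by field_simp
  -- (v)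
  have hG := hGam n H z (10 ^ 20) hH0 hH1 hz0 (by positivity)
  rw [← hydef] at hG
  have hzH : rt (z * H) ≤ rt q / 10 ^ 20 := (rt_mul_mono hzq hH0).trans ho
  have hGa : Gam (10 ^ 20) H y - 4 / 10 ^ 6 * rt q ≤ Gam (10 ^ 20) H a := by
    unfold Gam
    rw [hat]
    have : (10 : ℝ) ^ 20 * rt (a * H) ≤ 10 ^ 20 * (rt (y * H) + 4 * (1 / 10 ^ 26) * rt q) :=
      mul_le_mul_of_nonneg_left hraH (by positivity)
    linarith
  have fin : ∀ (Z zHH zH Y Aa rr ra B S τ : ℝ), Z - 2 * zH + 10 ^ 20 * zHH ≤ Y →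
      Y - 4 / 10 ^ 6 * τ ≤ Aa → Aa ≤ 1 / 10 ^ 4 * rr + ra + B + S → S ≤ τ / 10 ^ 6 →
      ra ≤ 1 / 10 ^ 26 * τ → rr ≤ τ → zH ≤ τ / 10 ^ 20 → 0 < τ →
      Z + 10 ^ 20 * zHH ≤ B + 11 / 10 ^ 5 * τ := by
    intro Z zHH zH Y Aa rr ra B S τ h1 h2 h3 h4 h5 h6 h7 h8
    linarith
  exact fin _ _ _ _ _ _ _ _ _ _ hG hGa hR hlast hra hrq hzH hτ0

end Helper61.IE
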