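import Pool.Agent.Helper61.IE.St

/-!
# IE module SumA: first sums along the greedy process
-/

namespace Helper61.IE

open Helper51.MU
open scoped Matrix.Norms.L2Operator MatrixOrder ComplexOrder

section SumA

variable {n : Type} [Fintype n] [DecidableEq n] {ι : Type} {F : Finset ι}
  {u : ι → Matrix n n ℂ}

private lemma RR_nonneg_A (h : RRFacts F u) {q : Matrix n n ℂ} (hq : 0 ≤ q) : 0 ≤ RR F u q :=
  (smul_nonneg_real (by norm_num) hq).trans (h.half q hq)

private lemma SS_nonneg_A (h : RRFacts F u) {q : ℕ → Matrix n n ℂ} {N : ℕ}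
    (hq : ∀ i < N, Pr (q i)) : ∀ i ≤ N, 0 ≤ SS F u q i := by
  intro i hi
  unfold SS
  refine Finset.sum_nonneg fun j hj => ?_
  exact RR_nonneg_A h (hq j (lt_of_lt_of_le (Finset.mem_range.1 hj) hi)).nonneg

private lemma SS_succ_A (q : ℕ → Matrix n n ℂ) (i : ℕ) :
    SS F u q (i + 1) = SS F u q i + RR F u (q i) := by
  unfold SS
  rw [Finset.sum_range_succ]

theorem pSumA (hG2 : StG2) : StSumA := by
  intro n _ _ _ ι F u ε Λ q N hF hu h hε hΛ hgr
  have hPr : ∀ i < N, Pr (q i) := fun i hi => (hgr.mem i hi).1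
  have hS := SS_nonneg_A h hPr
  have hstep : ∀ i < N, (1 / 2 : ℝ) • (Gi F u q i * RR F u (q i) * Gi F u q i) ≤
      Gi F u q i - Gi F u q (i + 1) ∧ Gi F u q i - Gi F u q (i + 1) ≤
        Gi F u q i * RR F u (q i) * Gi F u q i := by
    intro i hi
    have h1 := hG2 n (SS F u q i) (RR F u (q i)) (hS i hi.le) (RR_nonneg_A h (hPr i hi).nonneg)
      (h.le_one _ (hPr i hi).nonneg (hPr i hi).le_one)
    rw [← SS_succ_A] at h1
    exact h1
  have hGh : ∀ i ≤ N, (Gi F u q i).conjTranspose = Gi F u q i := fun i hi => GG_herm (hS i hi)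
  have hG0 : Gi F u q 0 = 1 := by
    unfold Gi SS
    rw [Finset.range_zero, Finset.sum_empty, GG_zero]
  have htel : ∑ i ∈ Finset.range N, (Gi F u q i - Gi F u q (i + 1)) = 1 - Gi F u q N := by
    rw [Finset.sum_range_sub', hG0]
  constructor
  · have h1 : ∀ i ∈ Finset.range N, Gi F u q i * q i * Gi F u q i ≤
        (4 : ℝ) • (Gi F u q i - Gi F u q (i + 1)) := by
      intro i hi
      have hi' := Finset.mem_range.1 hi
      have h2 := (hstep i hi').1
      have h3 := conj_mono (h.half (q i) (hPr i hi').nonneg) (Gi F u q i)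
      rw [hGh i hi'.le, mul_smul_comm, smul_mul_assoc] at h3
      have h4 := smul_mono_real (by norm_num : (0 : ℝ) ≤ 2) h3
      have h5 := smul_mono_real (by norm_num : (0 : ℝ) ≤ 4) h2
      rw [smul_smul] at h4 h5
      norm_num at h4 h5
      exact h4.trans h5
    refine (Finset.sum_le_sum h1).trans ?_
    rw [← Finset.smul_sum, htel]
    exact smul_mono_real (by norm_num) (sub_le_self _ (GG_nonneg (hS N le_rfl)))
  · have hone : QQ F u ε (1 : Matrix n n ℂ) := by
      refine ⟨Pr.one, one_ne_zero, ?_⟩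
      have h1 : En F u (1 : Matrix n n ℂ) = 0 := by
        unfold En
        refine Finset.sum_eq_zero fun s _ => ?_
        rw [mul_one, one_mul, sub_self, hs_zero]
      rw [h1]
      exact mul_nonneg hε.le Pr.one.rt_nonneg
    have h1 := hgr.stop 1 hone
    unfold Gam at h1
    rw [one_mul] at h1
    have h2 : rt (1 : Matrix n n ℂ) = Fintype.card n := by
      unfold rt
      rw [Matrix.trace_one]
      simp
    rw [h2] at h1
    have h3 : rt (Hi F u q N) ≤ ∑ i ∈ Finset.range N, rt (q i) := by
      unfold Hi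
      rw [← htel, rt_sum]
      refine Finset.sum_le_sum fun i hi => ?_
      have hi' := Finset.mem_range.1 hi
      have h4 := rt_mono (hstep i hi').2
      refine h4.trans ?_
      have h5 : rt (Gi F u q i * RR F u (q i) * Gi F u q i) =
          rt (RR F u (q i) * (Gi F u q i * Gi F u q i)) := by
        rw [mul_assoc, rt_mul_comm]
        simp only [mul_assoc]
      have h6 : Gi F u q i * Gi F u q i ≤ 1 :=
        (le_mul_self_of_le_one (GG_nonneg (hS i hi'.le)) (GG_le_one (hS i hi'.le))).trans
          (GG_le_one (hS i hi'.le))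
      have h7 := rt_mul_mono' h6 (RR_nonneg_A h (hPr i hi').nonneg)
      rw [mul_one, h.tr] at h7
      rw [h5]
      exact h7
    have h4 : 0 < Λ := by linarith
    nlinarith

end SumA

end Helper61.IE
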