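import Pool.Agent.Helper61.IE.St

/-!
# IE module SumL: Lyapunov sum
-/

namespace Helper61.IE

open Helper51.MU
open scoped Matrix.Norms.L2Operator MatrixOrder ComplexOrder

section SumL

variable {n : Type} [Fintype n] [DecidableEq n] {ι : Type} {F : Finset ι}
  {u : ι → Matrix n n ℂ}

private lemma RR_nonneg_L (h : RRFacts F u) {q : Matrix n n ℂ} (hq : 0 ≤ q) : 0 ≤ RR F u q :=
  (smul_nonneg_real (by norm_num) hq).trans (h.half q hq)

private lemma SS_nonneg_L (h : RRFacts F u) {q : ℕ → Matrix n n ℂ} {N : ℕ}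
    (hq : ∀ i < N, Pr (q i)) : ∀ i ≤ N, 0 ≤ SS F u q i := by
  intro i hi
  unfold SS
  refine Finset.sum_nonneg fun j hj => ?_
  exact RR_nonneg_L h (hq j (lt_of_lt_of_le (Finset.mem_range.1 hj) hi)).nonneg

private lemma SS_succ_L (q : ℕ → Matrix n n ℂ) (i : ℕ) :
    SS F u q (i + 1) = SS F u q i + RR F u (q i) := by
  unfold SS
  rw [Finset.sum_range_succ]

private lemma GG_conj {v S : Matrix n n ℂ} (hv : v.conjTranspose * v = 1) (hS : 0 ≤ S) :
    GG (v * S * v.conjTranspose) = v * GG S * v.conjTranspose := by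
  have hS' : 0 ≤ v * S * v.conjTranspose := conj_nonneg hS v
  have h1 : (v * GG S * v.conjTranspose) * (1 + v * S * v.conjTranspose) = 1 := by
    calc (v * GG S * v.conjTranspose) * (1 + v * S * v.conjTranspose) =
          v * GG S * v.conjTranspose +
            v * GG S * (v.conjTranspose * v) * S * v.conjTranspose := by noncomm_ring
      _ = v * (GG S * (1 + S)) * v.conjTranspose := by rw [hv]; noncomm_ring
      _ = 1 := by rw [GG_mul hS, mul_one]; exact unit_comm hv
  calc GG (v * S * v.conjTranspose) =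
        ((v * GG S * v.conjTranspose) * (1 + v * S * v.conjTranspose)) *
          GG (v * S * v.conjTranspose) := by rw [h1, one_mul]
    _ = _ := by rw [mul_assoc, mul_GG hS', mul_one]

private lemma comm_bound_L {q Z v : Matrix n n ℂ} (hq : Pr q) (hZ : ‖Z‖ ≤ 1) :
    |rt (Z * (v * q - q * v))| ≤ 2 * (Real.sqrt (rt q) * Real.sqrt (hs (v * q - q * v))) := by
  set c := v * q - q * v with hc
  have e : c = q * c + c * q := by
    rw [hc]
    have h1 : q * (v * q - q * v) + (v * q - q * v) * q =
        v * (q * q) - (q * q) * v := by noncomm_ring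
    rw [h1, hq.2]
  have e2 : rt (Z * c) = rt ((Z * q) * c) + rt ((q * Z) * c) := by
    have h1 : rt (Z * c) = rt (Z * (q * c)) + rt (Z * (c * q)) := by
      rw [← rt_add, ← mul_add, ← e]
    rw [h1, ← mul_assoc Z q c, ← mul_assoc Z c q, rt_cycle Z c q]
  have hq1 : hs (Z * q) ≤ rt q := by
    rw [← hq.hs]
    exact hs_mul_left_le hZ
  have hq2 : hs (q * Z) ≤ rt q := by
    rw [← hq.hs]
    exact hs_mul_right_le hZ
  have b1 := abs_rt_mul_le (Z * q) c
  have b2 := abs_rt_mul_le (q * Z) c
  have b3 := Real.sqrt_le_sqrt hq1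
  have b4 := Real.sqrt_le_sqrt hq2
  have b5 := Real.sqrt_nonneg (hs c)
  rw [e2]
  refine (abs_add_le _ _).trans ?_
  nlinarith

private lemma sqrt_bound_L {ε : ℝ} (hε : 0 < ε) {q : Matrix n n ℂ}
    (hq : QQ F u ε q) : Real.sqrt (rt q * En F u q) ≤ Real.sqrt ε * rt q := by
  have h0 := hq.1.rt_nonneg
  have h1 : rt q * En F u q ≤ ε * (rt q * rt q) := by nlinarith [hq.2.2]
  refine (Real.sqrt_le_sqrt h1).trans (le_of_eq ?_)
  rw [Real.sqrt_mul hε.le, Real.sqrt_mul_self h0]

private lemma dist_v (h : RRFacts F u) (hu : ∀ s, (u s).conjTranspose * u s = 1) {ε : ℝ}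
    (hε : 0 < ε) {q : Matrix n n ℂ} (hq : QQ F u ε q) {s : ι} (hs' : s ∈ F)
    (X : Matrix n n ℂ) (hX : ‖X‖ ≤ 1) :
    |rt (X * (u s * RR F u q * (u s).conjTranspose - RR F u q))| ≤
      4 * (Real.sqrt ε * rt q) := by
  set v := u s with hvd
  set y := RR F u q with hyd
  have hv : v.conjTranspose * v = 1 := hu s
  have hv' := unit_comm hv
  have n1 : ‖v‖ ≤ 1 := norm_unit_le hv
  have n2 : ‖v.conjTranspose‖ ≤ 1 := by
    refine norm_unit_le ?_
    rw [Matrix.conjTranspose_conjTranspose]
    exact hv'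
  have hb := sqrt_bound_L hε hq
  have d1 := (h.dist q hq.1 X hX).trans hb
  have n3 : ‖v.conjTranspose * X‖ ≤ 1 := by
    refine (norm_mul_le _ _).trans ?_
    nlinarith [norm_nonneg v.conjTranspose, norm_nonneg X]
  have n4 : ‖v.conjTranspose * X * v‖ ≤ 1 := by
    refine (norm_mul_le _ _).trans ?_
    nlinarith [norm_nonneg (v.conjTranspose * X), norm_nonneg v]
  have d2 := (h.dist q hq.1 _ n4).trans hb
  have d3 := comm_bound_L (v := v) hq.1 n3
  have d4 : Real.sqrt (rt q) * Real.sqrt (hs (v * q - q * v)) ≤ Real.sqrt ε * rt q := by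
    refine le_trans ?_ hb
    rw [Real.sqrt_mul hq.1.rt_nonneg]
    refine mul_le_mul_of_nonneg_left (Real.sqrt_le_sqrt ?_) (Real.sqrt_nonneg _)
    exact Finset.single_le_sum (f := fun s => hs (u s * q - q * u s)) (fun t _ => hs_nonneg _) hs'
  have e : rt (X * (v * y * v.conjTranspose - y)) = rt (v.conjTranspose * X * v * (y - q)) +
      rt (v.conjTranspose * X * (v * q - q * v)) - rt (X * (y - q)) := by
    have e1 : rt (v.conjTranspose * X * v * (y - q)) =
        rt (X * (v * (y - q) * v.conjTranspose)) := by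
      calc rt (v.conjTranspose * X * v * (y - q)) =
            rt (v.conjTranspose * X * (v * (y - q))) := by simp only [mul_assoc]
        _ = rt (X * (v * (y - q)) * v.conjTranspose) := (rt_cycle _ _ _).symm
        _ = _ := by simp only [mul_assoc]
    have e2 : rt (v.conjTranspose * X * (v * q - q * v)) =
        rt (X * (v * q * v.conjTranspose - q)) := by
      have e3 : v * q * v.conjTranspose - q = (v * q - q * v) * v.conjTranspose := by
        rw [sub_mul, mul_assoc q, hv', mul_one]
      rw [e3, ← mul_assoc X, rt_cycle X]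
    rw [e1, e2, ← rt_add, ← rt_sub]
    congr 1
    noncomm_ring
  rw [e]
  have a1 := abs_sub (rt (v.conjTranspose * X * v * (y - q)) +
      rt (v.conjTranspose * X * (v * q - q * v))) (rt (X * (y - q)))
  have a2 := abs_add_le (rt (v.conjTranspose * X * v * (y - q)))
      (rt (v.conjTranspose * X * (v * q - q * v)))
  linarith

theorem pSumL (hLy : StLy) : StSumL := by
  intro n _ _ ι F u ε q N hF hu h hε hQ s hsF
  have hg1 : (1 : ℝ) ≤ F.card := by exact_mod_cast hF.card_pos
  have hPr : ∀ i < N, Pr (q i) := fun i hi => (hQ i hi).1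
  have hS := SS_nonneg_L h hPr
  set v := u s with hvd
  have hv : v.conjTranspose * v = 1 := hu s
  have hv' := unit_comm hv
  have hC0 : (0 : ℝ) ≤ 6 * F.card := by positivity
  have hC1 : (1 : ℝ) ≤ 6 * F.card := by linarith
  -- `y ≤ 6 g v y v*`
  have hy6 : ∀ i < N, RR F u (q i) ≤
      (6 * F.card : ℝ) • (v * RR F u (q i) * v.conjTranspose) := by
    intro i hi
    have h1 := (h.conj (q i) (hPr i hi).nonneg s hsF).2
    have h2 := conj_mono h1 v
    rw [mul_smul_comm, smul_mul_assoc] at h2
    refine le_trans (le_of_eq ?_) h2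
    calc RR F u (q i) = (v * v.conjTranspose) * RR F u (q i) * (v * v.conjTranspose) := by
          rw [hv', one_mul, mul_one]
      _ = _ := by simp only [mul_assoc, hvd]
  have hS6 : ∀ i ≤ N, SS F u q i ≤ (6 * F.card : ℝ) • (v * SS F u q i * v.conjTranspose) := by
    intro i hi
    unfold SS
    rw [Finset.mul_sum, Finset.sum_mul, Finset.smul_sum]
    exact Finset.sum_le_sum fun j hj => hy6 j (lt_of_lt_of_le (Finset.mem_range.1 hj) hi)
  set Ψ : ℕ → ℝ := fun i => Ly (SS F u q i) (v * SS F u q i * v.conjTranspose) with hΨ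
  have hΨ0 : Ψ 0 = 0 := by
    simp only [hΨ]
    have : SS F u q 0 = 0 := by
      unfold SS
      rw [Finset.range_zero, Finset.sum_empty]
    rw [this, mul_zero, zero_mul]
    unfold Ly
    rw [sub_self, zero_mul, rt_zero]
  have hΨN : 0 ≤ Ψ N := (hLy n _ _ (hS N le_rfl) (conj_nonneg (hS N le_rfl) v)).1
  have hstep : ∀ i ∈ Finset.range N,
      1 / 4 * rt (q i * (Gi F u q i - v * Gi F u q i * v.conjTranspose) *
        (Gi F u q i - v * Gi F u q i * v.conjTranspose)) ≤
      (Ψ i - Ψ (i + 1)) + (6 * F.card + 2) * (4 * (Real.sqrt ε * rt (q i))) := by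
    intro i hi
    have hi' := Finset.mem_range.1 hi
    have hSi := hS i hi'.le
    have hyq := h.half (q i) (hPr i hi').nonneg
    have hy := RR_nonneg_L h (hPr i hi').nonneg
    have hy1 := h.le_one (q i) (hPr i hi').nonneg (hPr i hi').le_one
    set S := SS F u q i with hSd
    set y := RR F u (q i) with hyd
    have hvS : 0 ≤ v * S * v.conjTranspose := conj_nonneg hSi v
    have hvy : 0 ≤ v * y * v.conjTranspose := conj_nonneg hy v
    have e1 : Ψ (i + 1) = Ly (S + y) (v * S * v.conjTranspose + v * y * v.conjTranspose) := by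
      simp only [hΨ]
      rw [SS_succ_L]
      congr 1
      rw [mul_add, add_mul]
    have m1 : (1 : Matrix n n ℂ) ≤ (6 * F.card : ℝ) • 1 := by
      have := smul_mono_left hC1 (zero_le_one : (0 : Matrix n n ℂ) ≤ 1)
      rwa [one_smul] at this
    have m2 : y ≤ (6 * F.card : ℝ) • y := by
      have := smul_mono_left hC1 hy
      rwa [one_smul] at this
    have k1 : 1 + (S + y) ≤ (6 * F.card : ℝ) • (1 + (v * S * v.conjTranspose + y)) := by
      rw [smul_add, smul_add]
      exact add_le_add m1 (add_le_add (hS6 i hi'.le) m2)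
    have k2 : 1 + (S + y) ≤ (6 * F.card : ℝ) •
        (1 + (v * S * v.conjTranspose + v * y * v.conjTranspose)) := by
      rw [smul_add, smul_add]
      exact add_le_add m1 (add_le_add (hS6 i hi'.le) (hy6 i hi'))
    have h3 := (hLy n (S + y) (v * S * v.conjTranspose + y) (add_nonneg hSi hy)
      (add_nonneg hvS hy)).2.2 (v * S * v.conjTranspose + v * y * v.conjTranspose)
      (6 * F.card) (4 * (Real.sqrt ε * rt (q i))) (add_nonneg hvS hvy) hC0 k1 k2 (by
        intro X hX
        rw [add_sub_add_left_eq_sub]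
        exact dist_v h hu hε (hQ i hi') hsF X hX)
    have h2 := (hLy n S (v * S * v.conjTranspose) hSi hvS).2.1 y hy hy1
    have e2 : Ψ i = Ly S (v * S * v.conjTranspose) := rfl
    rw [GG_conj hv hSi] at h2
    have hGh : (GG S).conjTranspose = GG S := GG_herm hSi
    set Δ := GG S - v * GG S * v.conjTranspose with hΔ
    have hΔh : Δ.conjTranspose = Δ := by
      rw [hΔ, Matrix.conjTranspose_sub, Matrix.conjTranspose_mul, Matrix.conjTranspose_mul,
        Matrix.conjTranspose_conjTranspose, hGh, mul_assoc]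
    have hΔ2 : 0 ≤ Δ * Δ := by
      have := nonneg_star_mul Δ
      rwa [hΔh] at this
    have e3 : y * (v * GG S * v.conjTranspose - GG S) * (v * GG S * v.conjTranspose - GG S) =
        y * (Δ * Δ) := by
      rw [hΔ]; noncomm_ring
    have e4 : q i * (Gi F u q i - v * Gi F u q i * v.conjTranspose) *
        (Gi F u q i - v * Gi F u q i * v.conjTranspose) = q i * (Δ * Δ) := by
      rw [mul_assoc]
      rfl
    rw [e3] at h2
    have h5 := rt_mul_mono hyq hΔ2
    rw [smul_mul_assoc, rt_smul] at h5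
    rw [e4, e1, e2]
    linarith
  have hsum := Finset.sum_le_sum hstep
  rw [← Finset.mul_sum, Finset.sum_add_distrib, Finset.sum_range_sub', ← Finset.mul_sum,
    ← Finset.mul_sum, ← Finset.mul_sum, hΨ0] at hsum
  have hτ : 0 ≤ ∑ i ∈ Finset.range N, rt (q i) :=
    Finset.sum_nonneg fun i hi => (hPr i (Finset.mem_range.1 hi)).rt_nonneg
  have hse := Real.sqrt_nonneg ε
  have hprod : 0 ≤ Real.sqrt ε * ∑ i ∈ Finset.range N, rt (q i) := mul_nonneg hse hτ
  nlinarith

end SumL

end Helper61.IE
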