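import Pool.Agent.Helper61.IE.St

/-!
# IE module SumP: potential sum
-/

namespace Helper61.IE

open Helper51.MU
open scoped Matrix.Norms.L2Operator MatrixOrder ComplexOrder

section SumP

variable {n : Type} [Fintype n] [DecidableEq n] {ι : Type} {F : Finset ι}
  {u : ι → Matrix n n ℂ}

private lemma RR_nonneg_P (h : RRFacts F u) {q : Matrix n n ℂ} (hq : 0 ≤ q) : 0 ≤ RR F u q :=
  (smul_nonneg_real (by norm_num) hq).trans (h.half q hq)

private lemma SS_nonneg_P (h : RRFacts F u) {q : ℕ → Matrix n n ℂ} {N : ℕ}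
    (hq : ∀ i < N, Pr (q i)) : ∀ i ≤ N, 0 ≤ SS F u q i := by
  intro i hi
  unfold SS
  refine Finset.sum_nonneg fun j hj => ?_
  exact RR_nonneg_P h (hq j (lt_of_lt_of_le (Finset.mem_range.1 hj) hi)).nonneg

private lemma SS_succ_P (q : ℕ → Matrix n n ℂ) (i : ℕ) :
    SS F u q (i + 1) = SS F u q i + RR F u (q i) := by
  unfold SS
  rw [Finset.sum_range_succ]

private lemma dist_P (h : RRFacts F u) {ε : ℝ} (hε : 0 < ε) {q : Matrix n n ℂ}
    (hq : QQ F u ε q) (X : Matrix n n ℂ) (hX : ‖X‖ ≤ 1) :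
    |rt (X * (RR F u q - q))| ≤ Real.sqrt ε * rt q := by
  refine (h.dist q hq.1 X hX).trans ?_
  have h0 := hq.1.rt_nonneg
  have h1 : rt q * En F u q ≤ ε * (rt q * rt q) := by nlinarith [hq.2.2]
  refine (Real.sqrt_le_sqrt h1).trans (le_of_eq ?_)
  rw [Real.sqrt_mul hε.le, Real.sqrt_mul_self h0]

theorem pSumP (hA : StPotA) (hB : StPotB) : StSumP := by
  intro n _ _ ι F u ε q N hF hu h hε hQ
  obtain ⟨hB1, hB2, hB3⟩ := hB n
  have hPr : ∀ i < N, Pr (q i) := fun i hi => (hQ i hi).1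
  have hS := SS_nonneg_P h hPr
  have hstep : ∀ i ∈ Finset.range N, rt (q i * Hi F u q i) ≤
      (PotE (Hi F u q i) - PotE (Hi F u q (i + 1))) +
        (100 * rt (q i * Hi F u q i * Hi F u q i) + 21 * Real.sqrt ε * rt (q i)) := by
    intro i hi
    have hi' := Finset.mem_range.1 hi
    have h1 := hA n (SS F u q i) (q i) (hS i hi'.le) (hPr i hi')
    have h2 := hB1 (SS F u q i) (q i) (RR F u (q i)) (Real.sqrt ε * rt (q i)) (hS i hi'.le)
      (hPr i hi').nonneg (RR_nonneg_P h (hPr i hi').nonneg) (dist_P h hε (hQ i hi'))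
    rw [← SS_succ_P] at h2
    have e1 : 1 - GG (SS F u q i) = Hi F u q i := rfl
    have e2 : 1 - GG (SS F u q (i + 1)) = Hi F u q (i + 1) := rfl
    rw [e1] at h1
    rw [e2] at h2
    linarith
  have h0 : PotE (Hi F u q 0) = 0 := by
    have : Hi F u q 0 = 0 := by
      unfold Hi Gi SS
      rw [Finset.range_zero, Finset.sum_empty, GG_zero, sub_self]
    rw [this, hB3]
  have hN : 0 ≤ PotE (Hi F u q N) := hB2 _ (one_sub_GG_nonneg (hS N le_rfl))
  refine (Finset.sum_le_sum hstep).trans ?_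
  rw [Finset.sum_add_distrib, Finset.sum_range_sub', Finset.sum_add_distrib, ← Finset.mul_sum,
    ← Finset.mul_sum, h0]
  linarith

end SumP

end Helper61.IE
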