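import Pool.Agent.Helper61.IE.St

/-!
# Module TT: facts about the averaging operator
-/

set_option linter.unusedSectionVars false

namespace Helper61.IE

open Helper51.MU
open scoped Matrix.Norms.L2Operator MatrixOrder ComplexOrder

section TTmod

variable {n : Type} [Fintype n] [DecidableEq n] {ι : Type}

private lemma tt_apply (F : Finset ι) (u : ι → Matrix n n ℂ) (y : Matrix n n ℂ) :
    TT F u y = (1 / 2 : ℝ) • y + (1 / (4 * F.card) : ℝ) •
    ∑ s ∈ F, (u s * y * (u s).conjTranspose + (u s).conjTranspose * y * u s) := rfl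

private lemma tt_succ (F : Finset ι) (u : ι → Matrix n n ℂ) (k : ℕ) (y : Matrix n n ℂ) :
    (TT F u ^ (k + 1)) y = (TT F u ^ k) (TT F u y) := by
  rw [pow_succ, Module.End.mul_apply]

private lemma tt_succ' (F : Finset ι) (u : ι → Matrix n n ℂ) (k : ℕ) (y : Matrix n n ℂ) :
    (TT F u ^ (k + 1)) y = TT F u ((TT F u ^ k) y) := by
  rw [pow_succ', Module.End.mul_apply]

private lemma tt_nonneg (F : Finset ι) (u : ι → Matrix n n ℂ) (y : Matrix n n ℂ) (hy : 0 ≤ y) :
    0 ≤ TT F u y := by
  rw [tt_apply]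
  refine add_nonneg (smul_nonneg_real (by norm_num) hy) (smul_nonneg_real (by positivity) ?_)
  exact Finset.sum_nonneg fun s _ => add_nonneg (conj_nonneg hy _) (conj_nonneg' hy _)

private lemma tt_one (F : Finset ι) (u : ι → Matrix n n ℂ) (hF : F.Nonempty)
    (hu : ∀ s, (u s).conjTranspose * u s = 1) : TT F u 1 = 1 := by
  rw [tt_apply]
  have h1 : ∀ s ∈ F, u s * 1 * (u s).conjTranspose + (u s).conjTranspose * 1 * u s =
      (2 : ℝ) • (1 : Matrix n n ℂ) := by
    intro s _
    rw [mul_one, mul_one, unit_comm (hu s), hu s, two_smul]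
  have hg : (F.card : ℝ) ≠ 0 := by
    have := hF.card_pos
    positivity
  rw [Finset.sum_congr rfl h1, Finset.sum_const, ← Nat.cast_smul_eq_nsmul ℝ, smul_smul, smul_smul,
    ← add_smul]
  have e : (1 / 2 + 1 / (4 * (F.card : ℝ)) * ((F.card : ℝ) * 2) : ℝ) = 1 := by
    field_simp
    norm_num
  have e' : (1 / 2 + 1 / (4 * (F.card : ℝ)) * (F.card : ℝ) * 2 : ℝ) = 1 := by
    rw [mul_assoc]
    exact e
  first
  | rw [e, one_smul]
  | rw [e', one_smul]

private lemma tt_tr (F : Finset ι) (u : ι → Matrix n n ℂ) (hF : F.Nonempty)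
    (hu : ∀ s, (u s).conjTranspose * u s = 1) (y : Matrix n n ℂ) : rt (TT F u y) = rt y := by
  rw [tt_apply, rt_add, rt_smul, rt_smul, rt_sum]
  have h1 : ∀ s ∈ F, rt (u s * y * (u s).conjTranspose + (u s).conjTranspose * y * u s) =
      2 * rt y := by
    intro s _
    rw [rt_add, rt_cycle, hu s, one_mul, rt_cycle (u s).conjTranspose, unit_comm (hu s), one_mul]
    ring
  have hg : (F.card : ℝ) ≠ 0 := by
    have := hF.card_pos
    positivity
  rw [Finset.sum_congr rfl h1, Finset.sum_const, nsmul_eq_mul]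
  field_simp
  ring

private lemma tt_symm (F : Finset ι) (u : ι → Matrix n n ℂ) (x y : Matrix n n ℂ) :
    rt (x * TT F u y) = rt (TT F u x * y) := by
  rw [tt_apply, tt_apply, mul_add, add_mul, rt_add, rt_add, mul_smul_comm, smul_mul_assoc,
    mul_smul_comm, smul_mul_assoc, rt_smul, rt_smul, rt_smul, Finset.mul_sum,
    Finset.sum_mul, rt_sum, rt_sum]
  congr 2
  refine Finset.sum_congr rfl fun s _ => ?_
  rw [mul_add, add_mul, rt_add, rt_add]
  have e1 : rt (x * (u s * y * (u s).conjTranspose)) = rt ((u s).conjTranspose * x * u s * y) := by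
    rw [← mul_assoc, ← mul_assoc, rt_mul_comm]
    congr 1
    noncomm_ring
  have e2 : rt (x * ((u s).conjTranspose * y * u s)) = rt (u s * x * (u s).conjTranspose * y) := by
    rw [← mul_assoc, ← mul_assoc, rt_mul_comm]
    congr 1
    noncomm_ring
  rw [e1, e2, add_comm]

private lemma tt_star (F : Finset ι) (u : ι → Matrix n n ℂ) (y : Matrix n n ℂ) :
    (TT F u y).conjTranspose = TT F u y.conjTranspose := by
  rw [tt_apply, tt_apply, Matrix.conjTranspose_add, Matrix.conjTranspose_smul,
    Matrix.conjTranspose_smul, Matrix.conjTranspose_sum]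
  simp only [star_trivial]
  congr 2
  refine Finset.sum_congr rfl fun s _ => ?_
  simp only [Matrix.conjTranspose_add, Matrix.conjTranspose_mul, Matrix.conjTranspose_conjTranspose,
    mul_assoc]

private lemma tt_norm (F : Finset ι) (u : ι → Matrix n n ℂ) (hF : F.Nonempty)
    (hu : ∀ s, (u s).conjTranspose * u s = 1) (y : Matrix n n ℂ) : ‖TT F u y‖ ≤ ‖y‖ := by
  rw [tt_apply]
  have hg : (0 : ℝ) < F.card := by
    have := hF.card_pos
    positivity
  have hn : ∀ s, ‖u s‖ ≤ 1 := fun s => norm_unit_le (hu s)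
  have hn' : ∀ s, ‖(u s).conjTranspose‖ ≤ 1 := fun s => by
    have : ‖(u s).conjTranspose‖ = ‖u s‖ := norm_star (u s)
    rw [this]
    exact hn s
  have h1 : ∀ s ∈ F, ‖u s * y * (u s).conjTranspose + (u s).conjTranspose * y * u s‖ ≤ 2 * ‖y‖ := by
    intro s _
    have h2 : ‖u s * y * (u s).conjTranspose‖ ≤ ‖y‖ := by
      calc ‖u s * y * (u s).conjTranspose‖ ≤ ‖u s‖ * ‖y‖ * ‖(u s).conjTranspose‖ :=
            (norm_mul_le _ _).trans (mul_le_mul_of_nonneg_right (norm_mul_le _ _) (norm_nonneg _))
        _ ≤ 1 * ‖y‖ * 1 := by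
            gcongr
            · exact hn s
            · exact hn' s
        _ = ‖y‖ := by ring
    have h3 : ‖(u s).conjTranspose * y * u s‖ ≤ ‖y‖ := by
      calc ‖(u s).conjTranspose * y * u s‖ ≤ ‖(u s).conjTranspose‖ * ‖y‖ * ‖u s‖ :=
            (norm_mul_le _ _).trans (mul_le_mul_of_nonneg_right (norm_mul_le _ _) (norm_nonneg _))
        _ ≤ 1 * ‖y‖ * 1 := by
            gcongr
            · exact hn' s
            · exact hn s
        _ = ‖y‖ := by ring
    calc _ ≤ ‖u s * y * (u s).conjTranspose‖ + ‖(u s).conjTranspose * y * u s‖ := norm_add_le _ _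
      _ ≤ 2 * ‖y‖ := by linarith
  have h2 : ‖∑ s ∈ F, (u s * y * (u s).conjTranspose + (u s).conjTranspose * y * u s)‖ ≤
      F.card * (2 * ‖y‖) := by
    refine (norm_sum_le _ _).trans ((Finset.sum_le_sum h1).trans ?_)
    rw [Finset.sum_const, nsmul_eq_mul]
  calc _ ≤ ‖(1 / 2 : ℝ) • y‖ + ‖(1 / (4 * F.card) : ℝ) •
        ∑ s ∈ F, (u s * y * (u s).conjTranspose + (u s).conjTranspose * y * u s)‖ := norm_add_le _ _
    _ = 1 / 2 * ‖y‖ + 1 / (4 * F.card) *
        ‖∑ s ∈ F, (u s * y * (u s).conjTranspose + (u s).conjTranspose * y * u s)‖ := by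
        rw [norm_smul, norm_smul, Real.norm_of_nonneg (by norm_num),
          Real.norm_of_nonneg (by positivity)]
    _ ≤ 1 / 2 * ‖y‖ + 1 / (4 * F.card) * (F.card * (2 * ‖y‖)) := by gcongr
    _ = ‖y‖ := by
        field_simp
        ring

private lemma hs_smul_real (c : ℝ) (x : Matrix n n ℂ) : hs (c • x) = c ^ 2 * hs x := by
  have h1 : (c • x : Matrix n n ℂ) = ((c : ℂ)) • x := by
    ext i j
    simp
  rw [h1, hs_smul]
  simp

private lemma sqrt_hs_sum_le (F : Finset ι) (f : ι → Matrix n n ℂ) :
    Real.sqrt (hs (∑ s ∈ F, f s)) ≤ ∑ s ∈ F, Real.sqrt (hs (f s)) := by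
  classical
  induction F using Finset.induction_on with
  | empty => simp [hs_zero]
  | insert a F ha ih =>
    rw [Finset.sum_insert ha, Finset.sum_insert ha]
    exact (sqrt_hs_add_le _ _).trans (by linarith)

private lemma sqrt_hs_smul (c : ℝ) (hc : 0 ≤ c) (x : Matrix n n ℂ) :
    Real.sqrt (hs (c • x)) = c * Real.sqrt (hs x) := by
  rw [hs_smul_real, Real.sqrt_mul (by positivity), Real.sqrt_sq hc]

private lemma tt_hs (F : Finset ι) (u : ι → Matrix n n ℂ) (hF : F.Nonempty)
    (hu : ∀ s, (u s).conjTranspose * u s = 1) (y : Matrix n n ℂ) : hs (TT F u y) ≤ hs y := by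
  have hg : (0 : ℝ) < F.card := by
    have := hF.card_pos
    positivity
  have key : Real.sqrt (hs (TT F u y)) ≤ Real.sqrt (hs y) := by
    rw [tt_apply]
    have h1 : ∀ s ∈ F, Real.sqrt (hs (u s * y * (u s).conjTranspose +
        (u s).conjTranspose * y * u s)) ≤ 2 * Real.sqrt (hs y) := by
      intro s _
      have hv : (u s).conjTranspose.conjTranspose * (u s).conjTranspose = 1 := by
        rw [Matrix.conjTranspose_conjTranspose]
        exact unit_comm (hu s)
      have h2 : hs (u s * y * (u s).conjTranspose) = hs y := by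
        rw [hs_mul_unit hv, hs_unit_mul (hu s)]
      have h3 : hs ((u s).conjTranspose * y * u s) = hs y := by
        rw [hs_mul_unit (hu s), hs_unit_mul hv]
      have h4 := sqrt_hs_add_le (u s * y * (u s).conjTranspose) ((u s).conjTranspose * y * u s)
      rw [h2, h3] at h4
      linarith
    have h2 := (sqrt_hs_sum_le F fun s => u s * y * (u s).conjTranspose +
        (u s).conjTranspose * y * u s).trans (Finset.sum_le_sum h1)
    rw [Finset.sum_const, nsmul_eq_mul] at h2
    calc _ ≤ Real.sqrt (hs ((1 / 2 : ℝ) • y)) + Real.sqrt (hs ((1 / (4 * F.card) : ℝ) •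
          ∑ s ∈ F, (u s * y * (u s).conjTranspose + (u s).conjTranspose * y * u s))) :=
          sqrt_hs_add_le _ _
      _ = 1 / 2 * Real.sqrt (hs y) + 1 / (4 * F.card) * Real.sqrt (hs
          (∑ s ∈ F, (u s * y * (u s).conjTranspose + (u s).conjTranspose * y * u s))) := by
          rw [sqrt_hs_smul _ (by norm_num), sqrt_hs_smul _ (by positivity)]
      _ ≤ 1 / 2 * Real.sqrt (hs y) + 1 / (4 * F.card) * (F.card * (2 * Real.sqrt (hs y))) := by
          gcongr
      _ = Real.sqrt (hs y) := by
          field_simp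
          ring
  exact (Real.sqrt_le_sqrt_iff (hs_nonneg y)).1 key

end TTmod

theorem pTT : StTT := by
  intro n _ _ ι F u hF hu
  refine ⟨?_, ?_, ?_, ?_, ?_, ?_, ?_⟩
  · intro k
    induction k with
    | zero => intro y hy; simpa using hy
    | succ k ih => intro y hy; rw [tt_succ]; exact ih _ (tt_nonneg F u y hy)
  · intro k
    induction k with
    | zero => simp
    | succ k ih => rw [tt_succ, tt_one F u hF hu, ih]
  · intro k
    induction k with
    | zero => intro y; simp
    | succ k ih => intro y; rw [tt_succ, ih, tt_tr F u hF hu]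
  · intro k
    induction k with
    | zero => intro x y; simp
    | succ k ih => intro x y; rw [tt_succ, ih, tt_symm, ← tt_succ']
  · intro k
    induction k with
    | zero => intro y; simp
    | succ k ih => intro y; rw [tt_succ, ih, tt_star, ← tt_succ]
  · intro k
    induction k with
    | zero => intro y; simp
    | succ k ih => intro y; rw [tt_succ]; exact (ih _).trans (tt_norm F u hF hu y)
  · intro k
    induction k with
    | zero => intro y; simp
    | succ k ih => intro y; rw [tt_succ]; exact (ih _).trans (tt_hs F u hF hu y)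

end Helper61.IE
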