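import Pool.Agent.Helper61.IE.St

/-!
# Module Typ
-/

namespace Helper61.IE

open Helper51.MU
open scoped Matrix.Norms.L2Operator MatrixOrder ComplexOrder

theorem pTyp (hSand : StSand) : StTyp := by
  intro n _ _ ι F S u H q z K k hu hK hH0 hH1 hq hz hzq h1 h2 h3
  have hG0 : (0 : Matrix n n ℂ) ≤ 1 - H := sub_nonneg.2 hH1
  have hG1 : (1 - H : Matrix n n ℂ) ≤ 1 := sub_le_self _ hH0
  have key : En S u ((1 - H) * z * (1 - H)) ≤
      6 * ∑ s ∈ S, rt (q * ((1 - H) - u s * (1 - H) * (u s).conjTranspose) *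
        ((1 - H) - u s * (1 - H) * (u s).conjTranspose)) + 3 * En S u z := by
    unfold En
    rw [Finset.mul_sum, Finset.mul_sum, ← Finset.sum_add_distrib]
    exact Finset.sum_le_sum fun s _ => hSand n (u s) (1 - H) q z (hu s) hG0 hG1 hq hz hzq
  have hK0 : 0 ≤ K := by linarith
  have key2 := mul_le_mul_of_nonneg_left key hK0
  rw [mul_add] at key2
  have e1 : ∀ t : ℝ, K * (6 * t) = 6 * K * t := fun t => by ring
  have e2 : ∀ t : ℝ, K * (3 * t) = 3 * K * t := fun t => by ring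
  rw [e1, e2] at key2
  have e3 : (1 / 10 ^ 26 : ℝ) ^ 2 * rt q = (1 / 10 ^ 26) ^ 2 / 4 * rt q +
      (1 / 10 ^ 26) ^ 2 / 4 * rt q + (1 / 10 ^ 26) ^ 2 / 2 * rt q := by ring
  rw [e3]
  linarith

end Helper61.IE
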