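import Pool.Agent.Helper61.IE.St2
import Pool.Agent.Helper61.IE.Lib2

/-!
# The module TypBlock: typical blocks have the right trace functional
-/

set_option linter.unusedSectionVars false

namespace Helper61.IE

open Helper51.MU Filter Topology
open scoped Matrix.Norms.L2Operator MatrixOrder ComplexOrder

variable {n : Type} [Fintype n] [DecidableEq n] {ι : Type}

/-- `|Tr (Z X)| ≤ ‖X‖ Tr Z`. -/
lemma norm_trace_le_of_nonneg {Z X : Matrix n n ℂ} (hZ : 0 ≤ Z) (hX : ‖X‖ ≤ 1) :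
    ‖Matrix.trace (Z * X)‖ ≤ rt Z := by
  obtain ⟨C, hC, rfl⟩ := exists_sqrt hZ
  have h1 : Matrix.trace (C * C * X) = Matrix.trace (C * (X * C)) := by
    rw [Matrix.trace_mul_comm, ← mul_assoc, Matrix.trace_mul_comm]
  rw [h1]
  refine (norm_trace_mul_le _ _).trans ?_
  have h2 : Real.sqrt (hs (X * C)) ≤ Real.sqrt (hs C) := Real.sqrt_le_sqrt (hs_mul_left_le hX)
  have h3 : Real.sqrt (hs C) * Real.sqrt (hs C) = rt (C * C) := by
    rw [Real.mul_self_sqrt (hs_nonneg C), hs_eq_rt, herm_of_nonneg hC]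
  rw [← h3]
  gcongr

/-- The trace against a bounded positive matrix in terms of the 2-norm. -/
lemma norm_trace_le_sqrt {Z X : Matrix n n ℂ} {C : ℝ} (hC : 0 ≤ C) (hZ : 0 ≤ Z)
    (hZC : Z ≤ C • 1) : ‖Matrix.trace (Z * X)‖ ≤ C * Fintype.card n * Real.sqrt (nn X) := by
  refine (norm_trace_mul_le _ _).trans ?_
  have h1 : ‖Z‖ ≤ C := norm_le_of_nonneg hC hZ hZC
  have h2 : hs Z ≤ C ^ 2 * Fintype.card n := by
    have := hs_mul_le_left Z 1
    rw [mul_one] at this
    have h3 : hs (1 : Matrix n n ℂ) = Fintype.card n := by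
      rw [Pr.one.hs]; simp [rt]
    rw [h3] at this
    refine this.trans ?_
    gcongr
  have h3 : hs X = Fintype.card n * nn X := by
    unfold nn
    rcases Nat.eq_zero_or_pos (Fintype.card n) with h | h
    · have : IsEmpty n := Fintype.card_eq_zero_iff.1 h
      have : X = 0 := Subsingleton.elim _ _
      rw [this, hs_zero]; simp
    · have : (Fintype.card n : ℝ) ≠ 0 := by exact_mod_cast h.ne'
      field_simp
  calc Real.sqrt (hs Z) * Real.sqrt (hs X) ≤
      Real.sqrt (C ^ 2 * Fintype.card n) * Real.sqrt (Fintype.card n * nn X) := by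
        rw [← h3]; gcongr
    _ = C * Fintype.card n * Real.sqrt (nn X) := by
        rw [Real.sqrt_mul (by positivity), Real.sqrt_mul (by positivity), Real.sqrt_sq hC]
        have := Real.mul_self_sqrt (show (0 : ℝ) ≤ Fintype.card n by positivity)
        calc C * Real.sqrt (Fintype.card n) * (Real.sqrt (Fintype.card n) * Real.sqrt (nn X)) =
            C * (Real.sqrt (Fintype.card n) * Real.sqrt (Fintype.card n)) * Real.sqrt (nn X) := by
              ring
          _ = _ := by rw [this]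

lemma exists_lim_real {V : Ultrafilter ℕ} {f : ℕ → ℝ} {a b : ℝ} (h : ∀ n, f n ∈ Set.Icc a b) :
    ∃ c ∈ Set.Icc a b, Tendsto f V (𝓝 c) := by
  have h1 : Tendsto f V (𝓟 (Set.Icc a b)) :=
    Filter.tendsto_principal.2 (Filter.Eventually.of_forall h)
  obtain ⟨c, hc, hc'⟩ := isCompact_Icc.ultrafilter_le_nhds (V.map f) (by
    rw [Ultrafilter.coe_map]; exact h1)
  exact ⟨c, hc, hc'⟩

lemma nn_unit_mul {v : Matrix n n ℂ} (hv : v.conjTranspose * v = 1) (A : Matrix n n ℂ) :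
    nn (v * A) = nn A := by
  unfold nn; rw [hs_unit_mul hv]

lemma nn_mul_unit {v : Matrix n n ℂ} (hv : v.conjTranspose * v = 1) (A : Matrix n n ℂ) :
    nn (A * v) = nn A := by
  unfold nn; rw [hs_mul_unit hv]

lemma unit_star {v : Matrix n n ℂ} (hv : v.conjTranspose * v = 1) :
    v.conjTranspose.conjTranspose * v.conjTranspose = 1 := by
  rw [Matrix.conjTranspose_conjTranspose]; exact unit_comm hv

section limits

variable {G : Type} [Group G] {χ : G → ℂ} {l : ℕ → ℕ} {V : Ultrafilter ℕ}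
  {π : ∀ n, G → Matrix (Fin (l n)) (Fin (l n)) ℂ}

/-- `π (x⁻¹ y) ≈ π(x)ᴴ π(y)`. -/
lemma tendsto_inv_mul (hπ : ∀ n g, (π n g).conjTranspose * π n g = 1) (hA : AHom χ l V π)
    (x y : G) : Tendsto (fun n => nn (π n (x⁻¹ * y) - (π n x).conjTranspose * π n y)) V (𝓝 0) := by
  refine (hA.mul x (x⁻¹ * y)).congr fun n => ?_
  rw [mul_inv_cancel_left]
  rw [← nn_unit_mul (unit_star (hπ n x)), mul_sub, ← mul_assoc, hπ, one_mul]

/-- `π (h g h⁻¹) ≈ π(h) π(g) π(h)ᴴ`. -/
lemma tendsto_conj (hπ : ∀ n g, (π n g).conjTranspose * π n g = 1) (hA : AHom χ l V π)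
    (g h : G) : Tendsto (fun n => nn (π n (h * g * h⁻¹) -
      π n h * π n g * (π n h).conjTranspose)) V (𝓝 0) := by
  have h1 := hA.mul (h * g * h⁻¹) h
  have h2 := hA.mul h g
  have h3 : Tendsto (fun n => 2 * nn (π n (h * g * h⁻¹) * π n h - π n (h * g * h⁻¹ * h)) +
      2 * nn (π n h * π n g - π n (h * g))) V (𝓝 0) := by
    simpa using (h1.const_mul 2).add (h2.const_mul 2)
  refine squeeze_zero (fun n => nn_nonneg _) (fun n => ?_) h3
  have h4 : π n (h * g * h⁻¹) - π n h * π n g * (π n h).conjTranspose =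
      ((π n (h * g * h⁻¹) * π n h - π n (h * g * h⁻¹ * h)) +
        -(π n h * π n g - π n (h * g))) * (π n h).conjTranspose := by
    rw [inv_mul_cancel_right, add_mul, sub_mul, neg_mul, sub_mul,
      mul_assoc (π n (h * g * h⁻¹)), unit_comm (hπ n h), mul_one]
    abel
  rw [h4, nn_mul_unit (unit_star (hπ n h))]
  refine (nn_add_le _ _).trans ?_
  rw [nn_neg]

lemma tendsto_one (hπ : ∀ n g, (π n g).conjTranspose * π n g = 1) (hA : AHom χ l V π) :
    Tendsto (fun n => nn (π n (1 : G) - 1)) V (𝓝 0) := by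
  refine (hA.mul 1 1).congr fun n => ?_
  rw [mul_one, ← nn_unit_mul (unit_star (hπ n 1)), mul_sub, ← mul_assoc, hπ, one_mul]

/-- Weighted trace functionals: errors. -/
lemma tendsto_weight_zero {w X : ∀ n, Matrix (Fin (l n)) (Fin (l n)) ℂ} {c : ℝ} (hc : 0 < c)
    (hw0 : ∀ n, 0 ≤ w n) (hw1 : ∀ n, w n ≤ (16 : ℝ) • 1)
    (hwc : ∀ᶠ n in (V : Filter ℕ), c * l n ≤ rt (w n)) (hl : ∀ᶠ n in (V : Filter ℕ), 0 < l n)
    (hX : Tendsto (fun n => nn (X n)) V (𝓝 0)) :
    Tendsto (fun n => Matrix.trace (w n * X n) / (rt (w n) : ℂ)) V (𝓝 0) := by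
  have h1 : Tendsto (fun n => 16 / c * Real.sqrt (nn (X n))) V (𝓝 0) := by
    have := (Real.continuous_sqrt.tendsto 0).comp hX
    rw [Real.sqrt_zero] at this
    simpa using this.const_mul (16 / c)
  refine squeeze_zero_norm' ?_ h1
  filter_upwards [hwc, hl] with n h2 h3
  have hl0 : (0 : ℝ) < l n := by exact_mod_cast h3
  have hr : 0 < rt (w n) := lt_of_lt_of_le (by positivity) h2
  rw [norm_div, Complex.norm_real, Real.norm_of_nonneg hr.le, div_le_iff₀ hr]
  have h4 := norm_trace_le_sqrt (X := X n) (by norm_num) (hw0 n) (hw1 n)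
  rw [Fintype.card_fin] at h4
  refine h4.trans ?_
  have h5 : 16 * (l n : ℝ) * Real.sqrt (nn (X n)) =
      16 / c * Real.sqrt (nn (X n)) * (c * l n) := by field_simp
  rw [h5]
  gcongr

/-- The limit of weighted trace functionals is positive definite. -/
lemma weight_limit (hπ : ∀ n g, (π n g).conjTranspose * π n g = 1) (hA : AHom χ l V π)
    {w : ∀ n, Matrix (Fin (l n)) (Fin (l n)) ℂ} {c : ℝ} (hc : 0 < c)
    (hw0 : ∀ n, 0 ≤ w n) (hw1 : ∀ n, w n ≤ (16 : ℝ) • 1)
    (hwc : ∀ᶠ n in (V : Filter ℕ), c * l n ≤ rt (w n)) (hl : ∀ᶠ n in (V : Filter ℕ), 0 < l n) :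
    ∃ φ : G → ℂ, (∀ g, Tendsto (fun n => Matrix.trace (w n * π n g) / (rt (w n) : ℂ)) V
      (𝓝 (φ g))) ∧ IsPD φ := by
  have hex : ∀ g, ∃ a, Tendsto (fun n => Matrix.trace (w n * π n g) / (rt (w n) : ℂ)) V (𝓝 a) := by
    intro g
    refine exists_lim ⟨1, fun n => ?_⟩
    have h1 := norm_trace_le_of_nonneg (hw0 n) (norm_unit_le (hπ n g))
    have h2 := rt_nonneg (hw0 n)
    rw [norm_div, Complex.norm_real, Real.norm_of_nonneg h2]
    exact div_le_one_of_le₀ h1 h2
  choose φ hφ using hex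
  refine ⟨φ, hφ, ?_, ?_⟩
  · have h1 := tendsto_weight_zero hc hw0 hw1 hwc hl (tendsto_one hπ hA)
    have h2 := (hφ 1).sub h1
    rw [sub_zero] at h2
    refine tendsto_nhds_unique h2 ?_
    refine Tendsto.congr' ?_ tendsto_const_nhds
    filter_upwards [hwc, hl] with n h3 h4
    have hl0 : (0 : ℝ) < l n := by exact_mod_cast h4
    have hr : 0 < rt (w n) := lt_of_lt_of_le (by positivity) h3
    have hr' : (rt (w n) : ℂ) ≠ 0 := by exact_mod_cast hr.ne'
    have h5 : Matrix.trace (w n) = (rt (w n) : ℂ) := by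
      have := (psd (hw0 n)).trace_nonneg
      rw [RCLike.nonneg_iff] at this
      apply Complex.ext
      · rfl
      · simpa using this.2
    rw [mul_sub, mul_one, Matrix.trace_sub, sub_div, sub_sub_cancel, h5, div_self hr']
  · intro m a x
    have h1 : Tendsto (fun n => ∑ i, ∑ k, star (a i) * a k *
        (Matrix.trace (w n * π n ((x i)⁻¹ * x k)) / (rt (w n) : ℂ))) V
        (𝓝 (∑ i, ∑ k, star (a i) * a k * φ ((x i)⁻¹ * x k))) :=
      tendsto_finsetSum _ fun i _ => tendsto_finsetSum _ fun k _ => (hφ _).const_mul _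
    have h2 : Tendsto (fun n => ∑ i, ∑ k, star (a i) * a k *
        (Matrix.trace (w n * (π n ((x i)⁻¹ * x k) - (π n (x i)).conjTranspose * π n (x k))) /
          (rt (w n) : ℂ))) V (𝓝 (∑ i : Fin m, ∑ k : Fin m, star (a i) * a k * 0)) :=
      tendsto_finsetSum _ fun i _ => tendsto_finsetSum _ fun k _ =>
        (tendsto_weight_zero hc hw0 hw1 hwc hl (tendsto_inv_mul hπ hA _ _)).const_mul _
    simp only [mul_zero, Finset.sum_const_zero] at h2
    have h3 := h1.sub h2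
    rw [sub_zero] at h3
    have h4 : ∀ n, (∑ i, ∑ k, star (a i) * a k *
        (Matrix.trace (w n * π n ((x i)⁻¹ * x k)) / (rt (w n) : ℂ))) -
        ∑ i, ∑ k, star (a i) * a k *
        (Matrix.trace (w n * (π n ((x i)⁻¹ * x k) - (π n (x i)).conjTranspose * π n (x k))) /
          (rt (w n) : ℂ)) = Matrix.trace ((∑ k, a k • π n (x k)) * w n *
            (∑ k, a k • π n (x k)).conjTranspose) / (rt (w n) : ℂ) := by
      intro n
      have e1 : Matrix.trace ((∑ k, a k • π n (x k)) * w n *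
            (∑ k, a k • π n (x k)).conjTranspose) =
          ∑ i, ∑ k, star (a i) * a k *
            Matrix.trace (w n * ((π n (x i)).conjTranspose * π n (x k))) := by
        rw [Matrix.trace_mul_comm, Matrix.conjTranspose_sum, Finset.sum_mul, Matrix.trace_sum]
        refine Finset.sum_congr rfl fun i _ => ?_
        rw [Finset.sum_mul, Finset.mul_sum, Matrix.trace_sum]
        refine Finset.sum_congr rfl fun k _ => ?_
        rw [Matrix.conjTranspose_smul, smul_mul_assoc, smul_mul_assoc, mul_smul_comm,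
          Matrix.trace_smul, Matrix.trace_smul, smul_eq_mul, smul_eq_mul, ← mul_assoc,
          ← mul_assoc, Matrix.trace_mul_comm _ (w n)]
      rw [e1, ← Finset.sum_sub_distrib, Finset.sum_div]
      refine Finset.sum_congr rfl fun i _ => ?_
      rw [← Finset.sum_sub_distrib, Finset.sum_div]
      refine Finset.sum_congr rfl fun k _ => ?_
      rw [mul_sub, Matrix.trace_sub]
      ring
    have h5 : ∀ n, 0 ≤ Matrix.trace ((∑ k, a k • π n (x k)) * w n *
            (∑ k, a k • π n (x k)).conjTranspose) / (rt (w n) : ℂ) := by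
      intro n
      have e1 := (psd (conj_nonneg (hw0 n) (∑ k, a k • π n (x k)))).trace_nonneg
      have e2 : (0 : ℂ) ≤ (rt (w n) : ℂ) := by exact_mod_cast rt_nonneg (hw0 n)
      rw [div_eq_mul_inv]
      refine mul_nonneg e1 ?_
      rw [← Complex.ofReal_inv]
      exact_mod_cast inv_nonneg.2 (rt_nonneg (hw0 n))
    have h6 : 0 ≤ ∑ i, ∑ k, star (a i) * a k * φ ((x i)⁻¹ * x k) := by
      refine ge_of_tendsto' h3 fun n => ?_
      rw [h4]
      exact h5 n
    rw [RCLike.nonneg_iff] at h6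
    exact ⟨h6.2, h6.1⟩

end limits

theorem pTypBlock (hC : StCore) (hL : StLimChar) (hZ : StZ) : StTypBlock := by
  classical
  intro G _ _ χ l V π S K hχ hπ hA hG F₀ ε hε
  by_contra hcon
  have hbad : ∀ᶠ n in (V : Filter ℕ), ¬ ∃ p, Block (π n) χ S K F₀ ε p :=
    Ultrafilter.eventually_not.2 hcon
  obtain ⟨e, he⟩ := exists_surjective_nat G
  obtain ⟨hK, hS, hgap⟩ := hG
  have hK0 : 0 < K := by linarith
  -- `l n > 0` eventually
  have hl : ∀ᶠ n in (V : Filter ℕ), 0 < l n := by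
    have h1 := hA.tr 1
    rw [hχ.1.one] at h1
    have h2 := (tendsto_iff_norm_sub_tendsto_zero.1 h1).eventually (gt_mem_nhds zero_lt_one)
    filter_upwards [h2] with n hn
    rcases Nat.eq_zero_or_pos (l n) with h | h
    · exfalso
      have : ntr (π n 1) = 0 := by
        have h0 : ((l n : ℕ) : ℂ) = 0 := by exact_mod_cast h
        unfold ntr; rw [Fintype.card_fin, h0, div_zero]
      rw [this] at hn
      simp at hn
    · exact h
  -- the finite sets
  let Fj : ℕ → Finset G := fun j => S ∪ (F₀ ∪ (Finset.range (j + 1)).image e)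
  have hSF : ∀ j, S ⊆ Fj j := fun j => Finset.subset_union_left
  have hF0F : ∀ j, F₀ ⊆ Fj j := fun j =>
    Finset.subset_union_left.trans Finset.subset_union_right
  have heF : ∀ i j, i ≤ j → e i ∈ Fj j := fun i j hij =>
    Finset.mem_union_right _ (Finset.mem_union_right _ (Finset.mem_image.2
      ⟨i, Finset.mem_range.2 (by omega), rfl⟩))
  have hcard : ∀ j, 0 < (Fj j).card := fun j => Finset.card_pos.2 (hS.mono (hSF j))
  let εj : ℕ → ℝ := fun j => min ε (1 / ((j : ℝ) + 1))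
  have hεj : ∀ j, 0 < εj j := fun j => lt_min hε (by positivity)
  -- the error of multiplicativity
  have hmul : ∀ᶠ n in (V : Filter ℕ), 32 * ∑ g ∈ F₀, ∑ h ∈ F₀,
      hs (π n g * π n h - π n (g * h)) ≤ ε / 10 ^ 21 * (l n : ℝ) := by
    have h1 : Tendsto (fun n => ∑ g ∈ F₀, ∑ h ∈ F₀, nn (π n g * π n h - π n (g * h))) V
        (𝓝 (∑ g ∈ F₀, ∑ h ∈ F₀, 0)) :=
      tendsto_finsetSum _ fun g _ => tendsto_finsetSum _ fun h _ => hA.mul g h
    simp only [Finset.sum_const_zero] at h1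
    have h2 := h1.eventually (gt_mem_nhds (show (0 : ℝ) < ε / 10 ^ 21 / 32 by positivity))
    filter_upwards [h2, hl] with n h3 h4
    have hl0 : (0 : ℝ) < l n := by exact_mod_cast h4
    have h5 : ∑ g ∈ F₀, ∑ h ∈ F₀, hs (π n g * π n h - π n (g * h)) =
        l n * ∑ g ∈ F₀, ∑ h ∈ F₀, nn (π n g * π n h - π n (g * h)) := by
      simp only [Finset.mul_sum]
      refine Finset.sum_congr rfl fun g _ => Finset.sum_congr rfl fun h _ => ?_
      unfold nn
      rw [Fintype.card_fin]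
      field_simp
    rw [h5]
    calc 32 * (l n * ∑ g ∈ F₀, ∑ h ∈ F₀, nn (π n g * π n h - π n (g * h))) ≤
        32 * (l n * (ε / 10 ^ 21 / 32)) := by gcongr
      _ = _ := by ring
  -- the property of the weight `Z`
  let P : ℕ → (n : ℕ) → Matrix (Fin (l n)) (Fin (l n)) ℂ → Prop := fun j n Z =>
    0 ≤ Z ∧ Z ≤ (16 : ℝ) • 1 ∧ (l n : ℝ) / (8 * 10 ^ 21 * F₀.card) ≤ rt Z ∧
    (∃ g ∈ F₀, ε / 2 * rt Z ≤ ‖Matrix.trace (Z * π n g) - χ g * rt Z‖) ∧
    ∀ h ∈ Fj j, ∀ Y : Matrix (Fin (l n)) (Fin (l n)) ℂ, ‖Y‖ ≤ 1 →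
      |rt (((π n h).conjTranspose * Z * π n h - Z) * Y)| ≤ 2 * Real.sqrt (εj j) * rt Z
  have hP : ∀ j, ∀ᶠ n in (V : Filter ℕ), ∃ Z, P j n Z := by
    intro j
    obtain ⟨k, hk⟩ := hC (Fj j).card K (εj j) (hcard j) hK (hεj j)
    filter_upwards [hbad, hl, hmul, hgap (Fj j) (hSF j) k] with n h1 h2 h3 h4
    have : Nonempty (Fin (l n)) := ⟨⟨0, h2⟩⟩
    obtain ⟨I, p, h5, h6, h7⟩ := hk (Fin (l n)) G (Fj j) S (π n) rfl (hSF j) (hπ n) (by
      intro x hx hx1
      have := h4 x hx hx1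
      rwa [Fintype.card_fin])
    have h8 : ∀ i ∈ I, (∃ g ∈ F₀, ∃ h ∈ F₀, ε * rt (p i) <
          hs ((π n g * π n h - π n (g * h)) * p i)) ∨
        ∃ g ∈ F₀, ε * rt (p i) < ‖Matrix.trace (p i * π n g) - χ g * rt (p i)‖ := by
      intro i hi
      by_contra hc
      push Not at hc
      obtain ⟨a1, a2, a3, a4⟩ := h5 i hi
      refine h1 ⟨p i, a1, a2, ?_, fun g hg h hh => hc.1 g hg h hh, fun g hg => hc.2 g hg, a4⟩
      refine (En_mono (hF0F j) _ _).trans (a3.trans ?_)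
      have := a1.rt_nonneg
      have : εj j ≤ ε := min_le_left _ _
      gcongr
    obtain ⟨Z, z1, z2, z3, z4, z5⟩ := hZ (Fin (l n)) G (π n) χ (Fj j) F₀ I p ε (εj j) (hπ n) hε
      (hεj j).le (by rw [Fintype.card_fin]; exact h2)
      (fun i hi => ⟨(h5 i hi).1, (h5 i hi).2.1, (h5 i hi).2.2.1⟩) h6 h7 h8
      (by rw [Fintype.card_fin]; exact h3)
    rw [Fintype.card_fin] at z3
    exact ⟨Z, z1, z2, z3, z4, z5⟩
  have hsel : ∀ j n, ∃ Z : Matrix (Fin (l n)) (Fin (l n)) ℂ, 0 ≤ Z ∧ Z ≤ (16 : ℝ) • 1 ∧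
      ((∃ Z', P j n Z') → P j n Z) := by
    intro j n
    by_cases h : ∃ Z', P j n Z'
    · obtain ⟨Z, hZ⟩ := h
      exact ⟨Z, hZ.1, hZ.2.1, fun _ => hZ⟩
    · refine ⟨0, le_rfl, ?_, fun h' => absurd h' h⟩
      exact smul_nonneg_real (by norm_num) Pr.one.nonneg
  choose Z hZ0 hZ16 hZP using hsel
  have hZP' : ∀ j, ∀ᶠ n in (V : Filter ℕ), P j n (Z j n) := fun j =>
    (hP j).mono fun n hn => hZP j n hn
  have hF₀c : (0 : ℝ) < F₀.card := by
    obtain ⟨n, hn⟩ := (hZP' 0).exists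
    obtain ⟨g, hg, -⟩ := hn.2.2.2.1
    exact_mod_cast Finset.card_pos.2 ⟨g, hg⟩
  set c : ℝ := 1 / (8 * 10 ^ 21 * F₀.card) with hc
  have hc0 : 0 < c := by positivity
  have hZc : ∀ j, ∀ᶠ n in (V : Filter ℕ), c * l n ≤ rt (Z j n) := by
    intro j
    filter_upwards [hZP' j] with n hn
    refine le_trans (le_of_eq ?_) hn.2.2.1
    rw [hc]; ring
  -- the complementary weight
  let Z' : ℕ → (n : ℕ) → Matrix (Fin (l n)) (Fin (l n)) ℂ := fun j n => 1 - (1 / 32 : ℝ) • Z j n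
  have hZh : ∀ j n, (1 / 32 : ℝ) • Z j n ≤ (1 / 2 : ℝ) • 1 := by
    intro j n
    have := smul_mono_real (c := 1 / 32) (by norm_num) (hZ16 j n)
    rw [smul_smul] at this
    refine this.trans (le_of_eq ?_)
    norm_num
  have hZ'h : ∀ j n, (1 / 2 : ℝ) • (1 : Matrix (Fin (l n)) (Fin (l n)) ℂ) ≤ Z' j n := by
    intro j n
    have h1 := hZh j n
    show _ ≤ 1 - (1 / 32 : ℝ) • Z j n
    have h2 : (1 / 2 : ℝ) • (1 : Matrix (Fin (l n)) (Fin (l n)) ℂ) = 1 - (1 / 2 : ℝ) • 1 := by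
      have : (1 : Matrix (Fin (l n)) (Fin (l n)) ℂ) = (1 / 2 : ℝ) • 1 + (1 / 2 : ℝ) • 1 := by
        rw [← add_smul]; norm_num
      nth_rewrite 2 [this]
      abel
    rw [h2]
    exact sub_le_sub_left h1 _
  have hZ'0 : ∀ j n, 0 ≤ Z' j n := fun j n =>
    (smul_nonneg_real (by norm_num) Pr.one.nonneg).trans (hZ'h j n)
  have hZ'16 : ∀ j n, Z' j n ≤ (16 : ℝ) • 1 := by
    intro j n
    have h1 : Z' j n ≤ 1 := sub_le_self _ (smul_nonneg_real (by norm_num) (hZ0 j n))
    refine h1.trans ?_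
    have := smul_mono_left (A := (1 : Matrix (Fin (l n)) (Fin (l n)) ℂ))
      (show (1 : ℝ) ≤ 16 by norm_num) Pr.one.nonneg
    rwa [one_smul] at this
  have hrt1 : ∀ n, rt (1 : Matrix (Fin (l n)) (Fin (l n)) ℂ) = l n := by
    intro n; simp [rt]
  have hrZ' : ∀ j n, rt (Z' j n) = l n - 1 / 32 * rt (Z j n) := by
    intro j n
    show rt (1 - (1 / 32 : ℝ) • Z j n) = _
    rw [rt_sub, rt_smul, hrt1]
  have hZ'c : ∀ j, ∀ᶠ n in (V : Filter ℕ), 1 / 2 * (l n : ℝ) ≤ rt (Z' j n) := by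
    intro j
    refine Eventually.of_forall fun n => ?_
    have := rt_mono (hZ'h j n)
    rwa [rt_smul, hrt1] at this
  have hφ : ∀ j, ∃ φ : G → ℂ, (∀ g, Tendsto (fun n => Matrix.trace (Z j n * π n g) /
      (rt (Z j n) : ℂ)) V (𝓝 (φ g))) ∧ IsPD φ := fun j =>
    weight_limit hπ hA hc0 (hZ0 j) (hZ16 j) (hZc j) hl
  have hψ : ∀ j, ∃ ψ : G → ℂ, (∀ g, Tendsto (fun n => Matrix.trace (Z' j n * π n g) /
      (rt (Z' j n) : ℂ)) V (𝓝 (ψ g))) ∧ IsPD ψ := fun j =>
    weight_limit hπ hA (by norm_num) (hZ'0 j) (hZ'16 j) (hZ'c j) hl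
  choose φ hφ1 hφ2 using hφ
  choose ψ hψ1 hψ2 using hψ
  -- the weights `t`
  have hZle : ∀ j n, rt (Z j n) ≤ 16 * l n := by
    intro j n
    have := rt_mono (hZ16 j n)
    rwa [rt_smul, hrt1] at this
  have ht : ∀ j, ∃ t ∈ Set.Icc (0 : ℝ) (1 / 2),
      Tendsto (fun n => rt (Z j n) / (32 * l n)) V (𝓝 t) := by
    intro j
    refine exists_lim_real fun n => ⟨?_, ?_⟩
    · exact div_nonneg (rt_nonneg (hZ0 j n)) (by positivity)
    · rcases Nat.eq_zero_or_pos (l n) with h | h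
      · have h0 : (l n : ℝ) = 0 := by exact_mod_cast h
        rw [h0, mul_zero, div_zero]; norm_num
      · have hl0 : (0 : ℝ) < l n := by exact_mod_cast h
        rw [div_le_iff₀ (by positivity)]
        have := hZle j n
        linarith
  choose t ht1 ht2 using ht
  have htc : ∀ j, c / 32 ≤ t j := by
    intro j
    refine ge_of_tendsto (ht2 j) ?_
    filter_upwards [hZc j, hl] with n h1 h2
    have hl0 : (0 : ℝ) < l n := by exact_mod_cast h2
    rw [le_div_iff₀ (by positivity)]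
    linarith
  have heq : ∀ j g, χ g = t j * φ j g + (1 - t j) * ψ j g := by
    intro j g
    have h1 : Tendsto (fun n => ((rt (Z j n) / (32 * l n) : ℝ) : ℂ) *
        (Matrix.trace (Z j n * π n g) / (rt (Z j n) : ℂ)) +
        (1 - ((rt (Z j n) / (32 * l n) : ℝ) : ℂ)) *
        (Matrix.trace (Z' j n * π n g) / (rt (Z' j n) : ℂ))) V
        (𝓝 (t j * φ j g + (1 - t j) * ψ j g)) := by
      have h2 : Tendsto (fun n => ((rt (Z j n) / (32 * l n) : ℝ) : ℂ)) V (𝓝 (t j : ℂ)) :=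
        (Complex.continuous_ofReal.tendsto _).comp (ht2 j)
      exact (h2.mul (hφ1 j g)).add ((h2.const_sub 1).mul (hψ1 j g))
    refine tendsto_nhds_unique ((hA.tr g)) (h1.congr' ?_)
    filter_upwards [hZc j, hZ'c j, hl] with n h2 h3 h4
    have hl0 : (0 : ℝ) < l n := by exact_mod_cast h4
    have hr : 0 < rt (Z j n) := lt_of_lt_of_le (by positivity) h2
    have hr' : 0 < rt (Z' j n) := lt_of_lt_of_le (by positivity) h3
    have hlc : (l n : ℂ) ≠ 0 := by exact_mod_cast hl0.ne'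
    have hrc : (rt (Z j n) : ℂ) ≠ 0 := by exact_mod_cast hr.ne'
    have hrc' : (rt (Z' j n) : ℂ) ≠ 0 := by exact_mod_cast hr'.ne'
    have h5 : ntr (π n g) = Matrix.trace (π n g) / l n := by
      unfold ntr; rw [Fintype.card_fin]; rfl
    have h6 : Matrix.trace (Z' j n * π n g) =
        Matrix.trace (π n g) - 1 / 32 * Matrix.trace (Z j n * π n g) := by
      show Matrix.trace ((1 - (1 / 32 : ℝ) • Z j n) * π n g) = _
      rw [sub_mul, one_mul, smul_mul_assoc, Matrix.trace_sub, Matrix.trace_smul]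
      congr 1
      rw [Complex.real_smul]
      push_cast
      ring
    have h7 : (1 - ((rt (Z j n) / (32 * l n) : ℝ) : ℂ)) = (rt (Z' j n) : ℂ) / l n := by
      rw [hrZ']
      push_cast
      field_simp
    rw [h7, h5, h6]
    push_cast
    field_simp
    ring
  -- approximate invariance
  have hclass : ∀ g h, Tendsto (fun j => φ j (h * g * h⁻¹) - φ j g) atTop (𝓝 0) := by
    intro g h
    obtain ⟨i, rfl⟩ := he h
    have hlim : Tendsto (fun j : ℕ => 4 * Real.sqrt (1 / ((j : ℝ) + 1))) atTop (𝓝 0) := by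
      have h1 := (Real.continuous_sqrt.tendsto 0).comp
        (tendsto_one_div_add_atTop_nhds_zero_nat (𝕜 := ℝ))
      rw [Real.sqrt_zero] at h1
      simpa using h1.const_mul 4
    refine squeeze_zero_norm' ?_ hlim
    filter_upwards [eventually_ge_atTop i] with j hij
    have h1 := tendsto_weight_zero hc0 (hZ0 j) (hZ16 j) (hZc j) hl (tendsto_conj hπ hA g (e i))
    have h2 := (((hφ1 j (e i * g * (e i)⁻¹)).sub h1).sub (hφ1 j g)).norm
    rw [sub_zero] at h2
    refine le_of_tendsto h2 ?_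
    filter_upwards [hZP' j, hZc j, hl] with n h3 h4 h5
    have hl0 : (0 : ℝ) < l n := by exact_mod_cast h5
    have hr : 0 < rt (Z j n) := lt_of_lt_of_le (by positivity) h4
    have h6 : Matrix.trace (Z j n * π n (e i * g * (e i)⁻¹)) / (rt (Z j n) : ℂ) -
        Matrix.trace (Z j n * (π n (e i * g * (e i)⁻¹) -
          π n (e i) * π n g * (π n (e i)).conjTranspose)) / (rt (Z j n) : ℂ) -
        Matrix.trace (Z j n * π n g) / (rt (Z j n) : ℂ) =
        Matrix.trace (((π n (e i)).conjTranspose * Z j n * π n (e i) - Z j n) * π n g) /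
          (rt (Z j n) : ℂ) := by
      rw [← sub_div, ← sub_div, ← Matrix.trace_sub, ← mul_sub, sub_sub_cancel, sub_mul,
        Matrix.trace_sub]
      congr 2
      rw [← mul_assoc, Matrix.trace_mul_comm, ← mul_assoc, ← mul_assoc]
    rw [h6, norm_div, Complex.norm_real, Real.norm_of_nonneg hr.le, div_le_iff₀ hr]
    have h7 := h3.2.2.2.2 (e i) (heF i j hij) (π n g) (norm_unit_le (hπ n g))
    have h8 := h3.2.2.2.2 (e i) (heF i j hij) ((-Complex.I) • π n g) (by
      rw [norm_smul, norm_neg, Complex.norm_I, one_mul]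
      exact norm_unit_le (hπ n g))
    have h9 : rt (((π n (e i)).conjTranspose * Z j n * π n (e i) - Z j n) *
        ((-Complex.I) • π n g)) =
        (Matrix.trace (((π n (e i)).conjTranspose * Z j n * π n (e i) - Z j n) *
          π n g)).im := by
      unfold rt
      rw [mul_smul_comm, Matrix.trace_smul, smul_eq_mul]
      simp
    rw [h9] at h8
    have h10 := Complex.norm_le_abs_re_add_abs_im
      (Matrix.trace (((π n (e i)).conjTranspose * Z j n * π n (e i) - Z j n) * π n g))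
    have h11 : Real.sqrt (εj j) ≤ Real.sqrt (1 / ((j : ℝ) + 1)) :=
      Real.sqrt_le_sqrt (min_le_right _ _)
    have h12 : |(Matrix.trace (((π n (e i)).conjTranspose * Z j n * π n (e i) - Z j n) *
        π n g)).re| ≤ 2 * Real.sqrt (εj j) * rt (Z j n) := h7
    have h13 : 2 * Real.sqrt (εj j) * rt (Z j n) ≤
        2 * Real.sqrt (1 / ((j : ℝ) + 1)) * rt (Z j n) := by gcongr
    linarith
  have hconv := hL G χ φ ψ t (c / 32) hχ (by positivity) (fun j => ⟨htc j, (ht1 j).2⟩) hφ2 hψ2 heq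
    hclass
  -- contradiction
  have h1 : ∀ᶠ j in atTop, ∀ g ∈ F₀, ‖φ j g - χ g‖ < ε / 2 := by
    rw [Filter.eventually_all_finset]
    intro g _
    exact (tendsto_iff_norm_sub_tendsto_zero.1 (hconv g)).eventually
      (gt_mem_nhds (by positivity))
  obtain ⟨j, hj⟩ := h1.exists
  have h2 : ∀ᶠ n in (V : Filter ℕ), ∀ g ∈ F₀,
      ‖Matrix.trace (Z j n * π n g) / (rt (Z j n) : ℂ) - χ g‖ < ε / 2 := by
    rw [Filter.eventually_all_finset]
    intro g hg
    exact (((hφ1 j g).sub_const (χ g)).norm).eventually (gt_mem_nhds (hj g hg))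
  obtain ⟨n, h3, h4, h5, h6⟩ := (h2.and ((hZP' j).and ((hZc j).and hl))).exists
  have hl0 : (0 : ℝ) < l n := by exact_mod_cast h6
  have hr : 0 < rt (Z j n) := lt_of_lt_of_le (by positivity) h5
  have hrc : (rt (Z j n) : ℂ) ≠ 0 := by exact_mod_cast hr.ne'
  obtain ⟨g, hg, h7⟩ := h4.2.2.2.1
  have h8 := h3 g hg
  have h9 : Matrix.trace (Z j n * π n g) / (rt (Z j n) : ℂ) - χ g =
      (Matrix.trace (Z j n * π n g) - χ g * rt (Z j n)) / (rt (Z j n) : ℂ) := by
    field_simp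
  rw [h9, norm_div, Complex.norm_real, Real.norm_of_nonneg hr.le, div_lt_iff₀ hr] at h8
  linarith

end Helper61.IE
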