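import Pool.Agent.Helper61.IE.St2
import Pool.Agent.Helper61.IE.Lib2
import Pool.Agent.Helper51.MU.Char

/-!
# Finite level: a sum of a large family of bad blocks
-/

namespace Helper61.IE

open Helper51.MU Filter Topology
open scoped Matrix.Norms.L2Operator MatrixOrder ComplexOrder

/-- The commutator estimate. -/
private lemma z_comm {n : Type} [Fintype n] [DecidableEq n] {v p Y : Matrix n n ℂ} {ε₁ : ℝ}
    (hv : v.conjTranspose * v = 1) (hp : Pr p) (hε : 0 ≤ ε₁)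
    (hc : hs (v * p - p * v) ≤ ε₁ * rt p) (hY : ‖Y‖ ≤ 1) :
    |rt ((v.conjTranspose * p * v - p) * Y)| ≤ 2 * Real.sqrt ε₁ * rt p := by
  obtain ⟨C, hC⟩ : ∃ C, C = p * v - v * p := ⟨_, rfl⟩
  have hC1 : C = p * C + C * p := by
    rw [hC]
    have h1 : p * (p * v - v * p) + (p * v - v * p) * p =
        (p * p) * v - v * (p * p) := by noncomm_ring
    rw [h1, hp.2]
  have hCs : hs C ≤ ε₁ * rt p := by rw [hC, hs_sub_comm]; exact hc
  obtain ⟨W, hW⟩ : ∃ W, W = Y * v.conjTranspose := ⟨_, rfl⟩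
  have hWn : ‖W‖ ≤ 1 := by
    rw [hW]
    have h1 := norm_unit_le hv
    have h2 : ‖v.conjTranspose‖ ≤ 1 := by
      rw [← Matrix.star_eq_conjTranspose, norm_star]; exact h1
    exact (norm_mul_le _ _).trans (by nlinarith [norm_nonneg Y, norm_nonneg v.conjTranspose])
  have h1 : rt ((v.conjTranspose * p * v - p) * Y) = rt (C * W) := by
    have h2 : (v.conjTranspose * p * v - p) * Y = v.conjTranspose * C * Y := by
      rw [hC]
      calc (v.conjTranspose * p * v - p) * Y =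
          (v.conjTranspose * p * v - (v.conjTranspose * v) * p) * Y := by rw [hv, one_mul]
        _ = _ := by noncomm_ring
    rw [h2, hW, mul_assoc, rt_mul_comm, mul_assoc]
  have h2 : rt (C * W) = rt (p * (C * W)) + rt (C * (p * W)) := by
    conv_lhs => rw [hC1]
    rw [add_mul, rt_add, mul_assoc, mul_assoc]
  have hb : Real.sqrt (hs C) ≤ Real.sqrt ε₁ * Real.sqrt (rt p) := by
    rw [← Real.sqrt_mul hε]; exact Real.sqrt_le_sqrt hCs
  have hCW : Real.sqrt (hs (C * W)) ≤ Real.sqrt ε₁ * Real.sqrt (rt p) :=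
    (Real.sqrt_le_sqrt (hs_mul_right_le hWn)).trans hb
  have hpW : Real.sqrt (hs (p * W)) ≤ Real.sqrt (rt p) := by
    refine Real.sqrt_le_sqrt ?_
    rw [← hp.hs]; exact hs_mul_right_le hWn
  have h3 : |rt (p * (C * W))| ≤ Real.sqrt (rt p) * (Real.sqrt ε₁ * Real.sqrt (rt p)) := by
    refine (abs_rt_mul_le _ _).trans ?_
    rw [hp.hs]
    exact mul_le_mul_of_nonneg_left hCW (Real.sqrt_nonneg _)
  have h4 : |rt (C * (p * W))| ≤ Real.sqrt ε₁ * Real.sqrt (rt p) * Real.sqrt (rt p) := by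
    refine (abs_rt_mul_le _ _).trans ?_
    exact mul_le_mul hb hpW (Real.sqrt_nonneg _) (by positivity)
  have h5 : Real.sqrt (rt p) * Real.sqrt (rt p) = rt p := Real.mul_self_sqrt hp.rt_nonneg
  have h6 : Real.sqrt (rt p) * (Real.sqrt ε₁ * Real.sqrt (rt p)) = Real.sqrt ε₁ * rt p := by
    calc _ = Real.sqrt ε₁ * (Real.sqrt (rt p) * Real.sqrt (rt p)) := by ring
      _ = _ := by rw [h5]
  have h7 : Real.sqrt ε₁ * Real.sqrt (rt p) * Real.sqrt (rt p) = Real.sqrt ε₁ * rt p := by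
    rw [mul_assoc, h5]
  rw [h6] at h3
  rw [h7] at h4
  rw [h1, h2]
  refine (abs_add_le _ _).trans ?_
  linarith

/-- The multiplicative defect. -/
private lemma z_mul {n : Type} [Fintype n] [DecidableEq n] {p : ℕ → Matrix n n ℂ} {I : Finset ℕ}
    (hp : ∀ i ∈ I, Pr (p i)) (hI : ∑ i ∈ I, p i ≤ (16 : ℝ) • 1) (D : Matrix n n ℂ) :
    ∑ i ∈ I, hs (D * p i) ≤ 16 * hs D := by
  have h1 : ∀ i ∈ I, hs (D * p i) = rt (D.conjTranspose * D * p i) := by
    intro i hi
    rw [hs_eq_rt, Matrix.conjTranspose_mul, (hp i hi).1]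
    rw [show p i * D.conjTranspose * (D * p i) = p i * (D.conjTranspose * D * p i) by noncomm_ring,
      rt_mul_comm, mul_assoc _ (p i) (p i), (hp i hi).2]
  rw [Finset.sum_congr rfl h1, ← rt_sum, ← Finset.mul_sum]
  have h2 := rt_mul_mono' hI (nonneg_star_mul D)
  refine h2.trans ?_
  rw [mul_smul_comm, mul_one, rt_smul, hs_eq_rt]

theorem pZ : StZ := by
  intro n _ _ G _ π χ F F₀ I p ε ε₁ hπ hε hε₁ hd hp hI hm hbad hdef
  classical
  obtain ⟨d, hdd⟩ : ∃ d : ℝ, d = (Fintype.card n : ℝ) := ⟨_, rfl⟩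
  have hd0 : 0 < d := by rw [hdd]; exact_mod_cast hd
  rw [← hdd] at hm hdef ⊢
  -- the first class
  obtain ⟨I1, hI1⟩ : ∃ I1, I1 = I.filter (fun i => ∃ g ∈ F₀, ∃ h ∈ F₀,
      ε * rt (p i) < hs ((π g * π h - π (g * h)) * p i)) := ⟨_, rfl⟩
  have hI1s : I1 ⊆ I := by rw [hI1]; exact Finset.filter_subset _ _
  have m1 : ∑ i ∈ I1, ε * rt (p i) ≤ ε / 10 ^ 21 * d / 2 := by
    have a1 : ∀ i ∈ I1, ε * rt (p i) ≤
        ∑ g ∈ F₀, ∑ h ∈ F₀, hs ((π g * π h - π (g * h)) * p i) := by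
      intro i hi
      rw [hI1, Finset.mem_filter] at hi
      obtain ⟨-, g, hg, h, hh, hlt⟩ := hi
      refine hlt.le.trans ?_
      refine le_trans ?_ (Finset.single_le_sum (f := fun g => ∑ h ∈ F₀,
        hs ((π g * π h - π (g * h)) * p i)) (fun _ _ => Finset.sum_nonneg fun _ _ =>
          hs_nonneg _) hg)
      exact Finset.single_le_sum (f := fun h => hs ((π g * π h - π (g * h)) * p i))
        (fun _ _ => hs_nonneg _) hh
    have a2 : ∑ i ∈ I1, ∑ g ∈ F₀, ∑ h ∈ F₀, hs ((π g * π h - π (g * h)) * p i) ≤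
        ∑ g ∈ F₀, ∑ h ∈ F₀, 16 * hs (π g * π h - π (g * h)) := by
      rw [Finset.sum_comm]
      refine Finset.sum_le_sum fun g _ => ?_
      rw [Finset.sum_comm]
      refine Finset.sum_le_sum fun h _ => ?_
      refine le_trans ?_ (z_mul (fun i hi => (hp i hi).1) hI (π g * π h - π (g * h)))
      exact Finset.sum_le_sum_of_subset_of_nonneg hI1s fun _ _ _ => hs_nonneg _
    have a3 : ∑ g ∈ F₀, ∑ h ∈ F₀, 16 * hs (π g * π h - π (g * h)) =
        16 * ∑ g ∈ F₀, ∑ h ∈ F₀, hs (π g * π h - π (g * h)) := by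
      rw [Finset.mul_sum]
      exact Finset.sum_congr rfl fun g _ => by rw [Finset.mul_sum]
    have a4 := (Finset.sum_le_sum a1).trans a2
    rw [a3] at a4
    linarith
  -- the second class
  obtain ⟨I2, hI2⟩ : ∃ I2, I2 = I \ I1 := ⟨_, rfl⟩
  have hI2s : I2 ⊆ I := by rw [hI2]; exact Finset.sdiff_subset
  have m2 : d / (2 * 10 ^ 21) ≤ ∑ i ∈ I2, rt (p i) := by
    have b1 : ∑ i ∈ I2, rt (p i) + ∑ i ∈ I1, rt (p i) = ∑ i ∈ I, rt (p i) := by
      rw [hI2]; exact Finset.sum_sdiff hI1s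
    rw [← Finset.mul_sum] at m1
    have b2 : ∑ i ∈ I1, rt (p i) ≤ d / (2 * 10 ^ 21) := by
      have b3 : ε * ∑ i ∈ I1, rt (p i) ≤ ε * (d / (2 * 10 ^ 21)) := by
        refine m1.trans (le_of_eq ?_)
        field_simp
      exact le_of_mul_le_mul_left b3 hε
    have b4 : 1 / 10 ^ 21 * d = 2 * (d / (2 * 10 ^ 21)) := by field_simp
    linarith
  have c1 : ∀ i ∈ I2, ∃ l : G × Fin 4, l.1 ∈ F₀ ∧ ε / 2 * rt (p i) ≤
      (dir l.2 * (Matrix.trace (p i * π l.1) - χ l.1 * rt (p i))).re := by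
    intro i hi
    have hiI := hI2s hi
    have hn : ¬ ∃ g ∈ F₀, ∃ h ∈ F₀, ε * rt (p i) < hs ((π g * π h - π (g * h)) * p i) := by
      intro hc
      rw [hI2, Finset.mem_sdiff, hI1, Finset.mem_filter] at hi
      exact hi.2 ⟨hiI, hc⟩
    obtain ⟨g, hg, hlt⟩ := (hbad i hiI).resolve_left hn
    obtain ⟨c, hc⟩ := exists_dir hlt
    exact ⟨(g, c), hg, by linarith⟩
  have hne : (I2.Nonempty) := by
    by_contra hcon
    rw [Finset.not_nonempty_iff_eq_empty] at hcon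
    rw [hcon, Finset.sum_empty] at m2
    have : 0 < d / (2 * 10 ^ 21) := by positivity
    linarith
  choose! lab hlab1 hlab2 using c1
  have hF : 0 < (F₀.card : ℝ) := by
    obtain ⟨i, hi⟩ := hne
    exact_mod_cast Finset.card_pos.2 ⟨_, hlab1 i hi⟩
  -- pigeonhole
  have c2 : ∃ l ∈ F₀ ×ˢ (Finset.univ : Finset (Fin 4)),
      d / (8 * 10 ^ 21 * F₀.card) ≤ ∑ i ∈ I2.filter (fun i => lab i = l), rt (p i) := by
    by_contra hcon
    push Not at hcon
    have e1 : ∑ i ∈ I2, rt (p i) = ∑ l ∈ F₀ ×ˢ (Finset.univ : Finset (Fin 4)),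
        ∑ i ∈ I2.filter (fun i => lab i = l), rt (p i) := by
      refine (Finset.sum_fiberwise_of_maps_to (fun i hi => ?_) _).symm
      exact Finset.mem_product.2 ⟨hlab1 i hi, Finset.mem_univ _⟩
    have e2 : (F₀ ×ˢ (Finset.univ : Finset (Fin 4))).Nonempty := by
      obtain ⟨i, hi⟩ := hne
      exact ⟨lab i, Finset.mem_product.2 ⟨hlab1 i hi, Finset.mem_univ _⟩⟩
    have e3 := Finset.sum_lt_sum_of_nonempty e2 hcon
    rw [← e1, Finset.sum_const, Finset.card_product, Finset.card_univ, Fintype.card_fin,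
      nsmul_eq_mul] at e3
    have e4 : ((F₀.card * 4 : ℕ) : ℝ) * (d / (8 * 10 ^ 21 * F₀.card)) = d / (2 * 10 ^ 21) := by
      push_cast
      field_simp
      norm_num
    linarith
  obtain ⟨l, hl, hmass⟩ := c2
  obtain ⟨J, hJ⟩ : ∃ J, J = I2.filter (fun i => lab i = l) := ⟨_, rfl⟩
  rw [← hJ] at hmass
  have hJI2 : J ⊆ I2 := by rw [hJ]; exact Finset.filter_subset _ _
  have hJI : J ⊆ I := hJI2.trans hI2s
  refine ⟨∑ i ∈ J, p i, ?_, ?_, ?_, ?_, ?_⟩
  · exact Finset.sum_nonneg fun i hi => (hp i (hJI hi)).1.nonneg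
  · refine le_trans ?_ hI
    exact Finset.sum_le_sum_of_subset_of_nonneg hJI fun i hi _ => (hp i hi).1.nonneg
  · rw [rt_sum]; exact hmass
  · refine ⟨l.1, (Finset.mem_product.1 hl).1, ?_⟩
    have f1 : ε / 2 * rt (∑ i ∈ J, p i) ≤
        (dir l.2 * (Matrix.trace ((∑ i ∈ J, p i) * π l.1) - χ l.1 * rt (∑ i ∈ J, p i))).re := by
      have f2 : Matrix.trace ((∑ i ∈ J, p i) * π l.1) - χ l.1 * rt (∑ i ∈ J, p i) =
          ∑ i ∈ J, (Matrix.trace (p i * π l.1) - χ l.1 * rt (p i)) := by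
        rw [Finset.sum_sub_distrib, ← Finset.mul_sum, Finset.sum_mul, Matrix.trace_sum, rt_sum]
        push_cast
        rfl
      rw [f2, rt_sum, Finset.mul_sum, Finset.mul_sum, Complex.re_sum]
      refine Finset.sum_le_sum fun i hi => ?_
      have f3 := hlab2 i (hJI2 hi)
      rw [hJ, Finset.mem_filter] at hi
      rwa [hi.2] at f3
    refine f1.trans ((Complex.re_le_norm _).trans ?_)
    rw [norm_mul]
    have f4 : ‖dir l.2‖ = 1 := by
      generalize l.2 = c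
      fin_cases c <;> simp [dir]
    rw [f4, one_mul]
  · intro h hh Y hY
    have g1 : ((π h).conjTranspose * (∑ i ∈ J, p i) * π h - ∑ i ∈ J, p i) * Y =
        ∑ i ∈ J, ((π h).conjTranspose * p i * π h - p i) * Y := by
      rw [Finset.mul_sum, Finset.sum_mul, ← Finset.sum_sub_distrib, Finset.sum_mul]
    rw [g1, rt_sum, rt_sum, Finset.mul_sum]
    refine (Finset.abs_sum_le_sum_abs _ _).trans (Finset.sum_le_sum fun i hi => ?_)
    obtain ⟨h1, -, h3⟩ := hp i (hJI hi)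
    refine z_comm (hπ h) h1 hε₁ (le_trans ?_ h3) hY
    exact Finset.single_le_sum (f := fun s => hs (π s * p i - p i * π s))
      (fun _ _ => hs_nonneg _) hh

end Helper61.IE
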