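import Pool.Agent.Helper61.IE.Fin
import Pool.Agent.Helper61.IE.PBlock
import Pool.Agent.Helper61.IE.PCompr
import Pool.Agent.Helper61.IE.PConv
import Pool.Agent.Helper61.IE.PCore
import Pool.Agent.Helper61.IE.PCutC
import Pool.Agent.Helper61.IE.PDiag
import Pool.Agent.Helper61.IE.PDim
import Pool.Agent.Helper61.IE.PEn
import Pool.Agent.Helper61.IE.PG2
import Pool.Agent.Helper61.IE.PGam
import Pool.Agent.Helper61.IE.PGapW
import Pool.Agent.Helper61.IE.PGreedy
import Pool.Agent.Helper61.IE.PHas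
import Pool.Agent.Helper61.IE.PIrr
import Pool.Agent.Helper61.IE.PLift
import Pool.Agent.Helper61.IE.PLimChar
import Pool.Agent.Helper61.IE.PLy
import Pool.Agent.Helper61.IE.PMin
import Pool.Agent.Helper61.IE.PModels
import Pool.Agent.Helper61.IE.PPert
import Pool.Agent.Helper61.IE.PPotA
import Pool.Agent.Helper61.IE.PPotB
import Pool.Agent.Helper61.IE.PProjIrr
import Pool.Agent.Helper61.IE.PRR
import Pool.Agent.Helper61.IE.PRange
import Pool.Agent.Helper61.IE.PRound1
import Pool.Agent.Helper61.IE.PRound2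
import Pool.Agent.Helper61.IE.PRound3
import Pool.Agent.Helper61.IE.PSand
import Pool.Agent.Helper61.IE.PSec
import Pool.Agent.Helper61.IE.PSeq
import Pool.Agent.Helper61.IE.PSign
import Pool.Agent.Helper61.IE.PStage
import Pool.Agent.Helper61.IE.PSumA
import Pool.Agent.Helper61.IE.PSumL
import Pool.Agent.Helper61.IE.PSumP
import Pool.Agent.Helper61.IE.PTT
import Pool.Agent.Helper61.IE.PTyp
import Pool.Agent.Helper61.IE.PTypBlock
import Pool.Agent.Helper61.IE.PZ

/-!
# Main theorem (modulo the modules still missing)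
-/

namespace Helper61.IE

open Helper51.MU Filter Topology
open scoped Matrix.Norms.L2Operator MatrixOrder ComplexOrder

theorem core : StCore := by
  have hStage : StStage := pStage pTT pEn pRound1 pPert pGam
  have hTyp : StTyp := pTyp pSand
  exact pCore pTT pEn pRR (pGreedy pG2) (pSumA pG2) (pSumL (pLy pG2)) (pSumP pPotA pPotB) pSign
    hStage hTyp (pBlock pTT pEn pRound2 hStage hTyp)

theorem typBlock : StTypBlock := pTypBlock core pLimChar pZ

theorem hasIrr_of_wGap {G : Type} [Group G] [Countable G] (χ : G → ℂ) (hχ : IsExtremalChar χ)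
    (hinf : InfiniteDim χ) (l : ℕ → ℕ) (V : Ultrafilter ℕ)
    (u : G →* MUlt (fun n => Fin (l n)) V) (hu : ∀ g, star (u g) * u g = 1)
    (htr : ∀ g, tr (u g) = χ g) (h : WGap u) : HasIrr χ := by
  obtain ⟨π, x, h1, h2, h3, h4⟩ := pLift G χ l V u hu htr
  obtain ⟨S, K, hSK⟩ := pGapW pTT G χ l V u π x h1 h2 h3 h4 h
  exact main_of (pSeq pCompr pCutC) (pMin pDiag) (pSec pCompr pCutC pLimChar)
    (pProjIrr pDiag pRound3) (pModels pDim) (pHas pIrr) typBlock χ hχ hinf l V π h1 h4 S K hSK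

theorem hasIrr_iff {G : Type} [Group G] [Countable G] (χ : G → ℂ) (hχ : IsExtremalChar χ)
    (hinf : InfiniteDim χ) : HasIrr χ ↔
      ∃ (l : ℕ → ℕ) (V : Ultrafilter ℕ) (u : G →* MUlt (fun n => Fin (l n)) V),
        (∀ g, star (u g) * u g = 1) ∧ (∀ g, tr (u g) = χ g) ∧ WGap u := by
  constructor
  · rintro ⟨⟨k, -, h⟩, -⟩
    obtain ⟨U, hU⟩ := exists_nonprincipal
    obtain ⟨u, h1, h2, h3⟩ := h U hU
    exact ⟨k, U, u, h1, h2, pConv pDiag G (fun n => Fin (k n)) U u hU h1 h3⟩
  · rintro ⟨l, V, u, h1, h2, h3⟩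
    exact hasIrr_of_wGap χ hχ hinf l V u h1 h2 h3

end Helper61.IE
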