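import Pool.Agent.Helper61.IE.St2

/-!
# IE module Has: from finite models to irreducible embeddings
-/

namespace Helper61.IE

open Helper51.MU Filter Topology
open scoped Matrix.Norms.L2Operator MatrixOrder ComplexOrder

private lemma models_to_hom {G : Type} [Group G] {χ : G → ℂ} {e : ℕ → G} {Fr : ℕ → Finset G}
    {ηr : ℕ → ℝ} (he : Function.Surjective e) (hη : ∀ r, 0 < ηr r) {U : Ultrafilter ℕ}
    {k m : ℕ → ℕ} (v : ∀ n, G → Matrix (Fin (k n)) (Fin (k n)) ℂ)
    (hm : Tendsto m (U : Filter ℕ) atTop) (hnorm : ∀ n g, ‖v n g‖ ≤ 1)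
    (hv : ∀ᶠ n in (U : Filter ℕ), Model χ e Fr ηr (m n) (k n) (v n)) :
    AHom χ k U v ∧ Modulus k U v := by
  have hlim : Tendsto (fun n : ℕ => 1 / ((m n : ℝ) + 1)) U (𝓝 0) :=
    tendsto_one_div_add_atTop_nhds_zero_nat.comp hm
  refine ⟨⟨hnorm, ?_, ?_, ?_⟩, ?_⟩
  · intro g h
    obtain ⟨i, rfl⟩ := he g
    obtain ⟨j, rfl⟩ := he h
    refine squeeze_zero' (Filter.Eventually.of_forall fun n => nn_nonneg _) ?_ hlim
    filter_upwards [hv, hm.eventually_ge_atTop i, hm.eventually_ge_atTop j] with n h1 h2 h3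
    exact h1.mul i h2 j h3
  · intro g
    obtain ⟨i, rfl⟩ := he g
    refine squeeze_zero' (Filter.Eventually.of_forall fun n => nn_nonneg _) ?_ hlim
    filter_upwards [hv, hm.eventually_ge_atTop i] with n h1 h2
    exact h1.unit i h2
  · intro g
    obtain ⟨i, rfl⟩ := he g
    rw [tendsto_iff_norm_sub_tendsto_zero]
    refine squeeze_zero' (Filter.Eventually.of_forall fun n => norm_nonneg _) ?_ hlim
    filter_upwards [hv, hm.eventually_ge_atTop i] with n h1 h2
    exact h1.tr i h2
  · intro r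
    refine ⟨Fr r, ηr r, hη r, ?_⟩
    filter_upwards [hv, hm.eventually_ge_atTop r] with n h1 h2
    exact h1.irr r h2

theorem pHas (hIrr : StIrr) : StHas := by
  intro G _ χ e Fr ηr he hη hmod
  classical
  choose k hk w hw using hmod
  constructor
  · refine ⟨k, hk, fun U hU => ?_⟩
    have hm : Tendsto (fun n : ℕ => n) (U : Filter ℕ) atTop := np_le_atTop hU
    obtain ⟨h1, h2⟩ := models_to_hom (U := U) (m := fun n => n) he hη w hm
      (fun n g => (hw n).norm g) (Filter.Eventually.of_forall fun n => hw n)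
    exact hIrr G χ k U w h1 h2
  · refine ⟨Set.range k, ?_, ?_⟩
    · refine Set.infinite_of_not_bddAbove ?_
      rintro ⟨B, hB⟩
      have h1 : k (B + 1) ≤ B := hB ⟨B + 1, rfl⟩
      have := hk (B + 1)
      omega
    · intro U hU hD
      have hex : ∀ n : ℕ, ∃ (m : ℕ) (v : G → Matrix (Fin n) (Fin n) ℂ), (∀ g, ‖v g‖ ≤ 1) ∧
          (n ∈ Set.range k → (Model χ e Fr ηr m n v ∧ k m = n)) := by
        intro n
        by_cases hn : n ∈ Set.range k
        · obtain ⟨m, rfl⟩ := hn
          exact ⟨m, w m, (hw m).norm, fun _ => ⟨hw m, rfl⟩⟩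
        · exact ⟨0, fun _ => 0, fun g => by simp, fun h => absurd h hn⟩
      choose m v hv0 hv using hex
      have hD' : ∀ᶠ n in (U : Filter ℕ), n ∈ Set.range k := hD
      have hm : ∀ M, ∀ᶠ n in (U : Filter ℕ), M ≤ m n := by
        intro M
        have h1 : ∀ᶠ n in (U : Filter ℕ), n ∈ (k '' (Set.Iio M))ᶜ :=
          hU _ ((Set.finite_Iio M).image k)
        filter_upwards [h1, hD'] with n h2 h3
        by_contra hcon
        push Not at hcon
        exact h2 ⟨m n, hcon, (hv n h3).2⟩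
      have hmt : Tendsto m U atTop := Filter.tendsto_atTop.2 hm
      have hv' : ∀ᶠ n in (U : Filter ℕ), Model χ e Fr ηr (m n) n (v n) := by
        filter_upwards [hD'] with n h3
        exact (hv n h3).1
      obtain ⟨h1, h2⟩ := models_to_hom (U := U) (k := fun n => n) he hη v hmt hv0 hv'
      exact hIrr G χ (fun n => n) U v h1 h2

end Helper61.IE
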