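import Pool.Agent.Helper61.IE.St
import Pool.Agent.Helper61.IE.Rnd0

/-!
# Rounding, second form
-/

namespace Helper61.IE

open Helper51.MU MeasureTheory Rnd0
open scoped Matrix.Norms.L2Operator MatrixOrder ComplexOrder

private lemma aux_sq {l p Q : ℝ} (hQ0 : 0 ≤ Q) (hQ1 : Q ≤ 1) (hl : 0 ≤ l) (hl1 : l ≤ 1)
    (hp : (p = 1 ∧ 1 / 4 < l) ∨ (p = 0 ∧ l ≤ 3 / 4)) :
    p - 2 * (p * Q) + Q ≤ 16 * (l ^ 2 - 2 * (l * Q) + Q) := by
  rcases hp with ⟨rfl, h⟩ | ⟨rfl, h⟩
  · nlinarith [mul_nonneg hQ0 (sub_nonneg.2 hl1), mul_nonneg (sub_nonneg.2 hQ1) (sub_nonneg.2 h.le),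
      mul_nonneg (mul_nonneg (sub_nonneg.2 hQ1) (sub_nonneg.2 h.le)) hl,
      mul_nonneg hQ0 (sq_nonneg (1 - l))]
  · have h1 : (1 / 4) ^ 2 ≤ (1 - l) ^ 2 := by
      apply pow_le_pow_left₀ (by norm_num)
      linarith
    nlinarith [mul_nonneg hQ0 (sub_nonneg.2 h1), mul_nonneg (sub_nonneg.2 hQ1) (sq_nonneg l)]

theorem pRound2 : StRound2 := by
  intro n _ _ ι F u a hu ha0 ha1
  obtain ⟨V, g, hV, rfl⟩ := exists_spec (herm_of_nonneg ha0)
  have hg0 : ∀ i, 0 ≤ g i := fun i => by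
    have := dg_nonneg (V := V) ha0 i
    rwa [dg_MM hV] at this
  have hg1 : ∀ i, g i ≤ 1 := fun i => by
    have := dg_le_one hV ha1 i
    rwa [dg_MM hV] at this
  obtain ⟨x, hx1, hx2, hx⟩ := exists_le_avg (t := 1 / 4) (s := 3 / 4) (by norm_num)
    (En_stp_int hV F u g (1 / 4) (3 / 4))
  have hle := int_En_stp_le hV F hu hg0 (t := 1 / 4) (s := 3 / 4) (by norm_num) (by norm_num)
  refine ⟨MM V (fun i => stp (g i) x), MM_pr hV fun i => stp_or _ _, ?_, ?_, ?_⟩
  · rw [MM_smul]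
    refine MM_mono fun i => ?_
    unfold stp
    split_ifs with h
    · linarith
    · linarith [hg0 i]
  · have e1 : 2 * (F.card : ℝ) * En F u (MM V g) * rt (MM V g) / (1 / 4) =
        8 * F.card * En F u (MM V g) * rt (MM V g) := by ring
    rw [e1] at hle
    linarith
  · intro q hq
    have hq0 : ∀ i, 0 ≤ dg V q i := dg_nonneg hq.nonneg
    have hq1 : ∀ i, dg V q i ≤ 1 := dg_le_one hV hq.le_one
    have key : ∀ f : n → ℝ, hs (MM V f - q) =
        ∑ i, (f i ^ 2 - 2 * (f i * dg V q i) + dg V q i) := by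
      intro f
      have h1 : hs (MM V f - q) = rt (MM V f * MM V f) - 2 * rt (MM V f * q) + rt q := by
        rw [hs_eq_rt, Matrix.conjTranspose_sub, MM_herm, hq.1, sub_mul, mul_sub, mul_sub, hq.2,
          rt_sub, rt_sub, rt_sub, rt_mul_comm q (MM V f)]
        ring
      rw [h1, MM_mul hV, rt_MM hV, rt_MM_mul, ← sum_dg hV q, Finset.mul_sum,
        ← Finset.sum_sub_distrib, ← Finset.sum_add_distrib]
      refine Finset.sum_congr rfl fun i _ => ?_
      ring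
    rw [key, key, Finset.mul_sum]
    refine Finset.sum_le_sum fun i _ => ?_
    have hst : (stp (g i) x = 1 ∧ 1 / 4 < g i) ∨ (stp (g i) x = 0 ∧ g i ≤ 3 / 4) := by
      unfold stp
      split_ifs with h
      · left; exact ⟨rfl, by linarith⟩
      · right
        push Not at h
        exact ⟨rfl, by linarith⟩
    have hs2 : stp (g i) x ^ 2 = stp (g i) x := by
      rcases stp_or (g i) x with h | h <;> rw [h] <;> norm_num
    rw [hs2]
    exact aux_sq (hq0 i) (hq1 i) (hg0 i) (hg1 i) hst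

end Helper61.IE
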