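import Pool.Agent.Helper61.IE.Lib

/-!
# Statements of the modules, part I (finite dimensional core)

Each module proves `theorem pX : StX`.  Unitary: `(u s)ᴴ * u s = 1`.
-/

namespace Helper61.IE

open Helper51.MU
open scoped Matrix.Norms.L2Operator MatrixOrder ComplexOrder

/-- Facts about the averaging operator. -/
structure TTFacts {n : Type} [Fintype n] [DecidableEq n] {ι : Type} (F : Finset ι)
    (u : ι → Matrix n n ℂ) : Prop where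
  nonneg : ∀ (k : ℕ) (y : Matrix n n ℂ), 0 ≤ y → 0 ≤ (TT F u ^ k) y
  one : ∀ k : ℕ, (TT F u ^ k) 1 = 1
  tr : ∀ (k : ℕ) (y : Matrix n n ℂ), rt ((TT F u ^ k) y) = rt y
  symm : ∀ (k : ℕ) (x y : Matrix n n ℂ), rt (x * (TT F u ^ k) y) = rt ((TT F u ^ k) x * y)
  star : ∀ (k : ℕ) (y : Matrix n n ℂ),
    ((TT F u ^ k) y).conjTranspose = (TT F u ^ k) y.conjTranspose
  norm : ∀ (k : ℕ) (y : Matrix n n ℂ), ‖(TT F u ^ k) y‖ ≤ ‖y‖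
  hs : ∀ (k : ℕ) (y : Matrix n n ℂ), hs ((TT F u ^ k) y) ≤ hs y

/-- Energy facts. -/
structure EnFacts {n : Type} [Fintype n] [DecidableEq n] {ι : Type} (F : Finset ι)
    (u : ι → Matrix n n ℂ) : Prop where
  eq : ∀ y : Matrix n n ℂ, En F u y = 4 * F.card * (Helper51.MU.hs y - rt (y.conjTranspose * TT F u y))
  pow : ∀ (k : ℕ) (y : Matrix n n ℂ),
    En F u ((TT F u ^ k) y) ≤ 4 * F.card * Helper51.MU.hs y / (2 * k + 1)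

/-- Facts about the resolvent `RR`. -/
structure RRFacts {n : Type} [Fintype n] [DecidableEq n] {ι : Type} (F : Finset ι)
    (u : ι → Matrix n n ℂ) : Prop where
  eqn : ∀ q : Matrix n n ℂ, (2 : ℝ) • RR F u q - TT F u (RR F u q) = q
  half : ∀ q : Matrix n n ℂ, 0 ≤ q → (1 / 2 : ℝ) • q ≤ RR F u q
  le_one : ∀ q : Matrix n n ℂ, 0 ≤ q → q ≤ 1 → RR F u q ≤ 1
  tr : ∀ q : Matrix n n ℂ, rt (RR F u q) = rt q
  conj : ∀ q : Matrix n n ℂ, 0 ≤ q → ∀ s ∈ F,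
    u s * RR F u q * (u s).conjTranspose ≤ (6 * F.card : ℝ) • RR F u q ∧
    (u s).conjTranspose * RR F u q * u s ≤ (6 * F.card : ℝ) • RR F u q
  dist : ∀ q : Matrix n n ℂ, Pr q → ∀ X : Matrix n n ℂ, ‖X‖ ≤ 1 →
    |rt (X * (RR F u q - q))| ≤ Real.sqrt (rt q * En F u q)

def StTT : Prop := ∀ (n : Type) [Fintype n] [DecidableEq n] (ι : Type) (F : Finset ι)
  (u : ι → Matrix n n ℂ), F.Nonempty → (∀ s, (u s).conjTranspose * u s = 1) → TTFacts F u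

def StEn : Prop := ∀ (n : Type) [Fintype n] [DecidableEq n] (ι : Type) (F : Finset ι)
  (u : ι → Matrix n n ℂ), F.Nonempty → (∀ s, (u s).conjTranspose * u s = 1) → TTFacts F u →
  EnFacts F u

def StRR : Prop := ∀ (n : Type) [Fintype n] [DecidableEq n] (ι : Type) (F : Finset ι)
  (u : ι → Matrix n n ℂ), F.Nonempty → (∀ s, (u s).conjTranspose * u s = 1) → TTFacts F u →
  RRFacts F u

/-- `½ G y G ≤ G - G' ≤ G y G`, `G = GG S`, `G' = GG (S + y)`. -/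
def StG2 : Prop := ∀ (n : Type) [Fintype n] [DecidableEq n] (S y : Matrix n n ℂ),
  0 ≤ S → 0 ≤ y → y ≤ 1 →
  (1 / 2 : ℝ) • (GG S * y * GG S) ≤ GG S - GG (S + y) ∧
    GG S - GG (S + y) ≤ GG S * y * GG S

def StLy : Prop := ∀ (n : Type) [Fintype n] [DecidableEq n] (A B : Matrix n n ℂ),
  0 ≤ A → 0 ≤ B → 0 ≤ Ly A B ∧
  (∀ y : Matrix n n ℂ, 0 ≤ y → y ≤ 1 → Ly (A + y) (B + y) ≤
    Ly A B - 1 / 2 * rt (y * (GG B - GG A) * (GG B - GG A))) ∧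
  (∀ (B' : Matrix n n ℂ) (C N : ℝ), 0 ≤ B' → 0 ≤ C → 1 + A ≤ C • (1 + B) →
    1 + A ≤ C • (1 + B') → (∀ X : Matrix n n ℂ, ‖X‖ ≤ 1 → |rt (X * (B' - B))| ≤ N) →
    Ly A B' ≤ Ly A B + (C + 2) * N)

def StPotA : Prop := ∀ (n : Type) [Fintype n] [DecidableEq n] (S q : Matrix n n ℂ),
  0 ≤ S → Pr q → PotE (1 - GG (S + q)) ≤ PotE (1 - GG S) - rt (q * (1 - GG S)) +
    100 * rt (q * (1 - GG S) * (1 - GG S))

def StPotB : Prop := ∀ (n : Type) [Fintype n] [DecidableEq n],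
  (∀ (S q y : Matrix n n ℂ) (N : ℝ), 0 ≤ S → 0 ≤ q → 0 ≤ y →
    (∀ X : Matrix n n ℂ, ‖X‖ ≤ 1 → |rt (X * (y - q))| ≤ N) →
    PotE (1 - GG (S + y)) ≤ PotE (1 - GG (S + q)) + 21 * N) ∧
  (∀ H : Matrix n n ℂ, 0 ≤ H → 0 ≤ PotE H) ∧ PotE (0 : Matrix n n ℂ) = 0

/-- Rounding, first form: a linear functional `Tr(· X)`, `X ≤ 1`, bounded on the spectral
projections of `a` above the level `t` is bounded at `a`. -/
def StRound1 : Prop := ∀ (n : Type) [Fintype n] [DecidableEq n] (ι : Type) (F : Finset ι)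
  (u : ι → Matrix n n ℂ) (a X r : Matrix n n ℂ) (t B c : ℝ),
  (∀ s, (u s).conjTranspose * u s = 1) → 0 ≤ a → a ≤ 1 → X.conjTranspose = X → X ≤ 1 →
  0 ≤ r → r ≤ 1 → 0 < t → t < 1 → 0 ≤ B → 0 ≤ c →
  (∀ p : Matrix n n ℂ, Pr p → t • p ≤ a → rt (p * X) ≤ B + c * En F u p) →
  rt (a * X) ≤ t * rt r + rt (a * (1 - r)) + B +
    c * Real.sqrt (2 * F.card * En F u a * rt a / t)

/-- Rounding, second form. -/
def StRound2 : Prop := ∀ (n : Type) [Fintype n] [DecidableEq n] (ι : Type) (F : Finset ι)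
  (u : ι → Matrix n n ℂ) (a : Matrix n n ℂ),
  (∀ s, (u s).conjTranspose * u s = 1) → 0 ≤ a → a ≤ 1 →
  ∃ p : Matrix n n ℂ, Pr p ∧ p ≤ (4 : ℝ) • a ∧
    En F u p ≤ 2 * Real.sqrt (8 * F.card * En F u a * rt a) ∧
    ∀ q : Matrix n n ℂ, Pr q → hs (p - q) ≤ 16 * hs (a - q)

def StRange : Prop := ∀ (n : Type) [Fintype n] [DecidableEq n] (X q : Matrix n n ℂ), Pr q →
  ∃ r : Matrix n n ℂ, Pr r ∧ r * (X * q) = X * q ∧ rt r ≤ rt q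

def StSand : Prop := ∀ (n : Type) [Fintype n] [DecidableEq n] (v G q z : Matrix n n ℂ),
  v.conjTranspose * v = 1 → 0 ≤ G → G ≤ 1 → Pr q → 0 ≤ z → z ≤ q →
  hs (v * (G * z * G) - G * z * G * v) ≤
    6 * rt (q * (G - v * G * v.conjTranspose) * (G - v * G * v.conjTranspose)) +
      3 * hs (v * z - z * v)

/-- Perturbation of `y = (1-H) z (1-H)` (of rank at most `Tr q`) to a positive `a` with the same
trace. -/
def StPert : Prop := ∀ (n : Type) [Fintype n] [DecidableEq n] (H q z a : Matrix n n ℂ) (ζ : ℝ),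
  0 ≤ H → H ≤ 1 → Pr q → 0 ≤ z → z ≤ q → 0 ≤ a → rt a = rt ((1 - H) * z * (1 - H)) → 0 ≤ ζ →
  hs (a - (1 - H) * z * (1 - H)) ≤ ζ ^ 2 * rt q →
  ∃ r : Matrix n n ℂ, Pr r ∧ rt r ≤ rt q ∧ rt (a * (1 - r)) ≤ ζ * rt q ∧
    rt (a * H) ≤ rt ((1 - H) * z * (1 - H) * H) + 4 * ζ * rt q

def StGam : Prop := ∀ (n : Type) [Fintype n] [DecidableEq n] (H z : Matrix n n ℂ) (Λ : ℝ),
  0 ≤ H → H ≤ 1 → 0 ≤ z → 0 ≤ Λ →
  Gam Λ H z - 2 * rt (z * H) + Λ * rt (z * H * H) ≤ Gam Λ H ((1 - H) * z * (1 - H))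

/-- Random signs. -/
def StSign : Prop := ∀ (n : Type) [Fintype n] [DecidableEq n] (ι : Type) (F S : Finset ι)
  (u : ι → Matrix n n ℂ) (K δ : ℝ) (k : ℕ) (I : Finset ℕ) (y : ℕ → Matrix n n ℂ),
  0 ≤ K → 0 ≤ δ → TTFacts F u →
  (∀ x : Matrix n n ℂ, x.conjTranspose = x → ‖x‖ ≤ 1 →
    hs (x - (TT F u ^ k) x) ≤ K * En S u x + δ * Fintype.card n) →
  (∀ i ∈ I, 0 ≤ y i) → ∑ i ∈ I, y i ≤ (4 : ℝ) • 1 →
  ∑ i ∈ I, (hs (y i - (TT F u ^ k) (y i)) - K * En S u (y i)) ≤ 16 * δ * Fintype.card n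

def StGreedy : Prop := ∀ (n : Type) [Fintype n] [DecidableEq n] (ι : Type) (F : Finset ι)
  (u : ι → Matrix n n ℂ) (ε Λ : ℝ), F.Nonempty → (∀ s, (u s).conjTranspose * u s = 1) →
  RRFacts F u → 0 < ε → 4 ≤ Λ → ∃ (q : ℕ → Matrix n n ℂ) (N : ℕ), Greedy F u ε Λ q N

/-- First sums along the greedy process. -/
def StSumA : Prop := ∀ (n : Type) [Fintype n] [DecidableEq n] [Nonempty n] (ι : Type)
  (F : Finset ι) (u : ι → Matrix n n ℂ) (ε Λ : ℝ) (q : ℕ → Matrix n n ℂ) (N : ℕ),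
  F.Nonempty → (∀ s, (u s).conjTranspose * u s = 1) → RRFacts F u → 0 < ε → 4 ≤ Λ →
  Greedy F u ε Λ q N →
  ∑ i ∈ Finset.range N, Gi F u q i * q i * Gi F u q i ≤ (4 : ℝ) • 1 ∧
  (Fintype.card n : ℝ) ≤ Λ * ∑ i ∈ Finset.range N, rt (q i)

/-- Lyapunov sum: approximate invariance of `G_i` near `q_i`. -/
def StSumL : Prop := ∀ (n : Type) [Fintype n] [DecidableEq n] (ι : Type)
  (F : Finset ι) (u : ι → Matrix n n ℂ) (ε : ℝ) (q : ℕ → Matrix n n ℂ) (N : ℕ),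
  F.Nonempty → (∀ s, (u s).conjTranspose * u s = 1) → RRFacts F u → 0 < ε →
  (∀ i < N, QQ F u ε (q i)) → ∀ s ∈ F,
  ∑ i ∈ Finset.range N, rt (q i * (Gi F u q i - u s * Gi F u q i * (u s).conjTranspose) *
      (Gi F u q i - u s * Gi F u q i * (u s).conjTranspose)) ≤
    128 * F.card * Real.sqrt ε * ∑ i ∈ Finset.range N, rt (q i)

/-- Potential sum. -/
def StSumP : Prop := ∀ (n : Type) [Fintype n] [DecidableEq n] (ι : Type)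
  (F : Finset ι) (u : ι → Matrix n n ℂ) (ε : ℝ) (q : ℕ → Matrix n n ℂ) (N : ℕ),
  F.Nonempty → (∀ s, (u s).conjTranspose * u s = 1) → RRFacts F u → 0 < ε →
  (∀ i < N, QQ F u ε (q i)) →
  ∑ i ∈ Finset.range N, rt (q i * Hi F u q i) ≤
    100 * ∑ i ∈ Finset.range N, rt (q i * Hi F u q i * Hi F u q i) +
    21 * Real.sqrt ε * ∑ i ∈ Finset.range N, rt (q i)

/-- The stage inequality. -/
def StStage : Prop := ∀ (n : Type) [Fintype n] [DecidableEq n] (ι : Type) (F : Finset ι)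
  (u : ι → Matrix n n ℂ) (H q z e : Matrix n n ℂ) (ε : ℝ) (k : ℕ),
  F.Nonempty → (∀ s, (u s).conjTranspose * u s = 1) → 0 < ε → 0 ≤ H → H ≤ 1 →
  QQ F u ε q → 0 < Gam (10 ^ 20) H q →
  (∀ p, QQ F u ε p → Gam (10 ^ 20) H p * rt q ^ 2 ≤ Gam (10 ^ 20) H q * rt p ^ 2) →
  F.card * Real.sqrt (80000 / (2 * k + 1)) ≤ ε / 10 ^ 6 →
  0 ≤ z → z ≤ q → Pr e → hs (z - e) ≤ (3 / 10 ^ 9) ^ 2 * rt q →
  rt z ≤ rt e + 3 / 10 ^ 9 * rt q → rt e ≤ 101 / 100 * rt q →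
  hs ((1 - H) * z * (1 - H) - (TT F u ^ k) ((1 - H) * z * (1 - H))) ≤
    (1 / 10 ^ 26) ^ 2 * rt q →
  Gam (10 ^ 20) H z + 10 ^ 20 * rt (z * H * H) ≤
    Gam (10 ^ 20) H q * (rt e / rt q + 1 / 10 ^ 4) ^ 2 + 11 / 10 ^ 5 * rt q

/-- Typical energy bound. -/
def StTyp : Prop := ∀ (n : Type) [Fintype n] [DecidableEq n] (ι : Type) (F S : Finset ι)
  (u : ι → Matrix n n ℂ) (H q z : Matrix n n ℂ) (K : ℝ) (k : ℕ),
  (∀ s, (u s).conjTranspose * u s = 1) → 1 ≤ K → 0 ≤ H → H ≤ 1 → Pr q → 0 ≤ z → z ≤ q →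
  hs ((1 - H) * z * (1 - H) - (TT F u ^ k) ((1 - H) * z * (1 - H))) -
    K * En S u ((1 - H) * z * (1 - H)) ≤ (1 / 10 ^ 26) ^ 2 / 4 * rt q →
  6 * K * ∑ s ∈ S, rt (q * ((1 - H) - u s * (1 - H) * (u s).conjTranspose) *
      ((1 - H) - u s * (1 - H) * (u s).conjTranspose)) ≤ (1 / 10 ^ 26) ^ 2 / 4 * rt q →
  3 * K * En S u z ≤ (1 / 10 ^ 26) ^ 2 / 2 * rt q →
  hs ((1 - H) * z * (1 - H) - (TT F u ^ k) ((1 - H) * z * (1 - H))) ≤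
    (1 / 10 ^ 26) ^ 2 * rt q

/-- From a typical `q` to an irreducible block `p`. -/
def StBlock : Prop := ∀ (n : Type) [Fintype n] [DecidableEq n] (ι : Type) (F S : Finset ι)
  (u : ι → Matrix n n ℂ) (H q : Matrix n n ℂ) (ε ε' K : ℝ) (k : ℕ),
  F.Nonempty → S ⊆ F → (∀ s, (u s).conjTranspose * u s = 1) → 0 < ε → 0 < ε' → 1 ≤ K →
  ε * K ≤ 1 / 10 ^ 55 → 0 ≤ H → H ≤ 1 →
  QQ F u ε q → rt q / 2 ≤ Gam (10 ^ 20) H q →
  (∀ p, QQ F u ε p → Gam (10 ^ 20) H p * rt q ^ 2 ≤ Gam (10 ^ 20) H q * rt p ^ 2) →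
  F.card * Real.sqrt (80000 / (2 * k + 1)) ≤ ε / 10 ^ 6 →
  4 * F.card * Real.sqrt (32 / (2 * k + 1)) ≤ ε' →
  (∀ z : Matrix n n ℂ, 0 ≤ z → z ≤ q →
    hs ((1 - H) * z * (1 - H) - (TT F u ^ k) ((1 - H) * z * (1 - H))) -
      K * En S u ((1 - H) * z * (1 - H)) ≤ (1 / 10 ^ 26) ^ 2 / 4 * rt q) →
  6 * K * ∑ s ∈ S, rt (q * ((1 - H) - u s * (1 - H) * (u s).conjTranspose) *
      ((1 - H) - u s * (1 - H) * (u s).conjTranspose)) ≤ (1 / 10 ^ 26) ^ 2 / 4 * rt q →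
  ∃ p : Matrix n n ℂ, Pr p ∧ p ≤ (4 : ℝ) • (TT F u ^ k) ((1 - H) * q * (1 - H)) ∧
    En F u p ≤ ε' * rt p ∧ rt q / 2 ≤ rt p ∧
    ∀ e : Matrix n n ℂ, Pr e → p * e = e → 3 / 10 * rt p ≤ rt e → rt e ≤ 7 / 10 * rt p →
      1 / 10 ^ 54 / K * rt p < En S u e

/-- The finite dimensional core. -/
def StCore : Prop := ∀ (g : ℕ) (K ε : ℝ), 0 < g → 1 ≤ K → 0 < ε → ∃ k : ℕ,
  ∀ (n : Type) [Fintype n] [DecidableEq n] [Nonempty n] (ι : Type) (F S : Finset ι)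
    (u : ι → Matrix n n ℂ), F.card = g → S ⊆ F → (∀ s, (u s).conjTranspose * u s = 1) →
    (∀ x : Matrix n n ℂ, x.conjTranspose = x → ‖x‖ ≤ 1 →
      hs (x - (TT F u ^ k) x) ≤ K * En S u x + 1 / 10 ^ 78 * Fintype.card n) →
    ∃ (I : Finset ℕ) (p : ℕ → Matrix n n ℂ),
      (∀ i ∈ I, Pr (p i) ∧ p i ≠ 0 ∧ En F u (p i) ≤ ε * rt (p i) ∧
        ∀ e : Matrix n n ℂ, Pr e → p i * e = e → 3 / 10 * rt (p i) ≤ rt e →
          rt e ≤ 7 / 10 * rt (p i) → 1 / 10 ^ 54 / K * rt (p i) < En S u e) ∧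
      ∑ i ∈ I, p i ≤ (16 : ℝ) • 1 ∧
      1 / 10 ^ 21 * (Fintype.card n : ℝ) ≤ ∑ i ∈ I, rt (p i)

end Helper61.IE
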